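import Pool.Agent.Work.MP_a1f430_ti.Interface3

set_option autoImplicit false

namespace Pool.TIA

open MeasureTheory Set Filter Topology
open scoped ContDiff ENNReal

theorem LFN_wdg {𝔐 : Type} [NormedRing 𝔐] [NormedAlgebra ℝ 𝔐] {m : ℕ} {E : Type}
    [NormedAddCommGroup E] [NormedSpace ℝ E] (Ω : E [⋀^Fin m]→L[ℝ] ℝ) (F : E [⋀^Fin 2]→L[ℝ] 𝔐)
    (l : 𝔐 →L[ℝ] ℝ) (v : Fin m ⊕ Fin 2 → E) :
    wdg Ω (l.compContinuousAlternatingMap F) v = l (wdg Ω F v) := by
  unfold wdg
  rw [AlternatingMap.domCoprod_apply, AlternatingMap.domCoprod_apply]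
  simp only [_root_.sum_apply, map_sum]
  refine Finset.sum_congr rfl fun σ _ => ?_
  induction σ using Quotient.inductionOn' with
  | h σ =>
    simp only [AlternatingMap.domCoprod.summand_mk'', _root_.smul_apply,
      MultilinearMap.domDomCongr_apply, MultilinearMap.domCoprod_apply]
    rcases Int.units_eq_one_or (Equiv.Perm.sign σ) with h | h
    · rw [h]
      simp
    · rw [h]
      simp

theorem p_LFN : Stmt_LFN := by
  intro 𝔐 _ _ m h Ω F l hS e he
  rw [LFN_wdg, hS e he]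
  rfl

end Pool.TIA
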