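import Pool.Agent.Work.MP_a1f430_ti.Interface

/-! # Block MOA (MP_a1f430, THEOREM TR) -/

set_option autoImplicit false

namespace Pool.TIA

open MeasureTheory Set Filter Topology
open scoped ContDiff ENNReal

section MOA

variable {E X : Type} [NormedAddCommGroup E] [NormedSpace ℝ E] [FiniteDimensional ℝ E]
    [MeasureSpace E] [BorelSpace E] [(volume : Measure E).IsAddHaarMeasure]
    [NormedAddCommGroup X] [NormedSpace ℝ X] [FiniteDimensional ℝ X]

/-- The bilinear map of the convolution. -/
noncomputable def moaL (X : Type) [NormedAddCommGroup X] [NormedSpace ℝ X] : X →L[ℝ] ℝ →L[ℝ] X :=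
  (ContinuousLinearMap.lsmul ℝ ℝ).flip

omit [FiniteDimensional ℝ X] [BorelSpace E] [(volume : Measure E).IsAddHaarMeasure] in
theorem mol_eq_conv (j : ℕ) (f : E → X) :
    mol j f = convolution f ((bmp E j).normed volume) (moaL X) volume := by
  funext x
  rfl

theorem moa_test (j : ℕ) (x : E) (W : Set E)
    (h : Metric.closedBall x (1 / ((j : ℝ) + 2)) ⊆ W) :
    Test W (fun y => (bmp E j).normed volume (x - y)) := by
  have hts : tsupport (fun y : E => (bmp E j).normed volume (x - y)) ⊆
      Metric.closedBall x (1 / ((j : ℝ) + 2)) := by
    apply closure_minimal _ Metric.isClosed_closedBall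
    intro y hy
    have hy' : x - y ∈ Function.support ((bmp E j).normed volume) := hy
    rw [ContDiffBump.support_normed_eq] at hy'
    rw [Metric.mem_ball, dist_zero_right] at hy'
    rw [Metric.mem_closedBall, dist_eq_norm, ← norm_neg, neg_sub]
    exact hy'.le
  refine ⟨?_, ?_, hts.trans h⟩
  · exact (bmp E j).contDiff_normed.comp (contDiff_const.sub contDiff_id)
  · exact HasCompactSupport.of_support_subset_isCompact (isCompact_closedBall x _)
      ((subset_tsupport _).trans hts)

omit [FiniteDimensional ℝ X] in
theorem moa_int (j : ℕ) (f : E → X) (hf : LocallyIntegrable f) (x : E) :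
    Integrable (fun y => (bmp E j).normed volume (x - y) • f y) := by
  have h := (bmp E j).hasCompactSupport_normed (μ := volume)
  exact h.convolutionExists_right (moaL X) hf (bmp E j).continuous_normed x

end MOA

theorem p_MOA : Stmt_MOA := by
  intro E X _ _ _ _ _ _ _ _ _ j
  refine ⟨fun x W _ h => moa_test j x W h, ?_⟩
  intro f hf
  have hcs := (bmp E j).hasCompactSupport_normed (μ := (volume : Measure E))
  refine ⟨?_, ?_, ?_, ?_, ?_⟩
  · rw [mol_eq_conv]
    exact hcs.contDiff_convolution_right (moaL X) hf (bmp E j).contDiff_normed
  · intro x v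
    have h1 := hcs.hasFDerivAt_convolution_right (moaL X) hf
      ((bmp E j).contDiff_normed (n := 1)) x
    rw [mol_eq_conv, h1.fderiv]
    have hd : Continuous (fderiv ℝ ((bmp E j).normed (volume : Measure E))) :=
      ((bmp E j).contDiff_normed (n := 1)).continuous_fderiv one_ne_zero
    have hex := (hcs.fderiv ℝ).convolutionExists_right
      (ContinuousLinearMap.precompR E (moaL X)) hf hd x
    have hap : (convolution f (fderiv ℝ ((bmp E j).normed volume))
        (ContinuousLinearMap.precompR E (moaL X)) volume x) v =
        ∫ y, ((ContinuousLinearMap.precompR E (moaL X)) (f y)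
          (fderiv ℝ ((bmp E j).normed volume) (x - y))) v := by
      rw [convolution, ContinuousLinearMap.integral_apply hex]
    rw [hap, ← integral_neg]
    apply integral_congr_ae
    filter_upwards with y
    have hdif : HasFDerivAt ((bmp E j).normed (volume : Measure E))
        (fderiv ℝ ((bmp E j).normed volume) (x - y)) (x - y) :=
      (((bmp E j).contDiff_normed (n := 1)).differentiable one_ne_zero _).hasFDerivAt
    have hc : HasFDerivAt (fun z : E => x - z) (-(ContinuousLinearMap.id ℝ E)) y :=
      (hasFDerivAt_id y).const_sub x
    have h2 := hdif.comp y hc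
    have h3 : fderiv ℝ (fun z => (bmp E j).normed volume (x - z)) y =
        (fderiv ℝ ((bmp E j).normed volume) (x - y)).comp (-(ContinuousLinearMap.id ℝ E)) :=
      h2.fderiv
    rw [h3]
    simp [ContinuousLinearMap.precompR, moaL]
  · intro h
    rw [mol_eq_conv]
    exact HasCompactSupport.convolution (moaL X) h hcs
  · intro S hS x
    obtain ⟨S', hS'⟩ := S.exists_isCompl
    set P : X →L[ℝ] S' := LinearMap.toContinuousLinearMap (S'.projectionOnto S hS'.symm) with hP
    have hker : ∀ z : X, P z = 0 ↔ z ∈ S := by
      intro z
      rw [← Submodule.ker_projectionOnto hS'.symm, LinearMap.mem_ker]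
      rfl
    rw [← hker]
    have h := P.integral_comp_comm (moa_int j f hf x)
    rw [mol, ← h]
    apply integral_eq_zero_of_ae
    filter_upwards [hS] with y hy
    rw [map_smul, (hker _).2 hy, smul_zero]
    rfl
  · intro C hC x
    have h := norm_integral_le_of_norm_le
      (f := fun y => (bmp E j).normed volume (x - y) • f y)
      (g := fun y => (bmp E j).normed volume (x - y) * C) (μ := (volume : Measure E)) ?_ ?_
    · refine h.trans (le_of_eq ?_)
      rw [integral_mul_const, integral_sub_left_eq_self (fun y => (bmp E j).normed volume y),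
        ContDiffBump.integral_normed, one_mul]
    · apply Integrable.mul_const
      have h0 := (bmp E j).integrable_normed (μ := (volume : Measure E))
      exact h0.comp_sub_left x
    · filter_upwards [hC] with y hy
      rw [norm_smul, Real.norm_eq_abs, abs_of_nonneg ((bmp E j).nonneg_normed _)]
      exact mul_le_mul_of_nonneg_left hy ((bmp E j).nonneg_normed _)

end Pool.TIA
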