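import Pool.Agent.Work.MP_a1f430_ti.Interface

/-! Block CLC (helper69): curvatures pass to the limit. -/

set_option autoImplicit false

namespace Pool.TIA

open MeasureTheory Set Filter Topology
open scoped ContDiff ENNReal

theorem CLC_int {E X : Type} [NormedAddCommGroup E] [MeasureSpace E] [BorelSpace E]
    [IsFiniteMeasureOnCompacts (volume : Measure E)] [NormedAddCommGroup X]
    (K : Set E) (hK : IsCompact K) (f : E → X) (hf : ContinuousOn f K) (hs : ∀ x, x ∉ K → f x = 0) :
    Integrable f := by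
  rw [← integrableOn_iff_integrable_of_support_subset (s := K)]
  · exact hf.integrableOn_compact hK
  · intro x hx
    by_contra h
    exact hx (hs x h)

theorem CLC_ibp {E X : Type} [NormedAddCommGroup E] [NormedSpace ℝ E] [FiniteDimensional ℝ E]
    [MeasureSpace E] [BorelSpace E] [(volume : Measure E).IsAddHaarMeasure]
    [NormedAddCommGroup X] [NormedSpace ℝ X] (φ : E → ℝ) (hφ : ContDiff ℝ ∞ φ)
    (hc : HasCompactSupport φ) (O : Set E) (hO : IsOpen O) (hs : tsupport φ ⊆ O) (G : E → X)
    (hG : ContDiffOn ℝ 1 G O) (u : E) :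
    ∫ x in tsupport φ, φ x • fderiv ℝ G x u = -∫ x in tsupport φ, fderiv ℝ φ x u • G x := by
  have hK : IsCompact (tsupport φ) := hc
  have hdφ : Continuous (fderiv ℝ φ) := hφ.continuous_fderiv (by simp)
  have h0 : ∀ x, x ∉ tsupport φ → φ x = 0 := fun x hx => image_eq_zero_of_notMem_tsupport hx
  have h0' : ∀ x, x ∉ tsupport φ → fderiv ℝ φ x = 0 := fun x hx => by
    have := support_fderiv_subset ℝ (f := φ)
    by_contra h
    exact hx (this h)
  have hGc : ContinuousOn G (tsupport φ) := hG.continuousOn.mono hs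
  have hGd : ContinuousOn (fderiv ℝ G) (tsupport φ) :=
    (hG.continuousOn_fderiv_of_isOpen hO le_rfl).mono hs
  have h1 := integral_bilinear_hasFDerivAt_right_eq_neg_left_of_integrable (μ := volume)
    (f := φ) (f' := fderiv ℝ φ) (g := G) (g' := fderiv ℝ G) (v := u)
    (B := ContinuousLinearMap.lsmul ℝ ℝ) ?_ ?_ ?_ ?_ ?_
  · simp only [ContinuousLinearMap.lsmul_apply] at h1
    rw [setIntegral_eq_integral_of_forall_compl_eq_zero (fun x hx => by rw [h0 x hx, zero_smul]),
      setIntegral_eq_integral_of_forall_compl_eq_zero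
        (fun x hx => by rw [h0' x hx]; simp), h1]
  · refine CLC_int _ hK _ ?_ ?_
    · simp only [ContinuousLinearMap.lsmul_apply]
      exact ((hdφ.clm_apply continuous_const).continuousOn).smul hGc
    · intro x hx
      rw [h0' x hx]
      simp
  · refine CLC_int _ hK _ ?_ ?_
    · simp only [ContinuousLinearMap.lsmul_apply]
      exact (hφ.continuous.continuousOn).smul (hGd.clm_apply continuousOn_const)
    · intro x hx
      rw [h0 x hx]
      simp
  · refine CLC_int _ hK _ ?_ ?_
    · simp only [ContinuousLinearMap.lsmul_apply]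
      exact (hφ.continuous.continuousOn).smul hGc
    · intro x hx
      rw [h0 x hx]
      simp
  · intro x _
    exact (hφ.differentiable (by simp) x).hasFDerivAt
  · intro x hx
    exact ((hG.differentiableOn (by simp)).differentiableAt (hO.mem_nhds (hs hx))).hasFDerivAt

theorem CLC_lim {α X : Type} [MeasurableSpace α] [NormedAddCommGroup X] [NormedSpace ℝ X]
    (μ : Measure α) (c : α → ℝ) (C : ℝ) (hc : AEStronglyMeasurable c μ) (hC : ∀ x, ‖c x‖ ≤ C)
    (G : ℕ → α → X) (g : α → X) (hG : ∀ j, Integrable (G j) μ) (hg : Integrable g μ)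
    (h : Tendsto (fun j => eLpNorm (fun x => G j x - g x) 1 μ) atTop (𝓝 0)) :
    Tendsto (fun j => ∫ x, c x • G j x ∂μ) atTop (𝓝 (∫ x, c x • g x ∂μ)) := by
  refine tendsto_integral_of_L1' (fun x => c x • g x) ?_ (F := fun j x => c x • G j x) ?_ ?_
  · exact (hg.bdd_smul C hc (Eventually.of_forall hC)).1
  · exact Eventually.of_forall fun j => (hG j).bdd_smul C hc (Eventually.of_forall hC)
  · have h1 : ∀ j, eLpNorm ((fun x => c x • G j x) - fun x => c x • g x) 1 μ ≤
        ENNReal.ofReal C * eLpNorm (fun x => G j x - g x) 1 μ := by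
      intro j
      refine eLpNorm_le_mul_eLpNorm_of_ae_le_mul (Eventually.of_forall fun x => ?_) 1
      simp only [Pi.sub_apply]
      rw [← smul_sub, norm_smul]
      exact mul_le_mul_of_nonneg_right (hC x) (norm_nonneg _)
    have h2 := ENNReal.Tendsto.const_mul h (a := ENNReal.ofReal C) (Or.inr ENNReal.ofReal_ne_top)
    rw [mul_zero] at h2
    exact tendsto_of_tendsto_of_tendsto_of_le_of_le tendsto_const_nhds h2 (fun _ => zero_le) h1

theorem CLC_prod {α R : Type} [MeasurableSpace α] [NormedRing R] (μ : Measure α)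
    (a b : ℕ → α → R) (a0 b0 : α → R) (ha : ∀ j, MemLp (a j) 2 μ) (hb : ∀ j, MemLp (b j) 2 μ)
    (ha0 : MemLp a0 2 μ) (hb0 : MemLp b0 2 μ)
    (h1 : Tendsto (fun j => eLpNorm (fun x => a j x - a0 x) 2 μ) atTop (𝓝 0))
    (h2 : Tendsto (fun j => eLpNorm (fun x => b j x - b0 x) 2 μ) atTop (𝓝 0)) :
    Tendsto (fun j => eLpNorm (fun x => a j x * b j x - a0 x * b0 x) 1 μ) atTop (𝓝 0) := by
  have key : ∀ f g : α → R, MemLp f 2 μ → MemLp g 2 μ →
      eLpNorm (fun x => f x * g x) 1 μ ≤ eLpNorm f 2 μ * eLpNorm g 2 μ := by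
    intro f g hf hg
    have := eLpNorm_le_eLpNorm_mul_eLpNorm'_of_norm (p := 2) (q := 2) (r := 1) hf.1 hg.1
      (fun x y : R => x * y) 1 (Eventually.of_forall fun x => by
        simp only [NNReal.coe_one, one_mul]
        exact norm_mul_le _ _)
    simpa using this
  have hle : ∀ j, eLpNorm (fun x => a j x * b j x - a0 x * b0 x) 1 μ ≤
      eLpNorm (fun x => a j x - a0 x) 2 μ * (eLpNorm (fun x => b j x - b0 x) 2 μ + eLpNorm b0 2 μ) +
      eLpNorm a0 2 μ * eLpNorm (fun x => b j x - b0 x) 2 μ := by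
    intro j
    have e1 : (fun x => a j x * b j x - a0 x * b0 x) =
        (fun x => (a j x - a0 x) * b j x) + fun x => a0 x * (b j x - b0 x) := by
      funext x
      simp only [Pi.add_apply]
      noncomm_ring
    have m1 : MemLp (fun x => a j x - a0 x) 2 μ := (ha j).sub ha0
    have m2 : MemLp (fun x => b j x - b0 x) 2 μ := (hb j).sub hb0
    rw [e1]
    refine (eLpNorm_add_le (m1.1.mul (hb j).1) (ha0.1.mul m2.1) le_rfl).trans ?_
    refine add_le_add ?_ (key _ _ ha0 m2)
    refine (key _ _ m1 (hb j)).trans ?_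
    refine mul_le_mul_right ?_ _
    have e2 : b j = (fun x => b j x - b0 x) + b0 := by
      funext x
      simp
    calc eLpNorm (b j) 2 μ = eLpNorm ((fun x => b j x - b0 x) + b0) 2 μ := by rw [← e2]
      _ ≤ _ := eLpNorm_add_le m2.1 hb0.1 (by norm_num)
  have hlim : Tendsto (fun j => eLpNorm (fun x => a j x - a0 x) 2 μ *
      (eLpNorm (fun x => b j x - b0 x) 2 μ + eLpNorm b0 2 μ) +
      eLpNorm a0 2 μ * eLpNorm (fun x => b j x - b0 x) 2 μ) atTop (𝓝 0) := by
    have t1 := h2.add_const (eLpNorm b0 2 μ)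
    have t2 := ENNReal.Tendsto.mul h1 (Or.inr (by simpa using hb0.2.ne)) t1
      (Or.inr (by simp))
    have t3 := ENNReal.Tendsto.const_mul h2 (a := eLpNorm a0 2 μ) (Or.inr ha0.2.ne)
    have t4 := t2.add t3
    simpa using t4
  exact tendsto_of_tendsto_of_tendsto_of_le_of_le tendsto_const_nhds hlim (fun _ => zero_le) hle

theorem p_CLC : Stmt_CLC := by
  intro 𝔐 _ _ _ _ _ _ E _ _ _ _ _ _ W A F hW hA hF hK φ hφ u v
  have hKc : IsCompact (tsupport φ) := hφ.cpt
  obtain ⟨O, B, hO, hKO, hB, hBA, hBF⟩ := hK (tsupport φ) hKc hφ.sub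
  set K := tsupport φ with hKdef
  set μ : Measure E := volume.restrict K with hμ
  have hfin : IsFiniteMeasure μ := ⟨by rw [hμ]; simpa using hKc.measure_lt_top⟩
  have hφc : Continuous φ := hφ.smooth.continuous
  have hdφ : Continuous (fderiv ℝ φ) := hφ.smooth.continuous_fderiv (by simp)
  have h0 : ∀ x, x ∉ K → φ x = 0 := fun x hx => image_eq_zero_of_notMem_tsupport hx
  have h0' : ∀ x, x ∉ K → fderiv ℝ φ x = 0 := fun x hx => by
    have := support_fderiv_subset ℝ (f := φ)
    by_contra h
    exact hx (this h)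
  obtain ⟨C0, hC0⟩ := hφ.cpt.exists_bound_of_continuous hφc
  obtain ⟨C1, hC1⟩ := (hφ.cpt.fderiv ℝ).exists_bound_of_continuous hdφ
  have hC1' : ∀ w x, ‖fderiv ℝ φ x w‖ ≤ C1 * ‖w‖ := fun w x =>
    ((fderiv ℝ φ x).le_opNorm w).trans (mul_le_mul_of_nonneg_right (hC1 x) (norm_nonneg _))
  have hAK : MemLp A 2 μ := hA K hKc hφ.sub
  have hFK : MemLp F 2 μ := hF K hKc hφ.sub
  have hBK : ∀ j, MemLp (B j) 2 μ := fun j => by
    have hc := (hB j).continuousOn.mono hKO
    obtain ⟨C, hC⟩ := hKc.exists_bound_of_continuousOn hc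
    exact MemLp.of_bound (hc.aestronglyMeasurable_of_isCompact hKc hKc.measurableSet) C
      ((ae_restrict_mem hKc.measurableSet).mono hC)
  have hAw : ∀ w, MemLp (fun x => A x w) 2 μ := fun w =>
    (ContinuousLinearMap.apply ℝ 𝔐 w).comp_memLp' hAK
  have hBw : ∀ w j, MemLp (fun x => B j x w) 2 μ := fun w j =>
    (ContinuousLinearMap.apply ℝ 𝔐 w).comp_memLp' (hBK j)
  have hFuv : Integrable (fun x => F x ![u, v]) μ :=
    ((ContinuousAlternatingMap.apply ℝ E 𝔐 ![u, v]).comp_memLp' hFK).integrable (by norm_num)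
  -- convergence of the values
  have hc2 : ∀ w, Tendsto (fun j => eLpNorm (fun x => B j x w - A x w) 2 μ) atTop (𝓝 0) := by
    intro w
    have h1 : ∀ j, eLpNorm (fun x => B j x w - A x w) 2 μ ≤
        ENNReal.ofReal ‖w‖ * eLpNorm (fun x => B j x - A x) 2 μ := by
      intro j
      refine eLpNorm_le_mul_eLpNorm_of_ae_le_mul (Eventually.of_forall fun x => ?_) 2
      have := (B j x - A x).le_opNorm w
      rw [mul_comm] at this
      exact this
    have h2 := ENNReal.Tendsto.const_mul hBA (a := ENNReal.ofReal ‖w‖)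
      (Or.inr ENNReal.ofReal_ne_top)
    rw [mul_zero] at h2
    exact tendsto_of_tendsto_of_tendsto_of_le_of_le tendsto_const_nhds h2 (fun _ => zero_le) h1
  have hc1 : ∀ w, Tendsto (fun j => eLpNorm (fun x => B j x w - A x w) 1 μ) atTop (𝓝 0) := by
    intro w
    have h1 : ∀ j, eLpNorm (fun x => B j x w - A x w) 1 μ ≤
        eLpNorm (fun x => B j x w - A x w) 2 μ * (μ univ) ^ (1 / (1 : ℝ≥0∞).toReal -
        1 / (2 : ℝ≥0∞).toReal) := fun j =>
      eLpNorm_le_eLpNorm_mul_rpow_measure_univ (by norm_num) ((hBw w j).sub (hAw w)).1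
    have h2 := ENNReal.Tendsto.mul_const (hc2 w) (b := (μ univ) ^ (1 / (1 : ℝ≥0∞).toReal -
        1 / (2 : ℝ≥0∞).toReal)) (Or.inr (ENNReal.rpow_ne_top_of_nonneg (by norm_num)
          (measure_ne_top μ univ)))
    rw [zero_mul] at h2
    exact tendsto_of_tendsto_of_tendsto_of_le_of_le tendsto_const_nhds h2 (fun _ => zero_le) h1
  have hi : ∀ w, Integrable (fun x => A x w) μ := fun w => (hAw w).integrable (by norm_num)
  have hib : ∀ w j, Integrable (fun x => B j x w) μ := fun w j => (hBw w j).integrable (by norm_num)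
  -- the identity for `B j`
  have hid : ∀ j, ∫ x, φ x • cur (B j) x u v ∂μ =
      -(∫ x, fderiv ℝ φ x u • B j x v ∂μ - ∫ x, fderiv ℝ φ x v • B j x u ∂μ) +
        (∫ x, φ x • (B j x u * B j x v) ∂μ - ∫ x, φ x • (B j x v * B j x u) ∂μ) := by
    intro j
    have hBc : ContinuousOn (B j) K := (hB j).continuousOn.mono hKO
    have hBd : ContinuousOn (fderiv ℝ (B j)) K :=
      ((hB j).continuousOn_fderiv_of_isOpen hO le_rfl).mono hKO
    have hder : ∀ w z, ∀ x ∈ K, fderiv ℝ (fun y => B j y w) x z = fderiv ℝ (B j) x z w := by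
      intro w z x hx
      have h1 : HasFDerivAt (B j) (fderiv ℝ (B j) x) x :=
        (((hB j).differentiableOn (by simp)).differentiableAt (hO.mem_nhds (hKO hx))).hasFDerivAt
      have h2 := (ContinuousLinearMap.apply ℝ 𝔐 w).hasFDerivAt.comp x h1
      have h3 : fderiv ℝ (fun y => B j y w) x =
        (ContinuousLinearMap.apply ℝ 𝔐 w).comp (fderiv ℝ (B j) x) := h2.fderiv
      rw [h3]
      rfl
    have hw : ∀ w, ContDiffOn ℝ 1 (fun y => B j y w) O := fun w =>
      (hB j).clm_apply contDiffOn_const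
    have e1 : ∀ w z, ∫ x, φ x • fderiv ℝ (B j) x z w ∂μ = -∫ x, fderiv ℝ φ x z • B j x w ∂μ := by
      intro w z
      have h1 := CLC_ibp φ hφ.smooth hφ.cpt O hO hKO (fun y => B j y w) (hw w) z
      rw [← h1]
      refine setIntegral_congr_fun hKc.measurableSet fun x hx => ?_
      rw [hder w z x hx]
    have i1 : ∀ w z, Integrable (fun x => φ x • fderiv ℝ (B j) x z w) μ := fun w z =>
      ((hφc.continuousOn).smul ((hBd.clm_apply continuousOn_const).clm_apply
        continuousOn_const)).integrableOn_compact hKc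
    have i2 : ∀ w z, Integrable (fun x => φ x • (B j x z * B j x w)) μ := fun w z =>
      ((hφc.continuousOn).smul ((hBc.clm_apply continuousOn_const).mul
        (hBc.clm_apply continuousOn_const))).integrableOn_compact hKc
    have e2 : ∀ x, φ x • cur (B j) x u v = (φ x • fderiv ℝ (B j) x u v -
        φ x • fderiv ℝ (B j) x v u) + (φ x • (B j x u * B j x v) - φ x • (B j x v * B j x u)) := by
      intro x
      rw [cur, ← smul_sub, ← smul_sub, ← smul_add, add_sub_assoc]
    have i3 : Integrable (fun x => φ x • fderiv ℝ (B j) x u v - φ x • fderiv ℝ (B j) x v u) μ :=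
      (i1 v u).sub (i1 u v)
    have i4 : Integrable (fun x => φ x • (B j x u * B j x v) - φ x • (B j x v * B j x u)) μ :=
      (i2 v u).sub (i2 u v)
    simp only [e2]
    rw [integral_add i3 i4, integral_sub (i1 v u) (i1 u v), integral_sub (i2 v u) (i2 u v), e1, e1]
    congr 1
    abel
  -- the limits
  have hcur : ∀ j, Integrable (fun x => cur (B j) x u v) μ := by
    intro j
    have hBc : ContinuousOn (B j) K := (hB j).continuousOn.mono hKO
    have hBd : ContinuousOn (fderiv ℝ (B j)) K :=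
      ((hB j).continuousOn_fderiv_of_isOpen hO le_rfl).mono hKO
    have hBw' : ∀ w, ContinuousOn (fun x => B j x w) K := fun w =>
      hBc.clm_apply continuousOn_const
    have hBd' : ∀ z w, ContinuousOn (fun x => fderiv ℝ (B j) x z w) K := fun z w =>
      (hBd.clm_apply continuousOn_const).clm_apply continuousOn_const
    exact ((((hBd' u v).sub (hBd' v u)).add ((hBw' u).mul (hBw' v))).sub
      ((hBw' v).mul (hBw' u))).integrableOn_compact hKc
  have L1 := CLC_lim μ φ C0 hφc.aestronglyMeasurable hC0 (fun j x => cur (B j) x u v)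
    (fun x => F x ![u, v]) hcur hFuv (hBF u v)
  have L2 := CLC_lim μ (fun x => fderiv ℝ φ x u) (C1 * ‖u‖)
    (hdφ.clm_apply continuous_const).aestronglyMeasurable (hC1' u) (fun j x => B j x v)
    (fun x => A x v) (hib v) (hi v) (hc1 v)
  have L3 := CLC_lim μ (fun x => fderiv ℝ φ x v) (C1 * ‖v‖)
    (hdφ.clm_apply continuous_const).aestronglyMeasurable (hC1' v) (fun j x => B j x u)
    (fun x => A x u) (hib u) (hi u) (hc1 u)
  have hmul : ∀ w z, Integrable (fun x => A x w * A x z) μ := fun w z =>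
    (hAw w).integrable_mul (hAw z)
  have hmulb : ∀ w z j, Integrable (fun x => B j x w * B j x z) μ := fun w z j =>
    (hBw w j).integrable_mul (hBw z j)
  have L4 := CLC_lim μ φ C0 hφc.aestronglyMeasurable hC0 (fun j x => B j x u * B j x v)
    (fun x => A x u * A x v) (hmulb u v) (hmul u v)
    (CLC_prod μ (fun j x => B j x u) (fun j x => B j x v) (fun x => A x u) (fun x => A x v)
      (hBw u) (hBw v) (hAw u) (hAw v) (hc2 u) (hc2 v))
  have L5 := CLC_lim μ φ C0 hφc.aestronglyMeasurable hC0 (fun j x => B j x v * B j x u)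
    (fun x => A x v * A x u) (hmulb v u) (hmul v u)
    (CLC_prod μ (fun j x => B j x v) (fun j x => B j x u) (fun x => A x v) (fun x => A x u)
      (hBw v) (hBw u) (hAw v) (hAw u) (hc2 v) (hc2 u))
  have L6 := ((L2.sub L3).neg).add (L4.sub L5)
  have L7 := tendsto_nhds_unique L1 (L6.congr fun j => (hid j).symm)
  -- back to the whole space
  have jA : ∀ w z, Integrable (fun x => fderiv ℝ φ x w • A x z) μ := fun w z =>
    (hi z).bdd_smul (C1 * ‖w‖) (hdφ.clm_apply continuous_const).aestronglyMeasurable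
      (Eventually.of_forall (hC1' w))
  have jM : ∀ w z, Integrable (fun x => φ x • (A x w * A x z)) μ := fun w z =>
    (hmul w z).bdd_smul C0 hφc.aestronglyMeasurable (Eventually.of_forall hC0)
  rw [← integral_sub (jA u v) (jA v u), ← integral_sub (jM u v) (jM v u)] at L7
  simp only [← smul_sub] at L7
  rw [hμ, setIntegral_eq_integral_of_forall_compl_eq_zero
      (fun x hx => by rw [h0 x hx, zero_smul]),
    setIntegral_eq_integral_of_forall_compl_eq_zero
      (fun x hx => by rw [h0' x hx]; simp),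
    setIntegral_eq_integral_of_forall_compl_eq_zero
      (fun x hx => by rw [h0 x hx, zero_smul])] at L7
  exact L7

end Pool.TIA
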