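import Pool.Agent.Work.MP_a1f430_ti.Interface

set_option autoImplicit false

namespace Pool.TIA

open MeasureTheory Set Filter Topology
open scoped ContDiff ENNReal

/-- `L²` convergence implies `L¹` convergence for a finite measure. -/
theorem PRD_21 {α X : Type} [MeasurableSpace α] [NormedAddCommGroup X] (μ : Measure α)
    [IsFiniteMeasure μ] (f : ℕ → α → X) (hm : ∀ j, AEStronglyMeasurable (f j) μ)
    (h : Tendsto (fun j => eLpNorm (f j) 2 μ) atTop (𝓝 0)) :
    Tendsto (fun j => eLpNorm (fun x => ‖f j x‖) 1 μ) atTop (𝓝 0) := by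
  have h1 : ∀ j, eLpNorm (fun x => ‖f j x‖) 1 μ ≤ eLpNorm (f j) 2 μ *
      (μ univ) ^ (1 / (1 : ℝ≥0∞).toReal - 1 / (2 : ℝ≥0∞).toReal) := fun j => by
    rw [eLpNorm_norm]
    exact eLpNorm_le_eLpNorm_mul_rpow_measure_univ (by norm_num) (hm j)
  have h2 : Tendsto (fun j => eLpNorm (f j) 2 μ * (μ univ) ^ (1 / (1 : ℝ≥0∞).toReal -
      1 / (2 : ℝ≥0∞).toReal)) atTop (𝓝 0) := by
    have hfin : (μ univ) ^ (1 / (1 : ℝ≥0∞).toReal - 1 / (2 : ℝ≥0∞).toReal) ≠ ⊤ := by
      refine ENNReal.rpow_ne_top_of_nonneg ?_ (measure_ne_top μ univ)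
      norm_num
    have := ENNReal.Tendsto.mul_const h (b := (μ univ) ^ (1 / (1 : ℝ≥0∞).toReal -
      1 / (2 : ℝ≥0∞).toReal)) (Or.inr hfin)
    simpa using this
  exact tendsto_of_tendsto_of_tendsto_of_le_of_le tendsto_const_nhds h2 (fun _ => zero_le) h1

theorem PRD_add {α : Type} [MeasurableSpace α] (μ : Measure α) (f f' : ℕ → α → ℝ)
    (hm : ∀ j, AEStronglyMeasurable (f j) μ) (hm' : ∀ j, AEStronglyMeasurable (f' j) μ)
    (h : Tendsto (fun j => eLpNorm (f j) 1 μ) atTop (𝓝 0))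
    (h' : Tendsto (fun j => eLpNorm (f' j) 1 μ) atTop (𝓝 0)) :
    Tendsto (fun j => eLpNorm (fun x => f j x + f' j x) 1 μ) atTop (𝓝 0) := by
  have h2 := h.add h'
  rw [add_zero] at h2
  exact tendsto_of_tendsto_of_tendsto_of_le_of_le tendsto_const_nhds h2 (fun _ => zero_le)
    fun j => eLpNorm_add_le (hm j) (hm' j) le_rfl

theorem PRD_hol {α X Y : Type} [MeasurableSpace α] [NormedAddCommGroup X] [NormedAddCommGroup Y]
    (μ : Measure α) (f : α → X) (g : ℕ → α → Y) (hf : MemLp f 2 μ)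
    (hg : ∀ j, AEStronglyMeasurable (g j) μ)
    (h : Tendsto (fun j => eLpNorm (g j) 2 μ) atTop (𝓝 0)) :
    Tendsto (fun j => eLpNorm (fun x => ‖f x‖ * ‖g j x‖) 1 μ) atTop (𝓝 0) := by
  have h1 : ∀ j, eLpNorm (fun x => ‖f x‖ * ‖g j x‖) 1 μ ≤ eLpNorm f 2 μ * eLpNorm (g j) 2 μ := by
    intro j
    have := eLpNorm_smul_le_mul_eLpNorm (p := 2) (q := 2) (r := 1) (hg j).norm hf.1.norm
    rw [eLpNorm_norm, eLpNorm_norm] at this
    exact this
  have h2 : Tendsto (fun j => eLpNorm f 2 μ * eLpNorm (g j) 2 μ) atTop (𝓝 0) := by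
    have := ENNReal.Tendsto.const_mul h (a := eLpNorm f 2 μ) (Or.inr hf.2.ne)
    simpa using this
  exact tendsto_of_tendsto_of_tendsto_of_le_of_le tendsto_const_nhds h2 (fun _ => zero_le) h1

theorem PRD_mono {α X : Type} [MeasurableSpace α] [NormedAddCommGroup X] (μ : Measure α) (c : ℝ)
    (f : ℕ → α → X) (F : ℕ → α → ℝ) (hb : ∀ j, ∀ᵐ x ∂μ, ‖f j x‖ ≤ c * F j x)
    (h : Tendsto (fun j => eLpNorm (F j) 1 μ) atTop (𝓝 0)) :
    Tendsto (fun j => eLpNorm (f j) 1 μ) atTop (𝓝 0) := by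
  have h1 : ∀ j, eLpNorm (f j) 1 μ ≤ ‖c‖ₑ * eLpNorm (F j) 1 μ := by
    intro j
    rw [← eLpNorm_const_smul c (F j) 1 μ]
    refine eLpNorm_mono_ae ?_
    filter_upwards [hb j] with x hx
    exact hx.trans (le_abs_self _)
  have h2 : Tendsto (fun j => ‖c‖ₑ * eLpNorm (F j) 1 μ) atTop (𝓝 0) := by
    have := ENNReal.Tendsto.const_mul h (a := ‖c‖ₑ) (Or.inr enorm_ne_top)
    simpa using this
  exact tendsto_of_tendsto_of_tendsto_of_le_of_le tendsto_const_nhds h2 (fun _ => zero_le) h1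

theorem p_PRD (hAPG : Stmt_APG) (hCLG : Stmt_CLG) : Stmt_PRD := by
  intro 𝔐 _ _ _ _ _ _ E _ _ _ _ _ _ W g h dg dh dk hW hg hdg hwg hh hdh hwh hb hk
  -- square integrability
  have hL1 : L2loc W (fun x => g x * h x) := by
    intro K hK hKW
    have hb' := ae_restrict_of_ae_restrict_of_subset hKW hb
    refine MemLp.of_le (hg K hK hKW) ((hg K hK hKW).1.mul (hh K hK hKW).1) ?_
    filter_upwards [hb'] with x hx
    calc ‖g x * h x‖ ≤ ‖g x‖ * ‖h x‖ := norm_mul_le _ _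
      _ ≤ ‖g x‖ * 1 := mul_le_mul_of_nonneg_left hx.2 (norm_nonneg _)
      _ = ‖g x‖ := mul_one _
  have hL2 : L2loc W dk := by
    intro K hK hKW
    have hb' := ae_restrict_of_ae_restrict_of_subset hKW hb
    have hk' := ae_restrict_of_ae_restrict_of_subset hKW hk
    have hg1 := (hg K hK hKW).1
    have hh1 := (hh K hK hKW).1
    have hdg1 := (hdg K hK hKW).1
    have hdh1 := (hdh K hK hKW).1
    obtain ⟨D, hD⟩ : ∃ D : E → E →L[ℝ] 𝔐, D = fun x =>
        ((ContinuousLinearMap.mul ℝ 𝔐).flip (h x)).comp (dg x) +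
          ((ContinuousLinearMap.mul ℝ 𝔐) (g x)).comp (dh x) := ⟨_, rfl⟩
    have hDm : AEStronglyMeasurable D (volume.restrict K) := by
      rw [hD]
      refine AEStronglyMeasurable.add ?_ ?_
      · exact (ContinuousLinearMap.compL ℝ E 𝔐 𝔐).aestronglyMeasurable_comp₂
          ((ContinuousLinearMap.mul ℝ 𝔐).flip.continuous.comp_aestronglyMeasurable hh1) hdg1
      · exact (ContinuousLinearMap.compL ℝ E 𝔐 𝔐).aestronglyMeasurable_comp₂
          ((ContinuousLinearMap.mul ℝ 𝔐).continuous.comp_aestronglyMeasurable hg1) hdh1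
    have hkD : dk =ᵐ[volume.restrict K] D := by
      filter_upwards [hk'] with x hx
      ext v
      rw [hx v, hD]
      simp
    refine MemLp.of_le ((hdg K hK hKW).norm.add (hdh K hK hKW).norm) (hDm.congr hkD.symm) ?_
    filter_upwards [hb', hk'] with x hx hkx
    have hnn : 0 ≤ ‖dg x‖ + ‖dh x‖ := add_nonneg (norm_nonneg _) (norm_nonneg _)
    have e : ‖((fun x => ‖dg x‖) + fun x => ‖dh x‖) x‖ = ‖dg x‖ + ‖dh x‖ := by
      show ‖‖dg x‖ + ‖dh x‖‖ = _
      rw [Real.norm_of_nonneg hnn]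
    rw [e]
    refine ContinuousLinearMap.opNorm_le_bound _ hnn (fun v => ?_)
    rw [hkx v]
    calc ‖dg x v * h x + g x * dh x v‖ ≤ ‖dg x v * h x‖ + ‖g x * dh x v‖ := norm_add_le _ _
      _ ≤ ‖dg x v‖ * ‖h x‖ + ‖g x‖ * ‖dh x v‖ := add_le_add (norm_mul_le _ _) (norm_mul_le _ _)
      _ ≤ (‖dg x‖ * ‖v‖) * 1 + 1 * (‖dh x‖ * ‖v‖) := by
        have h1 := (dg x).le_opNorm v
        have h2 := (dh x).le_opNorm v
        have h3 := hx.1
        have h4 := hx.2
        gcongr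
      _ = (‖dg x‖ + ‖dh x‖) * ‖v‖ := by ring
  refine ⟨hL1, hL2, hCLG E 𝔐 W _ dk hW hL1 hL2 ?_⟩
  intro K hK hKW
  have hb' := ae_restrict_of_ae_restrict_of_subset hKW hb
  have hk' := ae_restrict_of_ae_restrict_of_subset hKW hk
  have hg1 := hg K hK hKW
  have hh1 := hh K hK hKW
  have hdg1 := hdg K hK hKW
  have hdh1 := hdh K hK hKW
  have hfin : IsFiniteMeasure (volume.restrict K : Measure E) :=
    ⟨by simpa using hK.measure_lt_top⟩
  obtain ⟨G, hGs, hGb, hG1, hG2⟩ := hAPG E 𝔐 W g dg 1 hW hg hdg hwg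
    (hb.mono fun x hx => hx.1) zero_le_one K hK hKW
  obtain ⟨H, hHs, hHb, hH1, hH2⟩ := hAPG E 𝔐 W h dh 1 hW hh hdh hwh
    (hb.mono fun x hx => hx.2) zero_le_one K hK hKW
  have mG : ∀ j, AEStronglyMeasurable (fun x => G j x - g x) (volume.restrict K) := fun j =>
    (hGs j).continuous.aestronglyMeasurable.sub hg1.1
  have mH : ∀ j, AEStronglyMeasurable (fun x => H j x - h x) (volume.restrict K) := fun j =>
    (hHs j).continuous.aestronglyMeasurable.sub hh1.1
  have mdG : ∀ j, AEStronglyMeasurable (fun x => fderiv ℝ (G j) x - dg x) (volume.restrict K) :=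
    fun j => ((hGs j).continuous_fderiv (by simp)).aestronglyMeasurable.sub hdg1.1
  have mdH : ∀ j, AEStronglyMeasurable (fun x => fderiv ℝ (H j) x - dh x) (volume.restrict K) :=
    fun j => ((hHs j).continuous_fderiv (by simp)).aestronglyMeasurable.sub hdh1.1
  refine ⟨univ, fun j x => G j x * H j x, isOpen_univ, subset_univ _, fun j =>
    (((hGs j).mul (hHs j)).of_le (by exact_mod_cast le_top)).contDiffOn, ?_, fun v => ?_⟩
  · refine PRD_mono _ 1 _ (fun j x => ‖G j x - g x‖ + ‖H j x - h x‖) (fun j => ?_)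
      (PRD_add _ _ _ (fun j => (mG j).norm) (fun j => (mH j).norm) (PRD_21 _ _ mG hG1)
        (PRD_21 _ _ mH hH1))
    filter_upwards [hb'] with x hx
    have e : G j x * H j x - g x * h x = (G j x - g x) * H j x + g x * (H j x - h x) := by
      noncomm_ring
    rw [e, one_mul]
    calc ‖(G j x - g x) * H j x + g x * (H j x - h x)‖
        ≤ ‖(G j x - g x) * H j x‖ + ‖g x * (H j x - h x)‖ := norm_add_le _ _
      _ ≤ ‖G j x - g x‖ * ‖H j x‖ + ‖g x‖ * ‖H j x - h x‖ :=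
        add_le_add (norm_mul_le _ _) (norm_mul_le _ _)
      _ ≤ ‖G j x - g x‖ * 1 + 1 * ‖H j x - h x‖ := by
        have h1 := hHb j x
        have h2 := hx.1
        gcongr
      _ = ‖G j x - g x‖ + ‖H j x - h x‖ := by ring
  · have t1 := PRD_21 _ _ mdG hG2
    have t2 := PRD_21 _ _ mdH hH2
    have t3 := PRD_hol _ dg _ hdg1 mH hH1
    have t4 := PRD_hol _ dh _ hdh1 mG hG1
    have m3 : ∀ j, AEStronglyMeasurable (fun x => ‖dg x‖ * ‖H j x - h x‖) (volume.restrict K) :=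
      fun j => hdg1.1.norm.mul (mH j).norm
    have m4 : ∀ j, AEStronglyMeasurable (fun x => ‖dh x‖ * ‖G j x - g x‖) (volume.restrict K) :=
      fun j => hdh1.1.norm.mul (mG j).norm
    have t12 := PRD_add _ _ _ (fun j => (mdG j).norm) (fun j => (mdH j).norm) t1 t2
    have t34 := PRD_add _ _ _ m3 m4 t3 t4
    have t := PRD_add _ _ _ (fun j => (mdG j).norm.add (mdH j).norm)
      (fun j => (m3 j).add (m4 j)) t12 t34
    refine PRD_mono _ ‖v‖ _ _ (fun j => ?_) t
    filter_upwards [hb', hk'] with x hx hkx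
    have hd : fderiv ℝ (fun x => G j x * H j x) x v =
        G j x * fderiv ℝ (H j) x v + fderiv ℝ (G j) x v * H j x := by
      rw [fderiv_fun_mul' ((hGs j).differentiable (by simp) x)
        ((hHs j).differentiable (by simp) x)]
      rfl
    rw [hd, hkx v]
    have e : G j x * fderiv ℝ (H j) x v + fderiv ℝ (G j) x v * H j x -
        (dg x v * h x + g x * dh x v) =
        ((fderiv ℝ (G j) x - dg x) v * H j x + G j x * (fderiv ℝ (H j) x - dh x) v) +
          (dg x v * (H j x - h x) + (G j x - g x) * dh x v) := by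
      rw [ContinuousLinearMap.sub_apply, ContinuousLinearMap.sub_apply]
      noncomm_ring
    rw [e]
    have h1 := hHb j x
    have h2 := hGb j x
    have n1 := (fderiv ℝ (G j) x - dg x).le_opNorm v
    have n2 := (fderiv ℝ (H j) x - dh x).le_opNorm v
    have n3 := (dg x).le_opNorm v
    have n4 := (dh x).le_opNorm v
    calc ‖((fderiv ℝ (G j) x - dg x) v * H j x + G j x * (fderiv ℝ (H j) x - dh x) v) +
          (dg x v * (H j x - h x) + (G j x - g x) * dh x v)‖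
        ≤ (‖(fderiv ℝ (G j) x - dg x) v * H j x‖ + ‖G j x * (fderiv ℝ (H j) x - dh x) v‖) +
          (‖dg x v * (H j x - h x)‖ + ‖(G j x - g x) * dh x v‖) :=
          (norm_add_le _ _).trans (add_le_add (norm_add_le _ _) (norm_add_le _ _))
      _ ≤ (‖(fderiv ℝ (G j) x - dg x) v‖ * ‖H j x‖ + ‖G j x‖ * ‖(fderiv ℝ (H j) x - dh x) v‖) +
          (‖dg x v‖ * ‖H j x - h x‖ + ‖G j x - g x‖ * ‖dh x v‖) :=
          add_le_add (add_le_add (norm_mul_le _ _) (norm_mul_le _ _))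
            (add_le_add (norm_mul_le _ _) (norm_mul_le _ _))
      _ ≤ ((‖fderiv ℝ (G j) x - dg x‖ * ‖v‖) * 1 + 1 * (‖fderiv ℝ (H j) x - dh x‖ * ‖v‖)) +
          ((‖dg x‖ * ‖v‖) * ‖H j x - h x‖ + ‖G j x - g x‖ * (‖dh x‖ * ‖v‖)) := by
          gcongr
      _ = ‖v‖ * ((‖fderiv ℝ (G j) x - dg x‖ + ‖fderiv ℝ (H j) x - dh x‖) +
          (‖dg x‖ * ‖H j x - h x‖ + ‖dh x‖ * ‖G j x - g x‖)) := by ring

end Pool.TIA
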