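import Pool.Agent.Work.MP_a1f430_ti.Interface

/-! # Block PBC: connections under diffeomorphisms (helper4) -/

set_option autoImplicit false

namespace Pool.TIA

open MeasureTheory Set Filter Topology
open scoped ContDiff ENNReal

section PBC_alt

variable {E' E 𝔐 : Type} [NormedAddCommGroup E'] [NormedSpace ℝ E'] [NormedAddCommGroup E]
  [NormedSpace ℝ E] [NormedRing 𝔐] [NormedAlgebra ℝ 𝔐]

theorem PBC_norm (G : E [⋀^Fin 2]→L[ℝ] 𝔐) (D : E' →L[ℝ] E) :
    ‖G.compContinuousLinearMap D‖ ≤ ‖D‖ ^ 2 * ‖G‖ := by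
  have h := ContinuousAlternatingMap.norm_compContinuousLinearMap_le G D
  rw [Fintype.card_fin] at h
  rw [mul_comm]
  exact h

theorem PBC_meas {α : Type} [MeasurableSpace α] {μ : Measure α} {G : α → E [⋀^Fin 2]→L[ℝ] 𝔐}
    {D : α → E' →L[ℝ] E} (hG : AEStronglyMeasurable G μ) (hD : AEStronglyMeasurable D μ) :
    AEStronglyMeasurable (fun x => (G x).compContinuousLinearMap (D x)) μ := by
  have h1 := (ContinuousAlternatingMap.continuous_compContinuousLinearMapCLM (𝕜 := ℝ) (E := E')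
    (F := E) (G := 𝔐) (ι := Fin 2)).comp_aestronglyMeasurable hD
  have h2 : Continuous fun q : ((E [⋀^Fin 2]→L[ℝ] 𝔐) →L[ℝ] (E' [⋀^Fin 2]→L[ℝ] 𝔐)) ×
      (E [⋀^Fin 2]→L[ℝ] 𝔐) => q.1 q.2 := by fun_prop
  exact h2.comp_aestronglyMeasurable₂ h1 hG

/-- the curvature of a pullback -/
theorem PBC_cur {Φ : E' → E} {W' : Set E'} (hW : IsOpen W') (hΦ : ContDiffOn ℝ ∞ Φ W')
    {B : E → E →L[ℝ] 𝔐} (hB : ContDiff ℝ ∞ B) {x : E'} (hx : x ∈ W') (u v : E') :
    cur (pb1 Φ B) x u v = cur B (Φ x) (fderiv ℝ Φ x u) (fderiv ℝ Φ x v) := by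
  have hΦx : ContDiffAt ℝ ∞ Φ x := hΦ.contDiffAt (hW.mem_nhds hx)
  have h1 : HasFDerivAt Φ (fderiv ℝ Φ x) x := (hΦx.differentiableAt (by simp)).hasFDerivAt
  have h2 : HasFDerivAt (fderiv ℝ Φ) (fderiv ℝ (fderiv ℝ Φ) x) x := by
    have h3 : ContDiffAt ℝ 1 (fderiv ℝ Φ) x := hΦx.fderiv_right (by norm_cast)
    exact (h3.differentiableAt (by simp)).hasFDerivAt
  have h3 : HasFDerivAt B (fderiv ℝ B (Φ x)) (Φ x) :=
    ((hB.differentiable (by simp)) (Φ x)).hasFDerivAt
  have h4 : HasFDerivAt (fun y => B (Φ y)) ((fderiv ℝ B (Φ x)).comp (fderiv ℝ Φ x)) x :=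
    h3.comp x h1
  have h5 := (h4.clm_comp h2).fderiv
  have h6 : IsSymmSndFDerivAt ℝ Φ x :=
    hΦx.isSymmSndFDerivAt (by rw [minSmoothness_of_isRCLikeNormedField]; norm_cast)
  have h7 : fderiv ℝ (fderiv ℝ Φ) x u v = fderiv ℝ (fderiv ℝ Φ) x v u := h6 u v
  have h8 : ∀ a b : E', fderiv ℝ (pb1 Φ B) x a b =
      B (Φ x) (fderiv ℝ (fderiv ℝ Φ) x a b) + fderiv ℝ B (Φ x) (fderiv ℝ Φ x a) (fderiv ℝ Φ x b) := by
    intro a b
    have : fderiv ℝ (pb1 Φ B) x = fderiv ℝ (fun y => (B (Φ y)).comp (fderiv ℝ Φ y)) x := rfl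
    rw [this, h5]
    rfl
  unfold cur
  rw [h8, h8, h7]
  simp only [pb1, ContinuousLinearMap.comp_apply]
  abel

theorem PBC_pb1_smooth {Φ : E' → E} {W' : Set E'} (hW : IsOpen W') (hΦ : ContDiffOn ℝ ∞ Φ W')
    {B : E → E →L[ℝ] 𝔐} (hB : ContDiff ℝ ∞ B) : ContDiffOn ℝ 1 (pb1 Φ B) W' := by
  have h1 : ContDiffOn ℝ 1 (fun y => B (Φ y)) W' :=
    (hB.of_le (by norm_cast)).comp_contDiffOn (hΦ.of_le (by norm_cast))
  have h2 : ContDiffOn ℝ 1 (fderiv ℝ Φ) W' := hΦ.fderiv_of_isOpen hW (by norm_cast)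
  exact h1.clm_comp h2

theorem PBC_cur_cont {B : E → E →L[ℝ] 𝔐} (hB : ContDiff ℝ ∞ B) (u v : E) :
    Continuous fun x => cur B x u v := by
  have h1 : Continuous (fderiv ℝ B) := hB.continuous_fderiv (by simp)
  have h2 : Continuous B := hB.continuous
  unfold cur
  fun_prop

theorem PBC_u0 (a b c : E) : Function.update ![a, b] 0 c = ![c, b] := by
  funext i
  fin_cases i <;> rfl

theorem PBC_u1 (a b c : E) : Function.update ![a, b] 1 c = ![a, c] := by
  funext i
  fin_cases i <;> rfl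

theorem PBC_add0 (F : E [⋀^Fin 2]→L[ℝ] 𝔐) (a a' b : E) :
    F ![a + a', b] = F ![a, b] + F ![a', b] := by
  have h := F.map_update_add ![0, b] 0 a a'
  rwa [PBC_u0, PBC_u0, PBC_u0] at h

theorem PBC_smul0 (F : E [⋀^Fin 2]→L[ℝ] 𝔐) (c : ℝ) (a b : E) :
    F ![c • a, b] = c • F ![a, b] := by
  have h := F.map_update_smul ![0, b] 0 c a
  rwa [PBC_u0, PBC_u0] at h

theorem PBC_add1 (F : E [⋀^Fin 2]→L[ℝ] 𝔐) (a b b' : E) :
    F ![a, b + b'] = F ![a, b] + F ![a, b'] := by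
  have h := F.map_update_add ![a, 0] 1 b b'
  rwa [PBC_u1, PBC_u1, PBC_u1] at h

theorem PBC_smul1 (F : E [⋀^Fin 2]→L[ℝ] 𝔐) (c : ℝ) (a b : E) :
    F ![a, c • b] = c • F ![a, b] := by
  have h := F.map_update_smul ![a, 0] 1 c b
  rwa [PBC_u1, PBC_u1] at h

/-- the defect of a smooth form, expanded in a basis -/
theorem PBC_expand {ι : Type} [Fintype ι] (b : Module.Basis ι ℝ E) (B : E → E →L[ℝ] 𝔐)
    (F : E [⋀^Fin 2]→L[ℝ] 𝔐) (y p q : E) :
    ‖cur B y p q - F ![p, q]‖ ≤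
      ∑ i, ∑ k, |b.coord i p| * |b.coord k q| * ‖cur B y (b i) (b k) - F ![b i, b k]‖ := by
  set H : E →ₗ[ℝ] E →ₗ[ℝ] 𝔐 := LinearMap.mk₂ ℝ (fun p q => cur B y p q - F ![p, q])
    (fun m m' n => by
      simp only [PBC_add0, cur, map_add, add_mul, mul_add, _root_.add_apply]
      abel)
    (fun c m n => by
      simp only [PBC_smul0, cur, map_smul, smul_mul_assoc, mul_smul_comm,
        _root_.smul_apply, smul_sub, smul_add])
    (fun m n n' => by
      simp only [PBC_add1, cur, map_add, add_mul, mul_add, _root_.add_apply]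
      abel)
    (fun c m n => by
      simp only [PBC_smul1, cur, map_smul, smul_mul_assoc, mul_smul_comm,
        _root_.smul_apply, smul_sub, smul_add]) with hH
  have hHv : ∀ p q, H p q = cur B y p q - F ![p, q] := fun p q => rfl
  have e1 : H p q = ∑ i, ∑ k, (b.coord i p * b.coord k q) • H (b i) (b k) := by
    conv_lhs => rw [← b.sum_repr p, ← b.sum_repr q]
    rw [map_sum (H : E →ₗ[ℝ] E →ₗ[ℝ] 𝔐), LinearMap.sum_apply]
    refine Finset.sum_congr rfl fun i _ => ?_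
    rw [map_sum]
    refine Finset.sum_congr rfl fun k _ => ?_
    rw [map_smul, map_smul, LinearMap.smul_apply, smul_smul, mul_comm]
    rfl
  rw [← hHv, e1]
  refine (norm_sum_le _ _).trans (Finset.sum_le_sum fun i _ => ?_)
  refine (norm_sum_le _ _).trans (Finset.sum_le_sum fun k _ => ?_)
  rw [norm_smul, hHv, Real.norm_eq_abs, abs_mul]

end PBC_alt

/-- composition with `Φ` and a bounded factor -/
theorem PBC_tend {E' X Y : Type} [NormedAddCommGroup E'] [MeasureSpace E'] {K : Set E'}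
    [NormedAddCommGroup X] [NormedAddCommGroup Y] {p : ℝ≥0∞} {f : ℕ → E' → X} {g : ℕ → E' → Y}
    {M : ℝ} {C : ℝ≥0∞} (hC : C ≠ ⊤) {a : ℕ → ℝ≥0∞} (ha : Tendsto a atTop (𝓝 0))
    (h1 : ∀ j, ∀ᵐ x ∂(volume.restrict K), ‖f j x‖ ≤ M * ‖g j x‖)
    (h2 : ∀ j, eLpNorm (g j) p (volume.restrict K) ≤ C * a j) :
    Tendsto (fun j => eLpNorm (f j) p (volume.restrict K)) atTop (𝓝 0) := by
  have h3 : ∀ j, eLpNorm (f j) p (volume.restrict K) ≤ ENNReal.ofReal M * (C * a j) := fun j =>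
    (eLpNorm_le_mul_eLpNorm_of_ae_le_mul (h1 j) p).trans (mul_le_mul_right (h2 j) _)
  have h4 : Tendsto (fun j => ENNReal.ofReal M * (C * a j)) atTop (𝓝 0) := by
    have h5 := ENNReal.Tendsto.const_mul (a := C) ha (Or.inr hC)
    have h6 := ENNReal.Tendsto.const_mul (a := ENNReal.ofReal M) h5 (Or.inr ENNReal.ofReal_ne_top)
    simpa using h6
  exact tendsto_of_tendsto_of_tendsto_of_le_of_le tendsto_const_nhds h4 (fun j => zero_le) h3

theorem p_PBC (hAPC : Stmt_APC) (hCLC : Stmt_CLC) (hCVR : Stmt_CVR) : Stmt_PBC := by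
  intro 𝔐 _ _ _ _ _ _ 𝒢 E' E _ _ _ _ _ _ _ _ _ _ _ _ Φ Ψ W' W A F hdim hD hA
  obtain ⟨hnull, hcv⟩ := hCVR E' E Φ Ψ W' W hdim hD
  have hΦc : ContinuousOn Φ W' := hD.smooth.continuousOn
  have hfd : ContinuousOn (fderiv ℝ Φ) W' :=
    hD.smooth.continuousOn_fderiv_of_isOpen hD.open' (by simp)
  -- compact images
  have hKc : ∀ K : Set E', IsCompact K → K ⊆ W' → IsCompact (Φ '' K) := fun K hK hKW =>
    hK.image_of_continuousOn (hΦc.mono hKW)
  have hKs : ∀ K : Set E', K ⊆ W' → Φ '' K ⊆ W := by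
    rintro K hKW _ ⟨x, hx, rfl⟩
    exact hD.maps (hKW hx)
  have hbd : ∀ K : Set E', IsCompact K → K ⊆ W' → ∃ M : ℝ, 0 ≤ M ∧ ∀ x ∈ K, ‖fderiv ℝ Φ x‖ ≤ M := by
    intro K hK hKW
    obtain ⟨M, hM⟩ := hK.exists_bound_of_continuousOn (hfd.mono hKW)
    exact ⟨max M 0, le_max_right _ _, fun x hx => (hM x hx).trans (le_max_left _ _)⟩
  have hfdm : ∀ K : Set E', IsCompact K → K ⊆ W' →
      AEStronglyMeasurable (fderiv ℝ Φ) (volume.restrict K) := fun K hK hKW =>
    (hfd.mono hKW).aestronglyMeasurable hK.measurableSet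
  -- the forms are locally square integrable
  have hA2 : L2loc W' (pb1 Φ A) := by
    intro K hK hKW
    obtain ⟨C, hC, hCb⟩ := hcv K hK hKW
    obtain ⟨M, hM0, hM⟩ := hbd K hK hKW
    have hAK := hA.A2 (Φ '' K) (hKc K hK hKW) (hKs K hKW)
    obtain ⟨m1, m2⟩ := hCb _ A 2 (Or.inr rfl) hAK.1
    have hg : MemLp (fun x => A (Φ x)) 2 (volume.restrict K) :=
      ⟨m1, m2.trans_lt (ENNReal.mul_lt_top hC.lt_top hAK.2)⟩
    refine hg.of_le_mul (c := M) ?_ ?_
    · exact (ContinuousLinearMap.compL ℝ E' E 𝔐).aestronglyMeasurable_comp₂ m1 (hfdm K hK hKW)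
    · refine ae_restrict_of_forall_mem hK.measurableSet fun x hx => ?_
      calc ‖pb1 Φ A x‖ ≤ ‖A (Φ x)‖ * ‖fderiv ℝ Φ x‖ := ContinuousLinearMap.opNorm_comp_le _ _
        _ ≤ ‖A (Φ x)‖ * M := by gcongr; exact hM x hx
        _ = M * ‖A (Φ x)‖ := mul_comm _ _
  have hF2 : L2loc W' (pb2 Φ F) := by
    intro K hK hKW
    obtain ⟨C, hC, hCb⟩ := hcv K hK hKW
    obtain ⟨M, hM0, hM⟩ := hbd K hK hKW
    have hFK := hA.F2 (Φ '' K) (hKc K hK hKW) (hKs K hKW)
    obtain ⟨m1, m2⟩ := hCb _ F 2 (Or.inr rfl) hFK.1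
    have hg : MemLp (fun x => F (Φ x)) 2 (volume.restrict K) :=
      ⟨m1, m2.trans_lt (ENNReal.mul_lt_top hC.lt_top hFK.2)⟩
    refine hg.of_le_mul (c := M ^ 2) ?_ ?_
    · exact PBC_meas m1 (hfdm K hK hKW)
    · refine ae_restrict_of_forall_mem hK.measurableSet fun x hx => ?_
      calc ‖pb2 Φ F x‖ ≤ ‖fderiv ℝ Φ x‖ ^ 2 * ‖F (Φ x)‖ := PBC_norm _ _
        _ ≤ M ^ 2 * ‖F (Φ x)‖ := by gcongr; exact hM x hx
  refine ⟨hA2, hF2, ?_, ?_⟩
  · -- values in the Lie algebra
    have h1 := hA.lie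
    rw [ae_restrict_iff' hD.open_.measurableSet, ae_iff] at h1
    rw [ae_restrict_iff' hD.open'.measurableSet, ae_iff]
    have h2 := hnull {y | ¬ ∀ v, A y v ∈ 𝒢.lie} (measure_mono_null (fun y hy => ?_) h1)
    · refine measure_mono_null (fun x hx => ?_) h2
      simp only [mem_ofPred_eq, Classical.not_imp] at hx
      refine ⟨fun hy => hx.2 fun v => ?_, hx.1⟩
      exact hy (fderiv ℝ Φ x v)
    · simp only [mem_ofPred_eq, Classical.not_imp]
      exact ⟨hy.2, hy.1⟩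
  · -- the curvature
    refine hCLC 𝔐 E' W' (pb1 Φ A) (pb2 Φ F) hD.open' hA2 hF2 fun K hK hKW => ?_
    obtain ⟨B, hB1, hB2, hB3, hB4, hB5⟩ := hAPC 𝔐 𝒢 E W A F hD.open_ hA (Φ '' K)
      (hKc K hK hKW) (hKs K hKW)
    obtain ⟨C, hC, hCb⟩ := hcv K hK hKW
    obtain ⟨M, hM0, hM⟩ := hbd K hK hKW
    have hAK := hA.A2 (Φ '' K) (hKc K hK hKW) (hKs K hKW)
    have hFK := hA.F2 (Φ '' K) (hKc K hK hKW) (hKs K hKW)
    refine ⟨W', fun j => pb1 Φ (B j), hD.open', hKW,
      fun j => PBC_pb1_smooth hD.open' hD.smooth (hB1 j), ?_, ?_⟩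
    · refine PBC_tend (g := fun j x => B j (Φ x) - A (Φ x)) (M := M) hC hB4 ?_ ?_
      · intro j
        refine ae_restrict_of_forall_mem hK.measurableSet fun x hx => ?_
        have e1 : pb1 Φ (B j) x - pb1 Φ A x = (B j (Φ x) - A (Φ x)).comp (fderiv ℝ Φ x) := by
          unfold pb1
          rw [ContinuousLinearMap.sub_comp]
        rw [e1]
        calc ‖(B j (Φ x) - A (Φ x)).comp (fderiv ℝ Φ x)‖
            ≤ ‖B j (Φ x) - A (Φ x)‖ * ‖fderiv ℝ Φ x‖ := ContinuousLinearMap.opNorm_comp_le _ _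
          _ ≤ ‖B j (Φ x) - A (Φ x)‖ * M := by gcongr; exact hM x hx
          _ = M * ‖B j (Φ x) - A (Φ x)‖ := mul_comm _ _
      · intro j
        exact (hCb _ (fun y => B j y - A y) 2 (Or.inr rfl)
          ((hB1 j).continuous.aestronglyMeasurable.sub hAK.1)).2
    · intro u v
      set b := Module.finBasis ℝ E with hb
      have hcoord : ∀ i, Continuous (b.coord i) := fun i =>
        LinearMap.continuous_of_finiteDimensional _
      have hcK : ContinuousOn (fun x => ∑ i, ∑ k, |b.coord i (fderiv ℝ Φ x u)| *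
          |b.coord k (fderiv ℝ Φ x v)|) K := by
        refine continuousOn_finsetSum _ fun i _ => continuousOn_finsetSum _ fun k _ => ?_
        have h1 : ContinuousOn (fun x => b.coord i (fderiv ℝ Φ x u)) K :=
          (hcoord i).comp_continuousOn ((hfd.mono hKW).clm_apply continuousOn_const)
        have h2 : ContinuousOn (fun x => b.coord k (fderiv ℝ Φ x v)) K :=
          (hcoord k).comp_continuousOn ((hfd.mono hKW).clm_apply continuousOn_const)
        exact h1.abs.mul h2.abs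
      obtain ⟨M', hM'⟩ := hK.exists_bound_of_continuousOn hcK
      have hmeas : ∀ j i k, AEStronglyMeasurable
          (fun y => cur (B j) y (b i) (b k) - F y ![b i, b k]) (volume.restrict (Φ '' K)) := by
        intro j i k
        refine (PBC_cur_cont (hB1 j) _ _).aestronglyMeasurable.sub ?_
        have h1 : Continuous fun G : E [⋀^Fin 2]→L[ℝ] 𝔐 => G ![b i, b k] := by fun_prop
        exact h1.comp_aestronglyMeasurable hFK.1
      have hsum0 : Tendsto (fun j => ∑ i, ∑ k, eLpNorm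
          (fun y => cur (B j) y (b i) (b k) - F y ![b i, b k]) 1 (volume.restrict (Φ '' K)))
          atTop (𝓝 0) := by
        have h1 := tendsto_finsetSum (Finset.univ) fun i (_ : i ∈ (Finset.univ : Finset (Fin
          (Module.finrank ℝ E)))) => tendsto_finsetSum (Finset.univ) fun k (_ : k ∈
          (Finset.univ : Finset (Fin (Module.finrank ℝ E)))) => hB5 (b i) (b k)
        simpa using h1
      refine PBC_tend (g := fun j x => ∑ i, ∑ k, ‖cur (B j) (Φ x) (b i) (b k) -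
        F (Φ x) ![b i, b k]‖) (M := M') hC hsum0 ?_ ?_
      · intro j
        refine ae_restrict_of_forall_mem hK.measurableSet fun x hx => ?_
        have e1 : cur (pb1 Φ (B j)) x u v - pb2 Φ F x ![u, v] =
            cur (B j) (Φ x) (fderiv ℝ Φ x u) (fderiv ℝ Φ x v) -
              F (Φ x) ![fderiv ℝ Φ x u, fderiv ℝ Φ x v] := by
          rw [PBC_cur hD.open' hD.smooth (hB1 j) (hKW hx)]
          unfold pb2
          rw [ContinuousAlternatingMap.compContinuousLinearMap_apply]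
          congr 2
          funext i
          fin_cases i <;> rfl
        rw [e1]
        refine (PBC_expand b (B j) (F (Φ x)) (Φ x) _ _).trans ?_
        have hle : ∀ i k, |b.coord i (fderiv ℝ Φ x u)| * |b.coord k (fderiv ℝ Φ x v)| ≤ M' := by
          intro i k
          refine le_trans ?_ ((le_abs_self _).trans (hM' x hx))
          refine le_trans ?_ (Finset.single_le_sum (f := fun i => ∑ k,
            |b.coord i (fderiv ℝ Φ x u)| * |b.coord k (fderiv ℝ Φ x v)|)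
            (fun i _ => Finset.sum_nonneg fun k _ => by positivity) (Finset.mem_univ i))
          exact Finset.single_le_sum (f := fun k => |b.coord i (fderiv ℝ Φ x u)| *
            |b.coord k (fderiv ℝ Φ x v)|) (fun k _ => by positivity) (Finset.mem_univ k)
        have hnn : 0 ≤ ∑ i, ∑ k, ‖cur (B j) (Φ x) (b i) (b k) - F (Φ x) ![b i, b k]‖ :=
          Finset.sum_nonneg fun i _ => Finset.sum_nonneg fun k _ => norm_nonneg _
        rw [Real.norm_of_nonneg hnn, Finset.mul_sum]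
        refine Finset.sum_le_sum fun i _ => ?_
        rw [Finset.mul_sum]
        exact Finset.sum_le_sum fun k _ => mul_le_mul_of_nonneg_right (hle i k) (norm_nonneg _)
      · intro j
        have hcb1 : ∀ i k, AEStronglyMeasurable (fun x => cur (B j) (Φ x) (b i) (b k) -
            F (Φ x) ![b i, b k]) (volume.restrict K) ∧
            eLpNorm (fun x => cur (B j) (Φ x) (b i) (b k) - F (Φ x) ![b i, b k]) 1
              (volume.restrict K) ≤ C * eLpNorm (fun y => cur (B j) y (b i) (b k) -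
                F y ![b i, b k]) 1 (volume.restrict (Φ '' K)) := fun i k =>
          hCb _ (fun y => cur (B j) y (b i) (b k) - F y ![b i, b k]) 1 (Or.inl rfl) (hmeas j i k)
        have e2 : (fun x => ∑ i, ∑ k, ‖cur (B j) (Φ x) (b i) (b k) - F (Φ x) ![b i, b k]‖) =
            ∑ i, ∑ k, fun x => ‖cur (B j) (Φ x) (b i) (b k) - F (Φ x) ![b i, b k]‖ := by
          funext x
          simp only [Finset.sum_apply]
        rw [e2, Finset.mul_sum]
        refine (eLpNorm_sum_le (fun i _ => ?_) le_rfl).trans (Finset.sum_le_sum fun i _ => ?_)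
        · exact Finset.aestronglyMeasurable_sum _ fun k _ => (hcb1 i k).1.norm
        · rw [Finset.mul_sum]
          refine (eLpNorm_sum_le (fun k _ => (hcb1 i k).1.norm) le_rfl).trans
            (Finset.sum_le_sum fun k _ => ?_)
          rw [eLpNorm_norm]
          exact (hcb1 i k).2

end Pool.TIA
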