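import Pool.Agent.Work.MP_a1f430_ti.B_SUB
import Pool.Agent.Work.MP_a1f430_ti.B_PBC

/-! # Block KA: the approximations along almost all slices and lines (helper57) -/

set_option autoImplicit false

namespace Pool.TIA

open MeasureTheory Set Filter Topology
open scoped ContDiff ENNReal

/-- `L²` convergence implies `L¹` convergence for a finite measure. -/
theorem KA_21 {α X : Type} [MeasurableSpace α] [NormedAddCommGroup X] (μ : Measure α)
    [IsFiniteMeasure μ] (f : ℕ → α → X) (hm : ∀ j, AEStronglyMeasurable (f j) μ)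
    (h : Tendsto (fun j => eLpNorm (f j) 2 μ) atTop (𝓝 0)) :
    Tendsto (fun j => eLpNorm (f j) 1 μ) atTop (𝓝 0) := by
  have h1 : ∀ j, eLpNorm (f j) 1 μ ≤ eLpNorm (f j) 2 μ * (μ univ) ^ (1 / (1 : ℝ≥0∞).toReal -
      1 / (2 : ℝ≥0∞).toReal) := fun j =>
    eLpNorm_le_eLpNorm_mul_rpow_measure_univ (by norm_num) (hm j)
  have h2 : Tendsto (fun j => eLpNorm (f j) 2 μ * (μ univ) ^ (1 / (1 : ℝ≥0∞).toReal -
      1 / (2 : ℝ≥0∞).toReal)) atTop (𝓝 0) := by
    have hfin : (μ univ) ^ (1 / (1 : ℝ≥0∞).toReal - 1 / (2 : ℝ≥0∞).toReal) ≠ ⊤ := by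
      refine ENNReal.rpow_ne_top_of_nonneg ?_ (measure_ne_top μ univ)
      norm_num
    have := ENNReal.Tendsto.mul_const h (b := (μ univ) ^ (1 / (1 : ℝ≥0∞).toReal -
      1 / (2 : ℝ≥0∞).toReal)) (Or.inr hfin)
    simpa using this
  exact tendsto_of_tendsto_of_tendsto_of_le_of_le tendsto_const_nhds h2 (fun _ => zero_le) h1

/-- continuous functions on compact sets -/
theorem KA_cont {E X : Type} [NormedAddCommGroup E] [MeasureSpace E] [BorelSpace E]
    [IsFiniteMeasureOnCompacts (volume : Measure E)]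
    [NormedAddCommGroup X] [SecondCountableTopologyEither E X] (f : E → X) (hf : Continuous f)
    {K : Set E} (hK : IsCompact K) (p : ℝ≥0∞) : MemLp f p (volume.restrict K) := by
  have hfin : IsFiniteMeasure (volume.restrict K) := ⟨by simpa using hK.measure_lt_top⟩
  obtain ⟨M, hM⟩ := hK.exists_bound_of_continuousOn hf.continuousOn
  exact MemLp.of_bound hf.aestronglyMeasurable M
    (ae_restrict_of_forall_mem hK.measurableSet hM)

/-- the `L¹` norm and the integral of the norm -/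
theorem KA_toReal {α X : Type} [MeasurableSpace α] [NormedAddCommGroup X] (μ : Measure α)
    (f : ℕ → α → X) (hm : ∀ j, AEStronglyMeasurable (f j) μ)
    (h : Tendsto (fun j => eLpNorm (f j) 1 μ) atTop (𝓝 0)) :
    Tendsto (fun j => ∫ x, ‖f j x‖ ∂μ) atTop (𝓝 0) := by
  have h1 : ∀ j, ∫ x, ‖f j x‖ ∂μ = (eLpNorm (f j) 1 μ).toReal := by
    intro j
    rw [eLpNorm_one_eq_lintegral_enorm, integral_norm_eq_lintegral_enorm (hm j)]
  simp only [h1]
  have h2 := (ENNReal.tendsto_toReal ENNReal.zero_ne_top).comp h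
  rw [ENNReal.toReal_zero] at h2
  exact h2

/-- the slices of finitely many sequences -/
theorem KA_iter {α β X ι : Type} [MeasurableSpace α] [MeasurableSpace β] [NormedAddCommGroup X]
    (μ : Measure α) (ν : Measure β) [SFinite μ] [SFinite ν] {p : ℝ≥0∞} (hp0 : p ≠ 0)
    (hpt : p ≠ ⊤) (f : ι → ℕ → α × β → X) (f₀ : ι → α × β → X)
    (hf : ∀ i j, MemLp (f i j) p (μ.prod ν)) (hf₀ : ∀ i, MemLp (f₀ i) p (μ.prod ν))
    (ht : ∀ i, Tendsto (fun j => eLpNorm (fun x => f i j x - f₀ i x) p (μ.prod ν)) atTop (𝓝 0))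
    (s : Finset ι) :
    ∃ ns : ℕ → ℕ, StrictMono ns ∧ ∀ i ∈ s, ∀ᵐ t ∂ν,
      Tendsto (fun j => eLpNorm (fun y => f i (ns j) (y, t) - f₀ i (y, t)) p μ) atTop (𝓝 0) := by
  classical
  induction s using Finset.induction_on with
  | empty => exact ⟨id, strictMono_id, fun i hi => absurd hi (Finset.notMem_empty i)⟩
  | insert i s _ ih =>
    obtain ⟨ns, hns, h1⟩ := ih
    obtain ⟨ns', hns', h2, -⟩ := SUB_main μ ν hp0 hpt (fun j => f i (ns j)) (f₀ i)
      (fun j => hf i _) (hf₀ i) ((ht i).comp hns.tendsto_atTop)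
    refine ⟨ns ∘ ns', hns.comp hns', fun k hk => ?_⟩
    rcases Finset.mem_insert.1 hk with rfl | hk
    · filter_upwards [h2] with t ht1
      exact ht1.2
    · filter_upwards [h1 k hk] with t ht1
      exact ht1.comp hns'.tendsto_atTop

/-- the approximations, with the curvatures on the slice -/
theorem KA_all (hAPC : Stmt_APC) (𝔐 : Type) [NormedRing 𝔐] [NormedAlgebra ℝ 𝔐] [StarRing 𝔐]
    [CStarRing 𝔐] [StarModule ℝ 𝔐] [FiniteDimensional ℝ 𝔐] (𝒢 : LieG 𝔐) (V : Type)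
    [NormedAddCommGroup V] [NormedSpace ℝ V] [FiniteDimensional ℝ V] [MeasureSpace V]
    [BorelSpace V] [(volume : Measure V).IsAddHaarMeasure] (W : Set (V × ℝ))
    (A : V × ℝ → V × ℝ →L[ℝ] 𝔐) (F : V × ℝ → (V × ℝ) [⋀^Fin 2]→L[ℝ] 𝔐) (K : Set V) (a b : ℝ)
    (hW : IsOpen W) (hC : Conn 𝒢 W A F) (hK : IsCompact K) (hab : a < b)
    (hKW : K ×ˢ Icc a b ⊆ W) (hF : ∀ᵐ p ∂(volume.restrict W), ∀ v, F p ![(0, 1), v] = 0) :
    ∃ (B : ℕ → V × ℝ → V × ℝ →L[ℝ] 𝔐) (t₀ : ℝ), t₀ ∈ Icc a b ∧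
    (∀ j, ContDiff ℝ ∞ (B j)) ∧ (∀ j, HasCompactSupport (B j)) ∧ (∀ j x v, B j x v ∈ 𝒢.lie) ∧
    Tendsto (fun j => eLpNorm (fun x => B j x - A x) 2 (volume.restrict (K ×ˢ Icc a b)))
      atTop (𝓝 0) ∧
    MemLp (fun y => A (y, t₀)) 2 (volume.restrict K) ∧
    (∀ᵐ y ∂(volume.restrict K), ∀ v, A (y, t₀) v ∈ 𝒢.lie) ∧
    Tendsto (fun j => eLpNorm (fun y => B j (y, t₀) - A (y, t₀)) 2 (volume.restrict K))
      atTop (𝓝 0) ∧
    (∀ᵐ y ∂(volume.restrict K), Tendsto (fun q : ℕ × ℕ =>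
      ∫ s in Icc a b, ‖B q.1 (y, s) - B q.2 (y, s)‖) atTop (𝓝 0)) ∧
    (∀ v : V, Tendsto (fun j => ∫ y in K, ∫ s in Icc a b, ‖cur (B j) (y, s) (0, 1) (v, 0)‖)
      atTop (𝓝 0)) ∧
    MemLp (fun y => F (y, t₀)) 2 (volume.restrict K) ∧
    ∀ u v : V, Tendsto (fun j => eLpNorm (fun y => cur (B j) (y, t₀) (u, 0) (v, 0) -
      F (y, t₀) ![(u, 0), (v, 0)]) 1 (volume.restrict K)) atTop (𝓝 0) := by
  have hKc : IsCompact (K ×ˢ Icc a b) := hK.prod isCompact_Icc
  obtain ⟨B, hBs, hBc, hBl, hB2, hBF⟩ := hAPC 𝔐 𝒢 (V × ℝ) W A F hW hC (K ×ˢ Icc a b) hKc hKW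
  have hB2' := hB2
  have hBF' := hBF
  have hAm := hC.A2 _ hKc hKW
  have hFm := hC.F2 _ hKc hKW
  have hBm : ∀ j, MemLp (B j) 2 (volume.restrict (K ×ˢ Icc a b)) := fun j =>
    KA_cont (B j) (hBs j).continuous hKc 2
  have hcm : ∀ (u v : V × ℝ) (j : ℕ), MemLp (fun x => cur (B j) x u v) 1
      (volume.restrict (K ×ˢ Icc a b)) := fun u v j =>
    KA_cont _ (PBC_cur_cont (hBs j) u v) hKc 1
  have hfK : IsFiniteMeasure ((volume : Measure V).restrict K) :=
    ⟨by simpa using hK.measure_lt_top⟩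
  have hfI : IsFiniteMeasure ((volume : Measure ℝ).restrict (Icc a b)) := ⟨by simp⟩
  have hfKI : IsFiniteMeasure ((volume : Measure (V × ℝ)).restrict (K ×ˢ Icc a b)) :=
    ⟨by simpa using hKc.measure_lt_top⟩
  have hFm1 : ∀ u v : V × ℝ, MemLp (fun x => F x ![u, v]) 1
      (volume.restrict (K ×ˢ Icc a b)) := fun u v =>
    MemLp.mono_exponent ((ContinuousAlternatingMap.apply ℝ (V × ℝ) 𝔐 ![u, v]).comp_memLp' hFm)
      (by norm_num)
  have hlie : ∀ᵐ x ∂(volume.restrict (K ×ˢ Icc a b)), ∀ v, A x v ∈ 𝒢.lie :=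
    ae_mono (Measure.restrict_mono hKW le_rfl) hC.lie
  have hF0 : ∀ᵐ x ∂(volume.restrict (K ×ˢ Icc a b)), ∀ v, F x ![(0, 1), v] = 0 :=
    ae_mono (Measure.restrict_mono hKW le_rfl) hF
  have hprod : (volume : Measure (V × ℝ)).restrict (K ×ˢ Icc a b) =
      ((volume : Measure V).restrict K).prod ((volume : Measure ℝ).restrict (Icc a b)) := by
    rw [Measure.prod_restrict, ← Measure.volume_eq_prod]
  -- the last line but two
  have hcur : ∀ v : V, Tendsto (fun j => ∫ y in K, ∫ s in Icc a b,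
      ‖cur (B j) (y, s) (0, 1) (v, 0)‖) atTop (𝓝 0) := by
    intro v
    have h1 := hBF (0, 1) (v, 0)
    have h2 : ∀ j, eLpNorm (fun x => cur (B j) x (0, 1) (v, 0) - F x ![(0, 1), (v, 0)]) 1
        (volume.restrict (K ×ˢ Icc a b)) = eLpNorm (fun x => cur (B j) x (0, 1) (v, 0)) 1
        (volume.restrict (K ×ˢ Icc a b)) := by
      intro j
      refine eLpNorm_congr_ae ?_
      filter_upwards [hF0] with x hx
      rw [hx, sub_zero]
    simp only [h2] at h1
    have h3 := KA_toReal _ _ (fun j => (hcm (0, 1) (v, 0) j).1) h1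
    refine h3.congr fun j => ?_
    have h4 : Integrable (fun x => ‖cur (B j) x (0, 1) (v, 0)‖)
        (volume.restrict (K ×ˢ Icc a b)) :=
      ((memLp_one_iff_integrable.1 (hcm (0, 1) (v, 0) j))).norm
    rw [hprod] at h4 ⊢
    exact integral_prod _ h4
  rw [hprod] at hAm hFm hB2 hlie
  simp only [hprod] at hBm hcm hFm1 hBF
  obtain ⟨ns₁, hns₁, hA1, hA2⟩ := SUB_main _ _ (by norm_num) (by norm_num) B A hBm hAm hB2
  obtain ⟨ns₂, hns₂, hF1⟩ := KA_iter ((volume : Measure V).restrict K)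
    ((volume : Measure ℝ).restrict (Icc a b)) one_ne_zero ENNReal.one_ne_top
    (fun (i : Fin (Module.finrank ℝ (V × ℝ)) × Fin (Module.finrank ℝ (V × ℝ))) (j : ℕ)
      (x : V × ℝ) => cur (B (ns₁ j)) x (Module.finBasis ℝ (V × ℝ) i.1)
        (Module.finBasis ℝ (V × ℝ) i.2))
    (fun i x => F x ![Module.finBasis ℝ (V × ℝ) i.1, Module.finBasis ℝ (V × ℝ) i.2])
    (fun i j => hcm _ _ _) (fun i => hFm1 _ _)
    (fun i => (hBF _ _).comp hns₁.tendsto_atTop) Finset.univ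
  have hF2 : ∀ᵐ t ∂((volume : Measure ℝ).restrict (Icc a b)),
      ∀ i : Fin (Module.finrank ℝ (V × ℝ)) × Fin (Module.finrank ℝ (V × ℝ)),
      Tendsto (fun j => eLpNorm (fun y => cur (B (ns₁ (ns₂ j))) (y, t)
        (Module.finBasis ℝ (V × ℝ) i.1) (Module.finBasis ℝ (V × ℝ) i.2) -
        F (y, t) ![Module.finBasis ℝ (V × ℝ) i.1, Module.finBasis ℝ (V × ℝ) i.2]) 1
        ((volume : Measure V).restrict K)) atTop (𝓝 0) :=
    ae_all_iff.2 fun i => hF1 i (Finset.mem_univ i)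
  have hF3 : ∀ᵐ t ∂((volume : Measure ℝ).restrict (Icc a b)),
      MemLp (fun y => F (y, t)) 2 ((volume : Measure V).restrict K) :=
    SUB_mem ((volume : Measure ℝ).restrict (Icc a b)) ((volume : Measure V).restrict K)
      (by norm_num) (by norm_num) (fun z => F z.swap)
      (hFm.comp_measurePreserving Measure.measurePreserving_swap)
  have hl2 : ∀ᵐ t ∂((volume : Measure ℝ).restrict (Icc a b)),
      ∀ᵐ y ∂((volume : Measure V).restrict K), ∀ v, A (y, t) v ∈ 𝒢.lie := by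
    have h1 := (Measure.measurePreserving_swap (μ := (volume : Measure ℝ).restrict (Icc a b))
      (ν := (volume : Measure V).restrict K)).quasiMeasurePreserving.ae hlie
    exact Measure.ae_ae_of_ae_prod h1
  have hI : ∀ᵐ t ∂((volume : Measure ℝ).restrict (Icc a b)), t ∈ Icc a b :=
    ae_restrict_mem measurableSet_Icc
  have hne : NeBot (ae ((volume : Measure ℝ).restrict (Icc a b))) := by
    rw [ae_neBot, Ne, Measure.restrict_eq_zero, Real.volume_Icc]
    simp [hab]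
  obtain ⟨t₀, ht₀, ⟨hAt, hBt⟩, hFt, hFt2, hlt⟩ :=
    (hI.and (hA1.and (hF2.and (hF3.and hl2)))).exists
  refine ⟨fun j => B (ns₁ (ns₂ j)), t₀, ht₀, fun j => hBs _, fun j => hBc _,
    fun j x v => hBl _ x v, ?_, hAt, hlt, ?_, ?_, ?_, hFt2, ?_⟩
  · exact hB2'.comp (hns₁.comp hns₂).tendsto_atTop
  · exact hBt.comp hns₂.tendsto_atTop
  · filter_upwards [hA2] with y hy
    obtain ⟨hy1, hy2⟩ := hy
    have hBy : ∀ j, Continuous fun s : ℝ => B j (y, s) := fun j =>
      (hBs j).continuous.comp (by fun_prop)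
    have hm1 : ∀ j, AEStronglyMeasurable (fun s => B j (y, s) - A (y, s))
        ((volume : Measure ℝ).restrict (Icc a b)) := fun j =>
      (hBy j).aestronglyMeasurable.sub hy1.1
    have h1 := KA_toReal _ _ (fun j => hm1 (ns₁ j)) (KA_21 _ _ (fun j => hm1 (ns₁ j)) hy2)
    have h2 := h1.comp hns₂.tendsto_atTop
    have h3 : Tendsto (fun q : ℕ × ℕ =>
        (∫ s in Icc a b, ‖B (ns₁ (ns₂ q.1)) (y, s) - A (y, s)‖) +
        ∫ s in Icc a b, ‖B (ns₁ (ns₂ q.2)) (y, s) - A (y, s)‖) atTop (𝓝 0) := by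
      have h4 : Tendsto (fun q : ℕ × ℕ => q.1) atTop atTop := by
        rw [← prod_atTop_atTop_eq]
        exact tendsto_fst
      have h5 : Tendsto (fun q : ℕ × ℕ => q.2) atTop atTop := by
        rw [← prod_atTop_atTop_eq]
        exact tendsto_snd
      have h6 := (h2.comp h4).add (h2.comp h5)
      rw [add_zero] at h6
      exact h6
    have hi : ∀ j, Integrable (fun s => B j (y, s) - A (y, s))
        ((volume : Measure ℝ).restrict (Icc a b)) := by
      intro j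
      have h7 : MemLp (fun s => B j (y, s)) 2 ((volume : Measure ℝ).restrict (Icc a b)) :=
        KA_cont _ (hBy j) isCompact_Icc 2
      exact (h7.sub hy1).integrable (by norm_num)
    refine squeeze_zero (fun q => integral_nonneg fun s => norm_nonneg _) (fun q => ?_) h3
    rw [← integral_add (hi _).norm (hi _).norm]
    refine integral_mono_of_nonneg (Eventually.of_forall fun s => norm_nonneg _)
      ((hi _).norm.add (hi _).norm) (Eventually.of_forall fun s => ?_)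
    have h8 : B (ns₁ (ns₂ q.1)) (y, s) - B (ns₁ (ns₂ q.2)) (y, s) =
        (B (ns₁ (ns₂ q.1)) (y, s) - A (y, s)) - (B (ns₁ (ns₂ q.2)) (y, s) - A (y, s)) := by
      abel
    show ‖B (ns₁ (ns₂ q.1)) (y, s) - B (ns₁ (ns₂ q.2)) (y, s)‖ ≤ _
    rw [h8]
    exact norm_sub_le _ _
  · intro v
    exact (hcur v).comp (hns₁.comp hns₂).tendsto_atTop
  · intro u v
    have hmeas : ∀ (j : ℕ) (p q : V × ℝ), AEStronglyMeasurable
        (fun y => cur (B j) (y, t₀) p q - F (y, t₀) ![p, q])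
        ((volume : Measure V).restrict K) := by
      intro j p q
      have h1 : Continuous fun y : V => cur (B j) (y, t₀) p q :=
        (PBC_cur_cont (hBs j) p q).comp (by fun_prop)
      exact h1.aestronglyMeasurable.sub
        ((ContinuousAlternatingMap.apply ℝ (V × ℝ) 𝔐 ![p, q]).comp_memLp' hFt2).1
    set e := Module.finBasis ℝ (V × ℝ) with he
    have h1 : Tendsto (fun j => ∑ i, ∑ k, ‖|e.coord i (u, 0)| * |e.coord k (v, 0)|‖ₑ *
        eLpNorm (fun y => cur (B (ns₁ (ns₂ j))) (y, t₀) (e i) (e k) -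
          F (y, t₀) ![e i, e k]) 1 (volume.restrict K)) atTop (𝓝 0) := by
      have h2 : ∀ i k, Tendsto (fun j => ‖|e.coord i (u, 0)| * |e.coord k (v, 0)|‖ₑ *
        eLpNorm (fun y => cur (B (ns₁ (ns₂ j))) (y, t₀) (e i) (e k) -
          F (y, t₀) ![e i, e k]) 1 (volume.restrict K)) atTop (𝓝 0) := by
        intro i k
        have h3 := ENNReal.Tendsto.const_mul (hFt (i, k))
          (a := ‖|e.coord i (u, 0)| * |e.coord k (v, 0)|‖ₑ) (Or.inr enorm_ne_top)
        simpa using h3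
      have h4 := tendsto_finsetSum (Finset.univ) fun i (_ : i ∈ (Finset.univ : Finset (Fin
        (Module.finrank ℝ (V × ℝ))))) => tendsto_finsetSum (Finset.univ) fun k (_ : k ∈
        (Finset.univ : Finset (Fin (Module.finrank ℝ (V × ℝ))))) => h2 i k
      simpa using h4
    refine tendsto_of_tendsto_of_tendsto_of_le_of_le tendsto_const_nhds h1 (fun _ => zero_le)
      fun j => ?_
    show eLpNorm (fun y => cur (B (ns₁ (ns₂ j))) (y, t₀) (u, 0) (v, 0) -
      F (y, t₀) ![(u, 0), (v, 0)]) 1 (volume.restrict K) ≤ _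
    refine (eLpNorm_mono_real (g := fun y => ∑ i, ∑ k, |e.coord i (u, 0)| *
      |e.coord k (v, 0)| * ‖cur (B (ns₁ (ns₂ j))) (y, t₀) (e i) (e k) -
        F (y, t₀) ![e i, e k]‖) fun y => PBC_expand e _ _ _ _ _).trans ?_
    have e2 : (fun y => ∑ i, ∑ k, |e.coord i (u, 0)| *
      |e.coord k (v, 0)| * ‖cur (B (ns₁ (ns₂ j))) (y, t₀) (e i) (e k) -
        F (y, t₀) ![e i, e k]‖) =
        ∑ i, ∑ k, fun y => |e.coord i (u, 0)| *
      |e.coord k (v, 0)| * ‖cur (B (ns₁ (ns₂ j))) (y, t₀) (e i) (e k) -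
        F (y, t₀) ![e i, e k]‖ := by
      funext y
      simp only [Finset.sum_apply]
    rw [e2]
    refine (eLpNorm_sum_le (fun i _ => ?_) le_rfl).trans (Finset.sum_le_sum fun i _ => ?_)
    · exact Finset.aestronglyMeasurable_sum _ fun k _ =>
        ((hmeas _ _ _).norm.const_mul _)
    · refine (eLpNorm_sum_le (fun k _ => (hmeas _ _ _).norm.const_mul _) le_rfl).trans
        (Finset.sum_le_sum fun k _ => ?_)
      have h5 := eLpNorm_const_smul (|e.coord i (u, 0)| * |e.coord k (v, 0)|)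
        (fun y => ‖cur (B (ns₁ (ns₂ j))) (y, t₀) (e i) (e k) - F (y, t₀) ![e i, e k]‖) 1
        (volume.restrict K)
      rw [eLpNorm_norm] at h5
      exact h5.le

theorem p_KA (hAPC : Stmt_APC) (_hSUB : Stmt_SUB) : Stmt_KA := by
  intro 𝔐 _ _ _ _ _ _ 𝒢 V _ _ _ _ _ _ W A F K a b hW hC hK hab hKW hF
  obtain ⟨B, t₀, h1, h2, h3, h4, h5, h6, h7, h8, h9, h10, -, -⟩ :=
    KA_all hAPC 𝔐 𝒢 V W A F K a b hW hC hK hab hKW hF
  exact ⟨B, t₀, h1, h2, h3, h4, h5, h6, h7, h8, h9, h10⟩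

end Pool.TIA
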