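import Pool.Agent.Work.MP_a1f430_ti.Interface

/-! # Block KB: the derivative of the temporal gauge in the parameter -/

set_option autoImplicit false

namespace Pool.TIA

open MeasureTheory Set Filter Topology
open scoped ContDiff ENNReal

/-- The path in the direction of the time. -/
theorem KB_path {V : Type} [NormedAddCommGroup V] [NormedSpace ℝ V] (y : V) (s : ℝ) :
    HasDerivAt (fun s : ℝ => ((y, s) : V × ℝ)) ((0 : V), (1 : ℝ)) s :=
  (hasDerivAt_const s y).prodMk (hasDerivAt_id s)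

/-- The path in the direction of the parameter. -/
theorem KB_path2 {V : Type} [NormedAddCommGroup V] [NormedSpace ℝ V] (y v : V) (s : ℝ) :
    HasDerivAt (fun r : ℝ => ((y + r • v, s) : V × ℝ)) (v, (0 : ℝ)) 0 := by
  have h1 : HasDerivAt (fun r : ℝ => y + r • v) v 0 := by
    have h := ((hasDerivAt_id (0 : ℝ)).smul_const v).const_add y
    simpa using h
  exact h1.prodMk (hasDerivAt_const 0 s)

section

variable {𝔐 : Type} [NormedRing 𝔐] [NormedAlgebra ℝ 𝔐]
variable {V : Type} [NormedAddCommGroup V] [NormedSpace ℝ V]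

/-- The mixed second derivative. -/
theorem KB_mix (A : V × ℝ → V × ℝ →L[ℝ] 𝔐) (g : V × ℝ → 𝔐) (hA : ContDiff ℝ ∞ A)
    (hg : ContDiff ℝ ∞ g)
    (hode : ∀ y t, HasDerivAt (fun s => g (y, s)) (-(A (y, t) (0, 1) * g (y, t))) t)
    (p : V × ℝ) (u : V × ℝ) :
    fderiv ℝ (fderiv ℝ g) p (0, 1) u =
      -(fderiv ℝ A p u (0, 1) * g p + A p (0, 1) * fderiv ℝ g p u) := by
  have hgd : Differentiable ℝ g := hg.differentiable (by simp)
  have hAd : Differentiable ℝ A := hA.differentiable (by simp)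
  have h_t : ∀ q : V × ℝ, fderiv ℝ g q (0, 1) = -(A q (0, 1) * g q) := by
    rintro ⟨y, s⟩
    have h1 : HasDerivAt (fun s => g (y, s)) (fderiv ℝ g (y, s) (0, 1)) s :=
      (hgd (y, s)).hasFDerivAt.comp_hasDerivAt s (KB_path y s)
    exact h1.unique (hode y s)
  have hd2 : Differentiable ℝ (fderiv ℝ g) :=
    (hg.fderiv_right (m := 1) (by norm_cast)).differentiable (by simp)
  have hsym : fderiv ℝ (fderiv ℝ g) p (0, 1) u = fderiv ℝ (fderiv ℝ g) p u (0, 1) := by
    have h2 : IsSymmSndFDerivAt ℝ g p :=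
      (hg.contDiffAt (x := p)).isSymmSndFDerivAt (by
        simp only [minSmoothness_of_isRCLikeNormedField]
        exact WithTop.coe_le_coe.2 le_top)
    exact h2.eq _ _
  rw [hsym]
  have h3 : HasFDerivAt (fun q => fderiv ℝ g q (0, 1))
      ((fderiv ℝ (fderiv ℝ g) p).flip (0, 1)) p := by
    have h := (hd2 p).hasFDerivAt.clm_apply (hasFDerivAt_const ((0 : V), (1 : ℝ)) p)
    simpa using h
  have h4 : HasFDerivAt (fun q => A q (0, 1)) ((fderiv ℝ A p).flip (0, 1)) p := by
    have h := (hAd p).hasFDerivAt.clm_apply (hasFDerivAt_const ((0 : V), (1 : ℝ)) p)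
    simpa using h
  have h5 := (h4.mul' (hgd p).hasFDerivAt).neg
  have h6 : (fun q => fderiv ℝ g q (0, 1)) = fun q => -(A q (0, 1) * g q) := funext h_t
  rw [h6] at h3
  have h7 := h3.unique h5
  have h8 := congrArg (fun L : V × ℝ →L[ℝ] 𝔐 => L u) h7
  simp only [ContinuousLinearMap.flip_apply] at h8
  rw [h8]
  simp [add_comm]

end

theorem p_KB (h1 : Stmt_LIE) : Stmt_KB := by
  intro 𝔐 _ _ _ _ _ _ 𝒢 V _ _ _ A g a b t₀ hA hlie hg hG hg0 hode ht₀ y v t ht
  obtain ⟨hL1, hL2, hL3⟩ := h1 𝔐 𝒢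
  have hgd : Differentiable ℝ g := hg.differentiable (by simp)
  have hAd : Differentiable ℝ A := hA.differentiable (by simp)
  have hd2 : Differentiable ℝ (fderiv ℝ g) :=
    (hg.fderiv_right (m := 1) (by norm_cast)).differentiable (by simp)
  -- the function `w`
  set w : ℝ → 𝔐 := fun s => fderiv ℝ g (y, s) (v, 0) -
      (g (y, s) * A (y, t₀) (v, 0) - A (y, s) (v, 0) * g (y, s)) with hw
  have hAt : ∀ s, HasDerivAt (fun s => A (y, s) (v, 0)) (fderiv ℝ A (y, s) (0, 1) (v, 0)) s := by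
    intro s
    have h2 : HasDerivAt (fun s => A (y, s)) (fderiv ℝ A (y, s) (0, 1)) s :=
      (hAd (y, s)).hasFDerivAt.comp_hasDerivAt s (KB_path y s)
    have h3 := h2.clm_apply (hasDerivAt_const s ((v, 0) : V × ℝ))
    simpa using h3
  have hDt : ∀ s, HasDerivAt (fun s => fderiv ℝ g (y, s) (v, 0))
      (-(fderiv ℝ A (y, s) (v, 0) (0, 1) * g (y, s) +
        A (y, s) (0, 1) * fderiv ℝ g (y, s) (v, 0))) s := by
    intro s
    have h2 : HasDerivAt (fun s => fderiv ℝ g (y, s)) (fderiv ℝ (fderiv ℝ g) (y, s) (0, 1)) s :=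
      (hd2 (y, s)).hasFDerivAt.comp_hasDerivAt s (KB_path y s)
    have h3 := h2.clm_apply (hasDerivAt_const s ((v, 0) : V × ℝ))
    rw [← KB_mix A g hA hg hode (y, s) (v, 0)]
    simpa using h3
  have hwt : ∀ s, HasDerivAt w (cur A (y, s) (0, 1) (v, 0) * g (y, s) -
      A (y, s) (0, 1) * w s) s := by
    intro s
    have h2 := (hDt s).sub (((hode y s).mul_const (A (y, t₀) (v, 0))).sub
      ((hAt s).mul (hode y s)))
    refine h2.congr_deriv ?_
    simp only [hw, cur]
    noncomm_ring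
  have hgs : ∀ s, HasDerivAt (fun s => star (g (y, s))) (star (g (y, s)) * A (y, s) (0, 1)) s := by
    intro s
    have h2 := (hode y s).star
    refine h2.congr_deriv ?_
    rw [star_neg, star_mul, hL1 _ (hlie _ _)]
    noncomm_ring
  have hprod : ∀ s, HasDerivAt (fun s => star (g (y, s)) * w s)
      (star (g (y, s)) * cur A (y, s) (0, 1) (v, 0) * g (y, s)) s := by
    intro s
    refine ((hgs s).mul (hwt s)).congr_deriv ?_
    noncomm_ring
  have hw0 : w t₀ = 0 := by
    have h2 : fderiv ℝ g (y, t₀) (v, 0) = 0 := by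
      have h3 : HasDerivAt (fun r : ℝ => g (y + r • v, t₀)) (fderiv ℝ g (y, t₀) (v, 0)) 0 := by
        have h4 : HasFDerivAt g (fderiv ℝ g (y, t₀)) (y + (0 : ℝ) • v, t₀) := by
          simpa using (hgd (y, t₀)).hasFDerivAt
        exact h4.comp_hasDerivAt (0 : ℝ) (KB_path2 y v t₀)
      have h5 : (fun r : ℝ => g (y + r • v, t₀)) = fun _ => (1 : 𝔐) := by
        funext r
        exact hg0 _
      rw [h5] at h3
      exact h3.unique (hasDerivAt_const 0 (1 : 𝔐))
    simp only [hw, h2, hg0]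
    simp
  have hcc : Continuous fun s : ℝ => cur A (y, s) (0, 1) (v, 0) := by
    have h2 : Continuous (fun s : ℝ => ((y, s) : V × ℝ)) := by fun_prop
    have h3 : Continuous (fderiv ℝ A) := hA.continuous_fderiv (by simp)
    have h4 : Continuous fun s : ℝ => fderiv ℝ A (y, s) := h3.comp h2
    have h5 : Continuous fun s : ℝ => A (y, s) := hA.continuous.comp h2
    unfold cur
    fun_prop
  have hgc : Continuous fun s : ℝ => g (y, s) := by
    have h2 : Continuous (fun s : ℝ => ((y, s) : V × ℝ)) := by fun_prop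
    exact hg.continuous.comp h2
  have hnorm : ∀ s, ‖star (g (y, s)) * cur A (y, s) (0, 1) (v, 0) * g (y, s)‖ =
      ‖cur A (y, s) (0, 1) (v, 0)‖ := by
    intro s
    rw [(hL3 _ (hG _) _).2, (hL3 _ (𝒢.star_mem _ (hG _)) _).1]
  have hint : IntervalIntegrable
      (fun s => star (g (y, s)) * cur A (y, s) (0, 1) (v, 0) * g (y, s)) volume t₀ t := by
    apply Continuous.intervalIntegrable
    exact ((continuous_star.comp hgc).mul hcc).mul hgc
  have hftc := intervalIntegral.integral_eq_sub_of_hasDerivAt (fun s _ => hprod s) hint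
  have hwt2 : star (g (y, t)) * w t =
      ∫ s in t₀..t, star (g (y, s)) * cur A (y, s) (0, 1) (v, 0) * g (y, s) := by
    rw [hftc, hw0]
    simp
  have h9 : ‖w t‖ = ‖star (g (y, t)) * w t‖ := ((hL3 _ (𝒢.star_mem _ (hG _)) _).1).symm
  change ‖w t‖ ≤ _
  rw [h9, hwt2]
  have h10 : ‖∫ s in t₀..t, star (g (y, s)) * cur A (y, s) (0, 1) (v, 0) * g (y, s)‖ ≤
      ∫ s in Set.uIoc t₀ t, ‖star (g (y, s)) * cur A (y, s) (0, 1) (v, 0) * g (y, s)‖ :=
    intervalIntegral.norm_integral_le_integral_norm_uIoc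
  refine h10.trans ?_
  simp only [hnorm]
  apply setIntegral_mono_set
  · exact (hcc.norm.continuousOn.integrableOn_compact isCompact_Icc)
  · exact Eventually.of_forall fun s => norm_nonneg _
  · refine Eventually.of_forall ?_
    intro s hs'
    have hs : s ∈ Set.uIoc t₀ t := hs'
    change s ∈ Icc a b
    rw [Set.mem_uIoc] at hs
    rcases hs with hs | hs
    · exact ⟨ht₀.1.trans hs.1.le, hs.2.trans ht.2⟩
    · exact ⟨ht.1.trans hs.1.le, hs.2.trans ht₀.2⟩

end Pool.TIA
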