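import Pool.Agent.Work.MP_a1f430_ti.Interface

/-!
# Block AL1: the curvature is annihilated by `T` if `Ω` is divisible by `T`
-/

set_option autoImplicit false

namespace Pool.TIA

open MeasureTheory Set Filter Topology
open scoped ContDiff ENNReal

/-- The wedge product vanishes on vectors on which the first form vanishes. -/
theorem AL1_wdg {𝔐 : Type} [NormedRing 𝔐] [NormedAlgebra ℝ 𝔐] {m : ℕ} {E : Type}
    [NormedAddCommGroup E] [NormedSpace ℝ E] (Ω : E [⋀^Fin m]→L[ℝ] ℝ)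
    (F : E [⋀^Fin 2]→L[ℝ] 𝔐) (v : Fin m ⊕ Fin 2 → E)
    (h : ∀ f : Fin m → Fin m ⊕ Fin 2, Ω (fun i => v (f i)) = 0) : wdg Ω F v = 0 := by
  unfold wdg
  have h1 : Ω.toAlternatingMap.domCoprod F.toAlternatingMap v = 0 := by
    show (⇑(∑ σ : Equiv.Perm.ModSumCongr (Fin m) (Fin 2),
      AlternatingMap.domCoprod.summand Ω.toAlternatingMap F.toAlternatingMap σ)) v = 0
    rw [_root_.sum_apply]
    apply Finset.sum_eq_zero
    intro σ _
    induction σ using Quotient.inductionOn' with | _ σ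
    rw [AlternatingMap.domCoprod.summand_mk'', _root_.smul_apply,
      MultilinearMap.domDomCongr_apply, MultilinearMap.domCoprod_apply]
    have h2 : (Ω.toAlternatingMap : MultilinearMap ℝ (fun _ : Fin m => E) ℝ)
        (fun i => v (σ (Sum.inl i))) = 0 := h fun i => σ (Sum.inl i)
    rw [h2, TensorProduct.zero_tmul, smul_zero]
  rw [h1, map_zero]

theorem AL1_upd {E : Type} (a b c : E) : Function.update ![a, b] 1 c = ![a, c] := by
  funext i
  fin_cases i <;> rfl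

theorem AL1_upd0 {E : Type} (a b c : E) : Function.update ![a, b] 0 c = ![c, b] := by
  funext i
  fin_cases i <;> rfl

theorem AL1_add {𝔐 E : Type} [NormedRing 𝔐] [NormedAlgebra ℝ 𝔐] [NormedAddCommGroup E]
    [NormedSpace ℝ E] (F : E [⋀^Fin 2]→L[ℝ] 𝔐) (a b c : E) :
    F ![a, b + c] = F ![a, b] + F ![a, c] := by
  have h := F.toAlternatingMap.map_update_add ![a, b] 1 b c
  rw [AL1_upd, AL1_upd, AL1_upd] at h
  exact h

theorem AL1_smul {𝔐 E : Type} [NormedRing 𝔐] [NormedAlgebra ℝ 𝔐] [NormedAddCommGroup E]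
    [NormedSpace ℝ E] (F : E [⋀^Fin 2]→L[ℝ] 𝔐) (a b : E) (c : ℝ) :
    F ![a, c • b] = c • F ![a, b] := by
  have h := F.toAlternatingMap.map_update_smul ![a, b] 1 c b
  rw [AL1_upd, AL1_upd] at h
  exact h

theorem AL1_smul0 {𝔐 E : Type} [NormedRing 𝔐] [NormedAlgebra ℝ 𝔐] [NormedAddCommGroup E]
    [NormedSpace ℝ E] (F : E [⋀^Fin 2]→L[ℝ] 𝔐) (a b : E) (c : ℝ) :
    F ![c • a, b] = c • F ![a, b] := by
  have h := F.toAlternatingMap.map_update_smul ![a, b] 0 c a
  rw [AL1_upd0, AL1_upd0] at h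
  exact h

theorem AL1_self {𝔐 E : Type} [NormedRing 𝔐] [NormedAlgebra ℝ 𝔐] [NormedAddCommGroup E]
    [NormedSpace ℝ E] (F : E [⋀^Fin 2]→L[ℝ] 𝔐) (a : E) : F ![a, a] = 0 :=
  F.toAlternatingMap.map_eq_zero_of_eq ![a, a] (i := 0) (j := 1) rfl (by decide)

theorem p_AL1 (hFRM : Stmt_FRM) : Stmt_AL1 := by
  intro 𝔐 _ _ m h Ω F T hsym hpos hstar hdiv w
  by_cases hT : T = 0
  · have h1 := AL1_smul0 F T w 0
    rw [zero_smul, zero_smul] at h1
    rw [hT]
    exact h1
  have hTT := hpos T hT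
  -- the component orthogonal to `T`
  obtain ⟨w', hw'⟩ : ∃ w', w' = w - (h T w / h T T) • T := ⟨_, rfl⟩
  have hw : w = w' + (h T w / h T T) • T := by
    rw [hw', sub_add_cancel]
  have horth : h T w' = 0 := by
    rw [hw', map_sub, map_smul, smul_eq_mul, div_mul_cancel₀ _ hTT.ne', sub_self]
  rw [hw, AL1_add, AL1_smul, AL1_self, smul_zero, add_zero]
  by_cases hw0 : w' = 0
  · have h1 := AL1_smul F T w' 0
    rw [zero_smul, zero_smul] at h1
    rw [hw0]
    exact h1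
  have hww := hpos w' hw0
  obtain ⟨a, ha⟩ : ∃ a, a = Real.sqrt (h T T) := ⟨_, rfl⟩
  obtain ⟨b, hb⟩ : ∃ b, b = Real.sqrt (h w' w') := ⟨_, rfl⟩
  have ha0 : 0 < a := by
    rw [ha]
    exact Real.sqrt_pos.2 hTT
  have hb0 : 0 < b := by
    rw [hb]
    exact Real.sqrt_pos.2 hww
  have haa : a * a = h T T := by
    rw [ha]
    exact Real.mul_self_sqrt hTT.le
  have hbb : b * b = h w' w' := by
    rw [hb]
    exact Real.mul_self_sqrt hww.le
  have hv1 : h (a⁻¹ • T) (a⁻¹ • T) = 1 := by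
    rw [map_smul, map_smul, _root_.smul_apply, smul_eq_mul, smul_eq_mul, ← haa]
    field_simp
  have hv2 : h (b⁻¹ • w') (b⁻¹ • w') = 1 := by
    rw [map_smul, map_smul, _root_.smul_apply, smul_eq_mul, smul_eq_mul, ← hbb]
    field_simp
  have hv3 : h (a⁻¹ • T) (b⁻¹ • w') = 0 := by
    rw [map_smul, map_smul, _root_.smul_apply, smul_eq_mul, smul_eq_mul, horth, mul_zero,
      mul_zero]
  obtain ⟨e, he, he0, he1⟩ := hFRM m h hsym hpos _ _ hv1 hv2 hv3
  have h1 := hstar e he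
  rw [he0, he1, AL1_smul0, AL1_smul] at h1
  have h2 : wdg Ω F (fun i => e (Sum.inl i)) = 0 := by
    apply AL1_wdg
    intro f
    apply hdiv
    intro i
    have h3 := he.orth (Sum.inr 0) (Sum.inl (f i))
    rw [he0, map_smul, _root_.smul_apply, smul_eq_mul, if_neg (by simp)] at h3
    rcases mul_eq_zero.1 h3 with h4 | h4
    · exact absurd h4 (inv_ne_zero ha0.ne')
    · exact h4
  rw [h2] at h1
  rcases smul_eq_zero.1 h1.symm with h3 | h3
  · exact absurd h3 (inv_ne_zero ha0.ne')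
  · rcases smul_eq_zero.1 h3 with h4 | h4
    · exact absurd h4 (inv_ne_zero hb0.ne')
    · exact h4

end Pool.TIA

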