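import Pool.Agent.Work.MP_a1f430_ti.Interface

/-! # Block AL2: near a zero of the form the curvature vanishes -/

set_option autoImplicit false

namespace Pool.TIA

open MeasureTheory Set Filter Topology
open scoped ContDiff ENNReal

/-- The number of the summands of the wedge product. -/
noncomputable def AL2_K (m : ℕ) : ℝ :=
  (Fintype.card (Equiv.Perm.ModSumCongr (Fin m) (Fin 2)) : ℝ)

theorem AL2_wdg {𝔐 : Type} [NormedRing 𝔐] [NormedAlgebra ℝ 𝔐] {m : ℕ} {E : Type}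
    [NormedAddCommGroup E] [NormedSpace ℝ E] (Ω : E [⋀^Fin m]→L[ℝ] ℝ) (F : E [⋀^Fin 2]→L[ℝ] 𝔐)
    (v : Fin m ⊕ Fin 2 → E) (a b : ℝ)
    (ha : ∀ τ : Equiv.Perm (Fin m ⊕ Fin 2), ‖Ω (fun i => v (τ (Sum.inl i)))‖ ≤ a)
    (hb : ∀ τ : Equiv.Perm (Fin m ⊕ Fin 2), ‖F (fun i => v (τ (Sum.inr i)))‖ ≤ b) :
    ‖wdg Ω F v‖ ≤ AL2_K m * (a * b) := by
  have h1 : wdg Ω F v = ∑ σ : Equiv.Perm.ModSumCongr (Fin m) (Fin 2), TensorProduct.lid ℝ 𝔐
      (AlternatingMap.domCoprod.summand Ω.toAlternatingMap F.toAlternatingMap σ v) := by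
    unfold wdg
    rw [AlternatingMap.domCoprod_apply, sum_apply, map_sum]
  have h2 : ∀ σ : Equiv.Perm.ModSumCongr (Fin m) (Fin 2), ‖TensorProduct.lid ℝ 𝔐
      (AlternatingMap.domCoprod.summand Ω.toAlternatingMap F.toAlternatingMap σ v)‖ ≤ a * b := by
    intro σ
    induction σ using Quotient.inductionOn' with | _ τ
    have h3 : TensorProduct.lid ℝ 𝔐
        (AlternatingMap.domCoprod.summand Ω.toAlternatingMap F.toAlternatingMap
          (Quotient.mk'' τ) v) = Equiv.Perm.sign τ •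
          (Ω (fun i => v (τ (Sum.inl i))) • F (fun i => v (τ (Sum.inr i)))) := by
      rw [AlternatingMap.domCoprod.summand_mk'']
      have h4 : (Equiv.Perm.sign τ • (MultilinearMap.domCoprod
          (Ω.toAlternatingMap : MultilinearMap ℝ (fun _ : Fin m => E) ℝ)
          (F.toAlternatingMap : MultilinearMap ℝ (fun _ : Fin 2 => E) 𝔐)).domDomCongr τ) v =
          Equiv.Perm.sign τ • (Ω (fun i => v (τ (Sum.inl i))) ⊗ₜ[ℝ]
            F (fun i => v (τ (Sum.inr i)))) := rfl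
      rw [h4]
      rcases Int.units_eq_one_or (Equiv.Perm.sign τ) with h | h
      · rw [h, one_smul, one_smul, TensorProduct.lid_tmul]
      · rw [h, Units.neg_smul, one_smul, map_neg, TensorProduct.lid_tmul, Units.neg_smul,
          one_smul]
    rw [h3]
    have h5 : ‖Equiv.Perm.sign τ •
          (Ω (fun i => v (τ (Sum.inl i))) • F (fun i => v (τ (Sum.inr i))))‖ =
        ‖Ω (fun i => v (τ (Sum.inl i)))‖ * ‖F (fun i => v (τ (Sum.inr i)))‖ := by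
      rcases Int.units_eq_one_or (Equiv.Perm.sign τ) with h | h
      · rw [h, one_smul, norm_smul]
      · rw [h, Units.neg_smul, one_smul, norm_neg, norm_smul]
    rw [h5]
    exact mul_le_mul (ha τ) (hb τ) (norm_nonneg _) ((norm_nonneg _).trans (ha τ))
  rw [h1]
  refine (norm_sum_le _ _).trans ((Finset.sum_le_card_nsmul _ _ (a * b) fun σ _ => h2 σ).trans ?_)
  rw [Finset.card_univ, nsmul_eq_mul]
  exact le_rfl

theorem AL2_bound {n : ℕ} (g : Eu (n + 1) →L[ℝ] Eu (n + 1) →L[ℝ] ℝ)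
    (hg : ∀ v, v ≠ 0 → 0 < g v v) : ∃ c : ℝ, 0 < c ∧ ∀ v, c * ‖v‖ ^ 2 ≤ g v v := by
  have hc : IsCompact (Metric.sphere (0 : Eu (n + 1)) 1) := isCompact_sphere _ _
  have hcont : ContinuousOn (fun v : Eu (n + 1) => g v v) (Metric.sphere 0 1) :=
    (g.continuous.clm_apply continuous_id).continuousOn
  obtain ⟨c, hc0, hc1⟩ := hc.exists_forall_le' hcont (a := 0) (by
    intro b hb
    apply hg
    rintro rfl
    simp at hb)
  refine ⟨c, hc0, fun v => ?_⟩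
  by_cases hv : v = 0
  · subst hv
    simp
  · have hn : ‖v‖ ≠ 0 := norm_ne_zero_iff.mpr hv
    have h1 := hc1 (‖v‖⁻¹ • v) (by
      rw [mem_sphere_zero_iff_norm, norm_smul, norm_inv, norm_norm, inv_mul_cancel₀ hn])
    rw [map_smul, map_smul, smul_apply, smul_eq_mul, smul_eq_mul] at h1
    have h2 : g v v = ‖v‖ ^ 2 * (‖v‖⁻¹ * (‖v‖⁻¹ * g v v)) := by
      field_simp
    rw [h2, mul_comm]
    exact mul_le_mul_of_nonneg_left h1 (by positivity)

theorem AL2_norm {n : ℕ} (g₀ g : Eu n →L[ℝ] Eu n →L[ℝ] ℝ) (c : ℝ) (hc : 0 < c)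
    (h0 : ∀ v, c * ‖v‖ ^ 2 ≤ g₀ v v) (hg : ‖g - g₀‖ < c / 2) (v : Eu n) (hv : g v v = 1) :
    ‖v‖ ≤ Real.sqrt (2 / c) := by
  have h1 := (g - g₀).le_opNorm₂ v v
  have h2 : (g - g₀) v v = g v v - g₀ v v := rfl
  rw [h2, hv, Real.norm_eq_abs] at h1
  have h3 := (abs_le.mp h1).1
  have h4 := h0 v
  have h5 : ‖g - g₀‖ * ‖v‖ * ‖v‖ ≤ c / 2 * ‖v‖ ^ 2 := by
    rw [mul_assoc, ← sq]
    exact mul_le_mul_of_nonneg_right hg.le (by positivity)
  have h6 : ‖v‖ ^ 2 ≤ 2 / c := by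
    rw [le_div_iff₀ hc]
    nlinarith
  exact Real.le_sqrt_of_sq_le h6

section Two

variable {𝔐 : Type} [NormedRing 𝔐] [NormedAlgebra ℝ 𝔐] {n : ℕ} (F : Eu n [⋀^Fin 2]→L[ℝ] 𝔐)

theorem AL2_up0 (a b z : Eu n) : Function.update ![a, b] 0 z = ![z, b] := by
  funext i
  fin_cases i
  · simp
  · simp

theorem AL2_up1 (a b z : Eu n) : Function.update ![a, b] 1 z = ![a, z] := by
  funext i
  fin_cases i
  · simp
  · simp

theorem AL2_smul0 (c : ℝ) (a b : Eu n) : F ![c • a, b] = c • F ![a, b] := by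
  have h := F.map_update_smul ![a, b] 0 c a
  rwa [AL2_up0, AL2_up0] at h

theorem AL2_smul1 (c : ℝ) (a b : Eu n) : F ![a, c • b] = c • F ![a, b] := by
  have h := F.map_update_smul ![a, b] 1 c b
  rwa [AL2_up1, AL2_up1] at h

theorem AL2_add1 (a b b' : Eu n) : F ![a, b + b'] = F ![a, b] + F ![a, b'] := by
  have h := F.map_update_add ![a, b] 1 b b'
  rwa [AL2_up1, AL2_up1, AL2_up1] at h

theorem AL2_self (a : Eu n) : F ![a, a] = 0 :=
  F.map_eq_zero_of_eq ![a, a] (i := 0) (j := 1) rfl (by decide)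

theorem AL2_vec (x : Fin 2 → Eu n) : x = ![x 0, x 1] := by
  funext i
  fin_cases i
  · rfl
  · rfl

theorem AL2_zero (g : Eu n →L[ℝ] Eu n →L[ℝ] ℝ) (hg : ∀ v, v ≠ 0 → 0 < g v v)
    (h : ∀ v w, g v v = 1 → g w w = 1 → g v w = 0 → F ![v, w] = 0) : F = 0 := by
  have hone : ∀ a : Eu n, a ≠ 0 → g ((Real.sqrt (g a a))⁻¹ • a) ((Real.sqrt (g a a))⁻¹ • a) = 1 := by
    intro a ha
    have h1 := hg a ha
    have h2 : Real.sqrt (g a a) * Real.sqrt (g a a) = g a a := Real.mul_self_sqrt h1.le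
    have h3 : Real.sqrt (g a a) ≠ 0 := (Real.sqrt_pos.mpr h1).ne'
    rw [map_smul, map_smul, smul_apply, smul_eq_mul, smul_eq_mul]
    nth_rewrite 3 [← h2]
    field_simp
  have horth : ∀ a b : Eu n, a ≠ 0 → b ≠ 0 → g a b = 0 → F ![a, b] = 0 := by
    intro a b ha hb hab
    have h1 := h ((Real.sqrt (g a a))⁻¹ • a) ((Real.sqrt (g b b))⁻¹ • b) (hone a ha) (hone b hb)
      (by rw [map_smul, map_smul, smul_apply, hab, smul_zero, smul_zero])
    rw [AL2_smul0, AL2_smul1, smul_smul] at h1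
    have h2 : (Real.sqrt (g a a))⁻¹ * (Real.sqrt (g b b))⁻¹ ≠ 0 :=
      mul_ne_zero (inv_ne_zero (Real.sqrt_pos.mpr (hg a ha)).ne')
        (inv_ne_zero (Real.sqrt_pos.mpr (hg b hb)).ne')
    exact (smul_eq_zero.mp h1).resolve_left h2
  ext x
  show F x = 0
  rw [AL2_vec x]
  by_cases ha : x 0 = 0
  · rw [ha]
    exact F.map_coord_zero 0 rfl
  · have hsp := hg (x 0) ha
    have h1 : x 1 = (x 1 - (g (x 0) (x 1) / g (x 0) (x 0)) • x 0) +
        (g (x 0) (x 1) / g (x 0) (x 0)) • x 0 := by abel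
    rw [h1, AL2_add1, AL2_smul1, AL2_self, smul_zero, add_zero]
    by_cases hb : x 1 - (g (x 0) (x 1) / g (x 0) (x 0)) • x 0 = 0
    · rw [hb]
      exact F.map_coord_zero 1 rfl
    · refine horth _ _ ha hb ?_
      rw [map_sub, map_smul, smul_eq_mul, div_mul_cancel₀ _ hsp.ne', sub_self]

end Two

theorem AL2_step (hFRM : Stmt_FRM) {𝔐 : Type} [NormedRing 𝔐] [NormedAlgebra ℝ 𝔐] {m : ℕ}
    (g : Eu (m + 4) →L[ℝ] Eu (m + 4) →L[ℝ] ℝ) (hs : ∀ v w, g v w = g w v)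
    (hg : ∀ v, v ≠ 0 → 0 < g v v) (Ω : Eu (m + 4) [⋀^Fin m]→L[ℝ] ℝ)
    (F : Eu (m + 4) [⋀^Fin 2]→L[ℝ] 𝔐) (hS : StarEq g Ω F) (R : ℝ) (hR0 : 0 ≤ R)
    (hR : ∀ v, g v v = 1 → ‖v‖ ≤ R) (k : ℕ) : ∀ v w, g v v = 1 → g w w = 1 → g v w = 0 →
    ‖F ![v, w]‖ ≤ (AL2_K m * (‖Ω‖ * R ^ m)) ^ k * (‖F‖ * R ^ 2) := by
  induction k with
  | zero =>
    intro v w hv hw _
    rw [pow_zero, one_mul]
    refine F.le_opNorm_mul_pow_of_le ?_
    rw [pi_norm_le_iff_of_nonneg hR0]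
    intro i
    fin_cases i
    · exact hR v hv
    · exact hR w hw
  | succ k ih =>
    intro v w hv hw hvw
    obtain ⟨e, he, he0, he1⟩ := hFRM m g hs hg v w hv hw hvw
    have h1 := hS e he
    rw [he0, he1] at h1
    rw [← h1]
    have hn : ∀ i, ‖e i‖ ≤ R := fun i => hR _ (by rw [he.orth, if_pos rfl])
    refine (AL2_wdg Ω F _ (‖Ω‖ * R ^ m) ((AL2_K m * (‖Ω‖ * R ^ m)) ^ k * (‖F‖ * R ^ 2))
      ?_ ?_).trans (le_of_eq (by ring))
    · intro τ
      refine Ω.le_opNorm_mul_pow_of_le ?_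
      rw [pi_norm_le_iff_of_nonneg hR0]
      intro i
      exact hn _
    · intro τ
      rw [AL2_vec (fun i => e (Sum.inl (τ (Sum.inr i))))]
      refine ih _ _ ?_ ?_ ?_
      · rw [he.orth, if_pos rfl]
      · rw [he.orth, if_pos rfl]
      · rw [he.orth, if_neg]
        intro hcon
        have h2 := Sum.inr_injective (τ.injective (Sum.inl_injective hcon))
        exact absurd h2 (by decide)

theorem p_AL2 (hFRM : Stmt_FRM) : Stmt_AL2 := by
  intro 𝔐 _ _ m U h Ω x₀ hU hM hΩ hx₀ hzero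
  obtain ⟨c, hc, hc1⟩ := AL2_bound (n := m + 3) (h x₀) (hM.pos x₀ hx₀)
  have hcont : ContinuousOn (fun y => (dist (h y) (h x₀),
      AL2_K m * (‖Ω y‖ * Real.sqrt (2 / c) ^ m))) U :=
    (continuous_dist.comp_continuousOn
      (hM.smooth.continuousOn.prodMk (continuousOn_const (c := h x₀)))).prodMk
      (continuousOn_const.mul (hΩ.norm.mul continuousOn_const))
  refine ⟨U ∩ (fun y => (dist (h y) (h x₀), AL2_K m * (‖Ω y‖ * Real.sqrt (2 / c) ^ m))) ⁻¹'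
    (Iio (c / 2) ×ˢ Iio 1), hcont.isOpen_inter_preimage hU (isOpen_Iio.prod isOpen_Iio),
    ⟨hx₀, ?_, ?_⟩, inter_subset_left, ?_⟩
  · show dist (h x₀) (h x₀) < c / 2
    rw [dist_self]
    exact half_pos hc
  · show AL2_K m * (‖Ω x₀‖ * Real.sqrt (2 / c) ^ m) < 1
    rw [hzero, norm_zero, zero_mul, mul_zero]
    exact one_pos
  · rintro y ⟨hy, hy1, hy2⟩ F hS
    have hy1' : ‖h y - h x₀‖ < c / 2 := (dist_eq_norm (h y) (h x₀)).symm.trans_lt hy1
    have hy2' : AL2_K m * (‖Ω y‖ * Real.sqrt (2 / c) ^ m) < 1 := hy2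
    have hK : 0 ≤ AL2_K m * (‖Ω y‖ * Real.sqrt (2 / c) ^ m) := by
      unfold AL2_K
      positivity
    refine AL2_zero F (h y) (hM.pos y hy) fun v w hv hw hvw => ?_
    have h1 : Tendsto (fun k : ℕ => (AL2_K m * (‖Ω y‖ * Real.sqrt (2 / c) ^ m)) ^ k *
        (‖F‖ * Real.sqrt (2 / c) ^ 2)) atTop (𝓝 (0 * (‖F‖ * Real.sqrt (2 / c) ^ 2))) :=
      (tendsto_pow_atTop_nhds_zero_of_lt_one hK hy2').mul_const _
    rw [zero_mul] at h1
    have h2 : ‖F ![v, w]‖ ≤ 0 := ge_of_tendsto' h1 fun k =>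
      AL2_step hFRM (h y) (hM.symm y hy) (hM.pos y hy) (Ω y) F hS (Real.sqrt (2 / c))
        (Real.sqrt_nonneg _) (AL2_norm (h x₀) (h y) c hc hc1 hy1') k v w hv hw hvw
    exact norm_le_zero_iff.mp h2

end Pool.TIA
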