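import Pool.Agent.Work.MP_a1f430_ti.Interface

/-! # Block AL3: a local frame for a decomposable form -/

set_option autoImplicit false

namespace Pool.TIA

open MeasureTheory Set Filter Topology
open scoped ContDiff ENNReal

theorem AL3_div {m n : ℕ} (Ω : Eu n [⋀^Fin m]→L[ℝ] ℝ) (hD : Decomp Ω) (u : Fin m → Eu n)
    (hu : Ω u ≠ 0) (j : Fin m) (v : Fin m → Eu n)
    (hv : ∀ i, Ω (Function.update u j (v i)) = 0) : Ω v = 0 := by
  obtain ⟨α, hα⟩ := hD
  rw [hα] at hu ⊢
  have h1 : ∀ k, Matrix.adjugate (Matrix.of fun i l => α i (u l)) j ⬝ᵥ (fun i => α i (v k)) = 0 := by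
    intro k
    have h2 := hv k
    rw [hα] at h2
    have h3 : (Matrix.of fun i l => α i (Function.update u j (v k) l)) =
        (Matrix.of fun i l => α i (u l)).updateCol j (fun i => α i (v k)) := by
      ext i l
      rw [Matrix.updateCol_apply, Matrix.of_apply, Matrix.of_apply]
      by_cases h : l = j
      · subst h
        rw [Function.update_self, if_pos rfl]
      · rw [Function.update_of_ne h, if_neg h]
    rw [h3, ← Matrix.cramer_apply, Matrix.cramer_eq_adjugate_mulVec] at h2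
    exact h2
  rw [← Matrix.exists_vecMul_eq_zero_iff]
  refine ⟨Matrix.adjugate (Matrix.of fun i l => α i (u l)) j, ?_, ?_⟩
  · intro h0
    apply hu
    have h4 := congrFun (congrFun (Matrix.adjugate_mul (Matrix.of fun i l => α i (u l))) j) j
    rw [Matrix.mul_apply] at h4
    simpa [h0] using h4.symm
  · funext k
    exact h1 k

theorem AL3_equiv {n : ℕ} (g : Eu n →L[ℝ] Eu n →L[ℝ] ℝ) (hg : ∀ v, v ≠ 0 → 0 < g v v) :
    ∃ e : Eu n ≃L[ℝ] (Eu n →L[ℝ] ℝ), (e : Eu n →L[ℝ] (Eu n →L[ℝ] ℝ)) = g := by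
  have hinj : Function.Injective (g : Eu n →ₗ[ℝ] (Eu n →L[ℝ] ℝ)) := by
    rw [← LinearMap.ker_eq_bot, LinearMap.ker_eq_bot']
    intro v hv
    by_contra hne
    have h1 := hg v hne
    have h2 : g v = 0 := hv
    rw [h2] at h1
    simp at h1
  have hdim : Module.finrank ℝ (Eu n) = Module.finrank ℝ (Eu n →L[ℝ] ℝ) := by
    rw [← (LinearMap.toContinuousLinearMap : (Eu n →ₗ[ℝ] ℝ) ≃ₗ[ℝ] (Eu n →L[ℝ] ℝ)).finrank_eq,
      Module.finrank_linearMap, Module.finrank_self, mul_one]
  refine ⟨(LinearEquiv.ofInjectiveOfFinrankEq (g : Eu n →ₗ[ℝ] (Eu n →L[ℝ] ℝ)) hinj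
    hdim).toContinuousLinearEquiv, ?_⟩
  ext v w
  rfl

theorem p_AL3 : Stmt_AL3 := by
  intro m n U h Ω x₀ hU hM hΩ hx₀ hne hD
  obtain ⟨u, hu⟩ : ∃ u, Ω x₀ u ≠ 0 := by
    by_contra hcon
    push Not at hcon
    exact hne (ContinuousAlternatingMap.ext hcon)
  have hev : ∀ v : Fin m → Eu n, ContDiffOn ℝ ∞ (fun y => Ω y v) U := by
    intro v
    exact (ContinuousAlternatingMap.apply ℝ (Eu n) ℝ v).contDiff.comp_contDiffOn hΩ
  let θ : Fin m → Eu n → (Eu n →L[ℝ] ℝ) := fun j y =>
    (Ω y).toContinuousMultilinearMap.toContinuousLinearMap u j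
  have hθ : ∀ j y w, θ j y w = Ω y (Function.update u j w) := fun j y w => rfl
  have hθs : ∀ j, ContDiffOn ℝ ∞ (θ j) U := by
    intro j
    rw [contDiffOn_clm_apply]
    intro w
    exact hev _
  have hT : ∀ j, ∀ y ∈ U, h y ((h y).inverse (θ j y)) = θ j y := by
    intro j y hy
    obtain ⟨e, he⟩ := AL3_equiv (h y) (hM.pos y hy)
    rw [← he, ContinuousLinearMap.inverse_equiv]
    exact e.apply_symm_apply _
  refine ⟨U ∩ (fun y => Ω y u) ⁻¹' {0}ᶜ, fun j y => (h y).inverse (θ j y),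
    (hev u).continuousOn.isOpen_inter_preimage hU isOpen_compl_singleton, ⟨hx₀, hu⟩,
    inter_subset_left, ?_, ?_, ?_⟩
  · intro j
    refine ContDiffOn.mono ?_ inter_subset_left
    intro y hy
    obtain ⟨e, he⟩ := AL3_equiv (h y) (hM.pos y hy)
    have h1 : ContDiffAt ℝ ∞ (fun y => (h y).inverse) y := by
      have h2 := contDiffAt_map_inverse (𝕜 := ℝ) (n := ∞) e
      rw [he] at h2
      exact h2.comp y (hM.smooth.contDiffAt (hU.mem_nhds hy))
    exact (h1.clm_apply ((hθs j).contDiffAt (hU.mem_nhds hy))).contDiffWithinAt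
  · rw [Fintype.linearIndependent_iff]
    intro c hc k
    have h1 : ∑ j, c j • θ j x₀ = 0 := by
      have h2 := congrArg (h x₀) hc
      rw [map_sum, map_zero] at h2
      rw [← h2]
      refine Finset.sum_congr rfl fun j _ => ?_
      rw [map_smul, hT j x₀ hx₀]
    have h3 : ∑ j, c j * Ω x₀ (Function.update u j (u k)) = 0 := by
      have h4 := congrArg (fun f : Eu n →L[ℝ] ℝ => f (u k)) h1
      simpa [ContinuousLinearMap.sum_apply, hθ] using h4
    rw [Finset.sum_eq_single k] at h3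
    · rw [Function.update_eq_self] at h3
      exact (mul_eq_zero.mp h3).resolve_right hu
    · intro j _ hjk
      rw [(Ω x₀).map_eq_zero_of_eq _ (i := j) (j := k) ?_ hjk, mul_zero]
      rw [Function.update_self, Function.update_of_ne (Ne.symm hjk)]
    · intro hk
      exact absurd (Finset.mem_univ k) hk
  · intro y hy j v hv
    refine AL3_div (Ω y) (hD y hy.1) u hy.2 j v fun i => ?_
    have h1 := hv i
    rw [hT j y hy.1, hθ] at h1
    exact h1

end Pool.TIA
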