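import Pool.Agent.Work.MP_a1f430_ti.Interface

/-!
# Block APC: approximation of a connection and its curvature
-/

set_option autoImplicit false

namespace Pool.TIA

open MeasureTheory Set Filter Topology
open scoped ContDiff ENNReal

/-- Products of `L²` convergent sequences converge in `L¹`. -/
theorem APC_mul {E 𝔐 : Type} [NormedRing 𝔐] [MeasurableSpace E] (μ : Measure E)
    (f g : E → 𝔐) (fj gj : ℕ → E → 𝔐) (hf : MemLp f 2 μ) (hg : MemLp g 2 μ)
    (hfj : ∀ j, AEStronglyMeasurable (fj j) μ) (hgj : ∀ j, AEStronglyMeasurable (gj j) μ)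
    (h1 : Tendsto (fun j => eLpNorm (fun x => fj j x - f x) 2 μ) atTop (𝓝 0))
    (h2 : Tendsto (fun j => eLpNorm (fun x => gj j x - g x) 2 μ) atTop (𝓝 0)) :
    Tendsto (fun j => eLpNorm (fun x => fj j x * gj j x - f x * g x) 1 μ) atTop (𝓝 0) := by
  have hh : ∀ a b : E → 𝔐, AEStronglyMeasurable a μ → AEStronglyMeasurable b μ →
      eLpNorm (fun x => a x * b x) 1 μ ≤ eLpNorm a 2 μ * eLpNorm b 2 μ := by
    intro a b ha hb
    have := eLpNorm_le_eLpNorm_mul_eLpNorm_of_nnnorm (p := 2) (q := 2) (r := 1) ha hb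
      (fun x y => x * y) 1 (Eventually.of_forall fun x => by
        rw [one_mul]
        exact nnnorm_mul_le _ _)
    simpa using this
  have h3 : Tendsto (fun j => eLpNorm (fun x => fj j x - f x) 2 μ *
      eLpNorm (fun x => gj j x - g x) 2 μ + eLpNorm (fun x => fj j x - f x) 2 μ * eLpNorm g 2 μ +
      eLpNorm f 2 μ * eLpNorm (fun x => gj j x - g x) 2 μ) atTop (𝓝 0) := by
    have h4 := (ENNReal.Tendsto.mul h1 (Or.inr ENNReal.zero_ne_top) h2
      (Or.inr ENNReal.zero_ne_top))
    have h5 := ENNReal.Tendsto.mul_const (b := eLpNorm g 2 μ) h1 (Or.inr hg.2.ne)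
    have h6 := ENNReal.Tendsto.const_mul (a := eLpNorm f 2 μ) h2 (Or.inr hf.2.ne)
    simpa using (h4.add h5).add h6
  refine tendsto_of_tendsto_of_tendsto_of_le_of_le tendsto_const_nhds h3 (fun _ => zero_le)
    fun j => ?_
  have m1 : AEStronglyMeasurable (fun x => fj j x - f x) μ := (hfj j).sub hf.1
  have m2 : AEStronglyMeasurable (fun x => gj j x - g x) μ := (hgj j).sub hg.1
  have h7 : (fun x => fj j x * gj j x - f x * g x) = fun x =>
      ((fj j x - f x) * (gj j x - g x) + (fj j x - f x) * g x) + f x * (gj j x - g x) := by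
    funext x
    noncomm_ring
  show eLpNorm (fun x => fj j x * gj j x - f x * g x) 1 μ ≤ _
  rw [h7]
  refine (eLpNorm_add_le ((m1.mul m2).add (m1.mul hg.1)) (hf.1.mul m2) le_rfl).trans ?_
  refine add_le_add ((eLpNorm_add_le (m1.mul m2) (m1.mul hg.1) le_rfl).trans ?_)
    (hh _ _ hf.1 m2)
  exact add_le_add (hh _ _ m1 m2) (hh _ _ m1 hg.1)

section one

variable {E : Type} [NormedAddCommGroup E] [NormedSpace ℝ E] [FiniteDimensional ℝ E]
  [MeasureSpace E] [BorelSpace E] [(volume : Measure E).IsAddHaarMeasure]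
variable {X : Type} [NormedAddCommGroup X] [NormedSpace ℝ X]

omit [NormedSpace ℝ E] [FiniteDimensional ℝ E] [(volume : Measure E).IsAddHaarMeasure]
  [NormedSpace ℝ X] in
theorem APC_cut {T : Set E} (hT : IsCompact T) (p : ℝ≥0∞) (f : E → X)
    (hf : MemLp f p (volume.restrict T)) : MemLp (T.indicator f) p volume :=
  (memLp_indicator_iff_restrict hT.isClosed.measurableSet).2 hf

omit [NormedSpace ℝ E] [FiniteDimensional ℝ E] [BorelSpace E] in
theorem APC_fin {T : Set E} (hT : IsCompact T) : IsFiniteMeasure (volume.restrict T) :=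
  ⟨by rw [Measure.restrict_apply_univ]; exact hT.measure_lt_top⟩

omit [BorelSpace E] [(volume : Measure E).IsAddHaarMeasure] in
theorem APC_mol_congr [FiniteDimensional ℝ X] (j : ℕ) (T : Set E) (f : E → X) (x : E)
    (hx : tsupport (fun y => (bmp E j).normed volume (x - y)) ⊆ T) :
    mol j (T.indicator f) x = ∫ y, (bmp E j).normed volume (x - y) • f y := by
  unfold mol
  congr 1
  funext y
  by_cases hy : y ∈ T
  · rw [indicator_of_mem hy]
  · have h2 : (bmp E j).normed volume (x - y) = 0 :=
      image_eq_zero_of_notMem_tsupport (f := fun y => (bmp E j).normed volume (x - y))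
        fun h => hy (hx h)
    rw [h2, zero_smul, zero_smul]

end one

/-- The curvature of the mollified connection at one point. -/
theorem APC_point (hMOA : Stmt_MOA) (𝔐 : Type) [NormedRing 𝔐] [NormedAlgebra ℝ 𝔐] [StarRing 𝔐]
    [FiniteDimensional ℝ 𝔐] (E : Type) [NormedAddCommGroup E] [NormedSpace ℝ E]
    [FiniteDimensional ℝ E] [MeasureSpace E] [BorelSpace E]
    [(volume : Measure E).IsAddHaarMeasure] (W T W₁ : Set E) (A : E → E →L[ℝ] 𝔐)
    (F : E → E [⋀^Fin 2]→L[ℝ] 𝔐) (hW₁ : IsOpen W₁) (hT1 : W₁ ⊆ T)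
    (hTW : T ⊆ W) (hC : IsCurv W A F) (hA1 : LocallyIntegrable (T.indicator A))
    (j : ℕ) (x : E) (hx : Metric.closedBall x (1 / ((j : ℝ) + 2)) ⊆ W₁) (u v : E) :
    cur (mol j (T.indicator A)) x u v =
      mol j (T.indicator fun y => F y ![u, v]) x -
      mol j (T.indicator fun y => A y u * A y v - A y v * A y u) x +
      (mol j (T.indicator A) x u * mol j (T.indicator A) x v -
        mol j (T.indicator A) x v * mol j (T.indicator A) x u) := by
  obtain ⟨h1, -⟩ := hMOA E 𝔐 j
  obtain ⟨-, h2⟩ := hMOA E (E →L[ℝ] 𝔐) j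
  have hφ := h1 x W₁ hW₁ hx
  obtain ⟨-, h3, -⟩ := h2 (T.indicator A) hA1
  obtain ⟨φ, hφd⟩ : ∃ φ : E → ℝ, φ = fun y => (bmp E j).normed volume (x - y) := ⟨_, rfl⟩
  have hd : ∀ w, fderiv ℝ (mol j (T.indicator A)) x w =
      -∫ y, fderiv ℝ φ y w • T.indicator A y := by
    intro w
    rw [h3 x w, hφd]
  rw [← hφd] at hφ
  have hφT : tsupport φ ⊆ T := hφ.sub.trans hT1
  have hcd : ∀ w, Continuous fun y => fderiv ℝ φ y w := fun w =>
    (hφ.smooth.continuous_fderiv (by simp)).clm_apply continuous_const
  have hcs : ∀ w, HasCompactSupport fun y => fderiv ℝ φ y w := fun w =>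
    hφ.cpt.fderiv_apply ℝ w
  have hint : ∀ w, Integrable (fun y => fderiv ℝ φ y w • T.indicator A y) volume := fun w =>
    hA1.integrable_smul_left_of_hasCompactSupport (hcd w) (hcs w)
  have hd0 : ∀ y, y ∉ T → ∀ w, fderiv ℝ φ y w = 0 := by
    intro y hy w
    have : fderiv ℝ φ y = 0 := by
      apply image_eq_zero_of_notMem_tsupport
      exact fun h => hy (hφT (tsupport_fderiv_subset ℝ h))
    rw [this]
    rfl
  have hval : ∀ w z, fderiv ℝ (mol j (T.indicator A)) x w z =
      -∫ y, fderiv ℝ φ y w • A y z := by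
    intro w z
    rw [hd w, _root_.neg_apply, ContinuousLinearMap.integral_apply (hint w)]
    congr 2
    funext y
    by_cases hy : y ∈ T
    · rw [indicator_of_mem hy, _root_.smul_apply]
    · simp [hd0 y hy w]
  have hint2 : ∀ w z, Integrable (fun y => fderiv ℝ φ y w • A y z) volume := by
    intro w z
    have h5 := (hint w).apply_continuousLinearMap z
    refine h5.congr (Eventually.of_forall fun y => ?_)
    show (fderiv ℝ φ y w • T.indicator A y) z = fderiv ℝ φ y w • A y z
    by_cases hy : y ∈ T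
    · rw [indicator_of_mem hy, _root_.smul_apply]
    · simp [hd0 y hy w]
  have hcurv := hC φ ⟨hφ.smooth, hφ.cpt, hφT.trans hTW⟩ u v
  have hF : mol j (T.indicator fun y => F y ![u, v]) x = ∫ y, φ y • F y ![u, v] := by
    rw [APC_mol_congr j T _ x (by rw [← hφd]; exact hφT), hφd]
  have hQ : mol j (T.indicator fun y => A y u * A y v - A y v * A y u) x =
      ∫ y, φ y • (A y u * A y v - A y v * A y u) := by
    rw [APC_mol_congr j T _ x (by rw [← hφd]; exact hφT), hφd]
  have hD : fderiv ℝ (mol j (T.indicator A)) x u v - fderiv ℝ (mol j (T.indicator A)) x v u =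
      -∫ y, (fderiv ℝ φ y u • A y v - fderiv ℝ φ y v • A y u) := by
    rw [hval, hval, integral_sub (hint2 u v) (hint2 v u)]
    abel
  unfold cur
  rw [hF, hQ, hcurv, hD]
  abel

theorem p_APC (hMOA : Stmt_MOA) (hMOT : Stmt_MOT) : Stmt_APC := by
  intro 𝔐 _ _ _ _ _ _ 𝒢 E _ _ _ _ _ _ W A F hW hC K hK hKW
  obtain ⟨W₁, hW1, hKW1, hW1W, hcpt⟩ := exists_open_between_and_isCompact_closure hK hW hKW
  obtain ⟨T, hTd⟩ : ∃ T, T = closure W₁ := ⟨_, rfl⟩
  rw [← hTd] at hW1W hcpt
  have hW1T : W₁ ⊆ T := by
    rw [hTd]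
    exact subset_closure
  have hKT : K ⊆ T := hKW1.trans hW1T
  have := APC_fin (E := E) hcpt
  have hA2 : MemLp A 2 (volume.restrict T) := hC.A2 T hcpt hW1W
  have hF2 : MemLp F 2 (volume.restrict T) := hC.F2 T hcpt hW1W
  have hA2' : MemLp (T.indicator A) 2 volume := APC_cut hcpt 2 A hA2
  have hA1' : MemLp (T.indicator A) 1 volume :=
    APC_cut hcpt 1 A (hA2.mono_exponent (by norm_num))
  have hAL : LocallyIntegrable (T.indicator A) := (memLp_one_iff_integrable.1 hA1').locallyIntegrable
  have hAu : ∀ u, MemLp (fun y => T.indicator A y u) 2 volume := fun u =>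
    (ContinuousLinearMap.apply ℝ 𝔐 u).comp_memLp' hA2'
  obtain ⟨-, hM⟩ : True ∧ ∀ j, (ContDiff ℝ ∞ (mol j (T.indicator A))) ∧
      (HasCompactSupport (mol j (T.indicator A))) ∧
      ∀ x v, mol j (T.indicator A) x v ∈ 𝒢.lie := by
    refine ⟨trivial, fun j => ?_⟩
    obtain ⟨-, h2⟩ := hMOA E (E →L[ℝ] 𝔐) j
    obtain ⟨h3, -, h4, h5, -⟩ := h2 (T.indicator A) hAL
    refine ⟨h3, h4 (HasCompactSupport.intro hcpt fun y hy => indicator_of_notMem hy _), ?_⟩
    let S : Submodule ℝ (E →L[ℝ] 𝔐) :=
      { carrier := {L | ∀ v, L v ∈ 𝒢.lie}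
        add_mem' := fun {a b} ha hb v => 𝒢.lie.add_mem (ha v) (hb v)
        zero_mem' := fun v => 𝒢.lie.zero_mem
        smul_mem' := fun c a ha v => 𝒢.lie.smul_mem c (ha v) }
    have h6 : ∀ᵐ y, T.indicator A y ∈ S := by
      have h7 : ∀ᵐ y, y ∈ W → ∀ v, A y v ∈ 𝒢.lie :=
        (ae_restrict_iff' hW.measurableSet).1 hC.lie
      filter_upwards [h7] with y hy v
      by_cases hyT : y ∈ T
      · rw [indicator_of_mem hyT]
        exact hy (hW1W hyT) v
      · rw [indicator_of_notMem hyT]
        exact 𝒢.lie.zero_mem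
    exact fun x v => h5 S h6 x v
  have hL2 : Tendsto (fun j => eLpNorm (fun x => mol j (T.indicator A) x - T.indicator A x) 2
      volume) atTop (𝓝 0) := hMOT E (E →L[ℝ] 𝔐) 2 (Or.inr rfl) _ hA2'
  refine ⟨fun j => mol j (T.indicator A), fun j => (hM j).1, fun j => (hM j).2.1,
    fun j => (hM j).2.2, ?_, ?_⟩
  · refine tendsto_of_tendsto_of_tendsto_of_le_of_le tendsto_const_nhds hL2 (fun _ => zero_le)
      fun j => ?_
    show eLpNorm (fun x => mol j (T.indicator A) x - A x) 2 (volume.restrict K) ≤ _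
    have h1 : eLpNorm (fun x => mol j (T.indicator A) x - A x) 2 (volume.restrict K) =
        eLpNorm (fun x => mol j (T.indicator A) x - T.indicator A x) 2 (volume.restrict K) := by
      apply eLpNorm_congr_ae
      refine (ae_restrict_iff' hK.isClosed.measurableSet).2 (Eventually.of_forall fun x hx => ?_)
      show mol j (T.indicator A) x - A x = mol j (T.indicator A) x - T.indicator A x
      rw [indicator_of_mem (hKT hx)]
    rw [h1]
    exact eLpNorm_mono_measure _ Measure.restrict_le_self
  · intro u v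
    obtain ⟨F₁, hF₁⟩ : ∃ F₁ : E → 𝔐, F₁ = T.indicator fun y => F y ![u, v] := ⟨_, rfl⟩
    obtain ⟨Q, hQ⟩ : ∃ Q : E → 𝔐, Q = T.indicator fun y => A y u * A y v - A y v * A y u :=
      ⟨_, rfl⟩
    have hF1 : MemLp F₁ 1 volume := by
      rw [hF₁]
      refine APC_cut hcpt 1 _ ?_
      have := (ContinuousAlternatingMap.apply ℝ E 𝔐 ![u, v]).comp_memLp' hF2
      exact MemLp.mono_exponent this (by norm_num)
    have hQe : Q = fun y => T.indicator A y u * T.indicator A y v -
        T.indicator A y v * T.indicator A y u := by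
      rw [hQ]
      funext y
      by_cases hy : y ∈ T
      · rw [indicator_of_mem hy, indicator_of_mem hy]
      · rw [indicator_of_notMem hy, indicator_of_notMem hy]
        simp
    have hQ1 : MemLp Q 1 volume := by
      rw [hQe]
      have h1 : ∀ a b : E, MemLp (fun y => T.indicator A y a * T.indicator A y b) 1 volume :=
        fun a b => MemLp.mul (hAu b) (hAu a)
      exact (h1 u v).sub (h1 v u)
    have c1 := hMOT E 𝔐 1 (Or.inl rfl) F₁ hF1
    have c2 := hMOT E 𝔐 1 (Or.inl rfl) Q hQ1
    have hmeas : ∀ (j : ℕ) (w : E), AEStronglyMeasurable (fun x => mol j (T.indicator A) x w)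
        volume := fun j w =>
      (((hM j).1.continuous).clm_apply continuous_const).aestronglyMeasurable
    have hL2w : ∀ w, Tendsto (fun j => eLpNorm (fun x => mol j (T.indicator A) x w -
        T.indicator A x w) 2 volume) atTop (𝓝 0) := by
      intro w
      have h1 := ENNReal.Tendsto.const_mul (a := ENNReal.ofReal ‖w‖) hL2
        (Or.inr ENNReal.ofReal_ne_top)
      rw [mul_zero] at h1
      refine tendsto_of_tendsto_of_tendsto_of_le_of_le tendsto_const_nhds h1 (fun _ => zero_le)
        fun j => ?_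
      refine eLpNorm_le_mul_eLpNorm_of_ae_le_mul (Eventually.of_forall fun x => ?_) 2
      show ‖(mol j (T.indicator A) x - T.indicator A x) w‖ ≤ _
      rw [mul_comm]
      exact ContinuousLinearMap.le_opNorm _ _
    have c3 := APC_mul volume (fun x => T.indicator A x u) (fun x => T.indicator A x v)
      (fun j x => mol j (T.indicator A) x u) (fun j x => mol j (T.indicator A) x v) (hAu u)
      (hAu v) (fun j => hmeas j u) (fun j => hmeas j v) (hL2w u) (hL2w v)
    have c4 := APC_mul volume (fun x => T.indicator A x v) (fun x => T.indicator A x u)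
      (fun j x => mol j (T.indicator A) x v) (fun j x => mol j (T.indicator A) x u) (hAu v)
      (hAu u) (fun j => hmeas j v) (fun j => hmeas j u) (hL2w v) (hL2w u)
    have hlim := (c1.add c2).add (c3.add c4)
    simp only [add_zero] at hlim
    obtain ⟨δ, hδ, hKδ⟩ := hK.exists_cthickening_subset_open hW1 hKW1
    have hev : ∀ᶠ j : ℕ in atTop, 1 / ((j : ℝ) + 2) ≤ δ := by
      have h1 : Tendsto (fun j : ℕ => 1 / ((j : ℝ) + 2)) atTop (𝓝 0) :=
        tendsto_const_nhds.div_atTop
          (tendsto_atTop_add_const_right _ _ tendsto_natCast_atTop_atTop)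
      exact (h1.eventually (ge_mem_nhds hδ))
    refine tendsto_of_tendsto_of_tendsto_of_le_of_le' tendsto_const_nhds hlim
      (Eventually.of_forall fun _ => zero_le) ?_
    filter_upwards [hev] with j hj
    have hpt : ∀ x ∈ K, cur (mol j (T.indicator A)) x u v - F x ![u, v] =
        ((mol j F₁ x - F₁ x) - (mol j Q x - Q x)) +
        ((mol j (T.indicator A) x u * mol j (T.indicator A) x v -
            T.indicator A x u * T.indicator A x v) -
          (mol j (T.indicator A) x v * mol j (T.indicator A) x u -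
            T.indicator A x v * T.indicator A x u)) := by
      intro x hx
      have h1 : Metric.closedBall x (1 / ((j : ℝ) + 2)) ⊆ W₁ :=
        ((Metric.closedBall_subset_closedBall hj).trans
          (Metric.closedBall_subset_cthickening hx δ)).trans hKδ
      rw [APC_point hMOA 𝔐 E W T W₁ A F hW1 hW1T hW1W hC.curv hAL j x h1 u v, ← hF₁, ← hQ]
      have h2 : F₁ x = F x ![u, v] := by
        rw [hF₁, indicator_of_mem (hKT hx)]
      have h3 : Q x = T.indicator A x u * T.indicator A x v -
          T.indicator A x v * T.indicator A x u := by rw [hQe]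
      rw [h2, h3]
      abel
    have hcont : ∀ (f : E → 𝔐), MemLp f 1 volume → AEStronglyMeasurable
        (fun x => mol j f x - f x) volume := by
      intro f hf
      obtain ⟨-, h2⟩ := hMOA E 𝔐 j
      have h3 := (h2 f (memLp_one_iff_integrable.1 hf).locallyIntegrable).1.continuous
      exact h3.aestronglyMeasurable.sub hf.1
    have m1 := hcont F₁ hF1
    have m2 := hcont Q hQ1
    have m3 : AEStronglyMeasurable (fun x => mol j (T.indicator A) x u *
        mol j (T.indicator A) x v - T.indicator A x u * T.indicator A x v) volume :=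
      ((hmeas j u).mul (hmeas j v)).sub ((hAu u).1.mul (hAu v).1)
    have m4 : AEStronglyMeasurable (fun x => mol j (T.indicator A) x v *
        mol j (T.indicator A) x u - T.indicator A x v * T.indicator A x u) volume :=
      ((hmeas j v).mul (hmeas j u)).sub ((hAu v).1.mul (hAu u).1)
    calc eLpNorm (fun x => cur (mol j (T.indicator A)) x u v - F x ![u, v]) 1 (volume.restrict K)
        = eLpNorm (fun x => ((mol j F₁ x - F₁ x) - (mol j Q x - Q x)) +
        ((mol j (T.indicator A) x u * mol j (T.indicator A) x v -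
            T.indicator A x u * T.indicator A x v) -
          (mol j (T.indicator A) x v * mol j (T.indicator A) x u -
            T.indicator A x v * T.indicator A x u))) 1 (volume.restrict K) := by
          apply eLpNorm_congr_ae
          exact (ae_restrict_iff' hK.isClosed.measurableSet).2
            (Eventually.of_forall fun x hx => hpt x hx)
      _ ≤ eLpNorm (fun x => ((mol j F₁ x - F₁ x) - (mol j Q x - Q x)) +
        ((mol j (T.indicator A) x u * mol j (T.indicator A) x v -
            T.indicator A x u * T.indicator A x v) -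
          (mol j (T.indicator A) x v * mol j (T.indicator A) x u -
            T.indicator A x v * T.indicator A x u))) 1 volume :=
          eLpNorm_mono_measure _ Measure.restrict_le_self
      _ ≤ _ := by
          refine (eLpNorm_add_le (m1.sub m2) (m3.sub m4) le_rfl).trans ?_
          exact add_le_add (eLpNorm_sub_le m1 m2 le_rfl) (eLpNorm_sub_le m3 m4 le_rfl)

end Pool.TIA

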