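import Pool.Agent.Work.MP_a1f430_ti.Interface3
import Pool.Agent.Work.MP_a1f430_ti.B_AL2

/-! # Block AU0: the main estimate for `n - 5` annihilating fields -/

set_option autoImplicit false

namespace Pool.TIA

open MeasureTheory Set Filter Topology
open scoped ContDiff ENNReal

theorem AU0_wdg {m : ℕ} {E : Type} [NormedAddCommGroup E] [NormedSpace ℝ E]
    (Ω : E [⋀^Fin m]→L[ℝ] ℝ) (F : E [⋀^Fin 2]→L[ℝ] ℝ) (v : Fin m ⊕ Fin 2 → E) (b : ℝ)
    (hb : ∀ τ : Equiv.Perm (Fin m ⊕ Fin 2),
      ‖Ω (fun i => v (τ (Sum.inl i)))‖ * ‖F (fun i => v (τ (Sum.inr i)))‖ ≤ b) :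
    ‖wdg Ω F v‖ ≤ AL2_K m * b := by
  have h1 : wdg Ω F v = ∑ σ : Equiv.Perm.ModSumCongr (Fin m) (Fin 2), TensorProduct.lid ℝ ℝ
      (AlternatingMap.domCoprod.summand Ω.toAlternatingMap F.toAlternatingMap σ v) := by
    unfold wdg
    rw [AlternatingMap.domCoprod_apply, sum_apply, map_sum]
  have h2 : ∀ σ : Equiv.Perm.ModSumCongr (Fin m) (Fin 2), ‖TensorProduct.lid ℝ ℝ
      (AlternatingMap.domCoprod.summand Ω.toAlternatingMap F.toAlternatingMap σ v)‖ ≤ b := by
    intro σ
    induction σ using Quotient.inductionOn' with | _ τ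
    have h3 : TensorProduct.lid ℝ ℝ
        (AlternatingMap.domCoprod.summand Ω.toAlternatingMap F.toAlternatingMap
          (Quotient.mk'' τ) v) = Equiv.Perm.sign τ •
          (Ω (fun i => v (τ (Sum.inl i))) • F (fun i => v (τ (Sum.inr i)))) := by
      rw [AlternatingMap.domCoprod.summand_mk'']
      have h4 : (Equiv.Perm.sign τ • (MultilinearMap.domCoprod
          (Ω.toAlternatingMap : MultilinearMap ℝ (fun _ : Fin m => E) ℝ)
          (F.toAlternatingMap : MultilinearMap ℝ (fun _ : Fin 2 => E) ℝ)).domDomCongr τ) v =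
          Equiv.Perm.sign τ • (Ω (fun i => v (τ (Sum.inl i))) ⊗ₜ[ℝ]
            F (fun i => v (τ (Sum.inr i)))) := rfl
      rw [h4]
      rcases Int.units_eq_one_or (Equiv.Perm.sign τ) with h | h
      · rw [h, one_smul, one_smul, TensorProduct.lid_tmul]
      · rw [h, Units.neg_smul, one_smul, map_neg, TensorProduct.lid_tmul, Units.neg_smul,
          one_smul]
    rw [h3]
    have h5 : ‖Equiv.Perm.sign τ •
          (Ω (fun i => v (τ (Sum.inl i))) • F (fun i => v (τ (Sum.inr i))))‖ =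
        ‖Ω (fun i => v (τ (Sum.inl i)))‖ * ‖F (fun i => v (τ (Sum.inr i)))‖ := by
      rcases Int.units_eq_one_or (Equiv.Perm.sign τ) with h | h
      · rw [h, one_smul, norm_smul]
      · rw [h, Units.neg_smul, one_smul, norm_neg, norm_smul]
    rw [h5]
    exact hb τ
  rw [h1]
  refine (norm_sum_le _ _).trans ((Finset.sum_le_card_nsmul _ _ b fun σ _ => h2 σ).trans ?_)
  rw [Finset.card_univ, nsmul_eq_mul]
  exact le_rfl

theorem AU0_anti {E : Type} [NormedAddCommGroup E] [NormedSpace ℝ E] (w : E [⋀^Fin 2]→L[ℝ] ℝ)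
    (x y : E) : w ![x, y] = -w ![y, x] := by
  have h := w.toAlternatingMap.map_swap ![y, x] (i := 0) (j := 1) (by decide)
  have e : (![y, x] : Fin 2 → E) ∘ Equiv.swap (0 : Fin 2) 1 = ![x, y] := by
    funext i
    fin_cases i
    · simp
    · simp
  rw [e] at h
  exact h

/-- a family of `k + 1` members which contains `f` -/
theorem AU0_cons {E : Type} [NormedAddCommGroup E] [NormedSpace ℝ E] {k : ℕ}
    (Ω : E [⋀^Fin (k + 1)]→L[ℝ] ℝ) (u : Fin (k + 1) → E) (ι : Fin k → Fin (k + 1))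
    (hι : Function.Injective ι) : ∃ i₀, (∀ j, ι j ≠ i₀) ∧
      |Ω u| = |Ω (Fin.cons (u i₀) fun j => u (ι j))| := by
  obtain ⟨i₀, hi₀⟩ : ∃ i₀, i₀ ∉ Set.range ι := by
    by_contra h
    push Not at h
    have h1 : Function.Surjective ι := fun i => h i
    have h2 := Fintype.card_le_of_surjective ι h1
    simp at h2
  have hne : ∀ j, ι j ≠ i₀ := fun j h => hi₀ ⟨j, h⟩
  refine ⟨i₀, hne, ?_⟩
  let ρ : Fin (k + 1) → Fin (k + 1) := Fin.cons i₀ ι
  have hρ : Function.Injective ρ := by
    refine Fin.cons_injective_iff.2 ⟨hi₀, hι⟩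
  let σ : Equiv.Perm (Fin (k + 1)) := Equiv.ofBijective ρ (Finite.injective_iff_bijective.1 hρ)
  have h3 : (Fin.cons (u i₀) fun j => u (ι j) : Fin (k + 1) → E) = u ∘ σ := by
    funext i
    refine Fin.cases ?_ (fun j => ?_) i
    · rfl
    · rfl
  rw [h3]
  have h4 : Ω (u ∘ σ) = Equiv.Perm.sign σ • Ω u := Ω.toAlternatingMap.map_perm u σ
  rw [h4]
  rcases Int.units_eq_one_or (Equiv.Perm.sign σ) with h | h
  · rw [h, one_smul]
  · rw [h, Units.neg_smul, one_smul, abs_neg]

theorem p_AU0 (hFRE : Stmt_FRE) : Stmt_AU0 := by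
  intro k
  refine ⟨AL2_K (k + 1) + 1, by unfold AL2_K; positivity, ?_⟩
  intro h hsym hpos Ω w f a b ε M hstar hf hwf hfab haa hbb hab hΩ hM hε hM0
  obtain ⟨e, he, he0, he1, hef⟩ := hFRE k h hsym hpos f a b hf hfab haa hbb hab
  have h1 := hstar e he
  rw [he0, he1] at h1
  have hone : ∀ i, h (e i) (e i) = 1 := fun i => by rw [he.orth, if_pos rfl]
  have hzero : ∀ i j, i ≠ j → h (e i) (e j) = 0 := fun i j hij => by rw [he.orth, if_neg hij]
  have key : ∀ τ : Equiv.Perm (Fin (k + 1) ⊕ Fin 2),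
      ‖Ω (fun i => e (Sum.inl (τ (Sum.inl i))))‖ * ‖w (fun i => e (Sum.inl (τ (Sum.inr i))))‖ ≤
        ε * M := by
    intro τ
    rw [AL2_vec (fun i => e (Sum.inl (τ (Sum.inr i))))]
    by_cases hcase : ∀ j : Fin k, ∃ i : Fin (k + 1), τ (Sum.inl i) = Sum.inl j.castSucc
    · choose ι hι using hcase
      have hinj : Function.Injective ι := fun j j' hjj => by
        have h2 := hι j
        rw [hjj, hι j'] at h2
        exact (Fin.castSucc_injective k (Sum.inl_injective h2)).symm
      obtain ⟨i₀, hi₀, hΩe⟩ := AU0_cons Ω (fun i => e (Sum.inl (τ (Sum.inl i)))) ι hinj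
      have hcf : (fun j => e (Sum.inl (τ (Sum.inl (ι j))))) = f := by
        funext j
        rw [hι, hef]
      have h3 : |Ω (fun i => e (Sum.inl (τ (Sum.inl i))))| ≤ ε := by
        rw [hΩe]
        show |Ω (Fin.cons (e (Sum.inl (τ (Sum.inl i₀))))
          (fun j => e (Sum.inl (τ (Sum.inl (ι j))))))| ≤ ε
        rw [hcf]
        refine hΩ _ (hone _) (fun j => ?_) ?_ ?_
        · rw [← hef]
          refine hzero _ _ fun h4 => ?_
          rw [← hι j] at h4
          exact hi₀ j (Sum.inl_injective (τ.injective (Sum.inl_injective h4)))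
        · rw [← he0]
          exact hzero _ _ (by simp)
        · rw [← he1]
          exact hzero _ _ (by simp)
      have h5 : |w ![e (Sum.inl (τ (Sum.inr 0))), e (Sum.inl (τ (Sum.inr 1)))]| ≤ M := by
        refine hM _ _ (hone _) (hone _) (hzero _ _ fun h6 => ?_)
        have h7 := Sum.inr_injective (τ.injective (Sum.inl_injective h6))
        exact absurd h7 (by decide)
      rw [Real.norm_eq_abs, Real.norm_eq_abs]
      exact mul_le_mul h3 h5 (abs_nonneg _) hε
    · push Not at hcase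
      obtain ⟨j, hj⟩ := hcase
      have h8 : w ![e (Sum.inl (τ (Sum.inr 0))), e (Sum.inl (τ (Sum.inr 1)))] = 0 := by
        obtain ⟨x, hx⟩ := τ.surjective (Sum.inl j.castSucc)
        rcases x with i | i
        · exact absurd hx (hj i)
        · fin_cases i
          · have h9 : τ (Sum.inr 0) = Sum.inl j.castSucc := hx
            rw [h9, hef]
            exact hwf j _
          · have h9 : τ (Sum.inr 1) = Sum.inl j.castSucc := hx
            rw [h9, hef, AU0_anti, hwf j, neg_zero]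
      rw [h8, norm_zero, mul_zero]
      positivity
  have h10 := AU0_wdg Ω w (fun i => e (Sum.inl i)) (ε * M) key
  rw [h1, Real.norm_eq_abs] at h10
  have h11 : 0 ≤ ε * M := by positivity
  calc |w ![a, b]| ≤ AL2_K (k + 1) * (ε * M) := h10
    _ ≤ (AL2_K (k + 1) + 1) * ε * M := by nlinarith

end Pool.TIA
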