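import Pool.Agent.Work.MP_a1f430_ti.Interface3
import Pool.Agent.Work.MP_a1f430_ti.B_AL1
import Pool.Agent.Work.MP_a1f430_ti.B_AL2

/-! # Block AU1: the additional annihilating vector -/

set_option autoImplicit false

namespace Pool.TIA

open MeasureTheory Set Filter Topology
open scoped ContDiff ENNReal

/-- An orthonormal basis of the span of an independent family. -/
theorem AU1_gs (V : Type) [AddCommGroup V] [Module ℝ V] [FiniteDimensional ℝ V] {k : ℕ}
    (h : V →ₗ[ℝ] V →ₗ[ℝ] ℝ) (hs : ∀ v w, h v w = h w v) (hp : ∀ v, v ≠ 0 → 0 < h v v)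
    (T : Fin k → V) (hT : LinearIndependent ℝ T) :
    ∃ f : Fin k → V, (∀ i j, h (f i) (f j) = if i = j then 1 else 0) ∧
      ∀ i, f i ∈ Submodule.span ℝ (Set.range T) := by
  let core : InnerProductSpace.Core ℝ V :=
    { inner := fun x y => h x y
      conj_inner_symm := fun x y => by simpa using hs y x
      re_inner_nonneg := fun x => by
        by_cases hx : x = 0
        · subst hx; simp
        · simpa using (hp x hx).le
      add_left := fun x y z => by simp
      smul_left := fun x y r => by simp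
      definite := fun x hx => by
        by_contra hne
        exact (hp x hne).ne' hx }
  letI : NormedAddCommGroup V := core.toNormedAddCommGroup
  letI : InnerProductSpace ℝ V := InnerProductSpace.ofCore core.toCore
  have hk : Module.finrank ℝ (Submodule.span ℝ (Set.range T)) = k := by
    rw [finrank_span_eq_card hT, Fintype.card_fin]
  obtain ⟨b, hb⟩ : ∃ b : Fin (Module.finrank ℝ (Submodule.span ℝ (Set.range T))) →
      (Submodule.span ℝ (Set.range T)), Orthonormal ℝ b :=
    ⟨_, (stdOrthonormalBasis ℝ (Submodule.span ℝ (Set.range T))).orthonormal⟩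
  refine ⟨fun i => (b (Fin.cast hk.symm i) : V), fun i j => ?_, fun i => (b _).2⟩
  have h1 := orthonormal_iff_ite.1 hb (Fin.cast hk.symm i) (Fin.cast hk.symm j)
  have h2 : inner ℝ (b (Fin.cast hk.symm i)) (b (Fin.cast hk.symm j)) =
      h (b (Fin.cast hk.symm i) : V) (b (Fin.cast hk.symm j) : V) := rfl
  rw [h2] at h1
  simpa [Fin.ext_iff] using h1

/-- If the form vanishes on `c, T` it vanishes on `c, f` for all `f` in the span of `T`. -/
theorem AU1_span {E : Type} [NormedAddCommGroup E] [NormedSpace ℝ E] {k : ℕ}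
    (Ω : E [⋀^Fin (k + 1)]→L[ℝ] ℝ) (c : E) (T f : Fin k → E) (hT : LinearIndependent ℝ T)
    (hf : ∀ i, f i ∈ Submodule.span ℝ (Set.range T)) (h0 : Ω (Fin.cons c T) = 0) :
    Ω (Fin.cons c f) = 0 := by
  have h1 : (Ω.toAlternatingMap.curryLeft c).compLinearMap
      (Submodule.span ℝ (Set.range T)).subtype = 0 := by
    rw [← AlternatingMap.map_basis_eq_zero_iff (Module.Basis.span hT)]
    have h2 : (fun i => ((Module.Basis.span hT i : Submodule.span ℝ (Set.range T)) : E)) = T := by
      funext i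
      exact congrArg Subtype.val (Module.Basis.span_apply hT i)
    have h3 : ((Ω.toAlternatingMap.curryLeft c).compLinearMap
      (Submodule.span ℝ (Set.range T)).subtype) (Module.Basis.span hT) =
      Ω (Fin.cons c (fun i => ((Module.Basis.span hT i : Submodule.span ℝ (Set.range T)) : E))) :=
      rfl
    rw [h3, h2]
    exact h0
  have h4 := congrArg (fun g => g (fun i => (⟨f i, hf i⟩ : Submodule.span ℝ (Set.range T)))) h1
  exact h4

theorem p_AU1 (hAU0 : Stmt_AU0) : Stmt_AU1 := by
  intro k h hsym hpos Ω w T S hstar hT hwT hS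
  by_cases hS0 : S = 0
  · intro v
    have h1 := AL1_smul0 w S v 0
    rw [zero_smul, zero_smul] at h1
    rw [hS0]
    exact h1
  have hSS := hpos S hS0
  let h' : Eu (k + 1 + 4) →ₗ[ℝ] Eu (k + 1 + 4) →ₗ[ℝ] ℝ :=
    LinearMap.mk₂ ℝ (fun x y => h x y) (by intros; simp) (by intros; simp) (by intros; simp)
      (by intros; simp)
  have hh' : ∀ x y, h' x y = h x y := fun x y => rfl
  obtain ⟨f, hf, hfs⟩ := AU1_gs (Eu (k + 1 + 4)) h'
    (fun x y => by simpa [hh'] using hsym x y) (fun x hx => by simpa [hh'] using hpos x hx) T hT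
  simp only [hh'] at hf
  have hwf : ∀ i v, w ![f i, v] = 0 := by
    intro i v
    refine Submodule.span_induction (p := fun x _ => w ![x, v] = 0) ?_ ?_ ?_ ?_ (hfs i)
    · rintro x ⟨j, rfl⟩
      exact hwT j v
    · have h1 := AL1_smul0 w S v 0
      rw [zero_smul, zero_smul] at h1
      exact h1
    · intro x y _ _ hx hy
      have h1 := w.toAlternatingMap.map_update_add ![x, v] 0 x y
      rw [AL1_upd0, AL1_upd0, AL1_upd0] at h1
      refine h1.trans ?_
      show w ![x, v] + w ![y, v] = 0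
      rw [hx, hy, add_zero]
    · intro c x _ hx
      rw [AL1_smul0, hx, smul_zero]
  have hST : ∀ j, h S (T j) = 0 := by
    intro j
    rw [hS]
    exact Ω.toAlternatingMap.map_eq_zero_of_eq (Fin.cons (T j) T) (i := 0) (j := j.succ) (by simp)
      (Fin.succ_ne_zero j).symm
  have hSf : ∀ i, h S (f i) = 0 := by
    intro i
    refine Submodule.span_induction (p := fun x _ => h S x = 0) ?_ ?_ ?_ ?_ (hfs i)
    · rintro x ⟨j, rfl⟩
      exact hST j
    · exact map_zero _
    · intro x y _ _ hx hy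
      rw [map_add, hx, hy, add_zero]
    · intro c x _ hx
      rw [map_smul, hx, smul_zero]
  have hΩ : ∀ c, h S c = 0 → Ω (Fin.cons c f) = 0 := fun c hc =>
    AU1_span Ω c T f hT hfs (by rw [← hS, hc])
  obtain ⟨a, ha⟩ : ∃ a, a = Real.sqrt (h S S) := ⟨_, rfl⟩
  have ha0 : 0 < a := by
    rw [ha]
    exact Real.sqrt_pos.2 hSS
  have haa : a * a = h S S := by
    rw [ha]
    exact Real.mul_self_sqrt hSS.le
  have hv1 : h (a⁻¹ • S) (a⁻¹ • S) = 1 := by
    rw [map_smul, map_smul, _root_.smul_apply, smul_eq_mul, smul_eq_mul, ← haa]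
    field_simp
  obtain ⟨C, hC, hmain⟩ := hAU0 k
  obtain ⟨c₀, hc₀, hc₁⟩ := AL2_bound (n := k + 1 + 3) h hpos
  have hR : ∀ v, h v v = 1 → ‖v‖ ≤ Real.sqrt (1 / c₀) := by
    intro v hv
    refine Real.le_sqrt_of_sq_le ?_
    rw [le_div_iff₀ hc₀, mul_comm, ← hv]
    exact hc₁ v
  have key : ∀ b, h b b = 1 → (∀ i, h (f i) b = 0) → h S b = 0 → w ![a⁻¹ • S, b] = 0 := by
    intro b hb hfb hSb
    have h1 := hmain h hsym hpos Ω w f (a⁻¹ • S) b 0 (‖w‖ * Real.sqrt (1 / c₀) ^ 2) hstar hf hwf
      (fun i => ⟨by rw [map_smul, hsym, hSf, smul_zero], hfb i⟩) hv1 hb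
      (by rw [map_smul, _root_.smul_apply, hSb, smul_zero]) ?_ ?_ le_rfl (by positivity)
    · rw [mul_zero, zero_mul] at h1
      exact abs_nonpos_iff.1 h1
    · intro c _ _ hac _
      have h2 : h S c = 0 := by
        rw [map_smul, _root_.smul_apply, smul_eq_mul] at hac
        exact (mul_eq_zero.1 hac).resolve_left (inv_ne_zero ha0.ne')
      rw [hΩ c h2, abs_zero]
    · intro c d hc hd _
      refine w.le_opNorm_mul_pow_of_le ?_
      rw [pi_norm_le_iff_of_nonneg (Real.sqrt_nonneg _)]
      intro i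
      fin_cases i
      · exact hR c hc
      · exact hR d hd
  let wl : Eu (k + 1 + 4) →ₗ[ℝ] ℝ :=
    w.toAlternatingMap.toMultilinearMap.toLinearMap ![S, 0] 1
  have hwl : ∀ x, wl x = w ![S, x] := by
    intro x
    show w (Function.update ![S, 0] 1 x) = w ![S, x]
    rw [AL1_upd]
  intro v
  obtain ⟨v', hv'⟩ : ∃ v', v' = v - (h S v / h S S) • S - ∑ i, h (f i) v • f i := ⟨_, rfl⟩
  have hSv' : h S v' = 0 := by
    rw [hv', map_sub, map_sub, map_sum, map_smul, smul_eq_mul, div_mul_cancel₀ _ hSS.ne',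
      Finset.sum_eq_zero, sub_self, sub_zero]
    intro i _
    rw [map_smul, hSf, smul_zero]
  have hfv' : ∀ j, h (f j) v' = 0 := by
    intro j
    rw [hv', map_sub, map_sub, map_sum, map_smul, hsym (f j) S, hSf, smul_zero, sub_zero,
      Finset.sum_eq_single j]
    · rw [map_smul, hf, if_pos rfl, smul_eq_mul, mul_one, sub_self]
    · intro i _ hij
      rw [map_smul, hf, if_neg (Ne.symm hij), smul_zero]
    · intro hj
      exact absurd (Finset.mem_univ j) hj
  have hwv : w ![S, v] = w ![S, v'] := by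
    rw [← hwl, ← hwl, hv', map_sub, map_sub, map_sum, map_smul, hwl S, AL1_self, smul_zero,
      sub_zero, Finset.sum_eq_zero, sub_zero]
    intro i _
    rw [map_smul, hwl]
    have h1 := w.toAlternatingMap.map_swap ![f i, S] (i := 0) (j := 1) (by decide)
    have e : (![f i, S] : Fin 2 → Eu (k + 1 + 4)) ∘ Equiv.swap (0 : Fin 2) 1 = ![S, f i] := by
      funext i
      fin_cases i
      · simp
      · simp
    rw [e] at h1
    have h2 : w ![S, f i] = -w ![f i, S] := h1
    rw [h2, hwf, neg_zero, smul_zero]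
  rw [hwv]
  by_cases hv0 : v' = 0
  · have h1 := AL1_smul w S v' 0
    rw [zero_smul, zero_smul] at h1
    rw [hv0]
    exact h1
  have hvv := hpos v' hv0
  obtain ⟨b, hb⟩ : ∃ b, b = Real.sqrt (h v' v') := ⟨_, rfl⟩
  have hb0 : 0 < b := by
    rw [hb]
    exact Real.sqrt_pos.2 hvv
  have hbb : b * b = h v' v' := by
    rw [hb]
    exact Real.mul_self_sqrt hvv.le
  have hv2 : h (b⁻¹ • v') (b⁻¹ • v') = 1 := by
    rw [map_smul, map_smul, _root_.smul_apply, smul_eq_mul, smul_eq_mul, ← hbb]
    field_simp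
  have h1 := key (b⁻¹ • v') hv2 (fun i => by rw [map_smul, hfv', smul_zero])
    (by rw [map_smul, hSv', smul_zero])
  rw [AL1_smul0, AL1_smul] at h1
  exact ((smul_eq_zero.1 ((smul_eq_zero.1 h1).resolve_left (inv_ne_zero ha0.ne'))).resolve_left
    (inv_ne_zero hb0.ne'))

end Pool.TIA
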