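import Pool.Agent.Work.MP_a1f430_ti.Interface3
import Pool.Agent.Work.MP_a1f430_ti.B_AL2

/-! # Block AU2: fields on which the form vanishes -/

set_option autoImplicit false

namespace Pool.TIA

open MeasureTheory Set Filter Topology
open scoped ContDiff ENNReal

/-- an orthonormal basis of a span -/
theorem AU2_orth {n k : ℕ} (g : Eu n →L[ℝ] Eu n →L[ℝ] ℝ) (hs : ∀ v w, g v w = g w v)
    (hg : ∀ v, v ≠ 0 → 0 < g v v) (T : Fin k → Eu n) (hT : LinearIndependent ℝ T) :
    ∃ f : Fin k → Eu n, (∀ i j, g (f i) (f j) = if i = j then 1 else 0) ∧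
      ∀ i, f i ∈ Submodule.span ℝ (Set.range T) := by
  set W := Submodule.span ℝ (Set.range T) with hW
  have hdim : Module.finrank ℝ W = k := by
    rw [hW, finrank_span_eq_card hT, Fintype.card_fin]
  let B0 : LinearMap.BilinForm ℝ (Eu n) :=
    LinearMap.mk₂ ℝ (fun v w => g v w) (fun _ _ _ => by simp) (fun _ _ _ => by simp)
      (fun _ _ _ => by simp) (fun _ _ _ => by simp)
  let B : LinearMap.BilinForm ℝ W := B0.restrict W
  have hB : ∀ v w : W, B v w = g v w := fun v w => rfl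
  have hsym : LinearMap.IsSymm B := ⟨fun v w => by
    simp only [hB, RingHom.id_apply]
    exact hs _ _⟩
  obtain ⟨v, hv⟩ := LinearMap.BilinForm.exists_orthogonal_basis hsym
  have hpos : ∀ i, 0 < g (v i) (v i) := fun i => hg _ fun h0 =>
    v.ne_zero i (Submodule.coe_eq_zero.1 h0)
  have hort : ∀ i j, i ≠ j → g (v i) (v j) = 0 := by
    intro i j hij
    have := hv hij
    exact this
  refine ⟨fun i => (Real.sqrt (g (v (Fin.cast hdim.symm i)) (v (Fin.cast hdim.symm i))))⁻¹ •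
    (v (Fin.cast hdim.symm i) : Eu n), ?_, ?_⟩
  · intro i j
    rw [map_smul, map_smul, smul_apply, smul_eq_mul, smul_eq_mul]
    by_cases hij : i = j
    · subst hij
      rw [if_pos rfl]
      have h1 := hpos (Fin.cast hdim.symm i)
      have h2 := Real.mul_self_sqrt h1.le
      have h3 : Real.sqrt (g (v (Fin.cast hdim.symm i)) (v (Fin.cast hdim.symm i))) ≠ 0 :=
        (Real.sqrt_pos.mpr h1).ne'
      nth_rewrite 3 [← h2]
      field_simp
    · rw [if_neg hij, hort _ _ (fun h => hij (Fin.cast_injective _ h)), mul_zero, mul_zero]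
  · intro i
    exact Submodule.smul_mem _ _ (v (Fin.cast hdim.symm i)).2

theorem AU2_det {n k : ℕ} (Ω : Eu n [⋀^Fin (k + 1)]→L[ℝ] ℝ) (T f : Fin k → Eu n)
    (A : Fin k → Fin k → ℝ) (hA : ∀ i, ∑ j, A i j • T j = f i) (c : Eu n) :
    Ω (Fin.cons c f) = Ω (Fin.cons c T) * Matrix.det (Matrix.of A) := by
  let g : Eu n [⋀^Fin k]→ₗ[ℝ] ℝ := Ω.toAlternatingMap.curryLeft c
  have hg : ∀ v : Fin k → Eu n, g v = Ω (Fin.cons c v) := fun v => rfl
  let L : (Fin k → ℝ) →ₗ[ℝ] Eu n := Fintype.linearCombination ℝ T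
  have h1 := AlternatingMap.eq_smul_basis_det (Pi.basisFun ℝ (Fin k)) (g.compLinearMap L)
  have h2 := congrArg (fun F : (Fin k → ℝ) [⋀^Fin k]→ₗ[ℝ] ℝ => F A) h1
  have h3 : (g.compLinearMap L) A = Ω (Fin.cons c f) := by
    rw [← hg, AlternatingMap.compLinearMap_apply]
    congr 1
    funext i
    rw [← hA i]
    exact Fintype.linearCombination_apply ℝ T (A i)
  have h4 : (g.compLinearMap L) (Pi.basisFun ℝ (Fin k)) = Ω (Fin.cons c T) := by
    rw [← hg, AlternatingMap.compLinearMap_apply]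
    congr 1
    funext i
    show L (Pi.basisFun ℝ (Fin k) i) = T i
    rw [Pi.basisFun_apply]
    show Fintype.linearCombination ℝ T (Pi.single i 1) = T i
    rw [Fintype.linearCombination_apply_single, one_smul]
  have h5 : (Pi.basisFun ℝ (Fin k)).det A = Matrix.det (Matrix.of A) := by
    rw [Pi.basisFun_det]
    rfl
  simp only [h3, AlternatingMap.smul_apply, h4, h5, smul_eq_mul] at h2
  exact h2

/-- pairs orthogonal to the fields are enough -/
theorem AU2_red {n k : ℕ} (g : Eu n →L[ℝ] Eu n →L[ℝ] ℝ) (hs : ∀ v w, g v w = g w v)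
    (hg : ∀ v, v ≠ 0 → 0 < g v v) (w : Eu n [⋀^Fin 2]→L[ℝ] ℝ) (f : Fin k → Eu n)
    (hf : ∀ i j, g (f i) (f j) = if i = j then 1 else 0) (hw : ∀ i v, w ![f i, v] = 0)
    (M : ℝ) (hM : 0 ≤ M)
    (h : ∀ a b, (∀ i, g (f i) a = 0 ∧ g (f i) b = 0) → g a a = 1 → g b b = 1 → g a b = 0 →
      |w ![a, b]| ≤ M) :
    ∀ c d, g c c = 1 → g d d = 1 → |w ![c, d]| ≤ M := by
  have hpos : ∀ v, 0 ≤ g v v := by
    intro v
    by_cases hv : v = 0
    · rw [hv]; simp
    · exact (hg v hv).le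
  have hadd0 : ∀ a a' b, w ![a + a', b] = w ![a, b] + w ![a', b] := by
    intro a a' b
    have h1 := w.map_update_add ![a, b] 0 a a'
    rwa [AL2_up0, AL2_up0, AL2_up0] at h1
  have hswap : ∀ a b, w ![a, b] = - w ![b, a] := by
    intro a b
    have h1 := AL2_self w (a + b)
    rw [hadd0, AL2_add1, AL2_add1, AL2_self, AL2_self, zero_add, add_zero] at h1
    linarith
  have hspan : ∀ s : Fin k → ℝ, ∀ v, w ![∑ i, s i • f i, v] = 0 := by
    intro s v
    let φ : Eu n →ₗ[ℝ] ℝ :=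
      { toFun := fun z => w ![z, v]
        map_add' := fun a b => hadd0 a b v
        map_smul' := fun r a => AL2_smul0 w r a v }
    have h1 : φ (∑ i, s i • f i) = 0 := by
      rw [map_sum]
      refine Finset.sum_eq_zero fun i _ => ?_
      rw [map_smul]
      show s i • w ![f i, v] = 0
      rw [hw, smul_zero]
    exact h1
  -- the projection
  set P : Eu n → Eu n := fun c => c - ∑ i, g (f i) c • f i with hP
  have hPz : ∀ z c, g z (P c) = g z c - ∑ i, g (f i) c * g z (f i) := by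
    intro z c
    simp only [hP, map_sub, map_sum, map_smul, smul_eq_mul]
  have hP1 : ∀ c i, g (f i) (P c) = 0 := by
    intro c i
    rw [hPz]
    simp [hf]
  have hP2 : ∀ c, g (P c) (P c) = g c c - ∑ i, g (f i) c ^ 2 := by
    intro c
    rw [hPz, Finset.sum_eq_zero, sub_zero, hs, hPz]
    · congr 1
      refine Finset.sum_congr rfl fun i _ => ?_
      rw [hs c (f i)]
      ring
    · intro i _
      rw [hs (P c) (f i), hP1, mul_zero]
  have hP3 : ∀ c, g (P c) (P c) ≤ g c c := by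
    intro c
    rw [hP2]
    have : 0 ≤ ∑ i, g (f i) c ^ 2 := Finset.sum_nonneg fun i _ => sq_nonneg _
    linarith
  have hP4 : ∀ c v, w ![P c, v] = w ![c, v] := by
    intro c v
    have e1 : c = P c + ∑ i, g (f i) c • f i := by
      simp only [hP]
      abel
    conv_rhs => rw [e1]
    rw [hadd0, hspan, add_zero]
  intro c d hc hd
  rw [← hP4 c d, hswap, ← hP4 d, hswap, neg_neg]
  have c1 : g (P c) (P c) ≤ 1 := by rw [← hc]; exact hP3 c
  have d1 : g (P d) (P d) ≤ 1 := by rw [← hd]; exact hP3 d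
  have c2 := hP1 c
  have d2 := hP1 d
  generalize P c = c' at c1 c2 ⊢
  generalize P d = d' at d1 d2 ⊢
  by_cases hc0 : c' = 0
  · rw [hc0]
    have : w ![(0 : Eu n), d'] = 0 := w.map_coord_zero 0 rfl
    rw [this, abs_zero]
    exact hM
  set r := Real.sqrt (g c' c') with hr
  have hr0 : 0 < r := Real.sqrt_pos.2 (hg _ hc0)
  have hr2 : r ^ 2 = g c' c' := Real.sq_sqrt (hpos _)
  have hr1 : r ≤ 1 := Real.sqrt_le_one.mpr c1
  obtain ⟨a, ha⟩ : ∃ a, a = r⁻¹ • c' := ⟨_, rfl⟩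
  have hca : c' = r • a := by
    rw [ha, smul_smul, mul_inv_cancel₀ hr0.ne', one_smul]
  have haa : g a a = 1 := by
    rw [ha, map_smul, map_smul, smul_apply, smul_eq_mul, smul_eq_mul, ← hr2]
    field_simp
  have hfa : ∀ i, g (f i) a = 0 := by
    intro i
    rw [ha, map_smul, c2 i, smul_zero]
  obtain ⟨d'', hd''⟩ : ∃ d'', d'' = d' - g a d' • a := ⟨_, rfl⟩
  have hfd : ∀ i, g (f i) d'' = 0 := by
    intro i
    rw [hd'', map_sub, map_smul, d2 i, hfa i, smul_zero, sub_zero]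
  have had : g a d'' = 0 := by
    rw [hd'', map_sub, map_smul, haa, smul_eq_mul, mul_one, sub_self]
  have hdd : g d'' d'' ≤ 1 := by
    have e0 : ∀ z, g z d'' = g z d' - g a d' * g z a := by
      intro z
      rw [hd'', map_sub, map_smul, smul_eq_mul]
    have e1 : g d'' d'' = g d' d' - g a d' ^ 2 := by
      rw [e0 d'', hs d'' a, had, mul_zero, sub_zero, hs d'' d', e0, hs d' a]
      ring
    rw [e1]
    nlinarith [sq_nonneg (g a d')]
  have hwd : w ![c', d'] = r * w ![a, d''] := by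
    have e1 : d' = d'' + g a d' • a := by
      rw [hd'']
      abel
    rw [hca]
    conv_lhs => rw [e1]
    rw [AL2_smul0, AL2_add1, AL2_smul1, AL2_self, smul_zero, add_zero, smul_eq_mul]
  rw [hwd]
  by_cases hd0 : d'' = 0
  · rw [hd0]
    have : w ![a, (0 : Eu n)] = 0 := w.map_coord_zero 1 rfl
    rw [this, mul_zero, abs_zero]
    exact hM
  set q := Real.sqrt (g d'' d'') with hq
  have hq0 : 0 < q := Real.sqrt_pos.2 (hg _ hd0)
  have hq2 : q ^ 2 = g d'' d'' := Real.sq_sqrt (hpos _)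
  have hq1 : q ≤ 1 := Real.sqrt_le_one.mpr hdd
  obtain ⟨b, hb⟩ : ∃ b, b = q⁻¹ • d'' := ⟨_, rfl⟩
  have hdb : d'' = q • b := by
    rw [hb, smul_smul, mul_inv_cancel₀ hq0.ne', one_smul]
  have hbb : g b b = 1 := by
    rw [hb, map_smul, map_smul, smul_apply, smul_eq_mul, smul_eq_mul, ← hq2]
    field_simp
  have hfb : ∀ i, g (f i) b = 0 := by
    intro i
    rw [hb, map_smul, hfd i, smul_zero]
  have hab : g a b = 0 := by
    rw [hb, map_smul, had, smul_zero]
  have hfin := h a b (fun i => ⟨hfa i, hfb i⟩) haa hbb hab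
  rw [hdb, AL2_smul1, smul_eq_mul, abs_mul, abs_mul, abs_of_pos hr0, abs_of_pos hq0]
  calc r * (q * |w ![a, b]|) ≤ 1 * (1 * M) := by
        gcongr
    _ = M := by ring

/-- the norm of the solutions is contracted -/
theorem AU2_contr {n k : ℕ} (g : Eu n →L[ℝ] Eu n →L[ℝ] ℝ) (hs : ∀ v w, g v w = g w v)
    (hg : ∀ v, v ≠ 0 → 0 < g v v) (w : Eu n [⋀^Fin 2]→L[ℝ] ℝ) (f : Fin k → Eu n)
    (hf : ∀ i j, g (f i) (f j) = if i = j then 1 else 0) (hw : ∀ i v, w ![f i, v] = 0)
    (R q : ℝ) (hR0 : 0 ≤ R) (hR : ∀ v, g v v = 1 → ‖v‖ ≤ R) (hq0 : 0 ≤ q) (hq1 : q < 1)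
    (h : ∀ M, 0 ≤ M → (∀ c d, g c c = 1 → g d d = 1 → g c d = 0 → |w ![c, d]| ≤ M) →
      ∀ a b, (∀ i, g (f i) a = 0 ∧ g (f i) b = 0) → g a a = 1 → g b b = 1 → g a b = 0 →
      |w ![a, b]| ≤ q * M) : w = 0 := by
  have hM0 : 0 ≤ ‖w‖ * R ^ 2 := by positivity
  have key : ∀ m : ℕ, ∀ c d, g c c = 1 → g d d = 1 → |w ![c, d]| ≤ q ^ m * (‖w‖ * R ^ 2) := by
    intro m
    induction m with
    | zero =>
      intro c d hc hd
      rw [pow_zero, one_mul, ← Real.norm_eq_abs]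
      refine w.le_opNorm_mul_pow_of_le ?_
      rw [pi_norm_le_iff_of_nonneg hR0]
      intro i
      fin_cases i
      · exact hR c hc
      · exact hR d hd
    | succ m ih =>
      have h0 : 0 ≤ q ^ m * (‖w‖ * R ^ 2) := by positivity
      have h1 := AU2_red g hs hg w f hf hw (q * (q ^ m * (‖w‖ * R ^ 2)))
        (mul_nonneg hq0 h0) (h _ h0 fun c d hc hd _ => ih c d hc hd)
      intro c d hc hd
      have := h1 c d hc hd
      rw [pow_succ]
      calc |w ![c, d]| ≤ q * (q ^ m * (‖w‖ * R ^ 2)) := this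
        _ = _ := by ring
  refine AL2_zero w g hg fun c d hc hd _ => ?_
  have h1 : Tendsto (fun m : ℕ => q ^ m * (‖w‖ * R ^ 2)) atTop (𝓝 (0 * (‖w‖ * R ^ 2))) :=
    (tendsto_pow_atTop_nhds_zero_of_lt_one hq0 hq1).mul_const _
  rw [zero_mul] at h1
  exact abs_nonpos_iff.1 (ge_of_tendsto' h1 fun m => key m c d hc hd)

/-- a lower bound for linear combinations -/
theorem AU2_low {n k : ℕ} (T₀ : Fin k → Eu n) (hT : LinearIndependent ℝ T₀) :
    ∃ δ : ℝ, 0 < δ ∧ ∀ T : Fin k → Eu n, (∑ j, ‖T j - T₀ j‖ < δ) →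
      ∀ a : Fin k → ℝ, δ * ‖a‖ ≤ ‖∑ j, a j • T j‖ := by
  let L : (Fin k → ℝ) →ₗ[ℝ] Eu n := Fintype.linearCombination ℝ T₀
  have hL : LinearMap.ker L = ⊥ := by
    rw [LinearMap.ker_eq_bot]
    exact linearIndependent_iff_injective_fintypeLinearCombination.1 hT
  obtain ⟨K, hK0, hK⟩ := L.exists_antilipschitzWith hL
  have hK0' : (0 : ℝ) < K := hK0
  have hbd : ∀ a : Fin k → ℝ, ‖a‖ ≤ K * ‖∑ j, a j • T₀ j‖ := by
    intro a
    have h1 := hK.le_mul_dist a 0
    rw [dist_zero_right, map_zero, dist_zero_right] at h1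
    exact h1
  refine ⟨(2 * (K : ℝ))⁻¹, by positivity, fun T h a => ?_⟩
  have h2 : ‖∑ j, a j • T₀ j‖ ≤ ‖∑ j, a j • T j‖ + ‖a‖ * (2 * (K : ℝ))⁻¹ := by
    have h3 : ∑ j, a j • T₀ j = ∑ j, a j • T j - ∑ j, a j • (T j - T₀ j) := by
      rw [← Finset.sum_sub_distrib]
      refine Finset.sum_congr rfl fun j _ => ?_
      rw [smul_sub]
      abel
    rw [h3]
    refine (norm_sub_le _ _).trans (add_le_add le_rfl ?_)
    refine (norm_sum_le _ _).trans ?_
    calc ∑ j, ‖a j • (T j - T₀ j)‖ ≤ ∑ j, ‖a‖ * ‖T j - T₀ j‖ := by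
          refine Finset.sum_le_sum fun j _ => ?_
          rw [norm_smul]
          exact mul_le_mul_of_nonneg_right (norm_le_pi_norm a j) (norm_nonneg _)
      _ = ‖a‖ * ∑ j, ‖T j - T₀ j‖ := by rw [Finset.mul_sum]
      _ ≤ _ := mul_le_mul_of_nonneg_left h.le (norm_nonneg _)
  have h4 := hbd a
  have h5 : ‖a‖ ≤ K * ‖∑ j, a j • T j‖ + ‖a‖ / 2 := by
    calc ‖a‖ ≤ K * ‖∑ j, a j • T₀ j‖ := h4
      _ ≤ K * (‖∑ j, a j • T j‖ + ‖a‖ * (2 * (K : ℝ))⁻¹) := by gcongr
      _ = _ := by field_simp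
  have h6 : ‖a‖ ≤ 2 * K * ‖∑ j, a j • T j‖ := by linarith
  rw [inv_mul_le_iff₀ (by positivity)]
  exact h6

theorem p_AU2 (hAU0 : Stmt_AU0) : Stmt_AU2 := by
  intro k U h Ω T x₀ hU hM hΩ hT hx₀ hli hzero
  obtain ⟨C, hC, hmain⟩ := hAU0 k
  obtain ⟨c, hc, hc1⟩ := AL2_bound (n := k + 1 + 3) (h x₀) (hM.pos x₀ hx₀)
  obtain ⟨δ, hδ, hlow⟩ := AU2_low (fun j => T j x₀) hli
  set R := Real.sqrt (2 / c) with hR
  have hR0 : 0 ≤ R := Real.sqrt_nonneg _
  set D : ℝ := (Nat.factorial k : ℝ) * (R / δ) ^ k with hD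
  have hD0 : 0 ≤ D := by positivity
  set ε : ℝ := (2 * C * (D + 1))⁻¹ with hε
  have hε0 : 0 < ε := by positivity
  -- the three conditions
  have n1 : ∀ᶠ y in 𝓝 x₀, ‖h y - h x₀‖ < c / 2 := by
    have h1 : ContinuousOn (fun y => dist (h y) (h x₀)) U :=
      continuous_dist.comp_continuousOn
        (hM.smooth.continuousOn.prodMk (continuousOn_const (c := h x₀)))
    have h2 := (h1.continuousAt (hU.mem_nhds hx₀)).tendsto.eventually_lt_const
      (show dist (h x₀) (h x₀) < c / 2 by rw [dist_self]; exact half_pos hc)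
    filter_upwards [h2] with y hy
    exact (dist_eq_norm (h y) (h x₀)).symm.trans_lt hy
  have n2 : ∀ᶠ y in 𝓝 x₀, ∑ j, ‖T j y - T j x₀‖ < δ := by
    have h1 : ContinuousAt (fun y => ∑ j, ‖T j y - T j x₀‖) x₀ :=
      tendsto_finsetSum _ fun j _ =>
        (((hT j).continuousAt (hU.mem_nhds hx₀)).sub continuousAt_const).norm
    exact h1.tendsto.eventually_lt_const (by simpa using hδ)
  have n3 : ∀ᶠ y in 𝓝 x₀, ∀ v ∈ Metric.closedBall (0 : Eu (k + 1 + 4)) R,
      |Ω y (Fin.cons v fun j => T j y)| < ε := by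
    refine IsCompact.eventually_forall_of_forall_eventually (isCompact_closedBall _ _) ?_
    intro v hv
    have h1 : ContinuousAt (fun z : Eu (k + 1 + 4) × Eu (k + 1 + 4) =>
        Ω z.1 (Fin.cons z.2 fun j => T j z.1)) (x₀, v) := by
      have a1 : ContinuousAt (fun z : Eu (k + 1 + 4) × Eu (k + 1 + 4) => Ω z.1) (x₀, v) :=
        ContinuousAt.comp (f := Prod.fst) (g := Ω) (x := (x₀, v))
          (hΩ.continuousAt (hU.mem_nhds hx₀)) continuousAt_fst
      have a2 : ContinuousAt (fun z : Eu (k + 1 + 4) × Eu (k + 1 + 4) =>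
          (Fin.cons z.2 fun j => T j z.1 : Fin (k + 1) → Eu (k + 1 + 4))) (x₀, v) := by
        refine continuousAt_pi.2 fun i => ?_
        refine Fin.cases ?_ (fun j => ?_) i
        · exact continuousAt_snd
        · exact ContinuousAt.comp (f := Prod.fst) (g := T j) (x := (x₀, v))
            ((hT j).continuousAt (hU.mem_nhds hx₀)) continuousAt_fst
      exact ContinuousAt.comp (f := fun z : Eu (k + 1 + 4) × Eu (k + 1 + 4) =>
          (Ω z.1, (Fin.cons z.2 fun j => T j z.1 : Fin (k + 1) → Eu (k + 1 + 4))))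
        (g := fun p : (Eu (k + 1 + 4) [⋀^Fin (k + 1)]→L[ℝ] ℝ) × (Fin (k + 1) → Eu (k + 1 + 4)) =>
          p.1 p.2) (x := (x₀, v)) (by fun_prop) (a1.prodMk a2)
    have h2 := h1.abs.tendsto
    simp only [hzero v, abs_zero] at h2
    exact h2.eventually (Iio_mem_nhds hε0)
  have n4 : ∀ᶠ y in 𝓝 x₀, y ∈ U := hU.mem_nhds hx₀
  obtain ⟨N, hN, hNo, hNx⟩ := eventually_nhds_iff.1 (n1.and (n2.and (n3.and n4)))
  refine ⟨N, hNo, hNx, fun y hy => (hN y hy).2.2.2, ?_⟩
  intro y hy w hS hw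
  obtain ⟨b1, b2, b3, hyU⟩ := hN y hy
  have hlow' := hlow (fun j => T j y) b2
  have hli' : LinearIndependent ℝ fun j => T j y := by
    rw [Fintype.linearIndependent_iff]
    intro s hs
    have h1 := hlow' s
    rw [hs, norm_zero] at h1
    have h2 : ‖s‖ ≤ 0 := by
      by_contra hcon
      push Not at hcon
      have := mul_pos hδ hcon
      linarith
    have h3 : s = 0 := norm_le_zero_iff.1 h2
    intro i
    rw [h3]
    rfl
  have hsy := hM.symm y hyU
  have hpy := hM.pos y hyU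
  obtain ⟨f, hf, hfs⟩ := AU2_orth (h y) hsy hpy (fun j => T j y) hli'
  have hnorm := AL2_norm (h x₀) (h y) c hc hc1 b1
  have hex : ∀ i, ∃ s : Fin k → ℝ, ∑ j, s j • T j y = f i := fun i =>
    (Submodule.mem_span_range_iff_exists_fun ℝ).1 (hfs i)
  choose A hA using hex
  have hAb : ∀ i j, |A i j| ≤ R / δ := by
    intro i j
    rw [le_div_iff₀ hδ, mul_comm]
    have h1 := hlow' (A i)
    rw [hA i] at h1
    have h2 : ‖f i‖ ≤ R := hnorm (f i) (by rw [hf, if_pos rfl])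
    have h3 : |A i j| ≤ ‖A i‖ := norm_le_pi_norm (A i) j
    calc δ * |A i j| ≤ δ * ‖A i‖ := mul_le_mul_of_nonneg_left h3 hδ.le
      _ ≤ _ := h1.trans h2
  have hdet : |Matrix.det (Matrix.of A)| ≤ D := by
    have h1 := Matrix.det_le (A := Matrix.of A) (abv := AbsoluteValue.abs) (x := R / δ)
      (fun i j => hAb i j)
    simpa [hD, nsmul_eq_mul] using h1
  have hwf : ∀ i v, w ![f i, v] = 0 := by
    intro i v
    have hadd0 : ∀ a a' b, w ![a + a', b] = w ![a, b] + w ![a', b] := by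
      intro a a' b
      have h1 := w.map_update_add ![a, b] 0 a a'
      rwa [AL2_up0, AL2_up0, AL2_up0] at h1
    let φ : Eu (k + 1 + 4) →ₗ[ℝ] ℝ :=
      { toFun := fun z => w ![z, v]
        map_add' := fun a b => hadd0 a b v
        map_smul' := fun r a => AL2_smul0 w r a v }
    have h1 : φ (∑ j, A i j • T j y) = 0 := by
      rw [map_sum]
      refine Finset.sum_eq_zero fun j _ => ?_
      rw [map_smul]
      show A i j • w ![T j y, v] = 0
      rw [hw, smul_zero]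
    rw [hA i] at h1
    exact h1
  have hΩb : ∀ v, h y v v = 1 → |Ω y (Fin.cons v f)| ≤ ε * D := by
    intro v hv
    rw [AU2_det (Ω y) (fun j => T j y) f A hA v, abs_mul]
    have h1 := (b3 v (by
      rw [mem_closedBall_zero_iff]
      exact hnorm v hv)).le
    exact mul_le_mul h1 hdet (abs_nonneg _) hε0.le
  refine AU2_contr (h y) hsy hpy w f hf hwf R (C * (ε * D)) hR0 hnorm (by positivity) ?_ ?_
  · rw [hε]
    have : C * ((2 * C * (D + 1))⁻¹ * D) = D / (D + 1) / 2 := by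
      field_simp
    rw [this]
    have h1 : D / (D + 1) ≤ 1 := by
      rw [div_le_one (by positivity)]
      linarith
    linarith
  · intro M hM0 hMb a b hfab haa hbb hab
    exact hmain (h y) hsy hpy (Ω y) w f a b (ε * D) M hS hf hwf hfab haa hbb hab
      (fun v hv _ _ _ => hΩb v hv) hMb (by positivity) hM0

end Pool.TIA
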