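import Pool.Agent.Work.MP_a1f430_ti.Interface

/-! Block CLG: weak derivatives pass to the limit (the auxiliary lemmas are those of block CLC). -/

set_option autoImplicit false

namespace Pool.TIA

open MeasureTheory Set Filter Topology
open scoped ContDiff ENNReal

theorem CLG_int {E X : Type} [NormedAddCommGroup E] [MeasureSpace E] [BorelSpace E]
    [IsFiniteMeasureOnCompacts (volume : Measure E)] [NormedAddCommGroup X]
    (K : Set E) (hK : IsCompact K) (f : E → X) (hf : ContinuousOn f K) (hs : ∀ x, x ∉ K → f x = 0) :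
    Integrable f := by
  rw [← integrableOn_iff_integrable_of_support_subset (s := K)]
  · exact hf.integrableOn_compact hK
  · intro x hx
    by_contra h
    exact hx (hs x h)

theorem CLG_ibp {E X : Type} [NormedAddCommGroup E] [NormedSpace ℝ E] [FiniteDimensional ℝ E]
    [MeasureSpace E] [BorelSpace E] [(volume : Measure E).IsAddHaarMeasure]
    [NormedAddCommGroup X] [NormedSpace ℝ X] (φ : E → ℝ) (hφ : ContDiff ℝ ∞ φ)
    (hc : HasCompactSupport φ) (O : Set E) (hO : IsOpen O) (hs : tsupport φ ⊆ O) (G : E → X)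
    (hG : ContDiffOn ℝ 1 G O) (u : E) :
    ∫ x in tsupport φ, φ x • fderiv ℝ G x u = -∫ x in tsupport φ, fderiv ℝ φ x u • G x := by
  have hK : IsCompact (tsupport φ) := hc
  have hdφ : Continuous (fderiv ℝ φ) := hφ.continuous_fderiv (by simp)
  have h0 : ∀ x, x ∉ tsupport φ → φ x = 0 := fun x hx => image_eq_zero_of_notMem_tsupport hx
  have h0' : ∀ x, x ∉ tsupport φ → fderiv ℝ φ x = 0 := fun x hx => by
    have := support_fderiv_subset ℝ (f := φ)
    by_contra h
    exact hx (this h)
  have hGc : ContinuousOn G (tsupport φ) := hG.continuousOn.mono hs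
  have hGd : ContinuousOn (fderiv ℝ G) (tsupport φ) :=
    (hG.continuousOn_fderiv_of_isOpen hO le_rfl).mono hs
  have h1 := integral_bilinear_hasFDerivAt_right_eq_neg_left_of_integrable (μ := volume)
    (f := φ) (f' := fderiv ℝ φ) (g := G) (g' := fderiv ℝ G) (v := u)
    (B := ContinuousLinearMap.lsmul ℝ ℝ) ?_ ?_ ?_ ?_ ?_
  · simp only [ContinuousLinearMap.lsmul_apply] at h1
    rw [setIntegral_eq_integral_of_forall_compl_eq_zero (fun x hx => by rw [h0 x hx, zero_smul]),
      setIntegral_eq_integral_of_forall_compl_eq_zero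
        (fun x hx => by rw [h0' x hx]; simp), h1]
  · refine CLG_int _ hK _ ?_ ?_
    · simp only [ContinuousLinearMap.lsmul_apply]
      exact ((hdφ.clm_apply continuous_const).continuousOn).smul hGc
    · intro x hx
      rw [h0' x hx]
      simp
  · refine CLG_int _ hK _ ?_ ?_
    · simp only [ContinuousLinearMap.lsmul_apply]
      exact (hφ.continuous.continuousOn).smul (hGd.clm_apply continuousOn_const)
    · intro x hx
      rw [h0 x hx]
      simp
  · refine CLG_int _ hK _ ?_ ?_
    · simp only [ContinuousLinearMap.lsmul_apply]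
      exact (hφ.continuous.continuousOn).smul hGc
    · intro x hx
      rw [h0 x hx]
      simp
  · intro x _
    exact (hφ.differentiable (by simp) x).hasFDerivAt
  · intro x hx
    exact ((hG.differentiableOn (by simp)).differentiableAt (hO.mem_nhds (hs hx))).hasFDerivAt

theorem CLG_lim {α X : Type} [MeasurableSpace α] [NormedAddCommGroup X] [NormedSpace ℝ X]
    (μ : Measure α) (c : α → ℝ) (C : ℝ) (hc : AEStronglyMeasurable c μ) (hC : ∀ x, ‖c x‖ ≤ C)
    (G : ℕ → α → X) (g : α → X) (hG : ∀ j, Integrable (G j) μ) (hg : Integrable g μ)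
    (h : Tendsto (fun j => eLpNorm (fun x => G j x - g x) 1 μ) atTop (𝓝 0)) :
    Tendsto (fun j => ∫ x, c x • G j x ∂μ) atTop (𝓝 (∫ x, c x • g x ∂μ)) := by
  refine tendsto_integral_of_L1' (fun x => c x • g x) ?_ (F := fun j x => c x • G j x) ?_ ?_
  · exact (hg.bdd_smul C hc (Eventually.of_forall hC)).1
  · exact Eventually.of_forall fun j => (hG j).bdd_smul C hc (Eventually.of_forall hC)
  · have h1 : ∀ j, eLpNorm ((fun x => c x • G j x) - fun x => c x • g x) 1 μ ≤
        ENNReal.ofReal C * eLpNorm (fun x => G j x - g x) 1 μ := by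
      intro j
      refine eLpNorm_le_mul_eLpNorm_of_ae_le_mul (Eventually.of_forall fun x => ?_) 1
      simp only [Pi.sub_apply]
      rw [← smul_sub, norm_smul]
      exact mul_le_mul_of_nonneg_right (hC x) (norm_nonneg _)
    have h2 := ENNReal.Tendsto.const_mul h (a := ENNReal.ofReal C) (Or.inr ENNReal.ofReal_ne_top)
    rw [mul_zero] at h2
    exact tendsto_of_tendsto_of_tendsto_of_le_of_le tendsto_const_nhds h2 (fun _ => zero_le) h1

theorem p_CLG : Stmt_CLG := by
  intro E X _ _ _ _ _ _ _ _ _ W g dg hW hg hdg hK φ hφ v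
  have hKc : IsCompact (tsupport φ) := hφ.cpt
  obtain ⟨O, G, hO, hKO, hG, hGg, hGd⟩ := hK (tsupport φ) hKc hφ.sub
  set K := tsupport φ with hKdef
  set μ : Measure E := volume.restrict K with hμ
  have hfin : IsFiniteMeasure μ := ⟨by rw [hμ]; simpa using hKc.measure_lt_top⟩
  have hφc : Continuous φ := hφ.smooth.continuous
  have hdφ : Continuous (fderiv ℝ φ) := hφ.smooth.continuous_fderiv (by simp)
  have h0 : ∀ x, x ∉ K → φ x = 0 := fun x hx => image_eq_zero_of_notMem_tsupport hx
  have h0' : ∀ x, x ∉ K → fderiv ℝ φ x = 0 := fun x hx => by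
    have := support_fderiv_subset ℝ (f := φ)
    by_contra h
    exact hx (this h)
  obtain ⟨C0, hC0⟩ := hφ.cpt.exists_bound_of_continuous hφc
  obtain ⟨C1, hC1⟩ := (hφ.cpt.fderiv ℝ).exists_bound_of_continuous hdφ
  have hC1' : ∀ x, ‖fderiv ℝ φ x v‖ ≤ C1 * ‖v‖ := fun x =>
    ((fderiv ℝ φ x).le_opNorm v).trans (mul_le_mul_of_nonneg_right (hC1 x) (norm_nonneg _))
  have hgK : Integrable g μ := (hg K hKc hφ.sub).integrable (by norm_num)
  have hdgK : Integrable (fun x => dg x v) μ :=
    ((ContinuousLinearMap.apply ℝ X v).comp_memLp' (hdg K hKc hφ.sub)).integrable (by norm_num)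
  have hGc : ∀ j, ContinuousOn (G j) K := fun j => (hG j).continuousOn.mono hKO
  have hGdc : ∀ j, ContinuousOn (fun x => fderiv ℝ (G j) x v) K := fun j =>
    (((hG j).continuousOn_fderiv_of_isOpen hO le_rfl).mono hKO).clm_apply continuousOn_const
  have L1 := CLG_lim μ φ C0 hφc.aestronglyMeasurable hC0 (fun j x => fderiv ℝ (G j) x v)
    (fun x => dg x v) (fun j => (hGdc j).integrableOn_compact hKc) hdgK (hGd v)
  have L2 := CLG_lim μ (fun x => fderiv ℝ φ x v) (C1 * ‖v‖)
    (hdφ.clm_apply continuous_const).aestronglyMeasurable hC1' G g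
    (fun j => (hGc j).integrableOn_compact hKc) hgK hGg
  have hid : ∀ j, ∫ x, φ x • fderiv ℝ (G j) x v ∂μ = -∫ x, fderiv ℝ φ x v • G j x ∂μ := fun j =>
    CLG_ibp φ hφ.smooth hφ.cpt O hO hKO (G j) (hG j) v
  have L7 := tendsto_nhds_unique L1 (L2.neg.congr fun j => (hid j).symm)
  rw [hμ, setIntegral_eq_integral_of_forall_compl_eq_zero
      (fun x hx => by rw [h0 x hx, zero_smul]),
    setIntegral_eq_integral_of_forall_compl_eq_zero
      (fun x hx => by rw [h0' x hx]; simp)] at L7
  rw [L7, neg_neg]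

end Pool.TIA
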