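import Pool.Agent.Work.MP_a1f430_ti.Interface

/-! # Invariance along integral curves (MP_a1f430, THEOREM TR; typed by helper55) -/

set_option autoImplicit false

namespace Pool.TIA

open MeasureTheory Set Filter Topology
open scoped ContDiff ENNReal

/-- An integral curve on a larger interval is one on a smaller interval. -/
theorem CRV_mono {E : Type} [NormedAddCommGroup E] [NormedSpace ℝ E] {U N : Set E} {X : E → E}
    {γ : ℝ → E} {a b c d : ℝ} (h : Cur U X γ a b) (hac : a ≤ c) (hdb : d ≤ b)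
    (hN : ∀ t ∈ Icc c d, γ t ∈ N) : Cur N X γ c d := by
  intro t ht
  have htab : t ∈ Icc a b := ⟨hac.trans ht.1, ht.2.trans hdb⟩
  exact ⟨hN t ht, (h t htab).2.mono (Icc_subset_Icc hac hdb)⟩

/-- Local uniqueness at a zero of the field. -/
theorem CRV_const {E : Type} [NormedAddCommGroup E] [NormedSpace ℝ E] {s : Set E} {X : E → E}
    {γ : ℝ → E} {c d : ℝ} {K : NNReal} (hX : LipschitzOnWith K X s) (h : Cur s X γ c d)
    (hcd : c ≤ d) {x₁ : E} (hx₁ : x₁ ∈ s) (h0 : X x₁ = 0) :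
    (γ c = x₁ → γ d = x₁) ∧ (γ d = x₁ → γ c = x₁) := by
  have hcont : ContinuousOn γ (Icc c d) := fun t ht => (h t ht).2.continuousWithinAt
  constructor
  · intro hc
    have := ODE_solution_unique_of_mem_Icc_right (v := fun _ => X) (s := fun _ => s) (K := K)
      (f := γ) (g := fun _ => x₁) (a := c) (b := d) (fun t _ => hX) hcont
      (fun t ht => by
        have h1 := (h t ⟨ht.1, ht.2.le⟩).2
        exact (h1.mono_of_mem_nhdsWithin (Icc_mem_nhdsGE_of_mem ht)))
      (fun t ht => (h t ⟨ht.1, ht.2.le⟩).1)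
      continuousOn_const
      (fun t ht => by
        simpa [h0] using hasDerivWithinAt_const (t : ℝ) (Ici t) x₁)
      (fun t _ => hx₁) hc
    exact this ⟨hcd, le_rfl⟩
  · intro hd
    have := ODE_solution_unique_of_mem_Icc_left (v := fun _ => X) (s := fun _ => s) (K := K)
      (f := γ) (g := fun _ => x₁) (a := c) (b := d) (fun t _ => hX) hcont
      (fun t ht => by
        have h1 := (h t ⟨ht.1.le, ht.2⟩).2
        exact (h1.mono_of_mem_nhdsWithin (Icc_mem_nhdsLE_of_mem ht)))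
      (fun t ht => (h t ⟨ht.1.le, ht.2⟩).1)
      continuousOn_const
      (fun t ht => by
        simpa [h0] using hasDerivWithinAt_const (t : ℝ) (Iic t) x₁)
      (fun t _ => hx₁) hd
    exact this ⟨le_rfl, hcd⟩

theorem p_CRV (hINV : Stmt_INV) : Stmt_CRV := by
  intro 𝔐 _ _ _ _ _ _ 𝒢 n U A F X hU hC hX hK γ a b hab hcur
  have hcont : ContinuousOn γ (Icc a b) := fun t ht => (hcur t ht).2.continuousWithinAt
  -- local statement
  have hloc : ∀ t ∈ Icc a b, ∃ N : Set (Eu (n + 1)), N ∈ 𝓝 (γ t) ∧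
      ∀ (c d : ℝ), a ≤ c → d ≤ b → c ≤ d → (c = t ∨ d = t) → (∀ u ∈ Icc c d, γ u ∈ N) →
        (Reg 𝒢 A (γ c) ↔ Reg 𝒢 A (γ d)) := by
    intro t ht
    by_cases h0 : X (γ t) = 0
    · have hXt : ContDiffAt ℝ 1 X (γ t) :=
        ((hX (γ t) (hcur t ht).1).contDiffAt (hU.mem_nhds (hcur t ht).1)).of_le (by simp)
      obtain ⟨K, s, hs, hKs⟩ := hXt.exists_lipschitzOnWith
      refine ⟨s, hs, ?_⟩
      intro c d hac hdb hcd hor hN
      have hcur' : Cur s X γ c d := CRV_mono hcur hac hdb hN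
      have hmem : γ t ∈ s := mem_of_mem_nhds hs
      have := CRV_const hKs hcur' hcd hmem h0
      rcases hor with rfl | rfl
      · rw [this.1 rfl]
      · rw [this.2 rfl]
    · obtain ⟨N, hNo, hxN, hNU, hN⟩ := hINV 𝔐 𝒢 n U A F X (γ t) hU hC (hcur t ht).1 hX h0 hK
      refine ⟨N, hNo.mem_nhds hxN, ?_⟩
      intro c d hac hdb hcd _ hcN
      exact hN γ c d hcd (CRV_mono hcur hac hdb hcN)
  -- the predicate is locally constant
  have hpc : PreconnectedSpace (Icc a b) := Subtype.preconnectedSpace isPreconnected_Icc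
  have hlc : IsLocallyConstant (fun t : Icc a b => Reg 𝒢 A (γ t.1)) := by
    rw [IsLocallyConstant.iff_eventually_eq]
    rintro ⟨t, ht⟩
    obtain ⟨N, hN, hNp⟩ := hloc t ht
    have h1 : ∀ᶠ s in 𝓝[Icc a b] t, γ s ∈ N := (hcont t ht) hN
    rw [eventually_nhdsWithin_iff, Metric.eventually_nhds_iff] at h1
    obtain ⟨ε, hε, h1⟩ := h1
    have h2 : ∀ᶠ s : Icc a b in 𝓝 ⟨t, ht⟩, dist s ⟨t, ht⟩ < ε := by
      rw [Metric.eventually_nhds_iff]
      exact ⟨ε, hε, fun _ h => h⟩
    filter_upwards [h2]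
    rintro ⟨s, hs⟩ hd
    have hd' : |s - t| < ε := by simpa [Subtype.dist_eq, Real.dist_eq] using hd
    rw [abs_lt] at hd'
    apply propext
    rcases le_total s t with hst | hst
    · refine hNp s t hs.1 ht.2 hst (Or.inr rfl) ?_
      intro u hu
      refine h1 ?_ ⟨hs.1.trans hu.1, hu.2.trans ht.2⟩
      rw [Real.dist_eq, abs_lt]
      constructor <;> linarith [hu.1, hu.2]
    · refine (hNp t s ht.1 hs.2 hst (Or.inl rfl) ?_).symm
      intro u hu
      refine h1 ?_ ⟨ht.1.trans hu.1, hu.2.trans hs.2⟩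
      rw [Real.dist_eq, abs_lt]
      constructor <;> linarith [hu.1, hu.2]
  have := hlc.apply_eq_of_preconnectedSpace ⟨a, left_mem_Icc.2 hab⟩ ⟨b, right_mem_Icc.2 hab⟩
  exact iff_of_eq this

end Pool.TIA
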