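import Pool.Agent.Work.MP_a1f430_ti.Interface

/-! Block CUT: multiply by a smooth bump function. -/

set_option autoImplicit false

namespace Pool.TIA

open MeasureTheory Set Filter Topology
open scoped ContDiff ENNReal

theorem p_CUT : Stmt_CUT := by
  intro E X _ _ _ _ _ _ T U x₀ hU hx₀ hT
  obtain ⟨R, hR, hRU⟩ := Metric.isOpen_iff.1 hU x₀ hx₀
  let b : ContDiffBump x₀ := ⟨R / 4, R / 2, by positivity, by linarith⟩
  have hb : ContDiff ℝ ∞ (b : E → ℝ) := b.contDiff
  have hts : tsupport (b : E → ℝ) ⊆ U := by
    rw [b.tsupport_eq]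
    refine subset_trans ?_ hRU
    exact Metric.closedBall_subset_ball (by show R / 2 < R; linarith)
  have hsm : ContDiff ℝ ∞ (fun x => b x • T x) := by
    rw [contDiff_iff_contDiffAt]
    intro x
    by_cases hx : x ∈ tsupport (b : E → ℝ)
    · exact hb.contDiffAt.smul (hT.contDiffAt (hU.mem_nhds (hts hx)))
    · have h1 : (fun x => b x • T x) =ᶠ[𝓝 x] fun _ => 0 := by
        filter_upwards [(isClosed_tsupport _).isOpen_compl.mem_nhds hx] with y hy
        rw [image_eq_zero_of_notMem_tsupport hy, zero_smul]
      exact contDiffAt_const.congr_of_eventuallyEq h1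
  have hcs : HasCompactSupport (fun x => b x • T x) := b.hasCompactSupport.smul_right
  obtain ⟨L, hL⟩ := hsm.lipschitzWith_of_hasCompactSupport hcs (by simp)
  refine ⟨fun x => b x • T x, L, R / 4, by positivity, ?_, hsm, hcs, hL, ?_⟩
  · exact (Metric.ball_subset_ball (by linarith)).trans hRU
  · intro x hx
    have : b x = 1 := b.one_of_mem_closedBall (Metric.ball_subset_closedBall hx)
    simp only [this, one_smul]

end Pool.TIA
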