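import Pool.Agent.Work.MP_a1f430_ti.Interface

/-! # Block CVR: change of variables on compact sets (MP_a1f430, THEOREM TR) -/

set_option autoImplicit false

namespace Pool.TIA

open MeasureTheory Set Filter Topology
open scoped ContDiff ENNReal

section

variable {E' E : Type} [NormedAddCommGroup E'] [NormedSpace ℝ E'] [FiniteDimensional ℝ E']
    [MeasureSpace E'] [BorelSpace E'] [(volume : Measure E').IsAddHaarMeasure]
    [NormedAddCommGroup E] [NormedSpace ℝ E] [FiniteDimensional ℝ E]
    [MeasureSpace E] [BorelSpace E] [(volume : Measure E).IsAddHaarMeasure]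

omit [FiniteDimensional ℝ E'] in
/-- A linear isomorphism maps the Haar measure to a multiple of the Haar measure. -/
theorem CVR_haar (L : E' ≃L[ℝ] E) :
    ∃ c : ℝ≥0∞, c ≠ ⊤ ∧ Measure.map L (volume : Measure E') = c • (volume : Measure E) := by
  have : ProperSpace E := FiniteDimensional.proper ℝ E
  have : SecondCountableTopology E := inferInstance
  refine ⟨(Measure.addHaarScalarFactor (Measure.map L (volume : Measure E'))
    (volume : Measure E) : ℝ≥0∞), ENNReal.coe_ne_top, ?_⟩
  exact Measure.isAddLeftInvariant_eq_smul (Measure.map L (volume : Measure E'))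
    (volume : Measure E)

theorem CVR_null (Φ : E' → E) (Ψ : E → E') (W' : Set E') (W : Set E)
    (hd : Module.finrank ℝ E' = Module.finrank ℝ E) (hD : Dif Φ Ψ W' W) (N : Set E)
    (hN : volume (N ∩ W) = 0) : volume (Φ ⁻¹' N ∩ W') = 0 := by
  set L : E' ≃L[ℝ] E := ContinuousLinearEquiv.ofFinrankEq hd with hL
  obtain ⟨c, hc, hcm⟩ := CVR_haar L
  have he : MeasurableEmbedding (L : E' → E) := L.toHomeomorph.measurableEmbedding
  have h1 : (volume : Measure E') (L ⁻¹' (N ∩ W)) = 0 := by
    rw [← he.map_apply, hcm, Measure.smul_apply, hN, smul_zero]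
  have h2 : DifferentiableOn ℝ (fun x : E' => Ψ (L x)) (L ⁻¹' (N ∩ W)) := by
    intro x hx
    have h3 : DifferentiableAt ℝ Ψ (L x) :=
      (hD.smooth'.differentiableOn (by simp)).differentiableAt (hD.open_.mem_nhds hx.2)
    exact (h3.comp x L.differentiableAt).differentiableWithinAt
  have h3 := addHaar_image_eq_zero_of_differentiableOn_of_addHaar_eq_zero
    (volume : Measure E') h2 h1
  refine measure_mono_null ?_ h3
  rintro x ⟨hx, hxW⟩
  refine ⟨L.symm (Φ x), ?_, ?_⟩
  · simp only [mem_preimage, ContinuousLinearEquiv.apply_symm_apply]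
    exact ⟨hx, hD.maps hxW⟩
  · simp only [ContinuousLinearEquiv.apply_symm_apply]
    exact hD.left x hxW

theorem CVR_map (Φ : E' → E) (Ψ : E → E') (W' : Set E') (W : Set E)
    (hd : Module.finrank ℝ E' = Module.finrank ℝ E) (hD : Dif Φ Ψ W' W) (K : Set E')
    (hK : IsCompact K) (hKW : K ⊆ W') :
    AEMeasurable Φ (volume.restrict K) ∧ ∃ A : ℝ≥0∞, A ≠ ⊤ ∧
      Measure.map Φ (volume.restrict K) ≤ A • (volume.restrict (Φ '' K)) := by
  have : ProperSpace E' := FiniteDimensional.proper ℝ E'
  have hcont : ContinuousOn Φ W' := hD.smooth.continuousOn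
  have hKm : MeasurableSet K := hK.measurableSet
  have hae : AEMeasurable Φ (volume.restrict K) := (hcont.mono hKW).aemeasurable hKm
  refine ⟨hae, ?_⟩
  set L : E' ≃L[ℝ] E := ContinuousLinearEquiv.ofFinrankEq hd with hL
  obtain ⟨c, hc, hcm⟩ := CVR_haar L
  have he : MeasurableEmbedding (L : E' → E) := L.toHomeomorph.measurableEmbedding
  set θ : E' → E' := fun x => L.symm (Φ x) with hθ
  set θ' : E' → E' →L[ℝ] E' := fun x => (L.symm : E →L[ℝ] E').comp (fderiv ℝ Φ x) with hθ'
  have hdiff : ∀ x ∈ W', HasFDerivAt Φ (fderiv ℝ Φ x) x := fun x hx =>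
    ((hD.smooth.differentiableOn (by simp)).differentiableAt
      (hD.open'.mem_nhds hx)).hasFDerivAt
  have hθd : ∀ x ∈ W', HasFDerivAt θ (θ' x) x := fun x hx =>
    (L.symm : E →L[ℝ] E').hasFDerivAt.comp x (hdiff x hx)
  have hinj : InjOn θ K := by
    intro x hx y hy hxy
    have h1 : Φ x = Φ y := L.symm.injective hxy
    rw [← hD.left x (hKW hx), h1, hD.left y (hKW hy)]
  have hdet : ∀ x ∈ K, (θ' x).det ≠ 0 := by
    intro x hx
    have hxW := hKW hx
    have h1 : HasFDerivAt Ψ (fderiv ℝ Ψ (Φ x)) (Φ x) :=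
      ((hD.smooth'.differentiableOn (by simp)).differentiableAt
        (hD.open_.mem_nhds (hD.maps hxW))).hasFDerivAt
    have h2 : HasFDerivAt (fun z => Ψ (Φ z)) ((fderiv ℝ Ψ (Φ x)).comp (fderiv ℝ Φ x)) x :=
      h1.comp x (hdiff x hxW)
    have h3 : (fun z => Ψ (Φ z)) =ᶠ[𝓝 x] id := by
      filter_upwards [hD.open'.mem_nhds hxW] with z hz
      exact hD.left z hz
    have h4 : HasFDerivAt (fun z => Ψ (Φ z)) (ContinuousLinearMap.id ℝ E') x :=
      (hasFDerivAt_id x).congr_of_eventuallyEq h3
    have h5 := h2.unique h4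
    set S : E' →L[ℝ] E' := (fderiv ℝ Ψ (Φ x)).comp (L : E' →L[ℝ] E) with hS
    have h6 : S.comp (θ' x) = ContinuousLinearMap.id ℝ E' := by
      rw [← h5]
      ext v
      simp [hS, hθ']
    have h7 : (S : E' →ₗ[ℝ] E') * (θ' x : E' →ₗ[ℝ] E') = 1 := by
      ext v
      have := congrArg (fun T : E' →L[ℝ] E' => T v) h6
      simpa using this
    have h8 : LinearMap.det (S : E' →ₗ[ℝ] E') * LinearMap.det (θ' x : E' →ₗ[ℝ] E') = 1 := by
      rw [← map_mul, h7, map_one]
    intro h9
    have h10 : LinearMap.det (θ' x : E' →ₗ[ℝ] E') = 0 := h9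
    rw [h10, mul_zero] at h8
    exact zero_ne_one h8
  have hdc : ContinuousOn (fun x => (θ' x).det) K := by
    have h1 : ContinuousOn (fun x => fderiv ℝ Φ x) W' :=
      hD.smooth.continuousOn_fderiv_of_isOpen hD.open' (by simp)
    have h2 : ContinuousOn θ' W' := by
      have h3 : Continuous fun T : E' →L[ℝ] E => (L.symm : E →L[ℝ] E').comp T :=
        ((ContinuousLinearMap.compL ℝ E' E E') (L.symm : E →L[ℝ] E')).continuous
      exact h3.comp_continuousOn h1
    exact (ContinuousLinearMap.continuous_det.comp_continuousOn h2).mono hKW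
  obtain ⟨C, hC⟩ := hK.exists_bound_of_continuousOn (hdc.inv₀ hdet)
  set A₀ : ℝ≥0∞ := ENNReal.ofReal C with hA₀
  set w : E' → ℝ≥0∞ := fun x => ENNReal.ofReal |(θ' x).det| with hw
  have h2 : (volume : Measure E').restrict K ≤ A₀ • ((volume.restrict K).withDensity w) := by
    have h3 : ((volume : Measure E').restrict K).withDensity 1 ≤
        ((volume : Measure E').restrict K).withDensity (A₀ • w) := by
      refine withDensity_mono ?_
      refine ae_restrict_of_forall_mem hKm fun x hx => ?_
      have h4 := hC x hx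
      have h5 : 0 < |(θ' x).det| := abs_pos.2 (hdet x hx)
      rw [Pi.inv_apply, norm_inv, Real.norm_eq_abs] at h4
      have h6 : 1 ≤ C * |(θ' x).det| := by
        have := mul_le_mul_of_nonneg_right h4 h5.le
        rwa [inv_mul_cancel₀ h5.ne'] at this
      have hC0 : 0 ≤ C := le_trans (inv_nonneg.2 h5.le) h4
      simp only [Pi.one_apply, Pi.smul_apply, smul_eq_mul, hA₀, hw]
      rw [← ENNReal.ofReal_mul hC0, ENNReal.one_le_ofReal]
      exact h6
    rw [withDensity_one, withDensity_smul' _ _ ENNReal.ofReal_ne_top] at h3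
    exact h3
  have h1 : Measure.map θ (((volume : Measure E').restrict K).withDensity w) =
      volume.restrict (θ '' K) :=
    map_withDensity_abs_det_fderiv_eq_addHaar (volume : Measure E') hKm.nullMeasurableSet
      (fun x hx => (hθd x (hKW hx)).hasFDerivWithinAt) hinj
  have hθae : AEMeasurable θ (volume.restrict K) := L.symm.continuous.measurable.comp_aemeasurable hae
  have hθae' : AEMeasurable θ (((volume : Measure E').restrict K).withDensity w) :=
    hθae.mono_ac (withDensity_absolutelyContinuous _ _)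
  have h4 : Measure.map θ (volume.restrict K) ≤ A₀ • volume.restrict (θ '' K) := by
    refine Measure.le_iff.2 fun s hs => ?_
    rw [← h1, Measure.smul_apply, Measure.map_apply_of_aemeasurable hθae hs,
      Measure.map_apply_of_aemeasurable hθae' hs]
    exact h2 _
  have h5 : Measure.map Φ (volume.restrict K) =
      Measure.map L (Measure.map θ (volume.restrict K)) := by
    rw [AEMeasurable.map_map_of_aemeasurable L.continuous.measurable.aemeasurable hθae]
    have : (L : E' → E) ∘ θ = Φ := by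
      funext x
      simp [hθ]
    rw [this]
  have h6 : L ⁻¹' (Φ '' K) = θ '' K := by
    ext x
    constructor
    · rintro ⟨y, hy, hxy⟩
      exact ⟨y, hy, by simp [hθ, hxy]⟩
    · rintro ⟨y, hy, rfl⟩
      exact ⟨y, hy, by simp [hθ]⟩
  refine ⟨A₀ * c, ENNReal.mul_ne_top ENNReal.ofReal_ne_top hc, ?_⟩
  calc Measure.map Φ (volume.restrict K) = Measure.map L (Measure.map θ (volume.restrict K)) := h5
    _ ≤ Measure.map L (A₀ • volume.restrict (θ '' K)) := Measure.map_mono h4 L.continuous.measurable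
    _ = A₀ • Measure.map L (volume.restrict (θ '' K)) := by rw [Measure.map_smul]
    _ = A₀ • (Measure.map L volume).restrict (Φ '' K) := by rw [he.restrict_map, h6]
    _ = (A₀ * c) • volume.restrict (Φ '' K) := by
        rw [hcm, Measure.restrict_smul, smul_smul]

end

theorem p_CVR : Stmt_CVR := by
  intro E' E _ _ _ _ _ _ _ _ _ _ _ _ Φ Ψ W' W hd hD
  refine ⟨fun N hN => CVR_null Φ Ψ W' W hd hD N hN, ?_⟩
  intro K hK hKW
  obtain ⟨hae, A, hA, hmap⟩ := CVR_map Φ Ψ W' W hd hD K hK hKW
  refine ⟨A + 1, ENNReal.add_ne_top.2 ⟨hA, ENNReal.one_ne_top⟩, ?_⟩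
  intro X _ f p hp hf
  have hac : Measure.map Φ (volume.restrict K) ≪ volume.restrict (Φ '' K) :=
    (Measure.absolutelyContinuous_of_le hmap).trans Measure.smul_absolutelyContinuous
  have hf' : AEStronglyMeasurable f (Measure.map Φ (volume.restrict K)) := hf.mono_ac hac
  refine ⟨hf'.comp_aemeasurable hae, ?_⟩
  have h1 : eLpNorm (fun x => f (Φ x)) p (volume.restrict K) =
      eLpNorm f p (Measure.map Φ (volume.restrict K)) := (eLpNorm_map_measure hf' hae).symm
  rw [h1]
  have h2 : A ^ (1 / p).toReal ≤ A + 1 := by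
    have h3 : A ^ (1 / p).toReal ≤ (A + 1) ^ (1 / p).toReal :=
      ENNReal.rpow_le_rpow le_self_add ENNReal.toReal_nonneg
    have h4 : (A + 1) ^ (1 / p).toReal ≤ (A + 1) ^ (1 : ℝ) := by
      refine ENNReal.rpow_le_rpow_of_exponent_le le_add_self ?_
      rcases hp with rfl | rfl
      · simp
      · simp only [one_div, ENNReal.toReal_inv, ENNReal.toReal_ofNat]
        norm_num
    rw [ENNReal.rpow_one] at h4
    exact h3.trans h4
  calc eLpNorm f p (Measure.map Φ (volume.restrict K))
      ≤ eLpNorm f p (A • volume.restrict (Φ '' K)) := eLpNorm_mono_measure f hmap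
    _ ≤ A ^ (1 / p).toReal • eLpNorm f p (volume.restrict (Φ '' K)) :=
        eLpNorm_smul_measure_le A f p _
    _ ≤ (A + 1) * eLpNorm f p (volume.restrict (Φ '' K)) := by
        rw [smul_eq_mul]
        gcongr

end Pool.TIA
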