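import Pool.Agent.Work.MP_a1f430_ti.Interface3

set_option autoImplicit false

namespace Pool.TIA

open MeasureTheory Set Filter Topology
open scoped ContDiff ENNReal

theorem p_DFL (hAL1 : Stmt_AL1) (hAL2 : Stmt_AL2) (hAL3 : Stmt_AL3) : Stmt_DFL := by
  intro m U h Ω hU hh hΩ hdec x₀ hx₀U
  by_cases h0 : Ω x₀ = 0
  · obtain ⟨N, hN, hxN, hNU, hF⟩ := hAL2 ℝ m U h Ω x₀ hU hh hΩ.continuousOn hx₀U h0
    refine ⟨N, fun j _ => EuclideanSpace.basisFun (Fin (m + 4)) ℝ (Fin.castAdd 4 j), hN, hxN,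
      fun j => contDiffOn_const, ?_, fun y hy w hw j v => ?_⟩
    · have := (EuclideanSpace.basisFun (Fin (m + 4)) ℝ).toBasis.linearIndependent
      have h2 := this.comp (Fin.castAdd 4 : Fin m → Fin (m + 4)) (Fin.castAdd_injective m 4)
      rw [OrthonormalBasis.coe_toBasis] at h2
      exact h2
    · rw [hF y hy w hw]
      rfl
  · obtain ⟨N, T, hN, hxN, hNU, hT, hli, hdiv⟩ := hAL3 m (m + 4) U h Ω x₀ hU hh hΩ hx₀U h0 hdec
    exact ⟨N, T, hN, hxN, hT, hli, fun y hy w hw j v => hAL1 ℝ m (h y) (Ω y) w (T j y)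
      (hh.symm y (hNU hy)) (hh.pos y (hNU hy)) hw (hdiv y hy j) v⟩

end Pool.TIA
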