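import Pool.Agent.Work.MP_a1f430_ti.Interface

/-! # Block HMP: the image of an immersion has positive Hausdorff measure (helper71) -/

set_option autoImplicit false

namespace Pool.TIA

open MeasureTheory Set Filter Topology
open scoped ContDiff ENNReal NNReal

theorem HMP_lower {V E : Type} [NormedAddCommGroup V] [NormedSpace ℝ V] [FiniteDimensional ℝ V]
    [NormedAddCommGroup E] [NormedSpace ℝ E] {T : V →L[ℝ] E} (hT : Function.Injective T) :
    ∃ c : ℝ, 0 < c ∧ ∀ v, c * ‖v‖ ≤ ‖T v‖ := by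
  have hker : (T : V →ₗ[ℝ] E).ker = ⊥ := LinearMap.ker_eq_bot.2 hT
  obtain ⟨K, K0, hK⟩ := LinearMap.exists_antilipschitzWith (T : V →ₗ[ℝ] E) hker
  obtain ⟨k, hk⟩ : ∃ k : ℝ, k = K := ⟨_, rfl⟩
  have hkpos : 0 < k := by
    rw [hk]
    exact K0
  refine ⟨k⁻¹, inv_pos.2 hkpos, fun v => ?_⟩
  have h1 : ‖v‖ ≤ k * ‖T v‖ := by
    have := hK.le_mul_dist v 0
    rw [dist_zero_right] at this
    rw [hk]
    simpa using this
  rw [inv_mul_le_iff₀ hkpos]
  exact h1

theorem p_HMP : Stmt_HMP := by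
  intro E _ _ _ _ _ m f hf hinj N hN
  obtain ⟨c, hc, hlow⟩ := HMP_lower hinj
  have hstrict : HasStrictFDerivAt f (fderiv ℝ f 0) 0 :=
    hf.contDiffAt.hasStrictFDerivAt (by norm_num)
  have hc2 : (0 : ℝ≥0) < (c / 2).toNNReal := Real.toNNReal_pos.2 (by positivity)
  obtain ⟨s, hs, happ⟩ := hstrict.approximates_deriv_on_nhds (Or.inr hc2)
  -- the lower bound for the distances
  have hdist : ∀ x ∈ s, ∀ y ∈ s, c / 2 * ‖x - y‖ ≤ ‖f x - f y‖ := by
    intro x hx y hy
    have h1 := happ x hx y hy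
    rw [Real.coe_toNNReal _ (by positivity)] at h1
    have h2 := hlow (x - y)
    have h3 : ‖fderiv ℝ f 0 (x - y)‖ ≤ ‖f x - f y‖ + ‖f x - f y - fderiv ℝ f 0 (x - y)‖ := by
      have := norm_sub_le (f x - f y) (f x - f y - fderiv ℝ f 0 (x - y))
      rwa [sub_sub_cancel] at this
    linarith
  set t : Set (Fin m → ℝ) := s ∩ N with ht
  have htn : t ∈ 𝓝 (0 : Fin m → ℝ) := inter_mem hs hN
  have hinj' : InjOn f t := by
    intro x hx y hy hxy
    have h1 := hdist x hx.1 y hy.1
    rw [hxy, sub_self, norm_zero] at h1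
    have h2 : ‖x - y‖ ≤ 0 := by
      by_contra h
      push Not at h
      have : 0 < c / 2 * ‖x - y‖ := by positivity
      linarith
    exact sub_eq_zero.1 (norm_le_zero_iff.1 h2)
  set g : E → (Fin m → ℝ) := Function.invFunOn f t with hg
  have hgf : ∀ x ∈ t, g (f x) = x := fun x hx => hinj'.leftInvOn_invFunOn hx
  have hlip : LipschitzOnWith (2 / c).toNNReal g (f '' t) := by
    apply LipschitzOnWith.of_dist_le_mul
    rintro _ ⟨x, hx, rfl⟩ _ ⟨y, hy, rfl⟩
    rw [hgf x hx, hgf y hy, Real.coe_toNNReal _ (by positivity), dist_eq_norm, dist_eq_norm]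
    have h1 := hdist x hx.1 y hy.1
    rw [div_mul_eq_mul_div, le_div_iff₀ hc]
    linarith
  have himg : g '' (f '' t) = t := by
    ext x
    constructor
    · rintro ⟨_, ⟨y, hy, rfl⟩, rfl⟩
      rw [hgf y hy]
      exact hy
    · intro hx
      exact ⟨f x, ⟨x, hx, rfl⟩, hgf x hx⟩
  have h1 := hlip.hausdorffMeasure_image_le (d := (m : ℝ)) (Nat.cast_nonneg m)
  rw [himg] at h1
  have h2 : (Measure.hausdorffMeasure (m : ℝ) : Measure (Fin m → ℝ)) = volume := by
    have := hausdorffMeasure_pi_real (ι := Fin m)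
    rwa [Fintype.card_fin] at this
  rw [h2] at h1
  have h3 : 0 < volume t := Measure.measure_pos_of_mem_nhds volume htn
  have h4 : 0 < Measure.hausdorffMeasure (m : ℝ) (f '' t) := by
    rw [pos_iff_ne_zero]
    intro h0
    rw [h0, mul_zero] at h1
    exact absurd h3 (not_lt.2 h1)
  exact h4.trans_le (measure_mono (image_mono inter_subset_right))

end Pool.TIA
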