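import Pool.Agent.Work.MP_a1f430_ti.Interface

/-! # Singular sets of weak Omega-self-dual curvatures: blocks, part 2
(MP_a1f430, THEOREM TR, helper61): the dichotomy without a hypothesis on the singular set, and the
local splitting of the connection. -/

set_option autoImplicit false

namespace Pool.TIA

open MeasureTheory Set Filter Topology
open scoped ContDiff ENNReal

/-- `S` contains an embedded `m`-dimensional disk with the centre `x₀`. -/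
def Disk {n : ℕ} (m : ℕ) (S : Set (Eu n)) (x₀ : Eu n) : Prop :=
  ∃ (Ψ : (Fin m → ℝ) → Eu n) (δ : ℝ), 0 < δ ∧ ContDiff ℝ ∞ Ψ ∧ Ψ 0 = x₀ ∧
    (∀ s ∈ Metric.ball (0 : Fin m → ℝ) δ, Function.Injective (fderiv ℝ Ψ s)) ∧
    InjOn Ψ (Metric.ball 0 δ) ∧ Ψ '' Metric.ball 0 δ ⊆ S

/-- DSK (120 lines; uses CRV, MFL): a singular point with `m` independent fields annihilating the
curvature near the point is the centre of an embedded disk in the singular set. -/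
def Stmt_DSK : Prop :=
  ∀ (𝔐 : Type) [NormedRing 𝔐] [NormedAlgebra ℝ 𝔐] [StarRing 𝔐] [CStarRing 𝔐] [StarModule ℝ 𝔐]
    [FiniteDimensional ℝ 𝔐] (𝒢 : LieG 𝔐) (n m : ℕ) (U N : Set (Eu (n + 1)))
    (A : Eu (n + 1) → Eu (n + 1) →L[ℝ] 𝔐) (F : Eu (n + 1) → Eu (n + 1) [⋀^Fin 2]→L[ℝ] 𝔐)
    (X : Fin m → Eu (n + 1) → Eu (n + 1)) (x₀ : Eu (n + 1)), IsOpen U → Conn 𝒢 U A F →
    IsOpen N → N ⊆ U → x₀ ∈ N → (∀ j, ContDiffOn ℝ ∞ (X j) N) → (∀ j, Kil N F (X j)) →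
    LinearIndependent ℝ (fun j => X j x₀) → x₀ ∈ Sing 𝒢 U A → Disk m (Sing 𝒢 U A) x₀

/-- DSM (40 lines; uses HMP): a set which contains an embedded `m`-dimensional disk has positive
`m`-dimensional Hausdorff measure. -/
def Stmt_DSM : Prop :=
  ∀ (n m : ℕ) (S : Set (Eu n)) (x₀ : Eu n), Disk m S x₀ →
    0 < Measure.hausdorffMeasure (m : ℝ) S

/-- FDS (120 lines; uses DSK, DSM, AL1, AL2, AL3): the dichotomy for decomposable forms. -/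
def Stmt_FDS : Prop :=
  ∀ (𝔐 : Type) [NormedRing 𝔐] [NormedAlgebra ℝ 𝔐] [StarRing 𝔐] [CStarRing 𝔐] [StarModule ℝ 𝔐]
    [FiniteDimensional ℝ 𝔐] (𝒢 : LieG 𝔐) (m : ℕ) (U : Set (Eu (m + 4)))
    (h : Eu (m + 4) → Eu (m + 4) →L[ℝ] Eu (m + 4) →L[ℝ] ℝ)
    (Ω : Eu (m + 4) → Eu (m + 4) [⋀^Fin m]→L[ℝ] ℝ) (A : Eu (m + 4) → Eu (m + 4) →L[ℝ] 𝔐)
    (F : Eu (m + 4) → Eu (m + 4) [⋀^Fin 2]→L[ℝ] 𝔐), IsOpen U → Metric U h →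
    ContDiffOn ℝ ∞ Ω U → (∀ x ∈ U, Decomp (Ω x)) → Conn 𝒢 U A F →
    (∀ᵐ x ∂(volume.restrict U), StarEq (h x) (Ω x) (F x)) →
    (∀ x ∈ Sing 𝒢 U A, Disk m (Sing 𝒢 U A) x) ∧
    (Sing 𝒢 U A = ∅ ∨ 0 < Measure.hausdorffMeasure (m : ℝ) (Sing 𝒢 U A))

/-! ## The local splitting -/

/-- The restriction to the slice `t` of a two-form on the product. -/
noncomputable def rs2 {V 𝔐 : Type} [NormedAddCommGroup V] [NormedSpace ℝ V] [NormedRing 𝔐]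
    [NormedAlgebra ℝ 𝔐] (F : V × ℝ → (V × ℝ) [⋀^Fin 2]→L[ℝ] 𝔐) (t : ℝ) (y : V) :
    V [⋀^Fin 2]→L[ℝ] 𝔐 :=
  (F (y, t)).compContinuousLinearMap (ContinuousLinearMap.inl ℝ V ℝ)

/-- KA2 (200 lines; uses APC, SUB): as KA, and the curvatures converge on the slice `t₀` (SUB for
the functions `x ↦ cur (B j) x u v` with `u, v` in a basis of `V`, and for `F`). -/
def Stmt_KA2 : Prop :=
  ∀ (𝔐 : Type) [NormedRing 𝔐] [NormedAlgebra ℝ 𝔐] [StarRing 𝔐] [CStarRing 𝔐] [StarModule ℝ 𝔐]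
    [FiniteDimensional ℝ 𝔐] (𝒢 : LieG 𝔐) (V : Type) [NormedAddCommGroup V] [NormedSpace ℝ V]
    [FiniteDimensional ℝ V] [MeasureSpace V] [BorelSpace V]
    [(volume : Measure V).IsAddHaarMeasure] (W : Set (V × ℝ)) (A : V × ℝ → V × ℝ →L[ℝ] 𝔐)
    (F : V × ℝ → (V × ℝ) [⋀^Fin 2]→L[ℝ] 𝔐) (K : Set V) (a b : ℝ), IsOpen W → Conn 𝒢 W A F →
    IsCompact K → a < b → K ×ˢ Icc a b ⊆ W →
    (∀ᵐ p ∂(volume.restrict W), ∀ v, F p ![(0, 1), v] = 0) →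
    ∃ (B : ℕ → V × ℝ → V × ℝ →L[ℝ] 𝔐) (t₀ : ℝ), t₀ ∈ Icc a b ∧
    (∀ j, ContDiff ℝ ∞ (B j)) ∧ (∀ j, HasCompactSupport (B j)) ∧ (∀ j x v, B j x v ∈ 𝒢.lie) ∧
    Tendsto (fun j => eLpNorm (fun x => B j x - A x) 2 (volume.restrict (K ×ˢ Icc a b)))
      atTop (𝓝 0) ∧
    MemLp (fun y => A (y, t₀)) 2 (volume.restrict K) ∧
    (∀ᵐ y ∂(volume.restrict K), ∀ v, A (y, t₀) v ∈ 𝒢.lie) ∧
    Tendsto (fun j => eLpNorm (fun y => B j (y, t₀) - A (y, t₀)) 2 (volume.restrict K))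
      atTop (𝓝 0) ∧
    (∀ᵐ y ∂(volume.restrict K), Tendsto (fun q : ℕ × ℕ =>
      ∫ s in Icc a b, ‖B q.1 (y, s) - B q.2 (y, s)‖) atTop (𝓝 0)) ∧
    (∀ v : V, Tendsto (fun j => ∫ y in K, ∫ s in Icc a b, ‖cur (B j) (y, s) (0, 1) (v, 0)‖)
      atTop (𝓝 0)) ∧
    MemLp (fun y => F (y, t₀)) 2 (volume.restrict K) ∧
    ∀ u v : V, Tendsto (fun j => eLpNorm (fun y => cur (B j) (y, t₀) (u, 0) (v, 0) -
      F (y, t₀) ![(u, 0), (v, 0)]) 1 (volume.restrict K)) atTop (𝓝 0)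

/-- KT2 (100 lines; uses LIE, LOD, CLG, CLC, GDF, KB, KC, KA2): temporal gauge; the reduced
connection is a weak connection on `V` (adapt `B_KT.lean`; for the curvature use CLC with
`rs1 (B j) t₀`, `cur (rs1 (B j) t₀) y u v = cur (B j) (y, t₀) (u, 0) (v, 0)`). -/
def Stmt_KT2 : Prop :=
  ∀ (𝔐 : Type) [NormedRing 𝔐] [NormedAlgebra ℝ 𝔐] [StarRing 𝔐] [CStarRing 𝔐] [StarModule ℝ 𝔐]
    [FiniteDimensional ℝ 𝔐] (𝒢 : LieG 𝔐) (V : Type) [NormedAddCommGroup V] [NormedSpace ℝ V]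
    [FiniteDimensional ℝ V] [MeasureSpace V] [BorelSpace V]
    [(volume : Measure V).IsAddHaarMeasure] (W : Set (V × ℝ)) (A : V × ℝ → V × ℝ →L[ℝ] 𝔐)
    (F : V × ℝ → (V × ℝ) [⋀^Fin 2]→L[ℝ] 𝔐) (K : Set V) (a b : ℝ), IsOpen W → Conn 𝒢 W A F →
    IsCompact K → a < b → K ×ˢ Icc a b ⊆ W →
    (∀ᵐ p ∂(volume.restrict W), ∀ v, F p ![(0, 1), v] = 0) →
    ∃ t₀ ∈ Icc a b, Conn 𝒢 (interior K) (rs1 A t₀) (rs2 F t₀) ∧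
    GaugeEq 𝒢 (interior K ×ˢ Ioo a b) A (pr1 (rs1 A t₀))

/-- SPT (120 lines; uses GSM, GTR, SLG, EXG, SMC): the singular set splits in a box.  If `A ~ pr1 B`
on `O ×ˢ I` then `(y, t)` is regular for `A` iff `y` is regular for `B`: `A ~ S` near `(y, t)` gives
`pr1 B ~ S`, `B ~ rs1 S t₂` near `y` (SLG); `B ~ S` near `y` gives `A ~ pr1 B ~ pr1 S` (EXG). -/
def Stmt_SPT : Prop :=
  ∀ (𝔐 : Type) [NormedRing 𝔐] [NormedAlgebra ℝ 𝔐] [StarRing 𝔐] [CStarRing 𝔐] [StarModule ℝ 𝔐]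
    [FiniteDimensional ℝ 𝔐] (𝒢 : LieG 𝔐) (V : Type) [NormedAddCommGroup V] [NormedSpace ℝ V]
    [FiniteDimensional ℝ V] [MeasureSpace V] [BorelSpace V]
    [(volume : Measure V).IsAddHaarMeasure] (O : Set V) (I : Set ℝ)
    (A : V × ℝ → V × ℝ →L[ℝ] 𝔐) (B : V → V →L[ℝ] 𝔐), IsOpen O → IsOpen I →
    (∀ᵐ p ∂(volume.restrict (O ×ˢ I)), ∀ v, A p v ∈ 𝒢.lie) →
    (∀ᵐ y ∂(volume.restrict O), ∀ v, B y v ∈ 𝒢.lie) → GaugeEq 𝒢 (O ×ˢ I) A (pr1 B) →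
    ∀ y ∈ O, ∀ t ∈ I, (Reg 𝒢 A (y, t) ↔ Reg 𝒢 B y)

/-- SPL (200 lines; uses FBX, CVR, PBC, PBG, PBI, KT2, SPT): the local splitting (compare
`B_INV.lean`).  The flow box `Φ` of FBX, restricted to a smaller box; `A' = pb1 Φ A`,
`F' = pb2 Φ F`; KT2 for `A'`. -/
def Stmt_SPL : Prop :=
  ∀ (𝔐 : Type) [NormedRing 𝔐] [NormedAlgebra ℝ 𝔐] [StarRing 𝔐] [CStarRing 𝔐] [StarModule ℝ 𝔐]
    [FiniteDimensional ℝ 𝔐] (𝒢 : LieG 𝔐) (n : ℕ) (U : Set (Eu (n + 1)))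
    (A : Eu (n + 1) → Eu (n + 1) →L[ℝ] 𝔐) (F : Eu (n + 1) → Eu (n + 1) [⋀^Fin 2]→L[ℝ] 𝔐)
    (X : Eu (n + 1) → Eu (n + 1)) (x₀ : Eu (n + 1)), IsOpen U → Conn 𝒢 U A F → x₀ ∈ U →
    ContDiffOn ℝ ∞ X U → X x₀ ≠ 0 → Kil U F X →
    ∃ (Φ : Eu n × ℝ → Eu (n + 1)) (Ψ : Eu (n + 1) → Eu n × ℝ) (W : Set (Eu (n + 1))) (r : ℝ)
      (B : Eu n → Eu n →L[ℝ] 𝔐) (FB : Eu n → Eu n [⋀^Fin 2]→L[ℝ] 𝔐),
    0 < r ∧ x₀ ∈ W ∧ W ⊆ U ∧ Dif Φ Ψ (Metric.ball 0 r ×ˢ Ioo (-r) r) W ∧ Φ (0, 0) = x₀ ∧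
    (∀ p ∈ (Metric.ball (0 : Eu n) r) ×ˢ Ioo (-r) r, fderiv ℝ Φ p (0, 1) = X (Φ p)) ∧
    Conn 𝒢 (Metric.ball 0 r) B FB ∧
    GaugeEq 𝒢 (Metric.ball 0 r ×ˢ Ioo (-r) r) (pb1 Φ A) (pr1 B) ∧
    ∀ p ∈ (Metric.ball (0 : Eu n) r) ×ˢ Ioo (-r) r, (Reg 𝒢 A (Φ p) ↔ Reg 𝒢 B p.1)

end Pool.TIA
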