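import Pool.Agent.Work.MP_a1f430_ti.B_MAI
import Pool.Agent.Work.MP_a1f430_ti.B_HMP
import Pool.Agent.Work.MP_a1f430_ti.Interface2

/-! # Block DSK: an embedded disk of singular points (helper71) -/

set_option autoImplicit false

namespace Pool.TIA

open MeasureTheory Set Filter Topology
open scoped ContDiff ENNReal NNReal

/-- An immersion at `0` is an embedding of a small ball. -/
theorem DSK_embed {E : Type} [NormedAddCommGroup E] [NormedSpace ℝ E] {m : ℕ}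
    {f : (Fin m → ℝ) → E} (hf : ContDiff ℝ ∞ f) (hinj : Function.Injective (fderiv ℝ f 0)) :
    ∃ t ∈ 𝓝 (0 : Fin m → ℝ), InjOn f t ∧ ∀ s ∈ t, Function.Injective (fderiv ℝ f s) := by
  obtain ⟨c, hc, hlow⟩ := HMP_lower hinj
  have hstrict : HasStrictFDerivAt f (fderiv ℝ f 0) 0 :=
    hf.contDiffAt.hasStrictFDerivAt (by simp)
  have hc2 : (0 : ℝ≥0) < (c / 2).toNNReal := Real.toNNReal_pos.2 (by positivity)
  obtain ⟨s, hs, happ⟩ := hstrict.approximates_deriv_on_nhds (Or.inr hc2)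
  have hdist : ∀ x ∈ s, ∀ y ∈ s, c / 2 * ‖x - y‖ ≤ ‖f x - f y‖ := by
    intro x hx y hy
    have h1 := happ x hx y hy
    rw [Real.coe_toNNReal _ (by positivity)] at h1
    have h2 := hlow (x - y)
    have h3 : ‖fderiv ℝ f 0 (x - y)‖ ≤ ‖f x - f y‖ + ‖f x - f y - fderiv ℝ f 0 (x - y)‖ := by
      have := norm_sub_le (f x - f y) (f x - f y - fderiv ℝ f 0 (x - y))
      rwa [sub_sub_cancel] at this
    linarith
  have hcont : Continuous (fderiv ℝ f) := hf.continuous_fderiv (by simp)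
  have hnear : ∀ᶠ y in 𝓝 (0 : Fin m → ℝ), ‖fderiv ℝ f y - fderiv ℝ f 0‖ < c / 2 := by
    have h1 : Tendsto (fun y => ‖fderiv ℝ f y - fderiv ℝ f 0‖) (𝓝 0)
        (𝓝 ‖fderiv ℝ f 0 - fderiv ℝ f 0‖) :=
      ((hcont.sub continuous_const).norm).continuousAt
    rw [sub_self, norm_zero] at h1
    exact h1.eventually (gt_mem_nhds (by positivity))
  refine ⟨s ∩ {y | ‖fderiv ℝ f y - fderiv ℝ f 0‖ < c / 2}, inter_mem hs hnear, ?_, ?_⟩
  · intro x hx y hy hxy
    have h1 := hdist x hx.1 y hy.1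
    rw [hxy, sub_self, norm_zero] at h1
    have h2 : ‖x - y‖ ≤ 0 := by
      by_contra h
      push Not at h
      have : 0 < c / 2 * ‖x - y‖ := by positivity
      linarith
    exact sub_eq_zero.1 (norm_le_zero_iff.1 h2)
  · rintro y ⟨-, hy⟩
    have hy' : ‖fderiv ℝ f y - fderiv ℝ f 0‖ < c / 2 := hy
    rw [injective_iff_map_eq_zero]
    intro v hv
    have h1 := hlow v
    have h2 : ‖(fderiv ℝ f y - fderiv ℝ f 0) v‖ ≤ c / 2 * ‖v‖ :=
      ((fderiv ℝ f y - fderiv ℝ f 0).le_opNorm v).trans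
        (mul_le_mul_of_nonneg_right hy'.le (norm_nonneg v))
    rw [ContinuousLinearMap.sub_apply, hv, zero_sub, norm_neg] at h2
    have h3 : ‖v‖ ≤ 0 := by
      by_contra h
      push Not at h
      have : 0 < c / 2 * ‖v‖ := by positivity
      linarith
    exact norm_le_zero_iff.1 h3

theorem p_DSK (hCRV : Stmt_CRV) (hMFL : Stmt_MFL) : Stmt_DSK := by
  intro 𝔐 _ _ _ _ _ _ 𝒢 n m U N A F X x₀ hU hA hN hNU hx₀ hX hK hli hs
  obtain ⟨Ψ, hΨ, hΨ0, hΨd, hΨe⟩ := hMFL (Eu (n + 1)) m X N x₀ hN hx₀ hX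
  have hAN : Conn 𝒢 N A F := SMC_conn hNU hA
  -- the derivative is injective
  have hinj : Function.Injective (fderiv ℝ Ψ 0) := by
    rw [injective_iff_map_eq_zero]
    intro v hv
    have h1 : v = ∑ j, v j • (Pi.single j 1 : Fin m → ℝ) := by
      ext i
      simp [Finset.sum_apply, Pi.single_apply]
    rw [h1, map_sum] at hv
    have h2 : ∑ j, v j • X j x₀ = 0 := by
      rw [← hv]
      refine Finset.sum_congr rfl fun j _ => ?_
      rw [map_smul, hΨd j]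
    have h3 := Fintype.linearIndependent_iff.1 hli v h2
    exact funext h3
  -- the regular points are invariant
  have hinv : ∀ (j : Fin m) (γ : ℝ → Eu (n + 1)) (a b : ℝ), a ≤ b → Cur N (X j) γ a b →
      (Reg 𝒢 A (γ a) ↔ Reg 𝒢 A (γ b)) :=
    fun j γ a b hab hγ => hCRV 𝔐 𝒢 n N A F (X j) hN hAN (hX j) (hK j) γ a b hab hγ
  have hmem : ∀ᶠ s in 𝓝 (0 : Fin m → ℝ), Ψ s ∈ Sing 𝒢 U A := by
    have h1 : ∀ᶠ s in 𝓝 (0 : Fin m → ℝ), Ψ s ∈ N := by
      have h2 : Tendsto Ψ (𝓝 0) (𝓝 (Ψ 0)) := hΨ.continuous.continuousAt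
      rw [hΨ0] at h2
      exact h2.eventually (hN.mem_nhds hx₀)
    filter_upwards [h1, hΨe] with s hs1 hs2
    refine ⟨hNU hs1, fun hr => hs.2 ?_⟩
    exact (hs2 (fun x => Reg 𝒢 A x) hinv).2 hr
  obtain ⟨t, ht, htinj, htd⟩ := DSK_embed hΨ hinj
  obtain ⟨δ, hδ, hball⟩ := Metric.mem_nhds_iff.1 (inter_mem ht hmem)
  refine ⟨Ψ, δ, hδ, hΨ, hΨ0, fun s hs' => htd s (hball hs').1,
    htinj.mono fun s hs' => (hball hs').1, ?_⟩
  rintro _ ⟨s, hs', rfl⟩
  exact (hball hs').2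

end Pool.TIA
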