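import Pool.Agent.Work.MP_a1f430_ti.Interface2

/-! # Block DSM: an embedded disk has positive Hausdorff measure (helper71) -/

set_option autoImplicit false

namespace Pool.TIA

open MeasureTheory Set Filter Topology
open scoped ContDiff ENNReal NNReal

theorem p_DSM (hHMP : Stmt_HMP) : Stmt_DSM := by
  rintro n m S x₀ ⟨Ψ, δ, hδ, hΨ, -, hinj, -, hS⟩
  have h1 := hHMP (Eu n) m Ψ (hΨ.of_le (by exact_mod_cast le_top))
    (hinj 0 (Metric.mem_ball_self hδ)) (Metric.ball 0 δ) (Metric.ball_mem_nhds 0 hδ)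
  exact h1.trans_le (measure_mono hS)

end Pool.TIA
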