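import Pool.Agent.Work.MP_a1f430_ti.Interface

/-! # Gauge equivalences pulled back to the product (MP_a1f430, THEOREM TR; typed by helper55) -/

set_option autoImplicit false

namespace Pool.TIA

open MeasureTheory Set Filter Topology
open scoped ContDiff ENNReal

theorem p_EXG (hEXT : Stmt_EXT) : Stmt_EXG := by
  intro 𝔐 _ _ _ _ _ _ 𝒢 V _ _ _ _ _ _ W I B S hW hI hG
  obtain ⟨g, dg, hg, hdg, hwd, hgG, heq⟩ := hG
  obtain ⟨h1, h2, h3⟩ := hEXT V 𝔐 W I g dg hW hI hg hdg hwd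
  have hae : ∀ P : V → Prop, (∀ᵐ x ∂(volume.restrict W), P x) →
      ∀ᵐ p ∂((volume : Measure (V × ℝ)).restrict (W ×ˢ I)), P p.1 := by
    intro P hP
    rw [Measure.volume_eq_prod, ← Measure.prod_restrict]
    exact Measure.quasiMeasurePreserving_fst.ae hP
  refine ⟨fun p => g p.1, fun p => (dg p.1).comp (ContinuousLinearMap.fst ℝ V ℝ), h1, h2, h3,
    hae (fun x => g x ∈ 𝒢.G) hgG, ?_⟩
  filter_upwards [hae _ heq] with p hp v
  simpa [pr1] using hp v.1

end Pool.TIA
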