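import Pool.Agent.Work.MP_a1f430_ti.Interface

set_option autoImplicit false

/-! # Block EXT (weak derivatives of functions which do not depend on t) -/

namespace Pool.TIA

open MeasureTheory Set Filter Topology
open scoped ContDiff ENNReal

theorem EXT_L2 {V X : Type} [NormedAddCommGroup V] [NormedSpace ℝ V] [FiniteDimensional ℝ V]
    [MeasureSpace V] [BorelSpace V] [(volume : Measure V).IsAddHaarMeasure]
    [NormedAddCommGroup X] (W : Set V) (I : Set ℝ) (k : V → X) (hk : L2loc W k) :
    L2loc (W ×ˢ I) (fun p => k p.1) := by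
  intro K hK hKW
  have hK1 : IsCompact (Prod.fst '' K) := hK.image continuous_fst
  have hK2 : IsCompact (Prod.snd '' K) := hK.image continuous_snd
  have hs : Prod.fst '' K ⊆ W := by
    rintro _ ⟨p, hp, rfl⟩
    exact (hKW hp).1
  have h1 := hk _ hK1 hs
  haveI : IsFiniteMeasure ((volume : Measure ℝ).restrict (Prod.snd '' K)) :=
    ⟨by rw [Measure.restrict_apply_univ]; exact hK2.measure_lt_top⟩
  have h2 := h1.comp_fst ((volume : Measure ℝ).restrict (Prod.snd '' K))
  rw [Measure.prod_restrict, ← Measure.volume_eq_prod] at h2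
  refine h2.mono_measure (Measure.restrict_mono ?_ le_rfl)
  intro p hp
  exact ⟨⟨p, hp, rfl⟩, ⟨p, hp, rfl⟩⟩

theorem EXT_int {E X : Type} [NormedAddCommGroup E] [NormedSpace ℝ E] [MeasureSpace E]
    [BorelSpace E] [IsFiniteMeasureOnCompacts (volume : Measure E)] [SecondCountableTopology E]
    [NormedAddCommGroup X] [NormedSpace ℝ X]
    (U : Set E) (g : E → X) (hg : L2loc U g) (ψ : E → ℝ) (hψ : Continuous ψ)
    (K : Set E) (hK : IsCompact K) (hKU : K ⊆ U) (hz : ∀ x, x ∉ K → ψ x = 0) :
    Integrable (fun x => ψ x • g x) := by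
  have h1 := hg K hK hKU
  haveI : IsFiniteMeasure ((volume : Measure E).restrict K) :=
    ⟨by rw [Measure.restrict_apply_univ]; exact hK.measure_lt_top⟩
  have h2 : Integrable g (volume.restrict K) := h1.integrable (by norm_num)
  obtain ⟨C, hC⟩ := hK.exists_bound_of_continuousOn hψ.continuousOn
  have h3 : Integrable (fun x => ψ x • g x) (volume.restrict K) := by
    refine h2.bdd_smul C ?_ ?_
    · exact hψ.aestronglyMeasurable
    · refine (ae_restrict_mem hK.measurableSet).mono fun x hx => hC x hx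
  rw [← integrableOn_iff_integrable_of_support_subset (s := K)]
  · exact h3
  · intro x hx
    by_contra hc
    apply hx
    simp only
    rw [hz x hc, zero_smul]

theorem p_EXT : Stmt_EXT := by
  intro V X _ _ _ _ _ _ _ _ _ W I k dk hW hI hk hdk hwd
  have hL1 := EXT_L2 W I k hk
  have hL2 : L2loc (W ×ˢ I) (fun p : V × ℝ =>
      (dk p.1).comp (ContinuousLinearMap.fst ℝ V ℝ)) := by
    intro K hK hKW
    have h1 := EXT_L2 W I dk hdk K hK hKW
    let L : (V →L[ℝ] X) →L[ℝ] ((V × ℝ) →L[ℝ] X) :=
      (ContinuousLinearMap.compL ℝ (V × ℝ) V X).flip (ContinuousLinearMap.fst ℝ V ℝ)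
    exact L.comp_memLp' h1
  refine ⟨hL1, hL2, ?_⟩
  intro φ hφ v
  have hφ1 : ContDiff ℝ 1 φ := hφ.smooth.of_le (by exact_mod_cast le_top)
  have hdiff : Differentiable ℝ φ := hφ1.differentiable (by norm_num)
  have hcd : Continuous (fderiv ℝ φ) := hφ1.continuous_fderiv (by norm_num)
  have hKc : IsCompact (tsupport φ) := hφ.cpt
  have hz : ∀ p, p ∉ tsupport φ → ∀ u, fderiv ℝ φ p u = 0 := by
    intro p hp u
    have : p ∉ tsupport (fderiv ℝ φ) := fun h => hp (tsupport_fderiv_subset ℝ h)
    rw [image_eq_zero_of_notMem_tsupport this]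
    rfl
  have hcu : ∀ u, Continuous fun p => fderiv ℝ φ p u := fun u => hcd.clm_apply continuous_const
  have hint : ∀ u, Integrable (fun p : V × ℝ => fderiv ℝ φ p u • k p.1) := fun u =>
    EXT_int (W ×ˢ I) (fun p => k p.1) hL1 _ (hcu u) _ hKc hφ.sub (fun p hp => hz p hp u)
  have hLv : L2loc (W ×ˢ I) (fun p : V × ℝ => dk p.1 v.1) := by
    intro K hK hKW
    have h1 := EXT_L2 W I dk hdk K hK hKW
    exact (ContinuousLinearMap.apply ℝ X v.1).comp_memLp' h1
  have hint2 : Integrable (fun p : V × ℝ => φ p • dk p.1 v.1) :=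
    EXT_int (W ×ˢ I) (fun p => dk p.1 v.1) hLv φ hφ1.continuous _ hKc hφ.sub
      (fun p hp => image_eq_zero_of_notMem_tsupport hp)
  -- splitting
  have hsplit : ∀ p : V × ℝ, fderiv ℝ φ p v • k p.1 =
      fderiv ℝ φ p (v.1, 0) • k p.1 + fderiv ℝ φ p (0, v.2) • k p.1 := by
    intro p
    rw [← add_smul, ← map_add]
    simp
  have hI : ∫ p : V × ℝ, fderiv ℝ φ p v • k p.1 =
      (∫ p : V × ℝ, fderiv ℝ φ p (v.1, 0) • k p.1) +
        ∫ p : V × ℝ, fderiv ℝ φ p (0, v.2) • k p.1 := by
    rw [← integral_add (hint _) (hint _)]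
    exact integral_congr_ae (Eventually.of_forall hsplit)
  -- the second term vanishes
  have hII : ∫ p : V × ℝ, fderiv ℝ φ p (0, v.2) • k p.1 = 0 := by
    have hi := hint (0, v.2)
    rw [Measure.volume_eq_prod] at hi ⊢
    rw [integral_prod _ hi]
    have h0 : ∀ x : V, ∫ t : ℝ, fderiv ℝ φ (x, t) (0, v.2) • k x = 0 := by
      intro x
      rw [integral_smul_const]
      have hd : ∀ t : ℝ, HasDerivAt (fun t => v.2 * φ (x, t)) (fderiv ℝ φ (x, t) (0, v.2)) t := by
        intro t
        have h1 : HasFDerivAt φ (fderiv ℝ φ (x, t)) (x, t) := (hdiff (x, t)).hasFDerivAt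
        have h2 : HasDerivAt (fun t : ℝ => ((x, t) : V × ℝ)) ((0, 1) : V × ℝ) t :=
          (hasDerivAt_const t x).prodMk (hasDerivAt_id t)
        have h3 := (h1.comp_hasDerivAt t h2).const_mul v.2
        have h4 : v.2 * fderiv ℝ φ (x, t) (0, 1) = fderiv ℝ φ (x, t) (0, v.2) := by
          rw [← smul_eq_mul, ← map_smul]
          simp
        rw [h4] at h3
        exact h3
      have hcs : HasCompactSupport fun t : ℝ => v.2 * φ (x, t) := by
        refine HasCompactSupport.intro (hKc.image continuous_snd) ?_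
        intro t ht
        have : (x, t) ∉ tsupport φ := fun h => ht ⟨(x, t), h, rfl⟩
        rw [image_eq_zero_of_notMem_tsupport this, mul_zero]
      have hcont : Continuous fun t : ℝ => v.2 * φ (x, t) :=
        continuous_const.mul (hφ1.continuous.comp (by fun_prop))
      have hcs' : HasCompactSupport fun t : ℝ => fderiv ℝ φ (x, t) (0, v.2) := by
        refine HasCompactSupport.intro (hKc.image continuous_snd) ?_
        intro t ht
        have : (x, t) ∉ tsupport φ := fun h => ht ⟨(x, t), h, rfl⟩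
        exact hz _ this _
      have hcont' : Continuous fun t : ℝ => fderiv ℝ φ (x, t) (0, v.2) :=
        (hcu (0, v.2)).comp (by fun_prop)
      rw [integral_eq_zero_of_hasDerivAt_of_integrable hd
        (hcont'.integrable_of_hasCompactSupport hcs')
        (hcont.integrable_of_hasCompactSupport hcs), zero_smul]
    simp only [h0, integral_zero]
  -- the first term
  have hIII : ∫ p : V × ℝ, fderiv ℝ φ p (v.1, 0) • k p.1 = -∫ p : V × ℝ, φ p • dk p.1 v.1 := by
    have hi := hint (v.1, 0)
    have hi2 := hint2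
    rw [Measure.volume_eq_prod] at hi hi2 ⊢
    rw [integral_prod_symm _ hi, integral_prod_symm _ hi2, ← integral_neg]
    refine integral_congr_ae (Eventually.of_forall fun t => ?_)
    have hcomp : ContDiff ℝ ∞ (fun x : V => φ (x, t)) :=
      hφ.smooth.comp (contDiff_id.prodMk contDiff_const)
    have hsub : tsupport (fun x : V => φ (x, t)) ⊆ (fun x : V => (x, t)) ⁻¹' tsupport φ := by
      refine closure_minimal ?_ ((isClosed_tsupport φ).preimage (by fun_prop))
      intro x hx
      exact subset_tsupport φ hx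
    have htest : Test W (fun x : V => φ (x, t)) := by
      refine ⟨hcomp, ?_, ?_⟩
      · refine HasCompactSupport.intro (hKc.image continuous_fst) ?_
        intro x hx
        have : (x, t) ∉ tsupport φ := fun h => hx ⟨(x, t), h, rfl⟩
        exact image_eq_zero_of_notMem_tsupport this
      · intro x hx
        exact (hφ.sub (hsub hx)).1
    have h1 := hwd _ htest v.1
    have h2 : ∀ x : V, fderiv ℝ (fun x : V => φ (x, t)) x v.1 = fderiv ℝ φ (x, t) (v.1, 0) := by
      intro x
      have h3 : HasFDerivAt φ (fderiv ℝ φ (x, t)) (x, t) := (hdiff (x, t)).hasFDerivAt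
      have h4 : HasFDerivAt (fun x : V => ((x, t) : V × ℝ))
          ((ContinuousLinearMap.id ℝ V).prod 0) x :=
        (hasFDerivAt_id x).prodMk (hasFDerivAt_const t x)
      have h5 := h3.comp x h4
      have h6 : fderiv ℝ (fun x : V => φ (x, t)) x =
          (fderiv ℝ φ (x, t)).comp ((ContinuousLinearMap.id ℝ V).prod 0) := h5.fderiv
      rw [h6]
      simp
    simp only [h2] at h1
    exact h1
  rw [hI, hII, hIII, add_zero]
  rfl

end Pool.TIA
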