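import Pool.Agent.Work.MP_a1f430_ti.Interface

/-! # Singular sets of weak Omega-self-dual curvatures: block FBX (the flow box) -/

set_option autoImplicit false

namespace Pool.TIA

open MeasureTheory Set Filter Topology
open scoped ContDiff ENNReal

theorem FBX_iso (n : ℕ) (w : Eu (n + 1)) (hw : w ≠ 0) :
    ∃ e : (Eu n × ℝ) ≃L[ℝ] Eu (n + 1), e (0, 1) = w := by
  have hfr : Module.finrank ℝ (Eu n × ℝ) = Module.finrank ℝ (Eu (n + 1)) := by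
    rw [Module.finrank_prod, finrank_euclideanSpace, finrank_euclideanSpace, Fintype.card_fin,
      Fintype.card_fin, Module.finrank_self]
  let e₀ : (Eu n × ℝ) ≃L[ℝ] Eu (n + 1) :=
    (LinearEquiv.ofFinrankEq _ _ hfr).toContinuousLinearEquiv
  have h0 : e₀ (0, 1) ≠ 0 := by
    intro h
    rw [e₀.map_eq_zero_iff] at h
    exact one_ne_zero (congrArg Prod.snd h)
  obtain ⟨A, hA⟩ := SeparatingDual.exists_continuousLinearEquiv_apply_eq (R := ℝ) h0 hw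
  exact ⟨e₀.trans A, hA⟩

theorem FBX_dt {n : ℕ} {X₁ : Eu (n + 1) → Eu (n + 1)} {φ : ℝ → Eu (n + 1) → Eu (n + 1)}
    (hφ : ContDiff ℝ ∞ (fun p : ℝ × Eu (n + 1) => φ p.1 p.2))
    (hd : ∀ x t, HasDerivAt (fun s => φ s x) (X₁ (φ t x)) t) (x₀ : Eu (n + 1))
    (e : (Eu n × ℝ) ≃L[ℝ] Eu (n + 1)) :
    ContDiff ℝ ∞ (fun p : Eu n × ℝ => φ p.2 (x₀ + e (p.1, 0))) ∧
    ∀ p : Eu n × ℝ, fderiv ℝ (fun p : Eu n × ℝ => φ p.2 (x₀ + e (p.1, 0))) p (0, 1) =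
      X₁ (φ p.2 (x₀ + e (p.1, 0))) := by
  have hΦ : ContDiff ℝ ∞ (fun p : Eu n × ℝ => φ p.2 (x₀ + e (p.1, 0))) := by
    have h1 : ContDiff ℝ ∞ (fun p : Eu n × ℝ => ((p.2, x₀ + e (p.1, 0)) : ℝ × Eu (n + 1))) :=
      contDiff_snd.prodMk (contDiff_const.add (e.contDiff.comp (contDiff_fst.prodMk contDiff_const)))
    exact hφ.comp h1
  refine ⟨hΦ, fun p => ?_⟩
  have h1 : HasFDerivAt (fun p : Eu n × ℝ => φ p.2 (x₀ + e (p.1, 0)))
      (fderiv ℝ (fun p : Eu n × ℝ => φ p.2 (x₀ + e (p.1, 0))) p) p :=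
    (hΦ.differentiable (by simp) p).hasFDerivAt
  have h2 : HasDerivAt (fun s : ℝ => ((p.1, s) : Eu n × ℝ)) (0, 1) p.2 :=
    (hasDerivAt_const p.2 p.1).prodMk (hasDerivAt_id p.2)
  have h3 := h1.comp_hasDerivAt p.2 h2
  have h4 : HasDerivAt (fun s => φ s (x₀ + e (p.1, 0))) (X₁ (φ p.2 (x₀ + e (p.1, 0)))) p.2 :=
    hd _ _
  exact h3.unique h4

theorem FBX_der {n : ℕ} {X₁ : Eu (n + 1) → Eu (n + 1)} {φ : ℝ → Eu (n + 1) → Eu (n + 1)}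
    (hφ : ContDiff ℝ ∞ (fun p : ℝ × Eu (n + 1) => φ p.1 p.2)) (h0 : ∀ x, φ 0 x = x)
    (hd : ∀ x t, HasDerivAt (fun s => φ s x) (X₁ (φ t x)) t) (x₀ : Eu (n + 1))
    (e : (Eu n × ℝ) ≃L[ℝ] Eu (n + 1)) (he : e (0, 1) = X₁ x₀) :
    HasFDerivAt (fun p : Eu n × ℝ => φ p.2 (x₀ + e (p.1, 0)))
      (e : (Eu n × ℝ) →L[ℝ] Eu (n + 1)) (0, 0) := by
  obtain ⟨hΦ, hdt⟩ := FBX_dt hφ hd x₀ e
  have h1 : HasFDerivAt (fun p : Eu n × ℝ => φ p.2 (x₀ + e (p.1, 0)))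
      (fderiv ℝ (fun p : Eu n × ℝ => φ p.2 (x₀ + e (p.1, 0))) (0, 0)) (0, 0) :=
    (hΦ.differentiable (by simp) _).hasFDerivAt
  obtain ⟨D, hD⟩ : ∃ D, D = fderiv ℝ (fun p : Eu n × ℝ => φ p.2 (x₀ + e (p.1, 0))) (0, 0) :=
    ⟨_, rfl⟩
  have ht : D (0, 1) = X₁ x₀ := by
    rw [hD, hdt]
    have e1 : x₀ + e ((0 : Eu n), (0 : ℝ)) = x₀ := by
      have : ((0 : Eu n), (0 : ℝ)) = 0 := rfl
      rw [this, map_zero, add_zero]
    simp only [e1, h0]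
  rw [← hD] at h1
  have hy : ∀ y : Eu n, D (y, 0) = e (y, 0) := by
    intro y
    have h2 : HasDerivAt (fun s : ℝ => ((s • y, (0 : ℝ)) : Eu n × ℝ)) (y, 0) 0 := by
      have h3 : HasDerivAt (fun s : ℝ => s • y) ((1 : ℝ) • y) 0 :=
        (hasDerivAt_id (0 : ℝ)).smul_const y
      rw [one_smul] at h3
      exact h3.prodMk (hasDerivAt_const _ _)
    have h4 : HasFDerivAt (fun p : Eu n × ℝ => φ p.2 (x₀ + e (p.1, 0))) D
        ((fun s : ℝ => ((s • y, (0 : ℝ)) : Eu n × ℝ)) 0) := by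
      simp only [zero_smul]
      exact h1
    have h5 := HasFDerivAt.comp_hasDerivAt (f := fun s : ℝ => ((s • y, (0 : ℝ)) : Eu n × ℝ))
      (0 : ℝ) h4 h2
    have h6 : HasDerivAt (fun s : ℝ => x₀ + s • e (y, 0)) ((1 : ℝ) • e (y, 0)) 0 :=
      ((hasDerivAt_id (0 : ℝ)).smul_const (e (y, 0))).const_add x₀
    rw [one_smul] at h6
    have h7 : ((fun p : Eu n × ℝ => φ p.2 (x₀ + e (p.1, 0))) ∘
        fun s : ℝ => ((s • y, (0 : ℝ)) : Eu n × ℝ)) = fun s : ℝ => x₀ + s • e (y, 0) := by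
      funext s
      simp only [Function.comp]
      rw [h0, ← map_smul]
      congr 2
      ext1
      · rfl
      · simp
    rw [h7] at h5
    exact h5.unique h6
  have hDe : D = (e : (Eu n × ℝ) →L[ℝ] Eu (n + 1)) := by
    refine ContinuousLinearMap.ext fun p => ?_
    obtain ⟨y, t⟩ := p
    have e1 : ((y, t) : Eu n × ℝ) = (y, 0) + t • (0, 1) := by
      ext1
      · simp
      · simp
    rw [e1, map_add, map_add, map_smul, map_smul, hy, ht]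
    rw [← he]
    rfl
  rw [← hDe]
  exact h1

theorem p_FBX (hFLW : Stmt_FLW) (hCUT : Stmt_CUT) : Stmt_FBX := by
  intro n X U x₀ hU hx₀ hX hne
  obtain ⟨X₁, L, ρ, hρ, hρU, hX₁, -, hL, heq⟩ := hCUT _ _ X U x₀ hU hx₀ hX
  obtain ⟨φ, hφ, h0, hd⟩ := hFLW _ X₁ L hX₁ hL
  have hX0 : X₁ x₀ = X x₀ := heq x₀ (Metric.mem_ball_self hρ)
  obtain ⟨e, he⟩ := FBX_iso n (X₁ x₀) (by rw [hX0]; exact hne)
  obtain ⟨hΦ, hdt⟩ := FBX_dt hφ hd x₀ e
  have hder := FBX_der hφ h0 hd x₀ e he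
  obtain ⟨Φ, hΦe⟩ : ∃ Φ : Eu n × ℝ → Eu (n + 1), Φ = fun p => φ p.2 (x₀ + e (p.1, 0)) := ⟨_, rfl⟩
  rw [← hΦe] at hΦ hdt hder
  have hΦ0 : Φ (0, 0) = x₀ := by
    rw [hΦe]
    have : ((0 : Eu n), (0 : ℝ)) = 0 := rfl
    simp only [h0, this, map_zero, add_zero]
  let P := ContDiffAt.toOpenPartialHomeomorph Φ (n := ∞) hΦ.contDiffAt hder (by simp)
  have hPc : (P : Eu n × ℝ → Eu (n + 1)) = Φ :=
    ContDiffAt.toOpenPartialHomeomorph_coe (n := ∞) hΦ.contDiffAt hder (by simp)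
  have hPs : ((0, 0) : Eu n × ℝ) ∈ P.source :=
    ContDiffAt.mem_toOpenPartialHomeomorph_source (n := ∞) hΦ.contDiffAt hder (by simp)
  have hfd : Continuous (fun p => fderiv ℝ Φ p) := hΦ.continuous_fderiv (by simp)
  have hN : P.source ∩ ((fun p => fderiv ℝ Φ p) ⁻¹'
      (range ((↑) : ((Eu n × ℝ) ≃L[ℝ] Eu (n + 1)) → (Eu n × ℝ) →L[ℝ] Eu (n + 1))) ∩
      Φ ⁻¹' (Metric.ball x₀ ρ)) ∈ 𝓝 ((0, 0) : Eu n × ℝ) := by
    refine (P.open_source.inter ((ContinuousLinearEquiv.isOpen.preimage hfd).inter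
      (Metric.isOpen_ball.preimage hΦ.continuous))).mem_nhds ⟨hPs, ?_, ?_⟩
    · exact ⟨e, hder.fderiv.symm⟩
    · change Φ (0, 0) ∈ Metric.ball x₀ ρ
      rw [hΦ0]
      exact Metric.mem_ball_self hρ
  obtain ⟨r, hr, hball⟩ := Metric.mem_nhds_iff.1 hN
  have hbox : Metric.ball (0 : Eu n) r ×ˢ Ioo (-r) r =
      Metric.ball ((0, 0) : Eu n × ℝ) r := by
    rw [← ball_prod_same, Real.ball_eq_Ioo, zero_sub, zero_add]
  have hsub : ∀ p ∈ Metric.ball (0 : Eu n) r ×ˢ Ioo (-r) r, p ∈ P.source ∧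
      (∃ e' : (Eu n × ℝ) ≃L[ℝ] Eu (n + 1), (e' : (Eu n × ℝ) →L[ℝ] Eu (n + 1)) = fderiv ℝ Φ p) ∧
      Φ p ∈ Metric.ball x₀ ρ := by
    intro p hp
    rw [hbox] at hp
    exact hball hp
  have hop : IsOpen (Metric.ball (0 : Eu n) r ×ˢ Ioo (-r) r) := Metric.isOpen_ball.prod isOpen_Ioo
  refine ⟨Φ, P.symm, Φ '' (Metric.ball (0 : Eu n) r ×ˢ Ioo (-r) r), r, hr, ?_, ?_, ?_, hΦ0, ?_⟩
  · exact ⟨(0, 0), ⟨Metric.mem_ball_self hr, by constructor <;> linarith⟩, hΦ0⟩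
  · rintro _ ⟨p, hp, rfl⟩
    exact hρU (hsub p hp).2.2
  · have hleft : ∀ p ∈ Metric.ball (0 : Eu n) r ×ˢ Ioo (-r) r, P.symm (Φ p) = p := by
      intro p hp
      rw [← hPc]
      exact P.left_inv (hsub p hp).1
    refine ⟨hop, ?_, mapsTo_image _ _, ?_, hleft, ?_, hΦ.contDiffOn, ?_⟩
    · rw [← hPc]
      exact P.isOpen_image_of_subset_source hop fun p hp => (hsub p hp).1
    · rintro _ ⟨p, hp, rfl⟩
      rw [hleft p hp]
      exact hp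
    · rintro _ ⟨p, hp, rfl⟩
      rw [hleft p hp]
    · rintro _ ⟨p, hp, rfl⟩
      obtain ⟨h1, ⟨e', he'⟩, -⟩ := hsub p hp
      have h2 : Φ p ∈ P.target := by
        rw [← hPc]
        exact P.map_source h1
      refine (P.contDiffAt_symm h2 (f₀' := e') ?_ ?_).contDiffWithinAt
      · rw [hleft p hp, he', hPc]
        exact (hΦ.differentiable (by simp) p).hasFDerivAt
      · rw [hleft p hp, hPc]
        exact hΦ.contDiffAt
  · intro p hp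
    rw [hdt p]
    have h1 : φ p.2 (x₀ + e (p.1, 0)) = Φ p := by rw [hΦe]
    rw [h1]
    exact heq _ (hsub p hp).2.2

end Pool.TIA
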