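import Pool.Agent.Work.MP_a1f430_ti.Interface2

set_option autoImplicit false

namespace Pool.TIA

open MeasureTheory Set Filter Topology
open scoped ContDiff ENNReal

theorem FDS_kil (hAL1 : Stmt_AL1) {𝔐 : Type} [NormedRing 𝔐] [NormedAlgebra ℝ 𝔐] {m : ℕ}
    {U : Set (Eu (m + 4))} {h : Eu (m + 4) → Eu (m + 4) →L[ℝ] Eu (m + 4) →L[ℝ] ℝ}
    {Ω : Eu (m + 4) → Eu (m + 4) [⋀^Fin m]→L[ℝ] ℝ}
    {F : Eu (m + 4) → Eu (m + 4) [⋀^Fin 2]→L[ℝ] 𝔐} (hh : Metric U h)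
    (hS : ∀ᵐ x ∂(volume.restrict U), StarEq (h x) (Ω x) (F x))
    (X : Eu (m + 4) → Eu (m + 4)) (N : Set (Eu (m + 4))) (hN : MeasurableSet N) (hNU : N ⊆ U)
    (hX : ∀ x ∈ N, DivBy (h x) (Ω x) (X x)) : Kil N F X := by
  have h1 : ∀ᵐ x ∂(volume.restrict N), StarEq (h x) (Ω x) (F x) :=
    ae_mono (Measure.restrict_mono hNU le_rfl) hS
  have h2 : ∀ᵐ x ∂(volume.restrict N), x ∈ N := ae_restrict_mem hN
  filter_upwards [h1, h2] with x hx hxN w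
  exact hAL1 𝔐 m (h x) (Ω x) (F x) (X x) (hh.symm x (hNU hxN)) (hh.pos x (hNU hxN)) hx
    (hX x hxN) w

theorem p_FDS (hDSK : Stmt_DSK) (hDSM : Stmt_DSM) (hAL1 : Stmt_AL1) (hAL2 : Stmt_AL2)
    (hAL3 : Stmt_AL3) : Stmt_FDS := by
  intro 𝔐 _ _ _ _ _ _ 𝒢 m U h Ω A F hU hh hΩ hdec hC hS
  have hdisk : ∀ x ∈ Sing 𝒢 U A, Disk m (Sing 𝒢 U A) x := by
    intro x₀ hx₀
    have hx₀U : x₀ ∈ U := hx₀.1
    have key : ∃ (N : Set (Eu (m + 4))) (T : Fin m → Eu (m + 4) → Eu (m + 4)), IsOpen N ∧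
        x₀ ∈ N ∧ N ⊆ U ∧ (∀ j, ContDiffOn ℝ ∞ (T j) N) ∧
        LinearIndependent ℝ (fun j => T j x₀) ∧ ∀ j, Kil N F (T j) := by
      by_cases h0 : Ω x₀ = 0
      · obtain ⟨N, hN, hxN, hNU, hF⟩ := hAL2 𝔐 m U h Ω x₀ hU hh hΩ.continuousOn hx₀U h0
        refine ⟨N, fun j _ => EuclideanSpace.basisFun (Fin (m + 4)) ℝ (Fin.castAdd 4 j), hN, hxN,
          hNU, fun j => contDiffOn_const, ?_, fun j => ?_⟩
        · have := (EuclideanSpace.basisFun (Fin (m + 4)) ℝ).toBasis.linearIndependent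
          have h2 := this.comp (Fin.castAdd 4 : Fin m → Fin (m + 4)) (Fin.castAdd_injective m 4)
          rw [OrthonormalBasis.coe_toBasis] at h2
          exact h2
        · have h1 : ∀ᵐ x ∂(volume.restrict N), StarEq (h x) (Ω x) (F x) :=
            ae_mono (Measure.restrict_mono hNU le_rfl) hS
          have h2 : ∀ᵐ x ∂(volume.restrict N), x ∈ N := ae_restrict_mem hN.measurableSet
          filter_upwards [h1, h2] with x hx hxN w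
          rw [hF x hxN (F x) hx]
          rfl
      · obtain ⟨N, T, hN, hxN, hNU, hT, hli, hdiv⟩ := hAL3 m (m + 4) U h Ω x₀ hU hh hΩ hx₀U h0 hdec
        exact ⟨N, T, hN, hxN, hNU, hT, hli, fun j => FDS_kil hAL1 hh hS (T j) N hN.measurableSet
          hNU fun y hy => hdiv y hy j⟩
    obtain ⟨N, T, hN, hxN, hNU, hT, hli, hK⟩ := key
    exact hDSK 𝔐 𝒢 (m + 3) m U N A F T x₀ hU hC hN hNU hxN hT hK hli hx₀
  refine ⟨hdisk, ?_⟩
  rcases (Sing 𝒢 U A).eq_empty_or_nonempty with he | ⟨x, hx⟩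
  · exact Or.inl he
  · exact Or.inr (hDSM (m + 4) m _ x (hdisk x hx))

end Pool.TIA
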