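import Pool.Agent.Work.MP_a1f430_ti.Interface

/-! # Block FLS: the flow for small times (helper54) -/

set_option autoImplicit false

namespace Pool.TIA

open MeasureTheory Set Filter Topology
open scoped ContDiff ENNReal

section

variable {E : Type} [NormedAddCommGroup E] [NormedSpace ℝ E] [FiniteDimensional ℝ E]

/-- the extension to the line -/
noncomputable def FLS_ex (u : C(II, E)) : ℝ → E := IccExtend (zero_le_one (α := ℝ)) u

omit [NormedSpace ℝ E] [FiniteDimensional ℝ E] in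
theorem FLS_ex_cont (u : C(II, E)) : Continuous (FLS_ex u) := u.continuous.Icc_extend'

omit [NormedSpace ℝ E] [FiniteDimensional ℝ E] in
theorem FLS_ex_norm (u : C(II, E)) (s : ℝ) : ‖FLS_ex u s‖ ≤ ‖u‖ := u.norm_coe_le_norm _

omit [NormedSpace ℝ E] [FiniteDimensional ℝ E] in
theorem FLS_ex_mem (u : C(II, E)) {s : ℝ} (hs : s ∈ Icc (0 : ℝ) 1) : FLS_ex u s = u ⟨s, hs⟩ :=
  IccExtend_of_mem _ _ hs

/-- the primitive -/
noncomputable def FLS_prim (u : C(II, E)) : C(II, E) where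
  toFun τ := ∫ s in (0 : ℝ)..(τ : ℝ), FLS_ex u s
  continuous_toFun :=
    (intervalIntegral.continuous_primitive
      (fun a b => (FLS_ex_cont u).intervalIntegrable a b) 0).comp continuous_subtype_val

omit [FiniteDimensional ℝ E] in
theorem FLS_prim_norm (u : C(II, E)) : ‖FLS_prim u‖ ≤ ‖u‖ := by
  rw [ContinuousMap.norm_le _ (norm_nonneg u)]
  intro τ
  have h1 := intervalIntegral.norm_integral_le_of_norm_le_const (a := (0 : ℝ)) (b := (τ : ℝ))
    (f := FLS_ex u) (C := ‖u‖) (fun s _ => FLS_ex_norm u s)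
  refine h1.trans ?_
  have h2 : |(τ : ℝ) - 0| ≤ 1 := by
    rw [sub_zero, abs_of_nonneg τ.2.1]
    exact τ.2.2
  calc ‖u‖ * |(τ : ℝ) - 0| ≤ ‖u‖ * 1 := mul_le_mul_of_nonneg_left h2 (norm_nonneg _)
    _ = ‖u‖ := mul_one _

/-- the primitive as a continuous linear map -/
noncomputable def FLS_J (E : Type) [NormedAddCommGroup E] [NormedSpace ℝ E] :
    C(II, E) →L[ℝ] C(II, E) :=
  LinearMap.mkContinuous
    { toFun := FLS_prim
      map_add' := by
        intro u v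
        ext τ
        show ∫ s in (0 : ℝ)..(τ : ℝ), FLS_ex (u + v) s =
          (∫ s in (0 : ℝ)..(τ : ℝ), FLS_ex u s) + ∫ s in (0 : ℝ)..(τ : ℝ), FLS_ex v s
        rw [← intervalIntegral.integral_add ((FLS_ex_cont u).intervalIntegrable _ _)
          ((FLS_ex_cont v).intervalIntegrable _ _)]
        rfl
      map_smul' := by
        intro c u
        ext τ
        show ∫ s in (0 : ℝ)..(τ : ℝ), FLS_ex (c • u) s =
          c • ∫ s in (0 : ℝ)..(τ : ℝ), FLS_ex u s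
        rw [← intervalIntegral.integral_smul]
        rfl }
    1 (fun u => by rw [one_mul]; exact FLS_prim_norm u)

omit [FiniteDimensional ℝ E] in
theorem FLS_J_apply (u : C(II, E)) (τ : II) :
    FLS_J E u τ = ∫ s in (0 : ℝ)..(τ : ℝ), FLS_ex u s := rfl

omit [FiniteDimensional ℝ E] in
theorem FLS_J_norm (u : C(II, E)) : ‖FLS_J E u‖ ≤ ‖u‖ := FLS_prim_norm u

/-- the constants -/
noncomputable def FLS_c (E : Type) [NormedAddCommGroup E] [NormedSpace ℝ E] :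
    E →L[ℝ] C(II, E) :=
  LinearMap.mkContinuous
    { toFun := fun x => ContinuousMap.const II x
      map_add' := fun _ _ => rfl
      map_smul' := fun _ _ => rfl }
    1 (fun x => by
      rw [one_mul, ContinuousMap.norm_le _ (norm_nonneg x)]
      exact fun _ => le_rfl)

omit [FiniteDimensional ℝ E] in
theorem FLS_c_apply (x : E) (τ : II) : FLS_c E x τ = x := rfl

/-- the Nemytskii operator -/
def FLS_N {T : E → E} (hT : Continuous T) (γ : C(II, E)) : C(II, E) :=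
  (⟨T, hT⟩ : C(E, E)).comp γ

omit [NormedSpace ℝ E] [FiniteDimensional ℝ E] in
theorem FLS_N_apply {T : E → E} (hT : Continuous T) (γ : C(II, E)) (τ : II) :
    FLS_N hT γ τ = T (γ τ) := rfl

omit [NormedSpace ℝ E] [FiniteDimensional ℝ E] in
theorem FLS_N_lip {T : E → E} (hT : Continuous T) {L : NNReal} (hL : LipschitzWith L T)
    (γ γ' : C(II, E)) : ‖FLS_N hT γ - FLS_N hT γ'‖ ≤ L * ‖γ - γ'‖ := by
  rw [ContinuousMap.norm_le _ (by positivity)]
  intro τ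
  have h1 := hL.dist_le_mul (γ τ) (γ' τ)
  rw [dist_eq_norm, dist_eq_norm] at h1
  refine h1.trans ?_
  exact mul_le_mul_of_nonneg_left ((γ - γ').norm_coe_le_norm τ) L.2

/-- the integral operator -/
noncomputable def FLS_R {T : E → E} (hT : Continuous T) (s : ℝ) (x : E) (γ : C(II, E)) :
    C(II, E) := FLS_c E x + s • FLS_J E (FLS_N hT γ)

omit [FiniteDimensional ℝ E] in
theorem FLS_R_lip {T : E → E} (hT : Continuous T) {L : NNReal} (hL : LipschitzWith L T) (s : ℝ)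
    (x : E) : LipschitzWith (‖s‖₊ * L) (FLS_R hT s x) := by
  apply LipschitzWith.of_dist_le_mul
  intro γ γ'
  rw [dist_eq_norm, dist_eq_norm]
  have e : FLS_R hT s x γ - FLS_R hT s x γ' = s • FLS_J E (FLS_N hT γ - FLS_N hT γ') := by
    unfold FLS_R
    rw [map_sub, smul_sub]
    abel
  rw [e, norm_smul]
  have h1 := (FLS_J_norm (FLS_N hT γ - FLS_N hT γ')).trans (FLS_N_lip hT hL γ γ')
  calc ‖s‖ * ‖FLS_J E (FLS_N hT γ - FLS_N hT γ')‖ ≤ ‖s‖ * (L * ‖γ - γ'‖) :=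
        mul_le_mul_of_nonneg_left h1 (norm_nonneg s)
    _ = ((‖s‖₊ * L : NNReal) : ℝ) * ‖γ - γ'‖ := by
        rw [NNReal.coe_mul, coe_nnnorm]
        ring

omit [FiniteDimensional ℝ E] in
theorem FLS_R_apply {T : E → E} (hT : Continuous T) (s : ℝ) (x : E) (γ : C(II, E)) (τ : II) :
    FLS_R hT s x γ τ = x + s • ∫ v in (0 : ℝ)..(τ : ℝ), FLS_ex (FLS_N hT γ) v := rfl

theorem FLS_lt {L : NNReal} (hL : 0 < L) {s : ℝ} (hs : s ∈ Ioo (-(1 / L : ℝ)) (1 / L : ℝ)) :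
    ‖s‖₊ * L < 1 := by
  have h1 : |s| < 1 / L := abs_lt.2 hs
  have h2 : (0 : ℝ) < L := by exact_mod_cast hL
  rw [lt_div_iff₀ h2] at h1
  have h3 : ((‖s‖₊ * L : NNReal) : ℝ) < ((1 : NNReal) : ℝ) := by
    rw [NNReal.coe_mul, coe_nnnorm, NNReal.coe_one, Real.norm_eq_abs]
    exact h1
  exact_mod_cast h3

end

theorem p_FLS (hNEM : Stmt_NEM) : Stmt_FLS := by
  intro E _ _ _ T L hL0 hTs hL
  have : CompleteSpace E := FiniteDimensional.complete ℝ E
  have hT : Continuous T := hTs.continuous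
  have hN : ContDiff ℝ ∞ (FLS_N hT) := hNEM E E T hTs
  -- the fixed points
  have hcon : ∀ s x, ‖s‖₊ * L < 1 → ContractingWith (‖s‖₊ * L) (FLS_R hT s x) :=
    fun s x h => ⟨h, FLS_R_lip hT hL s x⟩
  have hex : ∀ s x, ∃ γ : C(II, E), ‖s‖₊ * L < 1 → FLS_R hT s x γ = γ := by
    intro s x
    by_cases h : ‖s‖₊ * L < 1
    · exact ⟨(hcon s x h).fixedPoint (FLS_R hT s x), fun _ => (hcon s x h).fixedPoint_isFixedPt⟩
    · exact ⟨0, fun h' => absurd h' h⟩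
  choose γ hγ using hex
  have huniq : ∀ s x, ‖s‖₊ * L < 1 → ∀ δ : C(II, E), FLS_R hT s x δ = δ → δ = γ s x := by
    intro s x h δ hδ
    exact (hcon s x h).fixedPoint_unique' hδ (hγ s x h)
  have hS : ∀ s ∈ Ioo (-(1 / L : ℝ)) (1 / L : ℝ), ‖s‖₊ * L < 1 := fun s hs => FLS_lt hL0 hs
  have hpos : (0 : ℝ) < 1 / L := by
    have : (0 : ℝ) < L := by exact_mod_cast hL0
    positivity
  -- smoothness
  have hsm : ContDiffOn ℝ ∞ (fun p : ℝ × E => γ p.1 p.2)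
      (Ioo (-(1 / L : ℝ)) (1 / L) ×ˢ univ) := by
    rintro ⟨s₀, x₀⟩ ⟨hs₀, -⟩
    apply ContDiffAt.contDiffWithinAt
    obtain ⟨f, hf⟩ : ∃ f : (ℝ × E) × C(II, E) → C(II, E),
        f = fun q => q.2 - (FLS_c E q.1.2 + q.1.1 • FLS_J E (FLS_N hT q.2)) := ⟨_, rfl⟩
    have hfR : ∀ p δ, f (p, δ) = δ - FLS_R hT p.1 p.2 δ := fun p δ => by rw [hf]; rfl
    have hfs : ContDiff ℝ ∞ f := by
      rw [hf]
      have a1 : ContDiff ℝ ∞ (fun q : (ℝ × E) × C(II, E) => FLS_c E q.1.2) :=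
        (FLS_c E).contDiff.comp (contDiff_snd.comp contDiff_fst)
      have a2 : ContDiff ℝ ∞ (fun q : (ℝ × E) × C(II, E) => q.1.1) :=
        contDiff_fst.comp contDiff_fst
      have a3 : ContDiff ℝ ∞ (fun q : (ℝ × E) × C(II, E) => FLS_J E (FLS_N hT q.2)) :=
        (FLS_J E).contDiff.comp (hN.comp contDiff_snd)
      exact contDiff_snd.sub (a1.add (a2.smul a3))
    obtain ⟨u, hu⟩ : ∃ u : (ℝ × E) × C(II, E), u = ((s₀, x₀), γ s₀ x₀) := ⟨_, rfl⟩
    have hfu : f u = 0 := by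
      rw [hu, hfR]
      show γ s₀ x₀ - FLS_R hT s₀ x₀ (γ s₀ x₀) = 0
      rw [hγ s₀ x₀ (hS s₀ hs₀), sub_self]
    have hinv : (fderiv ℝ f u ∘L .inr ℝ (ℝ × E) C(II, E)).IsInvertible := by
      have h1 : HasFDerivAt (fun δ => f ((s₀, x₀), δ))
          (fderiv ℝ f u ∘L .inr ℝ (ℝ × E) C(II, E)) (γ s₀ x₀) := by
        have h2 : HasFDerivAt f (fderiv ℝ f u) u :=
          (hfs.differentiable (by simp) u).hasFDerivAt
        rw [hu] at h2 ⊢
        exact h2.comp (γ s₀ x₀) (hasFDerivAt_prodMk_right (s₀, x₀) (γ s₀ x₀))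
      have hRd : DifferentiableAt ℝ (FLS_R hT s₀ x₀) (γ s₀ x₀) := by
        have h2 : ContDiff ℝ ∞ (FLS_R hT s₀ x₀) := by
          unfold FLS_R
          exact contDiff_const.add (((FLS_J E).contDiff.comp hN).const_smul s₀)
        exact h2.differentiable (by simp) _
      have h3 : HasFDerivAt (fun δ => f ((s₀, x₀), δ))
          (1 - fderiv ℝ (FLS_R hT s₀ x₀) (γ s₀ x₀)) (γ s₀ x₀) := by
        have h4 : (fun δ => f ((s₀, x₀), δ)) = fun δ => δ - FLS_R hT s₀ x₀ δ := by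
          funext δ
          exact hfR _ _
        rw [h4]
        exact (hasFDerivAt_id _).sub hRd.hasFDerivAt
      rw [h1.unique h3]
      have h5 : ‖fderiv ℝ (FLS_R hT s₀ x₀) (γ s₀ x₀)‖ < 1 := by
        have h6 := norm_fderiv_le_of_lipschitz ℝ (x₀ := γ s₀ x₀) (FLS_R_lip hT hL s₀ x₀)
        refine lt_of_le_of_lt h6 ?_
        exact_mod_cast hS s₀ hs₀
      obtain ⟨U, hU⟩ : ∃ U : (C(II, E) →L[ℝ] C(II, E))ˣ,
          (U : C(II, E) →L[ℝ] C(II, E)) = 1 - fderiv ℝ (FLS_R hT s₀ x₀) (γ s₀ x₀) :=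
        ⟨Units.oneSub (R := C(II, E) →L[ℝ] C(II, E)) _ h5, rfl⟩
      refine ⟨ContinuousLinearEquiv.unitsEquiv ℝ _ U, ?_⟩
      rw [← hU]
      rfl
    have cdf : ContDiffAt ℝ ∞ f u := hfs.contDiffAt
    have h0 : (∞ : ℕ∞ω) ≠ 0 := by simp
    have h1 := cdf.contDiffAt_implicitFunction h0 hinv
    have h2 := cdf.eventually_apply_implicitFunction h0 hinv
    have hu1 : u.1 = (s₀, x₀) := by rw [hu]
    rw [hu1] at h1 h2
    refine h1.congr_of_eventuallyEq ?_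
    have h3 : ∀ᶠ p : ℝ × E in 𝓝 (s₀, x₀), p.1 ∈ Ioo (-(1 / L : ℝ)) (1 / L : ℝ) :=
      continuous_fst.continuousAt.eventually (isOpen_Ioo.mem_nhds hs₀)
    filter_upwards [h2, h3] with p hp hp'
    rw [hfu, hfR] at hp
    exact (huniq p.1 p.2 (hS _ hp') _ (sub_eq_zero.1 hp).symm).symm
  -- the flow
  have h1mem : (1 : ℝ) ∈ Icc (0 : ℝ) 1 := ⟨zero_le_one, le_rfl⟩
  have hφs : ContDiffOn ℝ ∞ (fun p : ℝ × E => γ p.1 p.2 ⟨1, h1mem⟩)
      (Ioo (-(1 / L : ℝ)) (1 / L) ×ˢ univ) := by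
    obtain ⟨ev, hev⟩ : ∃ ev : C(II, E) →L[ℝ] E, ∀ u, ev u = u ⟨1, h1mem⟩ :=
      ⟨ContinuousMap.evalCLM ℝ _, fun _ => rfl⟩
    have e : (fun p : ℝ × E => γ p.1 p.2 ⟨1, h1mem⟩) = fun p => ev (γ p.1 p.2) := by
      funext p
      rw [hev]
    rw [e]
    exact ev.contDiff.comp_contDiffOn hsm
  have hφ0 : ∀ x, γ 0 x ⟨1, h1mem⟩ = x := by
    intro x
    have h1 := hγ 0 x (hS 0 ⟨by linarith, hpos⟩)
    rw [← h1, FLS_R_apply, zero_smul, add_zero]
  -- rescaling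
  have hresc : ∀ x, ∀ t ∈ Ioo (-(1 / L : ℝ)) (1 / L : ℝ), ∀ v (hv : v ∈ Icc (0 : ℝ) 1),
      γ t x ⟨v, hv⟩ = γ (t * v) x ⟨1, h1mem⟩ := by
    intro x t ht v hv
    have hmem : ∀ τ : II, v * (τ : ℝ) ∈ Icc (0 : ℝ) 1 := fun τ =>
      ⟨mul_nonneg hv.1 τ.2.1, mul_le_one₀ hv.2 τ.2.1 τ.2.2⟩
    obtain ⟨δ, hδ⟩ : ∃ δ : C(II, E), ∀ τ : II, δ τ = γ t x ⟨v * (τ : ℝ), hmem τ⟩ := by
      refine ⟨(γ t x).comp ⟨fun τ => ⟨v * (τ : ℝ), hmem τ⟩, ?_⟩, fun τ => rfl⟩
      exact (continuous_const.mul continuous_subtype_val).subtype_mk _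
    have htv : t * v ∈ Ioo (-(1 / L : ℝ)) (1 / L : ℝ) := by
      apply abs_lt.1
      rw [abs_mul, abs_of_nonneg hv.1]
      have h1 : |t| * v ≤ |t| * 1 := mul_le_mul_of_nonneg_left hv.2 (abs_nonneg t)
      have h2 : |t| < 1 / L := abs_lt.2 ht
      linarith
    have hfix : FLS_R hT (t * v) x δ = δ := by
      ext τ
      rw [FLS_R_apply, hδ]
      have h1 := congrArg (fun u : C(II, E) => u ⟨v * (τ : ℝ), hmem τ⟩) (hγ t x (hS t ht))
      simp only [FLS_R_apply] at h1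
      rw [← h1, mul_smul]
      congr 2
      have h2 : ∫ w in (0 : ℝ)..(τ : ℝ), FLS_ex (FLS_N hT δ) w =
          ∫ w in (0 : ℝ)..(τ : ℝ), FLS_ex (FLS_N hT (γ t x)) (v * w) := by
        apply intervalIntegral.integral_congr
        intro w hw
        rw [uIcc_of_le τ.2.1] at hw
        have hw1 : w ∈ Icc (0 : ℝ) 1 := ⟨hw.1, hw.2.trans τ.2.2⟩
        show FLS_ex (FLS_N hT δ) w = FLS_ex (FLS_N hT (γ t x)) (v * w)
        rw [FLS_ex_mem _ hw1, FLS_ex_mem _ (hmem ⟨w, hw1⟩), FLS_N_apply, FLS_N_apply, hδ]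
      rw [h2, intervalIntegral.smul_integral_comp_mul_left, mul_zero]
    have h3 := huniq (t * v) x (hS _ htv) δ hfix
    rw [← h3, hδ]
    congr 1
    apply Subtype.ext
    exact (mul_one v).symm
  -- the integral equation
  have hint : ∀ x, ∀ t ∈ Ioo (-(1 / L : ℝ)) (1 / L : ℝ), γ t x ⟨1, h1mem⟩ =
      x + ∫ u in (0 : ℝ)..t, T (γ u x ⟨1, h1mem⟩) := by
    intro x t ht
    have h1 := congrArg (fun u : C(II, E) => u ⟨1, h1mem⟩) (hγ t x (hS t ht))
    simp only [FLS_R_apply] at h1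
    rw [← h1]
    congr 1
    have h2 : ∫ w in (0 : ℝ)..1, FLS_ex (FLS_N hT (γ t x)) w =
        ∫ w in (0 : ℝ)..1, T (γ (t * w) x ⟨1, h1mem⟩) := by
      apply intervalIntegral.integral_congr
      intro w hw
      rw [uIcc_of_le zero_le_one] at hw
      show FLS_ex (FLS_N hT (γ t x)) w = T (γ (t * w) x ⟨1, h1mem⟩)
      rw [FLS_ex_mem _ hw, FLS_N_apply, hresc x t ht w hw]
    rw [h2, intervalIntegral.smul_integral_comp_mul_left (fun u => T (γ u x ⟨1, h1mem⟩)) t,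
      mul_zero, mul_one]
  refine ⟨fun s x => γ s x ⟨1, h1mem⟩, hφs, hφ0, ?_⟩
  intro x t ht
  have hcont : ContinuousOn (fun u => T (γ u x ⟨1, h1mem⟩)) (Ioo (-(1 / L : ℝ)) (1 / L : ℝ)) := by
    apply hT.comp_continuousOn
    have h1 := hφs.continuousOn
    exact h1.comp (f := fun u : ℝ => (u, x)) (by fun_prop) (fun u hu => ⟨hu, mem_univ _⟩)
  have hsub : uIcc 0 t ⊆ Ioo (-(1 / L : ℝ)) (1 / L : ℝ) := by
    intro u hu
    exact (ordConnected_Ioo.uIcc_subset ⟨by linarith, hpos⟩ ht) hu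
  have h1 : HasDerivAt (fun t => ∫ u in (0 : ℝ)..t, T (γ u x ⟨1, h1mem⟩))
      (T (γ t x ⟨1, h1mem⟩)) t :=
    intervalIntegral.integral_hasDerivAt_right (hcont.mono hsub).intervalIntegrable
      (hcont.stronglyMeasurableAtFilter isOpen_Ioo t ht) (hcont.continuousAt (isOpen_Ioo.mem_nhds ht))
  have h2 := h1.const_add x
  refine h2.congr_of_eventuallyEq ?_
  filter_upwards [isOpen_Ioo.mem_nhds ht] with u hu
  exact hint x u hu

end Pool.TIA
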