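import Pool.Agent.Work.MP_a1f430_ti.Interface

/-! # Block FLW: the global flow (helper54) -/

set_option autoImplicit false

namespace Pool.TIA

open MeasureTheory Set Filter Topology
open scoped ContDiff ENNReal

section

variable {E : Type} [NormedAddCommGroup E] [NormedSpace ℝ E]

/-- a local flow for the times `|t| < h` -/
structure FLW_Loc (T : E → E) (h : ℝ) (ψ : ℝ → E → E) : Prop where
  pos : 0 < h
  smooth : ContDiffOn ℝ ∞ (fun p : ℝ × E => ψ p.1 p.2) (Ioo (-h) h ×ˢ univ)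
  zero : ∀ x, ψ 0 x = x
  ode : ∀ x, ∀ t ∈ Ioo (-h) h, HasDerivAt (fun s => ψ s x) (T (ψ t x)) t

variable {T : E → E} {h : ℝ} {ψ : ℝ → E → E}

theorem FLW_add (H : FLW_Loc T h ψ) {L : NNReal} (hL : LipschitzWith L T) {s t : ℝ}
    (hs : |s| < h) (ht : |t| < h) (hst : |s + t| < h) (x : E) :
    ψ (s + t) x = ψ s (ψ t x) := by
  have hpos := H.pos
  rw [abs_lt] at hs ht hst
  have key := ODE_solution_unique_of_mem_Ioo (v := fun _ => T) (s := fun _ => univ) (K := L)
    (a := max (-h) (-h - t)) (b := min h (h - t)) (t₀ := 0)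
    (f := fun s => ψ (s + t) x) (g := fun s => ψ s (ψ t x))
    (fun _ _ => hL.lipschitzOnWith) ⟨max_lt (by linarith) (by linarith),
      lt_min (by linarith) (by linarith)⟩ ?_ ?_ ?_
  · exact key ⟨max_lt hs.1 (by linarith [hst.1]), lt_min hs.2 (by linarith [hst.2])⟩
  · intro r hr
    refine ⟨?_, mem_univ _⟩
    have h1 := (max_lt_iff.1 hr.1).2
    have h2 := (lt_min_iff.1 hr.2).2
    exact (H.ode x (r + t) ⟨by linarith, by linarith⟩).comp_add_const r t
  · intro r hr
    refine ⟨?_, mem_univ _⟩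
    exact H.ode _ r ⟨(max_lt_iff.1 hr.1).1, (lt_min_iff.1 hr.2).1⟩
  · show ψ (0 + t) x = ψ 0 (ψ t x)
    rw [zero_add, H.zero]

theorem FLW_iter (H : FLW_Loc T h ψ) {L : NNReal} (hL : LipschitzWith L T) :
    ∀ (n : ℕ) (t : ℝ), |(n : ℝ) * t| < h → ∀ x, (ψ t)^[n] x = ψ ((n : ℝ) * t) x
  | 0, t, _, x => by
    rw [Function.iterate_zero, id, Nat.cast_zero, zero_mul, H.zero]
  | n + 1, t, ht, x => by
    have hn : (0 : ℝ) ≤ n := Nat.cast_nonneg n
    have e1 : |((n + 1 : ℕ) : ℝ) * t| = (n : ℝ) * |t| + |t| := by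
      rw [abs_mul, abs_of_nonneg (by positivity)]
      push_cast
      ring
    rw [e1] at ht
    have h0 := abs_nonneg t
    have h1 : |(n : ℝ) * t| < h := by
      rw [abs_mul, abs_of_nonneg hn]
      linarith
    have h2 : |t| < h := by
      have : 0 ≤ (n : ℝ) * |t| := by positivity
      linarith
    have h3 : |t + (n : ℝ) * t| < h := by
      have e2 : t + (n : ℝ) * t = ((n + 1 : ℕ) : ℝ) * t := by
        push_cast
        ring
      rw [e2, e1]
      exact ht
    rw [Function.iterate_succ_apply', FLW_iter H hL n t h1 x, ← FLW_add H hL h2 h1 h3]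
    congr 1
    push_cast
    ring

theorem FLW_indep (H : FLW_Loc T h ψ) {L : NNReal} (hL : LipschitzWith L T) {M N : ℕ}
    (hM : 0 < M) (hN : 0 < N) {t : ℝ} (h1 : |t| < M * h) (h2 : |t| < N * h) :
    (ψ (t / M))^[M] = (ψ (t / N))^[N] := by
  have hM' : (0 : ℝ) < M := Nat.cast_pos.2 hM
  have hN' : (0 : ℝ) < N := Nat.cast_pos.2 hN
  have e1 : ψ (t / M) = (ψ (t / (M * N)))^[N] := by
    funext x
    have e : (N : ℝ) * (t / (M * N)) = t / M := by field_simp
    rw [FLW_iter H hL N _ (by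
      rw [e, abs_div, abs_of_pos hM', div_lt_iff₀ hM', mul_comm]
      exact h1), e]
  have e2 : ψ (t / N) = (ψ (t / (M * N)))^[M] := by
    funext x
    have e : (M : ℝ) * (t / (M * N)) = t / N := by field_simp
    rw [FLW_iter H hL M _ (by
      rw [e, abs_div, abs_of_pos hN', div_lt_iff₀ hN', mul_comm]
      exact h2), e]
  rw [e1, e2, ← Function.iterate_mul, ← Function.iterate_mul, mul_comm N M]

/-- the number of steps -/
noncomputable def FLW_N (h t : ℝ) : ℕ := ⌊|t| / h⌋₊ + 1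

theorem FLW_N_lt (hh : 0 < h) (t : ℝ) : |t| < FLW_N h t * h := by
  have h1 := Nat.lt_floor_add_one (|t| / h)
  rw [div_lt_iff₀ hh] at h1
  unfold FLW_N
  push_cast
  exact h1

/-- the global flow -/
noncomputable def FLW_fl (h : ℝ) (ψ : ℝ → E → E) (t : ℝ) : E → E :=
  (ψ (t / FLW_N h t))^[FLW_N h t]

theorem FLW_fl_eq (H : FLW_Loc T h ψ) {L : NNReal} (hL : LipschitzWith L T) {N : ℕ}
    (hN : 0 < N) {t : ℝ} (h2 : |t| < N * h) : FLW_fl h ψ t = (ψ (t / N))^[N] :=
  FLW_indep H hL (Nat.succ_pos _) hN (FLW_N_lt H.pos t) h2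

theorem FLW_smooth (H : FLW_Loc T h ψ) {L : NNReal} (hL : LipschitzWith L T) :
    ContDiff ℝ ∞ (fun p : ℝ × E => FLW_fl h ψ p.1 p.2) := by
  rw [contDiff_iff_contDiffAt]
  rintro ⟨t₀, x₀⟩
  obtain ⟨N, hN⟩ : ∃ N, N = FLW_N h t₀ := ⟨_, rfl⟩
  have hN0 : 0 < N := by rw [hN]; exact Nat.succ_pos _
  have hN' : (0 : ℝ) < N := Nat.cast_pos.2 hN0
  have hlt : |t₀| < N * h := by rw [hN]; exact FLW_N_lt H.pos t₀
  have hopen : IsOpen {p : ℝ × E | |p.1| < N * h} :=
    isOpen_lt (continuous_abs.comp continuous_fst) continuous_const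
  have hmem : ((t₀, x₀) : ℝ × E) ∈ {p : ℝ × E | |p.1| < N * h} := hlt
  have hmaps : ∀ n : ℕ, ContDiffOn ℝ ∞ (fun p : ℝ × E => (ψ (p.1 / N))^[n] p.2)
      {p : ℝ × E | |p.1| < N * h} := by
    intro n
    induction n with
    | zero => exact contDiff_snd.contDiffOn
    | succ n ih =>
      have e : (fun p : ℝ × E => (ψ (p.1 / N))^[n + 1] p.2) =
          (fun q : ℝ × E => ψ q.1 q.2) ∘
            (fun p : ℝ × E => (p.1 / N, (ψ (p.1 / N))^[n] p.2)) := by
        funext p
        exact Function.iterate_succ_apply' _ _ _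
      rw [e]
      refine H.smooth.comp (ContDiffOn.prodMk ?_ ih) ?_
      · exact (contDiff_fst.div_const _).contDiffOn
      · intro p hp
        have hp' : |p.1| < N * h := hp
        refine ⟨?_, mem_univ _⟩
        apply abs_lt.1
        show |p.1 / (N : ℝ)| < h
        rw [abs_div, abs_of_pos hN', div_lt_iff₀ hN', mul_comm]
        exact hp'
  have h1 := (hmaps N).contDiffAt (hopen.mem_nhds hmem)
  refine h1.congr_of_eventuallyEq ?_
  filter_upwards [hopen.mem_nhds hmem] with p hp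
  rw [FLW_fl_eq H hL hN0 hp]

theorem FLW_zero (H : FLW_Loc T h ψ) {L : NNReal} (hL : LipschitzWith L T) (x : E) :
    FLW_fl h ψ 0 x = x := by
  rw [FLW_fl_eq H hL one_pos (by
    rw [abs_zero, Nat.cast_one, one_mul]
    exact H.pos)]
  rw [zero_div, Function.iterate_one, H.zero]

theorem FLW_ode (H : FLW_Loc T h ψ) {L : NNReal} (hL : LipschitzWith L T) (x : E) (t : ℝ) :
    HasDerivAt (fun s => FLW_fl h ψ s x) (T (FLW_fl h ψ t x)) t := by
  have hpos := H.pos
  have key : ∀ s : ℝ, |s - t| < h → FLW_fl h ψ s x = ψ (s - t) (FLW_fl h ψ t x) := by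
    intro s hs
    obtain ⟨N, hN1, hN2⟩ : ∃ N : ℕ, 0 < N ∧ |t| + h < N * h := by
      obtain ⟨N, hN⟩ := exists_nat_gt ((|t| + h) / h)
      refine ⟨N, ?_, ?_⟩
      · have : (0 : ℝ) < (|t| + h) / h := by positivity
        exact_mod_cast this.trans hN
      · rwa [div_lt_iff₀ hpos] at hN
    have hN' : (0 : ℝ) < N := Nat.cast_pos.2 hN1
    have hNh : h ≤ N * h := by
      have := abs_nonneg t
      linarith
    have ht' : |t| < N * h := by linarith
    have hs' : |s| < N * h := by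
      have e : s = (s - t) + t := by ring
      have := abs_add_le (s - t) t
      rw [← e] at this
      linarith
    have hst' : |s - t| < N * h := lt_of_lt_of_le hs hNh
    have hdiv : ∀ r : ℝ, |r| < N * h → |r / N| < h := by
      intro r hr
      rw [abs_div, abs_of_pos hN', div_lt_iff₀ hN', mul_comm]
      exact hr
    have esum : (s - t) / N + t / N = s / N := by ring
    have e1 : ψ (s / N) = ψ ((s - t) / N) ∘ ψ (t / N) := by
      funext y
      have h1 := FLW_add H hL (hdiv _ hst') (hdiv _ ht') (by rw [esum]; exact hdiv _ hs') y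
      rw [esum] at h1
      exact h1
    have e2 : ψ (s / N) = ψ (t / N) ∘ ψ ((s - t) / N) := by
      funext y
      have h1 := FLW_add H hL (hdiv _ ht') (hdiv _ hst')
        (by rw [add_comm, esum]; exact hdiv _ hs') y
      rw [add_comm (t / (N : ℝ)), esum] at h1
      exact h1
    have hcomm : Function.Commute (ψ ((s - t) / N)) (ψ (t / N)) := by
      intro y
      exact (congrFun e1 y).symm.trans (congrFun e2 y)
    rw [FLW_fl_eq H hL hN1 hs', e1, hcomm.comp_iterate, Function.comp_apply,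
      ← FLW_fl_eq H hL hN1 ht']
    have e3 : (N : ℝ) * ((s - t) / N) = s - t := by field_simp
    rw [FLW_iter H hL N _ (by rw [e3]; exact hs), e3]
  have h1 : HasDerivAt (fun s => ψ s (FLW_fl h ψ t x)) (T (ψ 0 (FLW_fl h ψ t x))) (t - t) := by
    rw [sub_self]
    exact H.ode _ 0 ⟨by linarith, hpos⟩
  rw [H.zero] at h1
  have h2 := h1.comp_sub_const t t
  refine h2.congr_of_eventuallyEq ?_
  have h3 : ∀ᶠ s in 𝓝 t, |s - t| < h := by
    have h4 : Metric.ball t h ∈ 𝓝 t := Metric.ball_mem_nhds t hpos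
    filter_upwards [h4] with s hs
    rwa [Metric.mem_ball, Real.dist_eq] at hs
  filter_upwards [h3] with s hs
  exact key s hs

end

theorem p_FLW (hFLS : Stmt_FLS) : Stmt_FLW := by
  intro E _ _ _ T L hT hL
  have hL' : LipschitzWith (L + 1) T := hL.weaken (by simp)
  obtain ⟨ψ, h1, h2, h3⟩ := hFLS E T (L + 1) (by positivity) hT hL'
  have H : FLW_Loc T (1 / ((L + 1 : NNReal) : ℝ)) ψ :=
    ⟨by positivity, h1, h2, h3⟩
  exact ⟨FLW_fl _ ψ, FLW_smooth H hL', FLW_zero H hL', fun x t => FLW_ode H hL' x t⟩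

end Pool.TIA
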