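import Pool.Agent.Work.MP_a1f430_ti.Interface3

/-! # Block FRE: extension of an orthonormal family to a positively oriented orthonormal frame -/

set_option autoImplicit false

namespace Pool.TIA

open MeasureTheory Set Filter Topology
open scoped ContDiff ENNReal

/-- Gram-Schmidt for a scalar product `h` on a finite-dimensional vector space, with prescribed
vectors at the indices in `s`. -/
theorem FRE_ext (V : Type) [AddCommGroup V] [Module ℝ V] [FiniteDimensional ℝ V] (ι : Type)
    [Fintype ι] [DecidableEq ι] (hc : Module.finrank ℝ V = Fintype.card ι)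
    (h : V →ₗ[ℝ] V →ₗ[ℝ] ℝ) (hs : ∀ v w, h v w = h w v) (hp : ∀ v, v ≠ 0 → 0 < h v v)
    (s : Set ι) (u : ι → V) (hu' : ∀ i ∈ s, ∀ j ∈ s, h (u i) (u j) = if i = j then 1 else 0) :
    ∃ e : ι → V, LinearIndependent ℝ e ∧ (∀ i j, h (e i) (e j) = if i = j then 1 else 0) ∧
      ∀ i ∈ s, e i = u i := by
  let core : InnerProductSpace.Core ℝ V :=
    { inner := fun x y => h x y
      conj_inner_symm := fun x y => by simpa using hs y x
      re_inner_nonneg := fun x => by
        by_cases hx : x = 0
        · subst hx; simp
        · simpa using (hp x hx).le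
      add_left := fun x y z => by simp
      smul_left := fun x y r => by simp
      definite := fun x hx => by
        by_contra hne
        exact (hp x hne).ne' hx }
  letI : NormedAddCommGroup V := core.toNormedAddCommGroup
  letI : InnerProductSpace ℝ V := InnerProductSpace.ofCore core.toCore
  have hin : ∀ x y : V, inner ℝ x y = h x y := fun x y => rfl
  have hu : Orthonormal ℝ (s.domRestrict u) := by
    classical
    rw [orthonormal_iff_ite]
    rintro ⟨i, hi⟩ ⟨j, hj⟩
    change h (u i) (u j) = _
    simp only [Subtype.mk.injEq]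
    exact hu' i hi j hj
  obtain ⟨b, hb⟩ := hu.exists_orthonormalBasis_extension_of_card_eq hc
  refine ⟨b, b.orthonormal.linearIndependent, fun i j => ?_, fun i hi => hb i hi⟩
  rw [← hin]
  exact orthonormal_iff_ite.1 b.orthonormal i j

theorem p_FRE : Stmt_FRE := by
  intro k h hs hp f v w hf hfv hv hw hvw
  classical
  let h' : Eu (k + 1 + 4) →ₗ[ℝ] Eu (k + 1 + 4) →ₗ[ℝ] ℝ :=
    LinearMap.mk₂ ℝ (fun x y => h x y) (by intros; simp) (by intros; simp) (by intros; simp)
      (by intros; simp)
  have hh' : ∀ x y, h' x y = h x y := fun x y => rfl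
  have hcard : Module.finrank ℝ (Eu (k + 1 + 4)) = Fintype.card (FI (k + 1)) := by
    simp
  let u : FI (k + 1) → Eu (k + 1 + 4) := Sum.elim
    (Sum.elim (Fin.snoc (α := fun _ => Eu (k + 1 + 4)) f 0) (fun _ => 0)) ![v, w]
  let s : Set (FI (k + 1)) := Set.range (fun j : Fin k => Sum.inl (Sum.inl j.castSucc)) ∪
    Set.range Sum.inr
  have hu1 : ∀ j : Fin k, u (Sum.inl (Sum.inl j.castSucc)) = f j := fun j => by
    simp only [u, Sum.elim_inl, Fin.snoc_castSucc]
  have hu2 : u (Sum.inr 0) = v := rfl
  have hu3 : u (Sum.inr 1) = w := rfl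
  have hus : ∀ i ∈ s, ∀ j ∈ s, h' (u i) (u j) = if i = j then 1 else 0 := by
    rintro i (⟨a, rfl⟩ | ⟨a, rfl⟩) j (⟨b, rfl⟩ | ⟨b, rfl⟩)
    · rw [hh']
      show h (u (Sum.inl (Sum.inl a.castSucc))) (u (Sum.inl (Sum.inl b.castSucc))) = _
      rw [hu1, hu1, hf]
      simp
    · rw [hh', if_neg (by simp)]
      show h (u (Sum.inl (Sum.inl a.castSucc))) (u (Sum.inr b)) = 0
      rw [hu1]
      fin_cases b
      · exact (hfv a).1
      · exact (hfv a).2
    · rw [hh', if_neg (by simp), hs]
      show h (u (Sum.inl (Sum.inl b.castSucc))) (u (Sum.inr a)) = 0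
      rw [hu1]
      fin_cases a
      · exact (hfv b).1
      · exact (hfv b).2
    · rw [hh']
      fin_cases a <;> fin_cases b
      · show h v v = _
        simp [hv]
      · show h v w = _
        simp [hvw]
      · show h w v = _
        rw [hs]
        simp [hvw]
      · show h w w = _
        simp [hw]
  obtain ⟨e, hli, he, hes⟩ := FRE_ext (Eu (k + 1 + 4)) (FI (k + 1)) hcard h'
    (fun x y => by simpa [hh'] using hs x y) (fun x hx => by simpa [hh'] using hp x hx) s u hus
  simp only [hh'] at he
  have he0 : e (Sum.inr 0) = v := hes _ (Or.inr ⟨0, rfl⟩)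
  have he1 : e (Sum.inr 1) = w := hes _ (Or.inr ⟨1, rfl⟩)
  have he2 : ∀ j : Fin k, e (Sum.inl (Sum.inl j.castSucc)) = f j := fun j =>
    (hes _ (Or.inl ⟨j, rfl⟩)).trans (hu1 j)
  -- the determinant is nonzero
  set M : Matrix (Fin (k + 1 + 4)) (Fin (k + 1 + 4)) ℝ :=
    Matrix.of fun i j : Fin (k + 1 + 4) => e ((ix (k + 1)).symm i) j with hM
  have hdet : M.det ≠ 0 := by
    have hli2 : LinearIndependent ℝ M.row := by
      have h1 : LinearIndependent ℝ (fun i : Fin (k + 1 + 4) => e ((ix (k + 1)).symm i)) :=
        hli.comp _ (ix (k + 1)).symm.injective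
      have h2 := h1.map' (WithLp.linearEquiv 2 ℝ (Fin (k + 1 + 4) → ℝ)).toLinearMap
        (LinearEquiv.ker _)
      exact h2
    exact ((Matrix.isUnit_iff_isUnit_det _).1
      (Matrix.linearIndependent_rows_iff_isUnit.1 hli2)).ne_zero
  by_cases hpos : 0 < M.det
  · exact ⟨e, ⟨he, hpos⟩, he0, he1, he2⟩
  · have hneg : M.det < 0 := lt_of_le_of_ne (not_lt.1 hpos) hdet
    let q : FI (k + 1) := Sum.inl (Sum.inr 0)
    refine ⟨Function.update e q (-e q), ⟨fun i j => ?_, ?_⟩, ?_, ?_, ?_⟩
    · by_cases hi : i = q
      · subst hi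
        by_cases hj : j = q
        · subst hj
          simpa using he q q
        · rw [Function.update_self, Function.update_of_ne hj]
          have := he q j
          rw [if_neg (Ne.symm hj)] at this ⊢
          simp [this]
      · by_cases hj : j = q
        · subst hj
          rw [Function.update_self, Function.update_of_ne hi]
          have := he i q
          rw [if_neg hi] at this ⊢
          simp [this]
        · rw [Function.update_of_ne hi, Function.update_of_ne hj]
          exact he i j
    · have hMM : (Matrix.of fun i j : Fin (k + 1 + 4) =>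
          (Function.update e q (-e q)) ((ix (k + 1)).symm i) j) =
          M.updateRow (ix (k + 1) q) ((-1 : ℝ) • M (ix (k + 1) q)) := by
        ext i j
        by_cases hi : i = ix (k + 1) q
        · subst hi
          simp [hM, Matrix.updateRow_self]
        · have hi' : (ix (k + 1)).symm i ≠ q := fun hk => hi (by rw [← hk]; simp)
          rw [Matrix.updateRow_ne hi]
          simp [hM, Function.update_of_ne hi']
      rw [hMM, Matrix.det_updateRow_smul, Matrix.updateRow_eq_self]
      linarith
    · rw [Function.update_of_ne (by simp [q])]; exact he0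
    · rw [Function.update_of_ne (by simp [q])]; exact he1
    · intro j
      rw [Function.update_of_ne (by simp [q])]; exact he2 j

end Pool.TIA
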