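import Pool.Agent.Work.MP_a1f430_ti.Interface

/-! # Block FRM: extension of an orthonormal pair to a positively oriented orthonormal frame -/

set_option autoImplicit false

namespace Pool.TIA

open MeasureTheory Set Filter Topology
open scoped ContDiff ENNReal

/-- Gram-Schmidt for a scalar product `h` on a finite-dimensional vector space. -/
theorem FRM_ext (V : Type) [AddCommGroup V] [Module ℝ V] [FiniteDimensional ℝ V] (ι : Type)
    [Fintype ι] [DecidableEq ι] (hc : Module.finrank ℝ V = Fintype.card ι)
    (h : V →ₗ[ℝ] V →ₗ[ℝ] ℝ) (hs : ∀ v w, h v w = h w v) (hp : ∀ v, v ≠ 0 → 0 < h v v)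
    (v w : V) (hv : h v v = 1) (hw : h w w = 1) (hvw : h v w = 0) (i₀ i₁ : ι) (hi : i₀ ≠ i₁) :
    ∃ e : ι → V, LinearIndependent ℝ e ∧ (∀ i j, h (e i) (e j) = if i = j then 1 else 0) ∧
      e i₀ = v ∧ e i₁ = w := by
  let core : InnerProductSpace.Core ℝ V :=
    { inner := fun x y => h x y
      conj_inner_symm := fun x y => by simpa using hs y x
      re_inner_nonneg := fun x => by
        by_cases hx : x = 0
        · subst hx; simp
        · simpa using (hp x hx).le
      add_left := fun x y z => by simp
      smul_left := fun x y r => by simp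
      definite := fun x hx => by
        by_contra hne
        exact (hp x hne).ne' hx }
  letI : NormedAddCommGroup V := core.toNormedAddCommGroup
  letI : InnerProductSpace ℝ V := InnerProductSpace.ofCore core.toCore
  have hin : ∀ x y : V, inner ℝ x y = h x y := fun x y => rfl
  let u : ι → V := fun i => if i = i₀ then v else w
  have hu : Orthonormal ℝ (({i₀, i₁} : Set ι).domRestrict u) := by
    classical
    rw [orthonormal_iff_ite]
    rintro ⟨i, hi'⟩ ⟨j, hj'⟩
    simp only [Set.mem_insert_iff, Set.mem_singleton_iff] at hi' hj'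
    change h (u i) (u j) = _
    simp only [Subtype.mk.injEq, u]
    rcases hi' with rfl | rfl <;> rcases hj' with rfl | rfl
    · simp [hv]
    · simp [hi, hi.symm, hvw]
    · simp [hi, hi.symm, hs w v, hvw]
    · simp [hi.symm, hw]
  obtain ⟨b, hb⟩ := hu.exists_orthonormalBasis_extension_of_card_eq hc
  refine ⟨b, b.orthonormal.linearIndependent, fun i j => ?_, ?_, ?_⟩
  · rw [← hin]
    exact orthonormal_iff_ite.1 b.orthonormal i j
  · rw [hb i₀ (by simp)]; simp [u]
  · rw [hb i₁ (by simp)]; simp [u, hi.symm]

theorem p_FRM : Stmt_FRM := by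
  intro m h hs hp v w hv hw hvw
  classical
  let h' : Eu (m + 4) →ₗ[ℝ] Eu (m + 4) →ₗ[ℝ] ℝ :=
    LinearMap.mk₂ ℝ (fun x y => h x y) (by intros; simp) (by intros; simp) (by intros; simp)
      (by intros; simp)
  have hh' : ∀ x y, h' x y = h x y := fun x y => rfl
  have hcard : Module.finrank ℝ (Eu (m + 4)) = Fintype.card (FI m) := by
    simp
  have hne : (Sum.inr 0 : FI m) ≠ Sum.inr 1 := by simp
  obtain ⟨e, hli, he, he0, he1⟩ := FRM_ext (Eu (m + 4)) (FI m) hcard h'
    (fun x y => by simpa [hh'] using hs x y) (fun x hx => by simpa [hh'] using hp x hx) v w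
    (by simpa [hh'] using hv) (by simpa [hh'] using hw) (by simpa [hh'] using hvw)
    (Sum.inr 0) (Sum.inr 1) hne
  simp only [hh'] at he
  -- the determinant is nonzero
  set M : Matrix (Fin (m + 4)) (Fin (m + 4)) ℝ :=
    Matrix.of fun i j : Fin (m + 4) => e ((ix m).symm i) j with hM
  have hdet : M.det ≠ 0 := by
    have hli2 : LinearIndependent ℝ M.row := by
      have h1 : LinearIndependent ℝ (fun i : Fin (m + 4) => e ((ix m).symm i)) :=
        hli.comp _ (ix m).symm.injective
      have h2 := h1.map' (WithLp.linearEquiv 2 ℝ (Fin (m + 4) → ℝ)).toLinearMap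
        (LinearEquiv.ker _)
      exact h2
    exact ((Matrix.isUnit_iff_isUnit_det _).1
      (Matrix.linearIndependent_rows_iff_isUnit.1 hli2)).ne_zero
  by_cases hpos : 0 < M.det
  · exact ⟨e, ⟨he, hpos⟩, he0, he1⟩
  · have hneg : M.det < 0 := lt_of_le_of_ne (not_lt.1 hpos) hdet
    let k : FI m := Sum.inl (Sum.inr 0)
    refine ⟨Function.update e k (-e k), ⟨fun i j => ?_, ?_⟩, ?_, ?_⟩
    · by_cases hi : i = k
      · subst hi
        by_cases hj : j = k
        · subst hj
          simpa using he k k
        · rw [Function.update_self, Function.update_of_ne hj]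
          have := he k j
          rw [if_neg (Ne.symm hj)] at this ⊢
          simp [this]
      · by_cases hj : j = k
        · subst hj
          rw [Function.update_self, Function.update_of_ne hi]
          have := he i k
          rw [if_neg hi] at this ⊢
          simp [this]
        · rw [Function.update_of_ne hi, Function.update_of_ne hj]
          exact he i j
    · have hMM : (Matrix.of fun i j : Fin (m + 4) =>
          (Function.update e k (-e k)) ((ix m).symm i) j) =
          M.updateRow (ix m k) ((-1 : ℝ) • M (ix m k)) := by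
        ext i j
        by_cases hi : i = ix m k
        · subst hi
          simp [hM, Matrix.updateRow_self]
        · have hi' : (ix m).symm i ≠ k := fun hk => hi (by rw [← hk]; simp)
          rw [Matrix.updateRow_ne hi]
          simp [hM, Function.update_of_ne hi']
      rw [hMM, Matrix.det_updateRow_smul, Matrix.updateRow_eq_self]
      linarith
    · rw [Function.update_of_ne (by simp [k])]; exact he0
    · rw [Function.update_of_ne (by simp [k])]; exact he1

end Pool.TIA
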