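import Pool.Agent.Work.MP_a1f430_ti.Interface

/-! # Block GDF: the equation of a gauge change without inverses -/

set_option autoImplicit false

namespace Pool.TIA

open MeasureTheory Set Filter Topology
open scoped ContDiff ENNReal

theorem GDF_pt {𝔐 : Type} [Ring 𝔐] [StarRing 𝔐] {g d a a' : 𝔐} (h1 : star g * g = 1)
    (h2 : g * star g = 1) : a' = star g * d + star g * a * g ↔ d = g * a' - a * g := by
  constructor
  · intro h
    have h3 : g * a' = d + a * g := by
      rw [h, mul_add, ← mul_assoc, h2, one_mul, mul_assoc (star g) a g, ← mul_assoc g, h2, one_mul]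
    rw [h3]; abel
  · intro h
    rw [h, mul_sub, ← mul_assoc, h1, one_mul, ← mul_assoc]; abel

theorem p_GDF (_hLIE : Stmt_LIE) : Stmt_GDF := by
  intro 𝔐 _ _ _ _ _ _ 𝒢 E _ _ _ _ _ _ W A A'
  unfold GaugeEq
  constructor
  · rintro ⟨g, dg, h1, h2, h3, h4, h5⟩
    refine ⟨g, dg, h1, h2, h3, h4, ?_⟩
    filter_upwards [h4, h5] with x hx hx' v
    exact (GDF_pt (𝒢.unitary _ hx).1 (𝒢.unitary _ hx).2).1 (hx' v)
  · rintro ⟨g, dg, h1, h2, h3, h4, h5⟩
    refine ⟨g, dg, h1, h2, h3, h4, ?_⟩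
    filter_upwards [h4, h5] with x hx hx' v
    exact (GDF_pt (𝒢.unitary _ hx).1 (𝒢.unitary _ hx).2).2 (hx' v)

end Pool.TIA
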