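import Pool.Agent.Work.MP_a1f430_ti.Interface

/-! # Block GSM (typed by helper12) -/

set_option autoImplicit false

namespace Pool.TIA

open MeasureTheory Set Filter Topology
open scoped ContDiff ENNReal

theorem p_GSM (h1 : Stmt_LIE) (h2 : Stmt_WCL) (h3 : Stmt_GDF) : Stmt_GSM := by
  intro 𝔐 _ _ _ _ _ _ 𝒢 E _ _ _ _ _ _ W A A' hW hA hA' hg
  obtain ⟨hl, -, -⟩ := h1 𝔐 𝒢
  obtain ⟨g, dg, hg2, hdg2, hwd, hG, heq⟩ := (h3 𝔐 𝒢 E W A A').1 hg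
  let T : 𝔐 →L[ℝ] 𝔐 := ((starL' ℝ : 𝔐 ≃L[ℝ] 𝔐) : 𝔐 →L[ℝ] 𝔐)
  have hT : ∀ a : 𝔐, T a = star a := fun _ => rfl
  obtain ⟨k1, k2, k3⟩ := h2 E 𝔐 𝔐 T W g dg hW hg2 hdg2 hwd
  refine (h3 𝔐 𝒢 E W A' A).2 ⟨fun x => T (g x), fun x => T.comp (dg x), k1, k2, k3, ?_, ?_⟩
  · filter_upwards [hG] with x hx
    rw [hT]
    exact 𝒢.star_mem _ hx
  · filter_upwards [heq, hA, hA'] with x hx hAx hAx' v
    show T (dg x v) = T (g x) * A x v - A' x v * T (g x)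
    rw [hT, hT, hx v, star_sub, star_mul, star_mul, hl _ (hAx v), hl _ (hAx' v)]
    noncomm_ring

end Pool.TIA
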