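import Pool.Agent.Work.MP_a1f430_ti.Interface

/-! # Block GTR: transitivity of gauge equivalence (MP_a1f430, helper95) -/

set_option autoImplicit false

namespace Pool.TIA

open MeasureTheory Set Filter Topology
open scoped ContDiff ENNReal

/-- the algebra of the composition of two gauge changes -/
theorem GTR_alg {𝔐 : Type} [Ring 𝔐] [StarRing 𝔐] (g h a dg dh : 𝔐) (hg : star g * g = 1) :
    star h * dh + star h * (star g * dg + star g * a * g) * h =
      star (g * h) * (dg * h + g * dh) + star (g * h) * a * (g * h) := by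
  have h1 : star (g * h) = star h * star g := star_mul g h
  have h2 : star h * star g * (g * dh) = star h * dh := by
    calc star h * star g * (g * dh) = star h * ((star g * g) * dh) := by noncomm_ring
      _ = star h * dh := by rw [hg, one_mul]
  rw [h1, mul_add (star h * star g), h2]
  noncomm_ring

/-- block GTR -/
theorem p_GTR (h1 : Stmt_LIE) (h2 : Stmt_PRD) (_h3 : Stmt_GDF) : Stmt_GTR := by
  intro 𝔐 _ _ _ _ _ _ 𝒢 E _ _ _ _ _ _ W A A' A'' hW hA hA'
  obtain ⟨g, dg, hg2, hdg2, hwg, hgG, hgA⟩ := hA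
  obtain ⟨h, dh, hh2, hdh2, hwh, hhG, hhA⟩ := hA'
  obtain ⟨-, hn, -⟩ := h1 𝔐 𝒢
  let dk : E → E →L[ℝ] 𝔐 := fun x =>
    ((ContinuousLinearMap.mul ℝ 𝔐).flip (h x)).comp (dg x) +
      ((ContinuousLinearMap.mul ℝ 𝔐) (g x)).comp (dh x)
  have hdk : ∀ x v, dk x v = dg x v * h x + g x * dh x v := by
    intro x v
    simp [dk]
  obtain ⟨k1, k2, k3⟩ := h2 𝔐 E W g h dg dh dk hW hg2 hdg2 hwg hh2 hdh2 hwh
    (by
      filter_upwards [hgG, hhG] with x a b
      exact ⟨hn _ a, hn _ b⟩)
    (Eventually.of_forall fun x v => hdk x v)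
  refine ⟨fun x => g x * h x, dk, k1, k2, k3, ?_, ?_⟩
  · filter_upwards [hgG, hhG] with x a b
    exact 𝒢.mul_mem _ a _ b
  · filter_upwards [hgG, hgA, hhA] with x a b c
    intro v
    rw [c v, b v, hdk]
    exact GTR_alg _ _ _ _ _ (𝒢.unitary _ a).1

end Pool.TIA
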