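import Pool.Agent.Work.MP_a1f430_ti.Interface

/-! # Block INV: local invariance of the regular points along the integral curves -/

set_option autoImplicit false

namespace Pool.TIA

open MeasureTheory Set Filter Topology
open scoped ContDiff ENNReal

section

variable {E : Type} [NormedAddCommGroup E] [NormedSpace ℝ E] [MeasureSpace E]
variable {𝔐 : Type} [NormedRing 𝔐] [NormedAlgebra ℝ 𝔐] [StarRing 𝔐]

theorem INV_L2loc_mono {X : Type} [NormedAddCommGroup X] {U W : Set E} {f : E → X} (h : W ⊆ U)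
    (hf : L2loc U f) : L2loc W f := fun K hK hKW => hf K hK (hKW.trans h)

theorem INV_test_mono {U W : Set E} {φ : E → ℝ} (h : W ⊆ U) (hφ : Test W φ) : Test U φ :=
  ⟨hφ.smooth, hφ.cpt, hφ.sub.trans h⟩

theorem INV_conn_mono {𝒢 : LieG 𝔐} {U W : Set E} {A : E → E →L[ℝ] 𝔐}
    {F : E → E [⋀^Fin 2]→L[ℝ] 𝔐} (h : W ⊆ U) (hA : Conn 𝒢 U A F) : Conn 𝒢 W A F :=
  ⟨INV_L2loc_mono h hA.A2, INV_L2loc_mono h hA.F2, ae_restrict_of_ae_restrict_of_subset h hA.lie,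
    fun φ hφ => hA.curv φ (INV_test_mono h hφ)⟩

end

theorem INV_dif_symm {E' E : Type} [NormedAddCommGroup E'] [NormedSpace ℝ E']
    [NormedAddCommGroup E] [NormedSpace ℝ E] {Φ : E' → E} {Ψ : E → E'} {W' : Set E'} {W : Set E}
    (h : Dif Φ Ψ W' W) : Dif Ψ Φ W W' :=
  ⟨h.open_, h.open', h.maps', h.maps, h.right, h.left, h.smooth', h.smooth⟩

/-- The derivative of the inverse diffeomorphism. -/
theorem INV_fderiv {E' E : Type} [NormedAddCommGroup E'] [NormedSpace ℝ E']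
    [NormedAddCommGroup E] [NormedSpace ℝ E] {Φ : E' → E} {Ψ : E → E'} {W' : Set E'} {W : Set E}
    (h : Dif Φ Ψ W' W) {y : E} (hy : y ∈ W) (v : E') :
    fderiv ℝ Ψ y (fderiv ℝ Φ (Ψ y) v) = v := by
  have hp : Ψ y ∈ W' := h.maps' hy
  have hΦ : DifferentiableAt ℝ Φ (Ψ y) :=
    ((h.smooth.contDiffAt (h.open'.mem_nhds hp)).differentiableAt (by simp))
  have hΨ : DifferentiableAt ℝ Ψ (Φ (Ψ y)) := by
    rw [h.right y hy]
    exact ((h.smooth'.contDiffAt (h.open_.mem_nhds hy)).differentiableAt (by simp))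
  have h1 : fderiv ℝ (Ψ ∘ Φ) (Ψ y) = (fderiv ℝ Ψ (Φ (Ψ y))).comp (fderiv ℝ Φ (Ψ y)) :=
    fderiv_comp _ hΨ hΦ
  have h2 : Ψ ∘ Φ =ᶠ[𝓝 (Ψ y)] id := by
    filter_upwards [h.open'.mem_nhds hp] with x hx
    exact h.left x hx
  rw [h2.fderiv_eq, fderiv_id, h.right y hy] at h1
  have h3 := congrArg (fun L => L v) h1
  simpa using h3.symm

theorem p_INV (hFBX : Stmt_FBX) (hCVR : Stmt_CVR) (hPBC : Stmt_PBC) (hPBG : Stmt_PBG)
    (hPBI : Stmt_PBI) (hIVT : Stmt_IVT) : Stmt_INV := by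
  intro 𝔐 _ _ _ _ _ _ 𝒢 n U A F X x₀ hU hA hx₀ hX hX0 hK
  obtain ⟨Φ, Ψ, W, r, hr, hxW, hWU, hD, hΦ0, hΦd⟩ := hFBX n X U x₀ hU hx₀ hX hX0
  set W' : Set (Eu n × ℝ) := Metric.ball 0 r ×ˢ Ioo (-r) r with hW'
  have hfr : Module.finrank ℝ (Eu n × ℝ) = Module.finrank ℝ (Eu (n + 1)) := by
    rw [Module.finrank_prod, finrank_euclideanSpace, finrank_euclideanSpace]
    simp
  have hAW : Conn 𝒢 W A F := INV_conn_mono hWU hA
  have hA' : Conn 𝒢 W' (pb1 Φ A) (pb2 Φ F) :=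
    hPBC 𝔐 𝒢 (Eu n × ℝ) (Eu (n + 1)) Φ Ψ W' W A F hfr hD hAW
  have hK' : ∀ᵐ p ∂((volume : Measure (Eu n × ℝ)).restrict W'), ∀ v, pb2 Φ F p ![(0, 1), v] = 0 := by
    have h1 : volume ({x | ¬ ∀ w, F x ![X x, w] = 0} ∩ W) = 0 := by
      have h2 : ∀ᵐ x ∂(volume.restrict W), ∀ w, F x ![X x, w] = 0 :=
        ae_restrict_of_ae_restrict_of_subset hWU hK
      rw [ae_iff, Measure.restrict_apply₀'] at h2
      · exact h2
      · exact hD.open_.measurableSet.nullMeasurableSet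
    have h3 := (hCVR (Eu n × ℝ) (Eu (n + 1)) Φ Ψ W' W hfr hD).1 _ h1
    rw [ae_iff, Measure.restrict_apply₀' hD.open'.measurableSet.nullMeasurableSet]
    refine measure_mono_null ?_ h3
    intro p hp
    refine ⟨?_, hp.2⟩
    intro h4
    apply hp.1
    intro v
    have h5 : pb2 Φ F p ![(0, 1), v] = F (Φ p) ![fderiv ℝ Φ p (0, 1), fderiv ℝ Φ p v] := by
      unfold pb2
      rw [ContinuousAlternatingMap.compContinuousLinearMap_apply]
      congr 1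
      ext i
      fin_cases i <;> rfl
    rw [h5, hΦd p hp.2]
    exact h4 _
  -- the smaller box
  have hr2 : 0 < r / 2 := by positivity
  have hsub : Metric.closedBall (0 : Eu n) (r / 2) ×ˢ Icc (-(r / 2)) (r / 2) ⊆ W' := by
    rintro ⟨y, t⟩ ⟨hy, ht⟩
    refine ⟨Metric.closedBall_subset_ball (by linarith) hy, ?_, ?_⟩
    · have := ht.1; simp only at this ⊢; linarith
    · have := ht.2; simp only at this ⊢; linarith
  have hI := hIVT 𝔐 𝒢 (Eu n) W' (pb1 Φ A) (pb2 Φ F) (Metric.closedBall 0 (r / 2)) (-(r / 2))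
    (r / 2) hD.open' hA' (isCompact_closedBall _ _) (by linarith) hsub hK'
  have hint : Metric.ball (0 : Eu n) (r / 2) ⊆ interior (Metric.closedBall (0 : Eu n) (r / 2)) :=
    Metric.ball_subset_interior_closedBall
  set O : Set (Eu n × ℝ) := Metric.ball 0 (r / 2) ×ˢ Ioo (-(r / 2)) (r / 2) with hO
  have hOo : IsOpen O := Metric.isOpen_ball.prod isOpen_Ioo
  refine ⟨W ∩ Ψ ⁻¹' O, hD.smooth'.continuousOn.isOpen_inter_preimage hD.open_ hOo, ?_, ?_, ?_⟩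
  · refine ⟨hxW, ?_⟩
    have h00 : ((0 : Eu n), (0 : ℝ)) ∈ W' := by
      refine ⟨Metric.mem_ball_self hr, ?_, ?_⟩
      · simpa using hr
      · exact hr
    have e : Ψ x₀ = (0, 0) := by rw [← hΦ0]; exact hD.left _ h00
    show Ψ x₀ ∈ O
    rw [e]
    refine ⟨Metric.mem_ball_self hr2, ?_, ?_⟩
    · simpa using hr
    · exact hr2
  · exact fun x hx => hWU hx.1
  · intro γ a b hab hγ
    -- the first coordinate is constant
    have hder : ∀ t ∈ Icc a b, HasDerivWithinAt (fun s => Ψ (γ s)) (0, 1) (Icc a b) t := by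
      intro t ht
      have hW1 := (hγ t ht).1.1
      have hΨ : HasFDerivAt Ψ (fderiv ℝ Ψ (γ t)) (γ t) :=
        ((hD.smooth'.contDiffAt (hD.open_.mem_nhds hW1)).differentiableAt (by simp)).hasFDerivAt
      have h1 := hΨ.comp_hasDerivWithinAt t (hγ t ht).2
      have h2 : fderiv ℝ Ψ (γ t) (X (γ t)) = (0, 1) := by
        have h3 := hΦd (Ψ (γ t)) (hD.maps' hW1)
        rw [hD.right _ hW1] at h3
        rw [← h3]
        exact INV_fderiv hD hW1 _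
      rw [h2] at h1
      exact h1
    have hconst : (Ψ (γ b)).1 = (Ψ (γ a)).1 := by
      have hd : ∀ t ∈ Icc a b, HasDerivWithinAt (fun s => (Ψ (γ s)).1) 0 (Icc a b) t := by
        intro t ht
        exact (hasFDerivAt_fst (𝕜 := ℝ) (p := Ψ (γ t))).comp_hasDerivWithinAt t (hder t ht)
      refine constant_of_derivWithin_zero (a := a) (b := b)
        (fun t ht => (hd t ht).differentiableWithinAt) ?_ b ⟨hab, le_rfl⟩
      intro t ht
      have hab' : a < b := lt_of_le_of_lt ht.1 ht.2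
      exact (hd t ⟨ht.1, ht.2.le⟩).derivWithin (uniqueDiffOn_Icc hab' t ⟨ht.1, ht.2.le⟩)
    have key : ∀ s ∈ Icc a b, ∀ s' ∈ Icc a b, (Ψ (γ s')).1 = (Ψ (γ s)).1 → Reg 𝒢 A (γ s) →
        Reg 𝒢 A (γ s') := by
      intro s hs s' hs' he hreg
      have g1 := (hγ s hs).1
      have g2 := (hγ s' hs').1
      have r1 : Reg 𝒢 (pb1 Φ A) (Ψ (γ s)) := by
        refine (hPBG 𝔐 𝒢 (Eu n × ℝ) (Eu (n + 1)) Φ Ψ W' W hfr hD).2 A _ (hD.maps' g1.1) ?_
        rw [hD.right _ g1.1]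
        exact hreg
      have r2 : Reg 𝒢 (pb1 Φ A) (Ψ (γ s')) := by
        have h1 := hI (Ψ (γ s)).1 (hint g1.2.1) (Ψ (γ s)).2 g1.2.2 (Ψ (γ s')).2 g2.2.2 r1
        rw [← he] at h1
        exact h1
      have r3 : Reg 𝒢 (pb1 Ψ (pb1 Φ A)) (γ s') :=
        (hPBG 𝔐 𝒢 (Eu (n + 1)) (Eu n × ℝ) Ψ Φ W W' hfr.symm (INV_dif_symm hD)).2
          (pb1 Φ A) _ g2.1 r2
      exact (hPBI 𝔐 𝒢 (Eu n × ℝ) (Eu (n + 1)) Φ Ψ W' W hD A).2 _ g2.1 r3
    exact ⟨key a ⟨le_rfl, hab⟩ b ⟨hab, le_rfl⟩ hconst,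
      key b ⟨hab, le_rfl⟩ a ⟨le_rfl, hab⟩ hconst.symm⟩

end Pool.TIA
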