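import Pool.Agent.Work.MP_a1f430_ti.Interface

/-! # Block INVG (helper60): the flow of a field with values in the Lie algebra stays in the group -/

set_option autoImplicit false

namespace Pool.TIA

open MeasureTheory Set Filter Topology
open scoped ContDiff ENNReal

section

variable {𝔐 : Type} [NormedRing 𝔐] [NormedAlgebra ℝ 𝔐] [StarRing 𝔐] [CStarRing 𝔐]
  [StarModule ℝ 𝔐] [FiniteDimensional ℝ 𝔐]

theorem INVG_dist (hLIE : Stmt_LIE) (𝒢 : LieG 𝔐) {X : 𝔐} (hX : X ∈ 𝒢.lie) (s : ℝ) (p q : 𝔐) :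
    Metric.infDist p 𝒢.G ≤ Metric.infDist q 𝒢.G + ‖p - NormedSpace.exp (s • X) * q‖ := by
  have hne : 𝒢.G.Nonempty := ⟨1, 𝒢.one_mem⟩
  have hE : NormedSpace.exp (s • X) ∈ 𝒢.G := (𝒢.mem_lie X).1 hX s
  refine le_of_forall_pos_le_add fun ε hε => ?_
  obtain ⟨h, hh, hd⟩ := (Metric.infDist_lt_iff hne).1
    (show Metric.infDist q 𝒢.G < Metric.infDist q 𝒢.G + ε by linarith)
  have h1 : Metric.infDist p 𝒢.G ≤ dist p (NormedSpace.exp (s • X) * h) :=
    Metric.infDist_le_dist_of_mem (𝒢.mul_mem _ hE _ hh)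
  have h2 : dist p (NormedSpace.exp (s • X) * h) ≤
      dist p (NormedSpace.exp (s • X) * q) +
        dist (NormedSpace.exp (s • X) * q) (NormedSpace.exp (s • X) * h) := dist_triangle _ _ _
  have h3 : dist (NormedSpace.exp (s • X) * q) (NormedSpace.exp (s • X) * h) = dist q h := by
    rw [dist_eq_norm, dist_eq_norm, ← mul_sub]
    exact ((hLIE 𝔐 𝒢).2.2 _ hE _).1
  have h4 : dist p (NormedSpace.exp (s • X) * q) = ‖p - NormedSpace.exp (s • X) * q‖ :=
    dist_eq_norm _ _
  linarith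

theorem INVG_fwd (hLIE : Stmt_LIE) (𝒢 : LieG 𝔐) (a g : ℝ → 𝔐) (t₀ : ℝ)
    (ha : ∀ t, a t ∈ 𝒢.lie) (hg : ∀ t, HasDerivAt g (-(a t * g t)) t) (h0 : g t₀ ∈ 𝒢.G)
    (t : ℝ) (ht : t₀ ≤ t) : g t ∈ 𝒢.G := by
  have : CompleteSpace 𝔐 := FiniteDimensional.complete ℝ 𝔐
  have hne : 𝒢.G.Nonempty := ⟨1, 𝒢.one_mem⟩
  have hgc : Continuous g := continuous_iff_continuousAt.2 fun t => (hg t).continuousAt
  have key : Metric.infDist (g t) 𝒢.G ≤ 0 := by
    refine image_le_of_liminf_slope_right_le_deriv_boundary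
      (f := fun t => Metric.infDist (g t) 𝒢.G) (a := t₀) (b := t) (B := fun _ => 0)
      (B' := fun _ => 0) ?_ ?_ continuousOn_const ?_ ?_ ⟨ht, le_rfl⟩
    · exact ((Metric.continuous_infDist_pt _).comp hgc).continuousOn
    · exact (Metric.infDist_zero_of_mem h0).le
    · intro x _
      exact hasDerivWithinAt_const x _ (0 : ℝ)
    · intro x _ r hr
      refine Filter.Eventually.frequently ?_
      -- the comparison function
      set φ : ℝ → 𝔐 := fun z => g z - NormedSpace.exp ((x - z) • a x) * g x with hφ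
      have hφd : HasDerivAt φ 0 x := by
        have h1 : HasDerivAt (fun u : ℝ => NormedSpace.exp (u • a x))
            (NormedSpace.exp ((x - x) • a x) * a x) (x - x) :=
          hasDerivAt_exp_smul_const (a x) (x - x)
        have h2 : HasDerivAt (fun z : ℝ => x - z) (-1) x := by
          simpa using (hasDerivAt_id x).const_sub x
        have h3 := HasDerivAt.scomp x h1 h2
        have h4 := h3.mul_const (g x)
        have h5 := (hg x).sub h4
        refine h5.congr_deriv ?_
        rw [sub_self, zero_smul, NormedSpace.exp_zero, one_mul, neg_one_smul, neg_mul, sub_self]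
      have hφ0 : φ x = 0 := by
        rw [hφ]
        simp only [sub_self, zero_smul, NormedSpace.exp_zero, one_mul]
      have h6 : Tendsto (fun z => ‖slope φ x z‖) (𝓝[>] x) (𝓝 0) := by
        have h7 := (hasDerivAt_iff_tendsto_slope.1 hφd).norm
        rw [norm_zero] at h7
        exact h7.mono_left (nhdsWithin_mono x fun z hz => ne_of_gt hz)
      filter_upwards [h6.eventually_lt_const hr, self_mem_nhdsWithin] with z hz hxz
      have hxz' : 0 < z - x := sub_pos.2 hxz
      refine lt_of_le_of_lt ?_ hz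
      have h8 := INVG_dist hLIE 𝒢 (ha x) (x - z) (g z) (g x)
      have h9 : slope (fun t => Metric.infDist (g t) 𝒢.G) x z =
          (z - x)⁻¹ * (Metric.infDist (g z) 𝒢.G - Metric.infDist (g x) 𝒢.G) := by
        rw [slope_def_module, smul_eq_mul]
      have h10 : ‖slope φ x z‖ = (z - x)⁻¹ * ‖φ z‖ := by
        rw [slope_def_module, hφ0, sub_zero, norm_smul, Real.norm_eq_abs,
          abs_of_pos (inv_pos.2 hxz')]
      rw [h9, h10]
      refine mul_le_mul_of_nonneg_left ?_ (inv_pos.2 hxz').le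
      linarith
  have h0' : Metric.infDist (g t) 𝒢.G = 0 := le_antisymm key Metric.infDist_nonneg
  exact (𝒢.closed.mem_iff_infDist_zero hne).2 h0'

end

theorem p_INVG (hLIE : Stmt_LIE) : Stmt_INVG := by
  intro 𝔐 _ _ _ _ _ _ 𝒢 a g t₀ _ ha hg h0 t
  rcases le_total t₀ t with h | h
  · exact INVG_fwd hLIE 𝒢 a g t₀ ha hg h0 t h
  · have h1 := INVG_fwd hLIE 𝒢 (fun s => -a (-s)) (fun s => g (-s)) (-t₀)
      (fun s => 𝒢.lie.neg_mem (ha _)) (by
        intro s
        have h2 : HasDerivAt (fun s : ℝ => -s) (-1) s := hasDerivAt_neg' s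
        have h3 := HasDerivAt.scomp s (hg (-s)) h2
        refine h3.congr_deriv ?_
        rw [neg_one_smul, neg_mul]) (by rwa [neg_neg]) (-t) (by linarith)
    rwa [neg_neg] at h1

end Pool.TIA
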