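import Pool.Agent.Work.MP_a1f430_ti.Interface

/-! # Block IVT: invariance of regular points in a box -/

set_option autoImplicit false

namespace Pool.TIA

open MeasureTheory Set Filter Topology
open scoped ContDiff ENNReal

theorem p_IVT (hGSM : Stmt_GSM) (hGTR : Stmt_GTR) (hSLG : Stmt_SLG) (hEXG : Stmt_EXG)
    (hKT : Stmt_KT) (hSMC : Stmt_SMC) : Stmt_IVT := by
  intro 𝔐 _ _ _ _ _ _ 𝒢 V _ _ _ _ _ _ W A F K a b hW hConn hK hab hsub hF y hy t ht t' ht' hReg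
  obtain ⟨B, hB2, hBlie, hAB⟩ := hKT 𝔐 𝒢 V W A F K a b hW hConn hK hab hsub hF
  obtain ⟨W₀, S, hW₀, hyt, hS, hSlie, hAS⟩ := hReg
  have hQo : IsOpen (interior K ×ˢ Ioo a b) := isOpen_interior.prod isOpen_Ioo
  have hQW : interior K ×ˢ Ioo a b ⊆ W := fun p hp =>
    hsub ⟨interior_subset hp.1, Ioo_subset_Icc_self hp.2⟩
  set W₁ : Set (V × ℝ) := W₀ ∩ (interior K ×ˢ Ioo a b) with hW₁
  have hW₁o : IsOpen W₁ := hW₀.inter hQo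
  have hytm : (y, t) ∈ W₁ := ⟨hyt, hy, ht⟩
  obtain ⟨hs1, hs2, -⟩ := hSMC 𝔐 𝒢 V
  obtain ⟨-, -, hs3⟩ := hSMC 𝔐 𝒢 (V × ℝ)
  have hAS1 : GaugeEq 𝒢 W₁ A S := hs3 W₀ W₁ A S hW₀ hW₁o inter_subset_left hAS
  have hAB1 : GaugeEq 𝒢 W₁ A (pr1 B) := hs3 _ W₁ A (pr1 B) hQo hW₁o inter_subset_right hAB
  -- Lie algebra valued
  have hBl : ∀ᵐ p ∂(volume.restrict (interior K ×ˢ Ioo a b)), ∀ v, pr1 B p v ∈ 𝒢.lie := by
    have h1 : ∀ᵐ p ∂((volume.restrict (interior K)).prod (volume.restrict (Ioo a b))),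
        ∀ v, B p.1 v ∈ 𝒢.lie :=
      Measure.quasiMeasurePreserving_fst.ae hBlie
    rw [Measure.prod_restrict, ← Measure.volume_eq_prod] at h1
    filter_upwards [h1] with p hp v
    exact hp v.1
  have hBl1 : ∀ᵐ p ∂(volume.restrict W₁), ∀ v, pr1 B p v ∈ 𝒢.lie :=
    ae_restrict_of_ae_restrict_of_subset inter_subset_right hBl
  have hAl1 : ∀ᵐ p ∂(volume.restrict W₁), ∀ v, A p v ∈ 𝒢.lie :=
    ae_restrict_of_ae_restrict_of_subset (inter_subset_right.trans hQW) hConn.lie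
  have hBA1 : GaugeEq 𝒢 W₁ (pr1 B) A := hGSM 𝔐 𝒢 (V × ℝ) W₁ A (pr1 B) hW₁o hAl1 hBl1 hAB1
  have hBS : GaugeEq 𝒢 W₁ (pr1 B) S := hGTR 𝔐 𝒢 (V × ℝ) W₁ (pr1 B) A S hW₁o hBA1 hAS1
  obtain ⟨r, t₂, hr, hrW, hBS2⟩ := hSLG 𝔐 𝒢 V W₁ B S y t hW₁o hytm hBS
  have hball : Metric.ball y r ⊆ interior K := fun z hz =>
    (hrW (show (z, t₂) ∈ Metric.closedBall y r ×ˢ {t₂} from
      ⟨Metric.ball_subset_closedBall hz, rfl⟩)).2.1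
  have hballW : Metric.ball y r ×ˢ {t₂} ⊆ W₀ := fun p hp =>
    (hrW ⟨Metric.ball_subset_closedBall hp.1, hp.2⟩).1
  have hS2 : ContDiffOn ℝ ∞ (rs1 S t₂) (Metric.ball y r) := hs1 W₀ _ t₂ S hW₀ hS hballW
  have hS2lie : ∀ z ∈ Metric.ball y r, ∀ v, rs1 S t₂ z v ∈ 𝒢.lie := fun z hz v => by
    have := hSlie (z, t₂) (hballW ⟨hz, rfl⟩) (v, 0)
    simpa [rs1] using this
  have hE : GaugeEq 𝒢 (Metric.ball y r ×ˢ Ioo a b) (pr1 B) (pr1 (rs1 S t₂)) :=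
    hEXG 𝔐 𝒢 V (Metric.ball y r) (Ioo a b) B (rs1 S t₂) Metric.isOpen_ball isOpen_Ioo hBS2
  have hNo : IsOpen (Metric.ball y r ×ˢ Ioo a b) := Metric.isOpen_ball.prod isOpen_Ioo
  have hNQ : Metric.ball y r ×ˢ Ioo a b ⊆ interior K ×ˢ Ioo a b := prod_mono hball le_rfl
  refine ⟨Metric.ball y r ×ˢ Ioo a b, pr1 (rs1 S t₂), hNo, ⟨Metric.mem_ball_self hr, ht'⟩,
    hs2 _ _ _ hS2, fun p hp v => ?_, ?_⟩
  · exact hS2lie p.1 hp.1 v.1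
  · exact hGTR 𝔐 𝒢 (V × ℝ) _ A (pr1 B) (pr1 (rs1 S t₂)) hNo
      (hs3 _ _ A (pr1 B) hQo hNo hNQ hAB) hE

end Pool.TIA
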