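import Pool.Agent.Work.MP_a1f430_ti.Interface

/-! # Block KC -/

set_option autoImplicit false

namespace Pool.TIA

open MeasureTheory Set Filter Topology
open scoped ContDiff ENNReal

theorem p_KC (hLIE : Stmt_LIE) : Stmt_KC := by
  intro 𝔐 _ _ _ _ _ _ 𝒢 α α' g h a b t₀ hα hα' hlie hG hg0 hh0 hg hh ht0 t ht
  have : CompleteSpace 𝔐 := FiniteDimensional.complete ℝ 𝔐
  obtain ⟨hst, hle, hiso⟩ := hLIE 𝔐 𝒢
  have hgc : Continuous g := continuous_iff_continuousAt.mpr fun s => (hg s).continuousAt
  have hhc : Continuous h := continuous_iff_continuousAt.mpr fun s => (hh s).continuousAt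
  have hd : ∀ s, HasDerivAt (fun s => star (h s) * g s)
      (star (h s) * ((α' s - α s) * g s)) s := by
    intro s
    have h1 := (hh s).star.mul (hg s)
    have h2 : star (-(α' s * h s)) * g s + star (h s) * -(α s * g s) =
        star (h s) * ((α' s - α s) * g s) := by
      rw [star_neg, star_mul, hst _ (hlie s).2]
      noncomm_ring
    rw [h2] at h1
    exact h1
  have hc : Continuous fun s => star (h s) * ((α' s - α s) * g s) :=
    (continuous_star.comp hhc).mul ((hα'.sub hα).mul hgc)
  have hn : ∀ s, ‖star (h s) * ((α' s - α s) * g s)‖ = ‖α s - α' s‖ := by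
    intro s
    rw [(hiso _ (𝒢.star_mem _ (hG s).2) _).1, (hiso _ (hG s).1 _).2, norm_sub_rev]
  have hI : ∫ s in t₀..t, star (h s) * ((α' s - α s) * g s) =
      star (h t) * g t - star (h t₀) * g t₀ :=
    intervalIntegral.integral_eq_sub_of_hasDerivAt (fun s _ => hd s) (hc.intervalIntegrable _ _)
  have hN : ‖g t - h t‖ = ‖star (h t) * g t - star (h t₀) * g t₀‖ := by
    rw [← (hiso _ (𝒢.star_mem _ (hG t).2) (g t - h t)).1, mul_sub, (𝒢.unitary _ (hG t).2).1,
      hg0, hh0, star_one, one_mul]
  have hsub : Set.uIoc t₀ t ⊆ Icc a b := by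
    intro s hs
    have h1 := Set.uIoc_subset_uIcc hs
    exact Set.uIcc_subset_Icc ht0 ht h1
  have hcn : Continuous fun s => ‖α s - α' s‖ := (hα.sub hα').norm
  calc ‖g t - h t‖ = ‖∫ s in t₀..t, star (h s) * ((α' s - α s) * g s)‖ := by rw [hN, hI]
    _ ≤ ∫ s in Set.uIoc t₀ t, ‖star (h s) * ((α' s - α s) * g s)‖ :=
      intervalIntegral.norm_integral_le_integral_norm_uIoc
    _ = ∫ s in Set.uIoc t₀ t, ‖α s - α' s‖ := by
      refine integral_congr_ae (Eventually.of_forall fun s => ?_)
      exact hn s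
    _ ≤ ∫ s in Icc a b, ‖α s - α' s‖ := by
      refine setIntegral_mono_set ?_ (Eventually.of_forall fun s => norm_nonneg _) ?_
      · exact hcn.continuousOn.integrableOn_compact isCompact_Icc
      · exact Eventually.of_forall hsub

end Pool.TIA
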