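import Pool.Agent.Work.MP_a1f430_ti.Interface

/-! # Block LOD: linear differential equations with a smooth parameter -/

set_option autoImplicit false

namespace Pool.TIA

open MeasureTheory Set Filter Topology
open scoped ContDiff ENNReal

theorem LOD_line {E : Type} [NormedAddCommGroup E] [NormedSpace ℝ E] (p : ℝ → E) (v : E)
    (h : ∀ t, HasDerivAt p v t) (t : ℝ) : p t = p 0 + t • v := by
  have h1 : ∀ t, HasDerivAt (fun s => p s - s • v) 0 t := fun t => by
    have h2 : HasDerivAt (fun s => p s - s • v) (v - (1 : ℝ) • v) t :=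
      (h t).sub ((hasDerivAt_id t).smul_const v)
    rwa [one_smul, sub_self] at h2
  have h3 := is_const_of_deriv_eq_zero (f := fun s => p s - s • v)
    (fun t => (h1 t).differentiableAt) (fun t => (h1 t).deriv) t 0
  simp only [zero_smul, sub_zero] at h3
  rw [← h3]
  abel

theorem LOD_fst {A B : Type} [NormedAddCommGroup A] [NormedSpace ℝ A] [NormedAddCommGroup B]
    [NormedSpace ℝ B] {f : ℝ → A × B} {v : A × B} {s : ℝ} (h : HasDerivAt f v s) :
    HasDerivAt (fun s => (f s).1) v.1 s := by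
  have h1 := (ContinuousLinearMap.fst ℝ A B).hasFDerivAt.comp_hasDerivAt s h
  exact h1

theorem LOD_snd {A B : Type} [NormedAddCommGroup A] [NormedSpace ℝ A] [NormedAddCommGroup B]
    [NormedSpace ℝ B] {f : ℝ → A × B} {v : A × B} {s : ℝ} (h : HasDerivAt f v s) :
    HasDerivAt (fun s => (f s).2) v.2 s := by
  have h1 := (ContinuousLinearMap.snd ℝ A B).hasFDerivAt.comp_hasDerivAt s h
  exact h1

theorem p_LOD (hLIE : Stmt_LIE) (hINVG : Stmt_INVG) (hFLW : Stmt_FLW) : Stmt_LOD := by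
  intro 𝔐 _ _ _ _ _ _ 𝒢 V _ _ _ a t₀ ha hac hal
  let χ : ContDiffBump (0 : 𝔐) := ⟨1, 2, one_pos, one_lt_two⟩
  let S : (V × ℝ) × 𝔐 → 𝔐 := fun q => χ q.2 • (a q.1 * q.2)
  have hS : ContDiff ℝ ∞ S :=
    (χ.contDiff.comp contDiff_snd).smul ((ha.comp contDiff_fst).mul contDiff_snd)
  have hSc : HasCompactSupport S := by
    refine HasCompactSupport.intro (IsCompact.prod hac χ.hasCompactSupport) fun q hq => ?_
    rw [mem_prod, not_and_or] at hq
    rcases hq with h | h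
    · show χ q.2 • (a q.1 * q.2) = 0
      rw [image_eq_zero_of_notMem_tsupport h, zero_mul, smul_zero]
    · show χ q.2 • (a q.1 * q.2) = 0
      rw [image_eq_zero_of_notMem_tsupport h, zero_smul]
  obtain ⟨C, hC⟩ := hS.lipschitzWith_of_hasCompactSupport hSc (by simp)
  let T : (V × ℝ) × 𝔐 → (V × ℝ) × 𝔐 := fun q => (((0 : V), (1 : ℝ)), -S q)
  have hT : ContDiff ℝ ∞ T := contDiff_const.prodMk hS.neg
  have hTL : LipschitzWith (max 0 C) T := (LipschitzWith.const _).prodMk hC.neg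
  obtain ⟨φ, hφ, hφ0, hφd⟩ := hFLW ((V × ℝ) × 𝔐) T _ hT hTL
  obtain ⟨-, hG1, -⟩ := hLIE 𝔐 𝒢
  have key : ∀ (y : V), (∀ s, (φ s ((y, t₀), 1)).1 = (y, t₀ + s)) ∧
      (∀ s, (φ s ((y, t₀), 1)).2 ∈ 𝒢.G) ∧
      ∀ s, HasDerivAt (fun s => (φ s ((y, t₀), 1)).2)
        (-(a (y, t₀ + s) * (φ s ((y, t₀), 1)).2)) s := by
    intro y
    have d1 : ∀ s, HasDerivAt (fun s => (φ s ((y, t₀), 1)).1) ((0 : V), (1 : ℝ)) s := fun s =>
      LOD_fst (hφd ((y, t₀), 1) s)
    have e1 : ∀ s, (φ s ((y, t₀), 1)).1 = (y, t₀ + s) := fun s => by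
      rw [LOD_line _ _ d1 s, hφ0]
      simp
    have d2 : ∀ s, HasDerivAt (fun s => (φ s ((y, t₀), 1)).2)
        (-((χ (φ s ((y, t₀), 1)).2 • a (y, t₀ + s)) * (φ s ((y, t₀), 1)).2)) s := fun s => by
      have h1 : HasDerivAt (fun s => (φ s ((y, t₀), 1)).2) (-S (φ s ((y, t₀), 1))) s :=
        LOD_snd (hφd ((y, t₀), 1) s)
      have h2 : S (φ s ((y, t₀), 1)) =
          (χ (φ s ((y, t₀), 1)).2 • a (y, t₀ + s)) * (φ s ((y, t₀), 1)).2 := by
        show χ (φ s ((y, t₀), 1)).2 • (a (φ s ((y, t₀), 1)).1 * (φ s ((y, t₀), 1)).2) = _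
        rw [e1, smul_mul_assoc]
      rwa [h2] at h1
    have c2 : Continuous fun s => (φ s ((y, t₀), 1)).2 :=
      continuous_iff_continuousAt.2 fun s => (d2 s).continuousAt
    have hb : ∀ s, (φ s ((y, t₀), 1)).2 ∈ 𝒢.G := by
      refine hINVG 𝔐 𝒢 (fun s => χ (φ s ((y, t₀), 1)).2 • a (y, t₀ + s)) _ 0 ?_ (fun s => ?_) d2 ?_
      · exact (χ.continuous.comp c2).smul (ha.continuous.comp
          (continuous_const.prodMk (continuous_const.add continuous_id)))
      · exact 𝒢.lie.smul_mem _ (hal _)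
      · show (φ 0 ((y, t₀), 1)).2 ∈ 𝒢.G
        rw [hφ0]
        exact 𝒢.one_mem
    refine ⟨e1, hb, fun s => ?_⟩
    have h3 : χ (φ s ((y, t₀), 1)).2 = 1 := by
      refine χ.one_of_mem_closedBall ?_
      rw [mem_closedBall_zero_iff]
      exact hG1 _ (hb s)
    have h4 := d2 s
    rwa [h3, one_smul] at h4
  refine ⟨fun p => (φ (p.2 - t₀) ((p.1, t₀), 1)).2, ?_, fun y => ?_, fun y t => ?_, fun p => ?_⟩
  · have h5 : ContDiff ℝ ∞ fun p : V × ℝ => (p.2 - t₀, ((p.1, t₀), (1 : 𝔐))) :=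
      (contDiff_snd.sub contDiff_const).prodMk
        ((contDiff_fst.prodMk contDiff_const).prodMk contDiff_const)
    exact contDiff_snd.comp (hφ.comp h5)
  · show (φ (t₀ - t₀) ((y, t₀), 1)).2 = 1
    rw [sub_self, hφ0]
  · have h6 := ((key y).2.2 (t - t₀)).comp_sub_const t t₀
    have e : t₀ + (t - t₀) = t := by ring
    rw [e] at h6
    exact h6
  · exact (key p.1).2.1 _

end Pool.TIA
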