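import Pool.Agent.Work.MP_a1f430_ti.Interface

/-! # Block MFL: composition of flows (helper68) -/

set_option autoImplicit false

namespace Pool.TIA

open MeasureTheory Set Filter Topology
open scoped ContDiff ENNReal

/-- composition of global flows -/
theorem MFL_flows {E : Type} [NormedAddCommGroup E] [NormedSpace ℝ E] :
    ∀ (m : ℕ) (T : Fin m → E → E) (φ : Fin m → ℝ → E → E),
    (∀ j, ContDiff ℝ ∞ (fun p : ℝ × E => φ j p.1 p.2)) → (∀ j x, φ j 0 x = x) →
    (∀ j x t, HasDerivAt (fun s => φ j s x) (T j (φ j t x)) t) →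
    ∃ Ψ : (Fin m → ℝ) → E → E, ContDiff ℝ ∞ (fun p : (Fin m → ℝ) × E => Ψ p.1 p.2) ∧
      (∀ x, Ψ 0 x = x) ∧ (∀ j t x, Ψ (Pi.single j t) x = φ j t x) ∧
      ∀ (B : Set E) (x₀ : E), IsOpen B → x₀ ∈ B → ∀ᶠ s in 𝓝 (0 : Fin m → ℝ), ∀ P : E → Prop,
        (∀ (j : Fin m) (γ : ℝ → E) (a b : ℝ), a ≤ b → Cur B (T j) γ a b →
          (P (γ a) ↔ P (γ b))) → (P x₀ ↔ P (Ψ s x₀))
  | 0, _, _, _, _, _ => ⟨fun _ x => x, contDiff_snd, fun _ => rfl, fun j => j.elim0,
      fun _ _ _ _ => Eventually.of_forall fun _ _ _ => Iff.rfl⟩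
  | m + 1, T, φ, h1, h2, h3 => by
    obtain ⟨Ψ, g1, g2, g3, g4⟩ := MFL_flows m (fun j => T j.succ) (fun j => φ j.succ)
      (fun j => h1 _) (fun j => h2 _) (fun j => h3 _)
    have htail : ContDiff ℝ ∞ (fun p : (Fin (m + 1) → ℝ) × E =>
        (fun i : Fin m => p.1 i.succ)) := by
      refine contDiff_pi.2 fun i => ?_
      exact (contDiff_apply ℝ ℝ (i.succ : Fin (m + 1))).comp contDiff_fst
    have hhead : ContDiff ℝ ∞ (fun p : (Fin (m + 1) → ℝ) × E => p.1 0) :=
      (contDiff_apply ℝ ℝ (0 : Fin (m + 1))).comp contDiff_fst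
    refine ⟨fun s x => φ 0 (s 0) (Ψ (fun i => s i.succ) x), ?_, ?_, ?_, ?_⟩
    · exact (h1 0).comp (hhead.prodMk (g1.comp (htail.prodMk contDiff_snd)))
    · intro x
      show φ 0 0 (Ψ 0 x) = x
      rw [h2, g2]
    · intro j t x
      refine Fin.cases ?_ (fun i => ?_) j
      · have e : (fun i : Fin m => (Pi.single (0 : Fin (m + 1)) t : Fin (m + 1) → ℝ) i.succ) =
            0 := by
          funext i
          simp [Pi.single_apply, Fin.succ_ne_zero]
        show φ 0 ((Pi.single (0 : Fin (m + 1)) t : Fin (m + 1) → ℝ) 0)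
          (Ψ (fun i : Fin m => (Pi.single (0 : Fin (m + 1)) t : Fin (m + 1) → ℝ) i.succ) x) =
            φ 0 t x
        rw [e, Pi.single_eq_same, g2]
      · have e : (fun l : Fin m => (Pi.single i.succ t : Fin (m + 1) → ℝ) l.succ) =
            Pi.single i t := by
          funext l
          simp [Pi.single_apply]
        have e0 : (Pi.single i.succ t : Fin (m + 1) → ℝ) 0 = 0 := by
          simp [Pi.single_apply, (Fin.succ_ne_zero i).symm]
        show φ 0 ((Pi.single i.succ t : Fin (m + 1) → ℝ) 0)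
          (Ψ (fun l : Fin m => (Pi.single i.succ t : Fin (m + 1) → ℝ) l.succ) x) =
            φ i.succ t x
        rw [e, e0, h2, g3]
    · intro B x₀ hB hx₀
      have hc : Continuous (fun p : ℝ × (Fin m → ℝ) => φ 0 p.1 (Ψ p.2 x₀)) :=
        (h1 0).continuous.comp (continuous_fst.prodMk
          (g1.continuous.comp (continuous_snd.prodMk continuous_const)))
      have hev : ∀ᶠ p in 𝓝 ((0 : ℝ), (0 : Fin m → ℝ)), φ 0 p.1 (Ψ p.2 x₀) ∈ B := by
        refine hc.continuousAt.eventually_mem (hB.mem_nhds ?_)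
        show φ 0 0 (Ψ 0 x₀) ∈ B
        rwa [h2, g2]
      obtain ⟨ε, hε, hball⟩ := Metric.eventually_nhds_iff.1 hev
      have ht0 : Tendsto (fun s : Fin (m + 1) → ℝ => s 0) (𝓝 0) (𝓝 0) :=
        (continuous_apply (0 : Fin (m + 1))).tendsto (0 : Fin (m + 1) → ℝ)
      have ht1 : Tendsto (fun (s : Fin (m + 1) → ℝ) (i : Fin m) => s i.succ) (𝓝 0) (𝓝 0) := by
        have : Continuous (fun (s : Fin (m + 1) → ℝ) (i : Fin m) => s i.succ) :=
          continuous_pi fun i => continuous_apply _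
        exact this.tendsto (0 : Fin (m + 1) → ℝ)
      have a1 : ∀ᶠ s in 𝓝 (0 : Fin (m + 1) → ℝ), dist (s 0) 0 < ε :=
        ht0.eventually (Metric.ball_mem_nhds _ hε)
      have a2 : ∀ᶠ s in 𝓝 (0 : Fin (m + 1) → ℝ), dist (fun i : Fin m => s i.succ) 0 < ε :=
        ht1.eventually (Metric.ball_mem_nhds _ hε)
      filter_upwards [a1, a2, ht1.eventually (g4 B x₀ hB hx₀)] with s b1 b2 b3 P hP
      have c1 := b3 P (fun j γ a b hab hc => hP j.succ γ a b hab hc)
      refine c1.trans ?_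
      obtain ⟨y, hy⟩ : ∃ y, y = Ψ (fun i => s i.succ) x₀ := ⟨_, rfl⟩
      show P (Ψ (fun i => s i.succ) x₀) ↔ P (φ 0 (s 0) (Ψ (fun i => s i.succ) x₀))
      rw [← hy]
      have hin : ∀ t : ℝ, |t| ≤ |s 0| → φ 0 t y ∈ B := by
        intro t ht
        have h4 : dist (t, fun i : Fin m => s i.succ) ((0 : ℝ), (0 : Fin m → ℝ)) < ε := by
          rw [Prod.dist_eq]
          refine max_lt ?_ b2
          rw [Real.dist_eq, sub_zero] at b1 ⊢
          exact ht.trans_lt b1
        have h5 := hball h4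
        rw [hy]
        exact h5
      have hcur : ∀ a b : ℝ, (∀ t ∈ Icc a b, |t| ≤ |s 0|) →
          Cur B (T 0) (fun t => φ 0 t y) a b := fun a b hab t ht =>
        ⟨hin t (hab t ht), (h3 0 y t).hasDerivWithinAt⟩
      rcases le_total 0 (s 0) with hs | hs
      · have h6 := hP 0 (fun t => φ 0 t y) 0 (s 0) hs (hcur _ _ fun t ht => by
          rw [abs_of_nonneg ht.1, abs_of_nonneg hs]
          exact ht.2)
        have h7 : P (φ 0 0 y) ↔ P (φ 0 (s 0) y) := h6
        rwa [h2] at h7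
      · have h6 := hP 0 (fun t => φ 0 t y) (s 0) 0 hs (hcur _ _ fun t ht => by
          rw [abs_of_nonpos ht.2, abs_of_nonpos hs]
          linarith [ht.1])
        have h7 : P (φ 0 (s 0) y) ↔ P (φ 0 0 y) := h6
        rw [h2] at h7
        exact h7.symm

theorem p_MFL (hF : Stmt_FLW) (hC : Stmt_CUT) : Stmt_MFL := by
  intro E _ _ _ m X U x₀ hU hx₀ hX
  choose T L r hr hball hT hcs hL hTX using fun j => hC E E (X j) U x₀ hU hx₀ (hX j)
  choose φ h1 h2 h3 using fun j => hF E (T j) (L j) (hT j) (hL j)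
  obtain ⟨Ψ, g1, g2, g3, g4⟩ := MFL_flows m T φ h1 h2 h3
  have hcd : ContDiff ℝ ∞ (fun s => Ψ s x₀) := g1.comp (contDiff_id.prodMk contDiff_const)
  refine ⟨fun s => Ψ s x₀, hcd, g2 x₀, fun j => ?_, ?_⟩
  · have hz : (Pi.single j (0 : ℝ) : Fin m → ℝ) = 0 := Pi.single_zero j
    have hd : HasFDerivAt (fun s => Ψ s x₀) (fderiv ℝ (fun s => Ψ s x₀) 0)
        ((fun t : ℝ => (Pi.single j t : Fin m → ℝ)) 0) := by
      show HasFDerivAt _ _ (Pi.single j (0 : ℝ) : Fin m → ℝ)
      rw [hz]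
      exact (hcd.differentiable (by simp)).differentiableAt.hasFDerivAt
    have hl : HasDerivAt (fun t : ℝ => (Pi.single j t : Fin m → ℝ)) (Pi.single j 1) 0 := by
      refine hasDerivAt_pi.2 fun i => ?_
      by_cases hi : i = j
      · subst hi
        simp only [Pi.single_eq_same]
        exact hasDerivAt_id (0 : ℝ)
      · simp only [Pi.single_eq_of_ne hi]
        exact hasDerivAt_const _ _
    have hcomp := hd.comp_hasDerivAt (0 : ℝ) hl
    have h4 : HasDerivAt (fun t => φ j t x₀) (X j x₀) 0 := by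
      have h5 := h3 j x₀ 0
      rw [h2, hTX j x₀ (Metric.mem_ball_self (hr j))] at h5
      exact h5
    have h6 : ((fun s => Ψ s x₀) ∘ fun t : ℝ => (Pi.single j t : Fin m → ℝ)) =
        fun t => φ j t x₀ := funext fun t => g3 j t x₀
    rw [h6] at hcomp
    exact hcomp.unique h4
  · have hB : IsOpen (⋂ j, Metric.ball x₀ (r j)) :=
      isOpen_iInter_of_finite fun j => Metric.isOpen_ball
    filter_upwards [g4 _ x₀ hB (mem_iInter.2 fun j => Metric.mem_ball_self (hr j))] with s hs P hP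
    refine hs P fun j γ a b hab hc => hP j γ a b hab fun t ht => ?_
    obtain ⟨c1, c2⟩ := hc t ht
    have c3 : γ t ∈ Metric.ball x₀ (r j) := mem_iInter.1 c1 j
    refine ⟨hball j c3, ?_⟩
    rwa [hTX j _ c3] at c2

end Pool.TIA
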