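import Pool.Agent.Work.MP_a1f430_ti.B_MOA

/-! # Block MOT (MP_a1f430, THEOREM TR) -/

set_option autoImplicit false

namespace Pool.TIA

open MeasureTheory Set Filter Topology
open scoped ContDiff ENNReal

section MOT

variable {E X : Type} [NormedAddCommGroup E] [NormedSpace ℝ E] [FiniteDimensional ℝ E]
    [MeasureSpace E] [BorelSpace E] [(volume : Measure E).IsAddHaarMeasure]
    [NormedAddCommGroup X] [NormedSpace ℝ X] [FiniteDimensional ℝ X]

omit [FiniteDimensional ℝ X] [NormedSpace ℝ X] in
/-- Translations are continuous in `L^p`. -/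
theorem mot_trans (p : ℝ≥0∞) (hp1 : 1 ≤ p) (hp : p ≠ ⊤) (G : E → X)
    (hG : MemLp G p volume) :
    Tendsto (fun z : E => eLpNorm (fun x => G (x - z) - G x) p volume) (𝓝 0) (𝓝 0) := by
  have : Fact (1 ≤ p) := ⟨hp1⟩
  let f : Lp X p (volume : Measure E) := hG.toLp G
  let g0 : C(E × E, E) := ⟨fun q => q.2 - q.1, by fun_prop⟩
  let T : C(E, C(E, E)) := g0.curry
  have hgm : ∀ z, MeasurePreserving (T z) (volume : Measure E) volume := by
    intro z
    exact measurePreserving_sub_right volume z
  have hc : Continuous (fun z => Lp.compMeasurePreserving (T z) (hgm z) f) :=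
    continuous_const.compMeasurePreservingLp T.continuous hgm hp
  have h1 : Tendsto (fun z => edist (Lp.compMeasurePreserving (T z) (hgm z) f)
      (Lp.compMeasurePreserving (T 0) (hgm 0) f)) (𝓝 0) (𝓝 0) :=
    tendsto_iff_edist_tendsto_0.mp (hc.tendsto 0)
  refine h1.congr ?_
  intro z
  rw [Lp.edist_def]
  apply eLpNorm_congr_ae
  have hf : f =ᵐ[volume] G := hG.coeFn_toLp
  have a1 := Lp.coeFn_compMeasurePreserving f (hgm z)
  have a2 := Lp.coeFn_compMeasurePreserving f (hgm 0)
  have a3 : (f ∘ T z) =ᵐ[volume] (G ∘ T z) := (hgm z).quasiMeasurePreserving.ae_eq_comp hf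
  have a4 : (f ∘ T 0) =ᵐ[volume] (G ∘ T 0) := (hgm 0).quasiMeasurePreserving.ae_eq_comp hf
  filter_upwards [a1, a2, a3, a4] with x h1 h2 h3 h4
  simp only [Pi.sub_apply]
  rw [h1, h2, h3, h4]
  simp [T, g0]

/-- The kernel. -/
noncomputable abbrev ker (E : Type) [NormedAddCommGroup E] [NormedSpace ℝ E]
    [FiniteDimensional ℝ E] [MeasureSpace E] (j : ℕ) : E → ℝ :=
  (bmp E j).normed volume

theorem ker_lint (j : ℕ) : ∫⁻ x : E, ENNReal.ofReal (ker E j x) = 1 := by
  rw [← ofReal_integral_eq_lintegral_ofReal (bmp E j).integrable_normed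
    (Eventually.of_forall (bmp E j).nonneg_normed), (bmp E j).integral_normed]
  simp

/-- Jensen for the mollification. -/
theorem mot_jensen (j : ℕ) (p : ℝ≥0∞) (hp1 : 1 ≤ p) (hp : p ≠ ⊤) (g : E → X)
    (hg : StronglyMeasurable g) (hl : LocallyIntegrable g) (x : E) :
    ‖mol j g x - g x‖ₑ ^ p.toReal ≤
      ∫⁻ z, ENNReal.ofReal (ker E j z) * ‖g (x - z) - g x‖ₑ ^ p.toReal := by
  have hp0 : p ≠ 0 := fun h => by simp [h] at hp1
  have hq : 0 < p.toReal := ENNReal.toReal_pos hp0 hp
  have hofm : Measurable (fun z => ENNReal.ofReal (ker E j z)) :=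
    (bmp E j).continuous_normed.measurable.ennreal_ofReal
  let ν : Measure E := volume.withDensity (fun z => ENNReal.ofReal (ker E j z))
  have hν : IsProbabilityMeasure ν := ⟨by
    rw [withDensity_apply _ MeasurableSet.univ, Measure.restrict_univ]
    exact ker_lint j⟩
  have hsm : StronglyMeasurable (fun z => g (x - z)) :=
    hg.comp_measurable (measurable_const.sub measurable_id)
  -- integrability
  have hi0 : Integrable (fun z => ker E j z • g (x - z)) volume := by
    have h := (moa_int j g hl x).comp_sub_left x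
    simpa using h
  have hi : Integrable (fun z => g (x - z)) ν := by
    rw [integrable_withDensity_iff_integrable_smul' hofm
      (Eventually.of_forall fun z => ENNReal.ofReal_lt_top)]
    refine hi0.congr (Eventually.of_forall fun z => ?_)
    simp only
    rw [ENNReal.toReal_ofReal ((bmp E j).nonneg_normed z)]
  have e1 : mol j g x = ∫ z, g (x - z) ∂ν := by
    rw [integral_withDensity_eq_integral_toReal_smul hofm
      (Eventually.of_forall fun z => ENNReal.ofReal_lt_top)]
    rw [mol, ← integral_sub_left_eq_self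
      (fun z => (ENNReal.ofReal (ker E j z)).toReal • g (x - z)) volume x]
    apply integral_congr_ae
    filter_upwards with y
    rw [ENNReal.toReal_ofReal ((bmp E j).nonneg_normed _), sub_sub_cancel]
  have e2 : mol j g x - g x = ∫ z, (g (x - z) - g x) ∂ν := by
    rw [integral_sub hi (integrable_const _), ← e1, integral_const]
    simp
  have e3 : ‖mol j g x - g x‖ₑ ≤ (∫⁻ z, ‖g (x - z) - g x‖ₑ ^ p.toReal ∂ν) ^ (1 / p.toReal) := by
    rw [e2]
    refine (enorm_integral_le_lintegral_enorm _).trans ?_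
    have h := eLpNorm_le_eLpNorm_of_exponent_le (μ := ν) (p := 1) (q := p)
      (f := fun z => g (x - z) - g x) hp1
      (hsm.sub stronglyMeasurable_const).aestronglyMeasurable
    rw [eLpNorm_one_eq_lintegral_enorm, eLpNorm_eq_lintegral_rpow_enorm_toReal hp0 hp] at h
    exact h
  have e4 := ENNReal.rpow_le_rpow e3 hq.le
  rw [← ENNReal.rpow_mul, one_div, inv_mul_cancel₀ hq.ne', ENNReal.rpow_one] at e4
  refine e4.trans (le_of_eq ?_)
  rw [lintegral_withDensity_eq_lintegral_mul₀ hofm.aemeasurable]
  · rfl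
  · exact ((hsm.sub stronglyMeasurable_const).enorm.pow_const _).aemeasurable

/-- The estimate by translations. -/
theorem mot_key (j : ℕ) (p : ℝ≥0∞) (hp1 : 1 ≤ p) (hp : p ≠ ⊤) (g : E → X)
    (hg : StronglyMeasurable g) (hl : LocallyIntegrable g) :
    ∫⁻ x, ‖mol j g x - g x‖ₑ ^ p.toReal ≤
      ∫⁻ z, ENNReal.ofReal (ker E j z) * ∫⁻ x, ‖g (x - z) - g x‖ₑ ^ p.toReal := by
  have hofm : Measurable (fun z => ENNReal.ofReal (ker E j z)) :=
    (bmp E j).continuous_normed.measurable.ennreal_ofReal
  calc ∫⁻ x, ‖mol j g x - g x‖ₑ ^ p.toReal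
      ≤ ∫⁻ x, ∫⁻ z, ENNReal.ofReal (ker E j z) * ‖g (x - z) - g x‖ₑ ^ p.toReal :=
        lintegral_mono fun x => mot_jensen j p hp1 hp g hg hl x
    _ = ∫⁻ z, ∫⁻ x, ENNReal.ofReal (ker E j z) * ‖g (x - z) - g x‖ₑ ^ p.toReal := by
        rw [lintegral_lintegral_swap]
        apply Measurable.aemeasurable
        have m1 : Measurable (fun q : E × E => ENNReal.ofReal (ker E j q.2)) :=
          hofm.comp measurable_snd
        have m2 : StronglyMeasurable (fun q : E × E => g (q.1 - q.2)) :=
          hg.comp_measurable (measurable_fst.sub measurable_snd)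
        have m3 : StronglyMeasurable (fun q : E × E => g q.1) := hg.comp_measurable measurable_fst
        exact m1.mul ((m2.sub m3).enorm.pow_const _)
    _ = ∫⁻ z, ENNReal.ofReal (ker E j z) * ∫⁻ x, ‖g (x - z) - g x‖ₑ ^ p.toReal := by
        apply lintegral_congr
        intro z
        rw [lintegral_const_mul' _ _ ENNReal.ofReal_ne_top]

end MOT

theorem p_MOT (_ : Stmt_MOA) : Stmt_MOT := by
  intro E X _ _ _ _ _ _ _ _ _ p hp12 f hf
  have hp1 : 1 ≤ p := by
    rcases hp12 with h | h <;> rw [h]
    exact ENNReal.one_lt_two.le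
  have hp : p ≠ ⊤ := by
    rcases hp12 with h | h <;> rw [h] <;> simp
  have hp0 : p ≠ 0 := fun h => by simp [h] at hp1
  have hq : 0 < p.toReal := ENNReal.toReal_pos hp0 hp
  obtain ⟨g, hg, hfg⟩ := hf.1
  have hgL : MemLp g p volume := hf.ae_eq hfg
  have hl : LocallyIntegrable g := hgL.locallyIntegrable hp1
  have hmol : ∀ j x, mol j f x = mol j g x := by
    intro j x
    apply integral_congr_ae
    filter_upwards [hfg] with y hy
    rw [hy]
  have hcong : ∀ j, eLpNorm (fun x => mol j f x - f x) p volume =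
      eLpNorm (fun x => mol j g x - g x) p volume := by
    intro j
    apply eLpNorm_congr_ae
    filter_upwards [hfg] with y hy
    rw [hy, hmol]
  simp_rw [hcong]
  have htr := mot_trans p hp1 hp g hgL
  have htr2 : Tendsto (fun z : E => ∫⁻ x, ‖g (x - z) - g x‖ₑ ^ p.toReal) (𝓝 0) (𝓝 0) := by
    have h := ((ENNReal.continuous_rpow_const (y := p.toReal)).tendsto 0).comp htr
    rw [ENNReal.zero_rpow_of_pos hq] at h
    refine h.congr ?_
    intro z
    simp only [Function.comp]
    rw [eLpNorm_eq_lintegral_rpow_enorm_toReal hp0 hp, ← ENNReal.rpow_mul, one_div,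
      inv_mul_cancel₀ hq.ne', ENNReal.rpow_one]
  have hlim : Tendsto (fun j => ∫⁻ x, ‖mol j g x - g x‖ₑ ^ p.toReal) atTop (𝓝 0) := by
    rw [ENNReal.tendsto_atTop_zero]
    intro ε hε
    have hev : ∀ᶠ z in 𝓝 (0 : E), ∫⁻ x, ‖g (x - z) - g x‖ₑ ^ p.toReal < ε :=
      htr2.eventually (gt_mem_nhds hε)
    obtain ⟨δ, hδ, hball⟩ := Metric.eventually_nhds_iff.mp hev
    obtain ⟨N, hN⟩ := exists_nat_one_div_lt hδ
    refine ⟨N, fun j hj => (mot_key j p hp1 hp g hg hl).trans ?_⟩
    calc ∫⁻ z, ENNReal.ofReal (ker E j z) * ∫⁻ x, ‖g (x - z) - g x‖ₑ ^ p.toReal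
        ≤ ∫⁻ z, ENNReal.ofReal (ker E j z) * ε := by
          apply lintegral_mono
          intro z
          simp only
          by_cases hz : ker E j z = 0
          · rw [hz]; simp
          · have h3 : z ∈ Function.support ((bmp E j).normed (volume : Measure E)) := hz
            rw [ContDiffBump.support_normed_eq, Metric.mem_ball, dist_zero_right] at h3
            have h4 : (bmp E j).rOut < δ := by
              refine lt_of_le_of_lt ?_ hN
              change 1 / ((j : ℝ) + 2) ≤ 1 / ((N : ℝ) + 1)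
              apply one_div_le_one_div_of_le (by positivity)
              have : (N : ℝ) ≤ j := Nat.cast_le.2 hj
              linarith
            have h5 := hball (y := z) (by rw [dist_zero_right]; exact h3.trans h4)
            gcongr
      _ = ε := by
          rw [lintegral_mul_const _ (bmp E j).continuous_normed.measurable.ennreal_ofReal,
            ker_lint, one_mul]
  have h := ((ENNReal.continuous_rpow_const (y := 1 / p.toReal)).tendsto 0).comp hlim
  rw [ENNReal.zero_rpow_of_pos (by positivity)] at h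
  refine h.congr ?_
  intro j
  simp only [Function.comp]
  rw [eLpNorm_eq_lintegral_rpow_enorm_toReal hp0 hp]

end Pool.TIA
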