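import Pool.Agent.Work.MP_a1f430_ti.Interface

/-! # Block NEM: the Nemytskii operator of a smooth function is smooth -/

set_option autoImplicit false

namespace Pool.TIA

open MeasureTheory Set Filter Topology
open scoped ContDiff ENNReal

section

variable {E X : Type} [NormedAddCommGroup E] [NormedSpace ℝ E] [NormedAddCommGroup X]
  [NormedSpace ℝ X]

/-- pointwise application for a fixed operator -/
noncomputable def NEM_A (A : C(II, E →L[ℝ] X)) : C(II, E) →L[ℝ] C(II, X) :=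
  LinearMap.mkContinuous (E := C(II, E)) (F := C(II, X))
    { toFun := fun h => (⟨fun t => A t (h t), A.continuous.clm_apply h.continuous⟩ : C(II, X))
      map_add' := fun h h' => by ext t; simp
      map_smul' := fun c h => by ext t; simp } ‖A‖ (fun h => by
    refine (ContinuousMap.norm_le _ (mul_nonneg (norm_nonneg A) (norm_nonneg h))).2 fun t => ?_
    show ‖A t (h t)‖ ≤ _
    refine ((A t).le_opNorm (h t)).trans ?_
    exact mul_le_mul (A.norm_coe_le_norm t) (h.norm_coe_le_norm t) (norm_nonneg _) (norm_nonneg _))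

theorem NEM_A_apply (A : C(II, E →L[ℝ] X)) (h : C(II, E)) (t : II) : NEM_A A h t = A t (h t) := rfl

theorem NEM_A_norm (A : C(II, E →L[ℝ] X)) : ‖NEM_A A‖ ≤ 1 * ‖A‖ := by
  rw [one_mul]
  exact LinearMap.mkContinuous_norm_le _ (norm_nonneg A) _

/-- pointwise application -/
noncomputable def NEM_B : C(II, E →L[ℝ] X) →L[ℝ] C(II, E) →L[ℝ] C(II, X) :=
  LinearMap.mkContinuous (E := C(II, E →L[ℝ] X)) (F := C(II, E) →L[ℝ] C(II, X))
    { toFun := fun A => NEM_A A
      map_add' := fun A A' => by ext h t; rfl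
      map_smul' := fun c A => by ext h t; rfl } 1 (fun A => NEM_A_norm A)

theorem NEM_B_apply (A : C(II, E →L[ℝ] X)) : NEM_B A = NEM_A A := rfl

/-- the Nemytskii operator -/
def NEM_N {Y Z : Type} [TopologicalSpace Y] [TopologicalSpace Z] (f : Y → Z) (hf : Continuous f)
    (γ : C(II, Y)) : C(II, Z) := (⟨f, hf⟩ : C(Y, Z)).comp γ

theorem NEM_N_apply {Y Z : Type} [TopologicalSpace Y] [TopologicalSpace Z] (f : Y → Z)
    (hf : Continuous f) (γ : C(II, Y)) (t : II) : NEM_N f hf γ t = f (γ t) := rfl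

theorem NEM_near {Y : Type} [NormedAddCommGroup Y] (f : E → Y) (hf : Continuous f) (γ : C(II, E))
    (c : ℝ) (hc : 0 < c) : ∃ δ : ℝ, 0 < δ ∧ ∀ t x, ‖x - γ t‖ < δ → ‖f x - f (γ t)‖ ≤ c := by
  have hcont : Continuous (NEM_N (Y := E) f hf) := ContinuousMap.continuous_postcomp _
  have h0 : ∀ᶠ η in 𝓝 γ, ‖NEM_N f hf η - NEM_N f hf γ‖ < c := by
    have h1 : Tendsto (fun η => NEM_N f hf η - NEM_N f hf γ) (𝓝 γ) (𝓝 0) := by
      have h2 := (hcont.tendsto γ).sub_const (NEM_N f hf γ)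
      rwa [sub_self] at h2
    have h3 : Tendsto (fun η => ‖NEM_N f hf η - NEM_N f hf γ‖) (𝓝 γ) (𝓝 0) := by
      have h4 := h1.norm
      rwa [norm_zero] at h4
    exact h3.eventually_lt_const hc
  obtain ⟨δ, hδ, h1⟩ := Metric.eventually_nhds_iff.1 h0
  refine ⟨δ, hδ, fun t x hx => ?_⟩
  have h4 : dist (γ + ContinuousMap.const II (x - γ t)) γ < δ := by
    rw [dist_eq_norm, add_sub_cancel_left]
    exact lt_of_le_of_lt ((ContinuousMap.norm_le _ (norm_nonneg (x - γ t))).2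
      fun s => le_refl _) hx
  have h5 := h1 h4
  have h6 := ((NEM_N f hf (γ + ContinuousMap.const II (x - γ t)) -
    NEM_N f hf γ).norm_coe_le_norm t).trans h5.le
  have h7 : (NEM_N f hf (γ + ContinuousMap.const II (x - γ t)) - NEM_N f hf γ) t =
      f x - f (γ t) := by
    show f (γ t + (x - γ t)) - f (γ t) = _
    rw [add_sub_cancel]
  rwa [h7] at h6

theorem NEM_deriv (f : E → X) (hf : ContDiff ℝ ∞ f) (hf' : Continuous (fderiv ℝ f))
    (γ : C(II, E)) :
    HasFDerivAt (NEM_N f hf.continuous) (NEM_A (NEM_N (fderiv ℝ f) hf' γ)) γ := by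
  refine HasFDerivAt.of_isLittleO (Asymptotics.isLittleO_iff.2 fun c hc => ?_)
  obtain ⟨δ, hδ, h1⟩ := NEM_near (fderiv ℝ f) hf' γ c hc
  filter_upwards [Metric.ball_mem_nhds γ hδ] with η hη
  have hη' : ‖η - γ‖ < δ := by rwa [← dist_eq_norm]
  refine (ContinuousMap.norm_le _ (mul_nonneg hc.le (norm_nonneg (η - γ)))).2 fun t => ?_
  have h2 : ‖(η - γ) t‖ ≤ ‖η - γ‖ := (η - γ).norm_coe_le_norm t
  have h3 : ‖f (η t) - f (γ t) - fderiv ℝ f (γ t) (η t - γ t)‖ ≤ c * ‖η t - γ t‖ := by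
    refine Convex.norm_image_sub_le_of_norm_fderiv_le' (𝕜 := ℝ) (s := Metric.ball (γ t) δ)
      (fun x _ => (hf.differentiable (by simp)) x) (fun x hx => ?_) (convex_ball _ _)
      (Metric.mem_ball_self hδ) ?_
    · rw [Metric.mem_ball, dist_eq_norm] at hx
      exact h1 t x hx
    · rw [Metric.mem_ball, dist_eq_norm]
      exact lt_of_le_of_lt h2 hη'
  refine le_trans h3 ?_
  exact mul_le_mul_of_nonneg_left h2 hc.le

theorem NEM_nat [FiniteDimensional ℝ E] (n : ℕ) : ∀ (X : Type) [NormedAddCommGroup X]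
    [NormedSpace ℝ X] (f : E → X) (hf : ContDiff ℝ ∞ f), ContDiff ℝ n (NEM_N f hf.continuous) := by
  induction n with
  | zero =>
    intro X _ _ f hf
    exact contDiff_zero.2 (ContinuousMap.continuous_postcomp _)
  | succ n ih =>
    intro X _ _ f hf
    have h1 : ContDiff ℝ ∞ (fderiv ℝ f) := hf.fderiv_right (by simp)
    have h2 : ((n + 1 : ℕ) : WithTop ℕ∞) = (n : WithTop ℕ∞) + 1 := by push_cast; rfl
    rw [h2, contDiff_succ_iff_hasFDerivAt]
    refine ⟨fun γ => NEM_A (NEM_N (fderiv ℝ f) h1.continuous γ), ?_,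
      fun γ => NEM_deriv f hf h1.continuous γ⟩
    exact (ContinuousLinearMap.contDiff (E := C(II, E →L[ℝ] X)) (F := C(II, E) →L[ℝ] C(II, X))
      (NEM_B (E := E) (X := X))).comp (ih (E →L[ℝ] X) (fderiv ℝ f) h1)

theorem p_NEM : Stmt_NEM := by
  intro E X _ _ _ _ _ _ f hf
  exact contDiff_infty.2 fun n => NEM_nat n X f hf

end

end Pool.TIA
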