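import Pool.Agent.Work.MP_a1f430_ti.Interface

/-! # Block PBG (helper77): gauge equivalence and regular points under diffeomorphisms -/

set_option autoImplicit false

namespace Pool.TIA

open MeasureTheory Set Filter Topology
open scoped ContDiff ENNReal

/-- a gauge equivalence on a smaller set -/
lemma PBG_gauge {E 𝔐 : Type} [NormedAddCommGroup E] [NormedSpace ℝ E] [MeasureSpace E]
    [NormedRing 𝔐] [NormedAlgebra ℝ 𝔐] [StarRing 𝔐] {𝒢 : LieG 𝔐} {W W₁ : Set E}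
    {A A' : E → E →L[ℝ] 𝔐} (h : W₁ ⊆ W) (hA : GaugeEq 𝒢 W A A') : GaugeEq 𝒢 W₁ A A' := by
  obtain ⟨g, dg, h1, h2, h3, h4, h5⟩ := hA
  exact ⟨g, dg, fun K hK hKW => h1 K hK (hKW.trans h), fun K hK hKW => h2 K hK (hKW.trans h),
    fun φ hφ v => h3 φ ⟨hφ.smooth, hφ.cpt, hφ.sub.trans h⟩ v,
    ae_restrict_of_ae_restrict_of_subset h h4, ae_restrict_of_ae_restrict_of_subset h h5⟩

/-- almost everywhere statements under the map -/
lemma PBG_ae {E' E : Type} [TopologicalSpace E'] [MeasureSpace E']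
    [OpensMeasurableSpace E'] [TopologicalSpace E] [MeasureSpace E] [OpensMeasurableSpace E]
    {Φ : E' → E} {W' : Set E'} {W : Set E} (hW' : IsOpen W') (hW : IsOpen W)
    (h : ∀ N : Set E, volume (N ∩ W) = 0 → volume (Φ ⁻¹' N ∩ W') = 0) {p : E → Prop}
    (hp : ∀ᵐ x ∂(volume.restrict W), p x) : ∀ᵐ x ∂(volume.restrict W'), p (Φ x) := by
  have h1 : volume ({x | ¬ p x} ∩ W) = 0 := by
    have h2 := (ae_restrict_iff' hW.measurableSet).1 hp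
    have h3 : volume {x | ¬ (x ∈ W → p x)} = 0 := ae_iff.1 h2
    refine measure_mono_null ?_ h3
    rintro x ⟨hx1, hx2⟩ hx3
    exact hx1 (hx3 hx2)
  have h4 := h _ h1
  rw [ae_restrict_iff' hW'.measurableSet, ae_iff]
  refine measure_mono_null ?_ h4
  intro x hx
  have hx' : ¬ (x ∈ W' → p (Φ x)) := hx
  rw [Classical.not_imp] at hx'
  exact ⟨hx'.2, hx'.1⟩

/-- block PBG -/
theorem p_PBG (hL : Stmt_LIE) (hC : Stmt_CVR) (hP : Stmt_PBW) : Stmt_PBG := by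
  intro 𝔐 _ _ _ _ _ _ 𝒢 E' E _ _ _ _ _ _ _ _ _ _ _ _ Φ Ψ W' W hfin hD
  -- the first part, for all domains
  have key : ∀ (V' : Set E') (V : Set E), Dif Φ Ψ V' V → ∀ A A' : E → E →L[ℝ] 𝔐,
      GaugeEq 𝒢 V A A' → GaugeEq 𝒢 V' (pb1 Φ A) (pb1 Φ A') := by
    intro V' V hV A A' hG
    obtain ⟨g, dg, h1, h2, h3, h4, h5⟩ := hG
    have hn : ∀ᵐ x ∂(volume.restrict V), ‖g x‖ ≤ 1 := by
      filter_upwards [h4] with x hx
      exact (hL 𝔐 𝒢).2.1 _ hx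
    obtain ⟨p1, p2, p3⟩ := hP E' E 𝔐 Φ Ψ V' V g dg 1 hfin hV h1 h2 h3 hn zero_le_one
    have hc := (hC E' E Φ Ψ V' V hfin hV).1
    refine ⟨fun x => g (Φ x), fun x => (dg (Φ x)).comp (fderiv ℝ Φ x), p1, p2, p3,
      PBG_ae hV.open' hV.open_ hc h4, ?_⟩
    filter_upwards [PBG_ae hV.open' hV.open_ hc h5] with x hx v
    exact hx (fderiv ℝ Φ x v)
  refine ⟨key W' W hD, ?_⟩
  intro A x hx hR
  obtain ⟨W₁, S, hW₁, hxW₁, hS, hlie, hG⟩ := hR
  have hcont : ContinuousOn Φ W' := hD.smooth.continuousOn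
  have hV' : IsOpen (W' ∩ Φ ⁻¹' (W₁ ∩ W)) :=
    hcont.isOpen_inter_preimage hD.open' (hW₁.inter hD.open_)
  have hdif : Dif Φ Ψ (W' ∩ Φ ⁻¹' (W₁ ∩ W)) (W₁ ∩ W) :=
    { open' := hV'
      open_ := hW₁.inter hD.open_
      maps := fun y hy => hy.2
      maps' := fun y hy => ⟨hD.maps' hy.2, by
        show Φ (Ψ y) ∈ W₁ ∩ W
        rw [hD.right y hy.2]
        exact hy⟩
      left := fun y hy => hD.left y hy.1
      right := fun y hy => hD.right y hy.2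
      smooth := hD.smooth.mono inter_subset_left
      smooth' := hD.smooth'.mono inter_subset_right }
  refine ⟨W' ∩ Φ ⁻¹' (W₁ ∩ W), pb1 Φ S, hV', ⟨hx, hxW₁, hD.maps hx⟩, ?_, ?_,
    key _ _ hdif A S (PBG_gauge inter_subset_left hG)⟩
  · have hs1 : ContDiffOn ℝ ∞ (fun y => S (Φ y)) (W' ∩ Φ ⁻¹' (W₁ ∩ W)) :=
      hS.comp hdif.smooth (fun y hy => hy.2.1)
    have hs2 : ContDiffOn ℝ ∞ (fderiv ℝ Φ) (W' ∩ Φ ⁻¹' (W₁ ∩ W)) :=
      hdif.smooth.fderiv_of_isOpen hV' (by simp)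
    exact hs1.clm_comp hs2
  · intro y hy v
    exact hlie (Φ y) hy.2.1 (fderiv ℝ Φ y v)

end Pool.TIA
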