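import Pool.Agent.Work.MP_a1f430_ti.Interface

/-! # Block PBI (helper16): regular points under a diffeomorphism and its inverse -/

set_option autoImplicit false

namespace Pool.TIA

open MeasureTheory Set Filter Topology
open scoped ContDiff ENNReal

theorem p_PBI : Stmt_PBI := by
  intro 𝔐 _ _ _ _ _ _ 𝒢 E' E _ _ _ _ _ _ _ _ _ _ Φ Ψ W' W hD A
  have h1 : ∀ y ∈ W, pb1 Ψ (pb1 Φ A) y = A y := by
    intro y hy
    have hΨy : Ψ y ∈ W' := hD.maps' hy
    have hd1 : DifferentiableAt ℝ Ψ y :=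
      ((hD.smooth'.contDiffAt (hD.open_.mem_nhds hy)).differentiableAt (by simp))
    have hd2 : DifferentiableAt ℝ Φ (Ψ y) :=
      ((hD.smooth.contDiffAt (hD.open'.mem_nhds hΨy)).differentiableAt (by simp))
    have hc : fderiv ℝ (Φ ∘ Ψ) y = (fderiv ℝ Φ (Ψ y)).comp (fderiv ℝ Ψ y) :=
      fderiv_comp y hd2 hd1
    have he : (Φ ∘ Ψ) =ᶠ[𝓝 y] id := by
      filter_upwards [hD.open_.mem_nhds hy] with z hz
      exact hD.right z hz
    have hc2 : (fderiv ℝ Φ (Ψ y)).comp (fderiv ℝ Ψ y) = ContinuousLinearMap.id ℝ E := by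
      rw [← hc, he.fderiv_eq, fderiv_id]
    unfold pb1
    rw [ContinuousLinearMap.comp_assoc, hc2, hD.right y hy, ContinuousLinearMap.comp_id]
  refine ⟨h1, fun y hy hR => ?_⟩
  obtain ⟨W₁, S, hW₁, hyW₁, hS, hlie, g, dg, hg, hdg, hwd, hG, heq⟩ := hR
  have hsub : W₁ ∩ W ⊆ W₁ := inter_subset_left
  have hopen : IsOpen (W₁ ∩ W) := hW₁.inter hD.open_
  refine ⟨W₁ ∩ W, S, hopen, ⟨hyW₁, hy⟩, hS.mono hsub, fun z hz v => hlie z hz.1 v, g, dg,
    fun K hK hKW => hg K hK (hKW.trans hsub), fun K hK hKW => hdg K hK (hKW.trans hsub),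
    fun φ hφ v => hwd φ ⟨hφ.smooth, hφ.cpt, hφ.sub.trans hsub⟩ v,
    ae_restrict_of_ae_restrict_of_subset hsub hG, ?_⟩
  have h2 := ae_restrict_of_ae_restrict_of_subset hsub heq
  filter_upwards [h2, ae_restrict_mem hopen.measurableSet] with z hz hzW v
  rw [hz v, h1 z hzW.2]

end Pool.TIA
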