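import Pool.Agent.Work.MP_a1f430_ti.Interface

/-! # Block PBW: weak derivatives under diffeomorphisms -/

set_option autoImplicit false

namespace Pool.TIA

open MeasureTheory Set Filter Topology
open scoped ContDiff ENNReal

theorem PBW_sq {a b : ℕ → ℝ≥0∞} {C : ℝ≥0∞} (hC : C ≠ ⊤) (hb : Tendsto b atTop (𝓝 0))
    (h : ∀ j, a j ≤ C * b j) : Tendsto a atTop (𝓝 0) := by
  have h1 : Tendsto (fun j => C * b j) atTop (𝓝 (C * 0)) :=
    ENNReal.Tendsto.const_mul hb (Or.inr hC)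
  rw [mul_zero] at h1
  exact tendsto_of_tendsto_of_tendsto_of_le_of_le tendsto_const_nhds h1 (fun _ => zero_le) h

theorem PBW_12 {α X : Type} [MeasurableSpace α] [NormedAddCommGroup X] {μ : Measure α}
    [IsFiniteMeasure μ] {f : ℕ → α → X} (hf : ∀ j, AEStronglyMeasurable (f j) μ)
    (h : Tendsto (fun j => eLpNorm (f j) 2 μ) atTop (𝓝 0)) :
    Tendsto (fun j => eLpNorm (f j) 1 μ) atTop (𝓝 0) := by
  have hle : (1 : ℝ≥0∞) ≤ 2 := by norm_num
  refine PBW_sq (C := μ univ ^ (1 / (1 : ℝ≥0∞).toReal - 1 / (2 : ℝ≥0∞).toReal)) ?_ h fun j => ?_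
  · refine ENNReal.rpow_ne_top_of_nonneg ?_ (measure_ne_top μ univ)
    norm_num
  · rw [mul_comm]
    exact eLpNorm_le_eLpNorm_mul_rpow_measure_univ hle (hf j)

theorem p_PBW (hAPG : Stmt_APG) (hCLG : Stmt_CLG) (hCVR : Stmt_CVR) : Stmt_PBW := by
  intro E' E X _ _ _ _ _ _ _ _ _ _ _ _ _ _ _ Φ Ψ W' W g dg C hfin hD hg hdg hW hC hC0
  have himg : ∀ K, IsCompact K → K ⊆ W' → IsCompact (Φ '' K) ∧ Φ '' K ⊆ W := fun K hK hKW =>
    ⟨hK.image_of_continuousOn (hD.smooth.continuousOn.mono hKW), by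
      rintro _ ⟨x, hx, rfl⟩
      exact hD.maps (hKW hx)⟩
  have hcv := (hCVR E' E Φ Ψ W' W hfin hD).2
  have hDΦ : ContinuousOn (fderiv ℝ Φ) W' :=
    hD.smooth.continuousOn_fderiv_of_isOpen hD.open' (by simp)
  have h1 : L2loc W' (fun x => g (Φ x)) := by
    intro K hK hKW
    obtain ⟨Cc, hCc, hc⟩ := hcv K hK hKW
    have hm := hg (Φ '' K) (himg K hK hKW).1 (himg K hK hKW).2
    have h2 := hc X g 2 (Or.inr rfl) hm.1
    exact ⟨h2.1, h2.2.trans_lt (ENNReal.mul_lt_top hCc.lt_top hm.2)⟩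
  have h1' : L2loc W' (fun x => dg (Φ x)) := by
    intro K hK hKW
    obtain ⟨Cc, hCc, hc⟩ := hcv K hK hKW
    have hm := hdg (Φ '' K) (himg K hK hKW).1 (himg K hK hKW).2
    have h2 := hc (E →L[ℝ] X) dg 2 (Or.inr rfl) hm.1
    exact ⟨h2.1, h2.2.trans_lt (ENNReal.mul_lt_top hCc.lt_top hm.2)⟩
  have h2 : L2loc W' (fun x => (dg (Φ x)).comp (fderiv ℝ Φ x)) := by
    intro K hK hKW
    have hm := h1' K hK hKW
    have hcK : ContinuousOn (fderiv ℝ Φ) K := hDΦ.mono hKW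
    obtain ⟨M, hM⟩ := hK.exists_bound_of_continuousOn hcK
    have hmeas : AEStronglyMeasurable (fun x => (dg (Φ x)).comp (fderiv ℝ Φ x))
        (volume.restrict K) :=
      (isBoundedBilinearMap_comp (𝕜 := ℝ) (E := E') (F := E) (G := X)).continuous.comp_aestronglyMeasurable
        (hm.1.prodMk (hcK.aestronglyMeasurable hK.measurableSet))
    refine MemLp.of_le_mul (c := M) hm hmeas ?_
    filter_upwards [ae_restrict_mem hK.measurableSet] with x hx
    calc _ ≤ ‖dg (Φ x)‖ * ‖fderiv ℝ Φ x‖ := ContinuousLinearMap.opNorm_comp_le _ _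
      _ ≤ ‖dg (Φ x)‖ * M := mul_le_mul_of_nonneg_left (hM x hx) (norm_nonneg _)
      _ = _ := mul_comm _ _
  refine ⟨h1, h2, hCLG E' X W' _ _ hD.open' h1 h2 fun K hK hKW => ?_⟩
  obtain ⟨hKc, hKW2⟩ := himg K hK hKW
  obtain ⟨G, hG, -, hG2, hG3⟩ := hAPG E X W g dg C hD.open_ hg hdg hW hC hC0 (Φ '' K) hKc hKW2
  obtain ⟨Cc, hCc, hc⟩ := hcv K hK hKW
  have hcK : ContinuousOn (fderiv ℝ Φ) K := hDΦ.mono hKW
  obtain ⟨M, hM⟩ := hK.exists_bound_of_continuousOn hcK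
  have : IsFiniteMeasure ((volume : Measure E').restrict K) :=
    ⟨by rw [Measure.restrict_apply_univ]; exact hK.measure_lt_top⟩
  have hm1 : ∀ j, AEStronglyMeasurable (fun y => G j y - g y) (volume.restrict (Φ '' K)) :=
    fun j => (hG j).continuous.aestronglyMeasurable.sub (hg _ hKc hKW2).1
  have hm2 : ∀ j, AEStronglyMeasurable (fun y => fderiv ℝ (G j) y - dg y)
      (volume.restrict (Φ '' K)) :=
    fun j => ((hG j).continuous_fderiv (by simp)).aestronglyMeasurable.sub (hdg _ hKc hKW2).1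
  have t1 : Tendsto (fun j => eLpNorm (fun x => G j (Φ x) - g (Φ x)) 1 (volume.restrict K))
      atTop (𝓝 0) :=
    PBW_12 (fun j => (hc X (fun y => G j y - g y) 2 (Or.inr rfl) (hm1 j)).1)
      (PBW_sq hCc hG2 fun j => (hc X (fun y => G j y - g y) 2 (Or.inr rfl) (hm1 j)).2)
  have t2 : Tendsto (fun j => eLpNorm (fun x => fderiv ℝ (G j) (Φ x) - dg (Φ x)) 1
      (volume.restrict K)) atTop (𝓝 0) :=
    PBW_12 (fun j => (hc (E →L[ℝ] X) (fun y => fderiv ℝ (G j) y - dg y) 2 (Or.inr rfl)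
      (hm2 j)).1)
      (PBW_sq hCc hG3 fun j => (hc (E →L[ℝ] X) (fun y => fderiv ℝ (G j) y - dg y) 2
        (Or.inr rfl) (hm2 j)).2)
  refine ⟨W', fun j x => G j (Φ x), hD.open', hKW, fun j => ?_, t1, fun v => ?_⟩
  · exact ((hG j).of_le (by simp)).comp_contDiffOn (hD.smooth.of_le (by simp))
  · refine PBW_sq (C := ENNReal.ofReal (M * ‖v‖)) ENNReal.ofReal_ne_top t2 fun j => ?_
    refine eLpNorm_le_mul_eLpNorm_of_ae_le_mul ?_ 1
    filter_upwards [ae_restrict_mem hK.measurableSet] with x hx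
    have hx' : DifferentiableAt ℝ Φ x :=
      (hD.smooth.contDiffAt (hD.open'.mem_nhds (hKW hx))).differentiableAt (by simp)
    have hGx : DifferentiableAt ℝ (G j) (Φ x) := (hG j).differentiable (by simp) _
    have e1 : fderiv ℝ (fun x => G j (Φ x)) x = (fderiv ℝ (G j) (Φ x)).comp (fderiv ℝ Φ x) :=
      fderiv_comp x hGx hx'
    have e2 : fderiv ℝ (fun x => G j (Φ x)) x v - ((dg (Φ x)).comp (fderiv ℝ Φ x)) v =
        (fderiv ℝ (G j) (Φ x) - dg (Φ x)) (fderiv ℝ Φ x v) := by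
      rw [e1]
      rfl
    rw [e2]
    calc _ ≤ ‖fderiv ℝ (G j) (Φ x) - dg (Φ x)‖ * ‖fderiv ℝ Φ x v‖ :=
          ContinuousLinearMap.le_opNorm _ _
      _ ≤ ‖fderiv ℝ (G j) (Φ x) - dg (Φ x)‖ * (M * ‖v‖) := by
          refine mul_le_mul_of_nonneg_left ?_ (norm_nonneg _)
          exact (ContinuousLinearMap.le_opNorm _ _).trans
            (mul_le_mul_of_nonneg_right (hM x hx) (norm_nonneg _))
      _ = _ := mul_comm _ _

end Pool.TIA
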