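import Pool.Agent.Work.MP_a1f430_ti.Interface3

/-! # Block RSZ: smooth dual vectors (helper94) -/

set_option autoImplicit false

namespace Pool.TIA

open MeasureTheory Set Filter Topology
open scoped ContDiff ENNReal

theorem RSZ_equiv {n : ℕ} (g : Eu n →L[ℝ] Eu n →L[ℝ] ℝ) (hg : ∀ v, v ≠ 0 → 0 < g v v) :
    ∃ e : Eu n ≃L[ℝ] (Eu n →L[ℝ] ℝ), (e : Eu n →L[ℝ] (Eu n →L[ℝ] ℝ)) = g := by
  have hinj : Function.Injective (g : Eu n →ₗ[ℝ] (Eu n →L[ℝ] ℝ)) := by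
    rw [← LinearMap.ker_eq_bot, LinearMap.ker_eq_bot']
    intro v hv
    by_contra hne
    have h1 := hg v hne
    have h2 : g v = 0 := hv
    rw [h2] at h1
    simp at h1
  have hdim : Module.finrank ℝ (Eu n) = Module.finrank ℝ (Eu n →L[ℝ] ℝ) := by
    rw [← (LinearMap.toContinuousLinearMap : (Eu n →ₗ[ℝ] ℝ) ≃ₗ[ℝ] (Eu n →L[ℝ] ℝ)).finrank_eq,
      Module.finrank_linearMap, Module.finrank_self, mul_one]
  refine ⟨(LinearEquiv.ofInjectiveOfFinrankEq (g : Eu n →ₗ[ℝ] (Eu n →L[ℝ] ℝ)) hinj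
    hdim).toContinuousLinearEquiv, ?_⟩
  ext v w
  rfl

theorem p_RSZ : Stmt_RSZ := by
  intro n U h θ hU hM hθ
  refine ⟨fun y => (h y).inverse (θ y), ?_, ?_⟩
  · intro y hy
    obtain ⟨e, he⟩ := RSZ_equiv (h y) (hM.pos y hy)
    have h1 : ContDiffAt ℝ ∞ (fun y => (h y).inverse) y := by
      have h2 := contDiffAt_map_inverse (𝕜 := ℝ) (n := ∞) e
      rw [he] at h2
      exact h2.comp y (hM.smooth.contDiffAt (hU.mem_nhds hy))
    exact (h1.clm_apply (hθ.contDiffAt (hU.mem_nhds hy))).contDiffWithinAt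
  · intro y hy v
    obtain ⟨e, he⟩ := RSZ_equiv (h y) (hM.pos y hy)
    have h1 : h y ((h y).inverse (θ y)) = θ y := by
      rw [← he, ContinuousLinearMap.inverse_equiv]
      exact e.apply_symm_apply _
    change h y ((h y).inverse (θ y)) v = θ y v
    rw [h1]

end Pool.TIA
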