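import Pool.Agent.Work.MP_a1f430_ti.Interface

/-! # Block SLG (MP_a1f430, THEOREM TR): gauge equivalences on a slice -/

set_option autoImplicit false

namespace Pool.TIA

open MeasureTheory Set Filter Topology
open scoped ContDiff ENNReal

/-- the weak derivative on a smaller set -/
lemma SLG_wd {E X : Type} [NormedAddCommGroup E] [NormedSpace ℝ E] [MeasureSpace E]
    [NormedAddCommGroup X] [NormedSpace ℝ X] {U U' : Set E} (h : U' ⊆ U) {g : E → X}
    {dg : E → E →L[ℝ] X} (hw : WD U g dg) : WD U' g dg := fun φ hφ v =>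
  hw φ ⟨hφ.smooth, hφ.cpt, hφ.sub.trans h⟩ v

/-- local square integrability on a smaller set -/
lemma SLG_l2 {E X : Type} [NormedAddCommGroup E] [NormedSpace ℝ E] [MeasureSpace E]
    [NormedAddCommGroup X] {U U' : Set E} (h : U' ⊆ U) {g : E → X}
    (hw : L2loc U g) : L2loc U' g := fun K hK hKU => hw K hK (hKU.trans h)

/-- block SLG -/
theorem p_SLG (h1 : Stmt_LIE) (_h2 : Stmt_GDF) (h3 : Stmt_SLI) : Stmt_SLG := by
  intro 𝔐 _ _ _ _ _ _ 𝒢 V _ _ _ _ _ _ W B S y₀ t₀ hW hmem hG
  obtain ⟨g, dg, hg2, hdg2, hwd, hgG, hS⟩ := hG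
  obtain ⟨r, hr, hrW⟩ := Metric.nhds_basis_closedBall.mem_iff.1 (hW.mem_nhds hmem)
  have hsub : Metric.closedBall y₀ r ×ˢ Metric.closedBall t₀ r ⊆ W := by
    rw [closedBall_prod_same]
    exact hrW
  have hn : ∀ᵐ x ∂(volume.restrict W), ‖g x‖ ≤ 1 := by
    filter_upwards [hgG] with x hx
    exact (h1 𝔐 𝒢).2.1 _ hx
  have hK1 : IsCompact (Metric.closedBall y₀ r) := isCompact_closedBall _ _
  have hK2 : IsCompact (Metric.closedBall t₀ r) := isCompact_closedBall _ _
  have hs := h3 V 𝔐 W g dg 1 hW hg2 hdg2 hwd hn zero_le_one _ _ hK1 hK2 hsub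
  -- Fubini
  have hP : ∀ᵐ x ∂(volume.restrict W), g x ∈ 𝒢.G ∧
      ∀ v, S x v = star (g x) * dg x v + star (g x) * pr1 B x v * g x := by
    filter_upwards [hgG, hS] with x h h'
    exact ⟨h, h'⟩
  have hP1 : ∀ᵐ x ∂((volume.restrict (Metric.closedBall y₀ r)).prod
      (volume.restrict (Metric.closedBall t₀ r))), g x ∈ 𝒢.G ∧
      ∀ v, S x v = star (g x) * dg x v + star (g x) * pr1 B x v * g x := by
    rw [Measure.prod_restrict, ← Measure.volume_eq_prod]
    exact ae_mono (Measure.restrict_mono hsub le_rfl) hP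
  have hP2 : ∀ᵐ x ∂((volume.restrict (Metric.closedBall t₀ r)).prod
      (volume.restrict (Metric.closedBall y₀ r))), g x.swap ∈ 𝒢.G ∧
      ∀ v, S x.swap v = star (g x.swap) * dg x.swap v + star (g x.swap) * pr1 B x.swap v *
        g x.swap :=
    Measure.measurePreserving_swap.quasiMeasurePreserving.ae hP1
  have hP3 := Measure.ae_ae_of_ae_prod hP2
  have hvol : volume (Metric.closedBall t₀ r) ≠ 0 := by
    rw [Real.volume_closedBall]
    simp only [ne_eq, ENNReal.ofReal_eq_zero, not_le]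
    linarith
  have hne : (ae (volume.restrict (Metric.closedBall t₀ r))).NeBot := by
    rw [ae_neBot]
    intro h
    exact hvol (Measure.restrict_eq_zero.1 h)
  obtain ⟨t, ⟨⟨ht1, ht2, ht3⟩, ht4⟩, ht5⟩ :=
    ((hs.and hP3).and (ae_restrict_mem hK2.measurableSet)).exists
  have hb : Metric.ball y₀ r ⊆ interior (Metric.closedBall y₀ r) :=
    Metric.ball_subset_interior_closedBall
  refine ⟨r, t, hr, ?_, fun y => g (y, t),
    fun y => (dg (y, t)).comp (ContinuousLinearMap.inl ℝ V ℝ), SLG_l2 hb ht1, SLG_l2 hb ht2,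
    SLG_wd hb ht3, ?_, ?_⟩
  · rintro ⟨y, s⟩ ⟨hy, hs'⟩
    simp only [mem_singleton_iff] at hs'
    subst hs'
    exact hsub ⟨hy, ht5⟩
  · have h := ae_mono (Measure.restrict_mono Metric.ball_subset_closedBall le_rfl) ht4
    filter_upwards [h] with y hy
    exact hy.1
  · have h := ae_mono (Measure.restrict_mono Metric.ball_subset_closedBall le_rfl) ht4
    filter_upwards [h] with y hy v
    have := hy.2 (v, 0)
    simpa [rs1, pr1] using this

end Pool.TIA
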