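import Pool.Agent.Work.MP_a1f430_ti.Interface

set_option autoImplicit false

namespace Pool.TIA

open MeasureTheory Set Filter Topology
open scoped ContDiff ENNReal

/-- `L²` convergence implies `L¹` convergence for a finite measure. -/
theorem SLI_21 {α X : Type} [MeasurableSpace α] [NormedAddCommGroup X] (μ : Measure α)
    [IsFiniteMeasure μ] (f : ℕ → α → X) (hm : ∀ j, AEStronglyMeasurable (f j) μ)
    (h : Tendsto (fun j => eLpNorm (f j) 2 μ) atTop (𝓝 0)) :
    Tendsto (fun j => eLpNorm (f j) 1 μ) atTop (𝓝 0) := by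
  have h1 : ∀ j, eLpNorm (f j) 1 μ ≤ eLpNorm (f j) 2 μ * (μ univ) ^ (1 / (1 : ℝ≥0∞).toReal -
      1 / (2 : ℝ≥0∞).toReal) := fun j =>
    eLpNorm_le_eLpNorm_mul_rpow_measure_univ (by norm_num) (hm j)
  have h2 : Tendsto (fun j => eLpNorm (f j) 2 μ * (μ univ) ^ (1 / (1 : ℝ≥0∞).toReal -
      1 / (2 : ℝ≥0∞).toReal)) atTop (𝓝 0) := by
    have hfin : (μ univ) ^ (1 / (1 : ℝ≥0∞).toReal - 1 / (2 : ℝ≥0∞).toReal) ≠ ⊤ := by
      refine ENNReal.rpow_ne_top_of_nonneg ?_ (measure_ne_top μ univ)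
      norm_num
    have := ENNReal.Tendsto.mul_const h (b := (μ univ) ^ (1 / (1 : ℝ≥0∞).toReal -
      1 / (2 : ℝ≥0∞).toReal)) (Or.inr hfin)
    simpa using this
  exact tendsto_of_tendsto_of_tendsto_of_le_of_le tendsto_const_nhds h2 (fun _ => zero_le) h1

theorem p_SLI (hAPG : Stmt_APG) (hCLG : Stmt_CLG) (hSUB : Stmt_SUB) : Stmt_SLI := by
  intro V X _ _ _ _ _ _ _ _ _ W k dk C hW hk hdk hwd hC hC0 K₁ K₂ hK₁ hK₂ hKW
  have hKc : IsCompact (K₁ ×ˢ K₂) := hK₁.prod hK₂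
  obtain ⟨G, hGs, -, hG1, hG2⟩ :=
    hAPG (V × ℝ) X W k dk C hW hk hdk hwd hC hC0 (K₁ ×ˢ K₂) hKc hKW
  have hfin : IsFiniteMeasure (volume.restrict (K₁ ×ˢ K₂)) :=
    ⟨by simpa using hKc.measure_lt_top⟩
  have hfin₁ : IsFiniteMeasure ((volume : Measure V).restrict K₁) :=
    ⟨by simpa using hK₁.measure_lt_top⟩
  have hGc : ∀ j, Continuous (G j) := fun j => (hGs j).continuous
  have hDGc : ∀ j, Continuous (fderiv ℝ (G j)) := fun j => (hGs j).continuous_fderiv (by simp)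
  have hm1 : ∀ j, MemLp (G j) 2 (volume.restrict (K₁ ×ˢ K₂)) := by
    intro j
    obtain ⟨M, hM⟩ := hKc.exists_bound_of_continuousOn (hGc j).continuousOn
    exact MemLp.of_bound (hGc j).aestronglyMeasurable M
      (ae_restrict_of_forall_mem hKc.measurableSet hM)
  have hm2 : ∀ j, MemLp (fderiv ℝ (G j)) 2 (volume.restrict (K₁ ×ˢ K₂)) := by
    intro j
    obtain ⟨M, hM⟩ := hKc.exists_bound_of_continuousOn (hDGc j).continuousOn
    exact MemLp.of_bound (hDGc j).aestronglyMeasurable M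
      (ae_restrict_of_forall_mem hKc.measurableSet hM)
  obtain ⟨ns₁, hns₁, hA, -⟩ := hSUB V X 2 (Or.inr rfl) K₁ K₂ hK₁.measurableSet
    hK₂.measurableSet G k hm1 (hk _ hKc hKW) hG1
  obtain ⟨ns₂, hns₂, hB, -⟩ := hSUB V (V × ℝ →L[ℝ] X) 2 (Or.inr rfl) K₁ K₂ hK₁.measurableSet
    hK₂.measurableSet (fun j => fderiv ℝ (G (ns₁ j))) dk (fun j => hm2 _) (hdk _ hKc hKW)
    (hG2.comp hns₁.tendsto_atTop)
  filter_upwards [hA, hB] with t hA' hB'
  obtain ⟨hkt, hGt⟩ := hA'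
  obtain ⟨hdkt, hDGt⟩ := hB'
  have hdi : MemLp (fun y => (dk (y, t)).comp (ContinuousLinearMap.inl ℝ V ℝ)) 2
      (volume.restrict K₁) := by
    refine MemLp.of_le_mul (c := ‖ContinuousLinearMap.inl ℝ V ℝ‖) hdkt ?_
      (Eventually.of_forall fun y => ?_)
    · exact ((ContinuousLinearMap.compL ℝ V (V × ℝ) X).flip
        (ContinuousLinearMap.inl ℝ V ℝ)).continuous.comp_aestronglyMeasurable hdkt.1
    · rw [mul_comm]
      exact ContinuousLinearMap.opNorm_comp_le _ _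
  have hle : ∀ K' : Set V, K' ⊆ interior K₁ →
      (volume : Measure V).restrict K' ≤ volume.restrict K₁ := fun K' h =>
    Measure.restrict_mono (h.trans interior_subset) le_rfl
  have hL1 : L2loc (interior K₁) (fun y => k (y, t)) := fun K' _ h =>
    hkt.mono_measure (hle K' h)
  have hL2 : L2loc (interior K₁)
      (fun y => (dk (y, t)).comp (ContinuousLinearMap.inl ℝ V ℝ)) := fun K' _ h =>
    hdi.mono_measure (hle K' h)
  have hct : Continuous fun y : V => (y, t) := by fun_prop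
  refine ⟨hL1, hL2, hCLG V X (interior K₁) _ _ isOpen_interior hL1 hL2 fun K' _ hK' => ?_⟩
  have hcg := SLI_21 (volume.restrict K₁) (fun j y => G (ns₁ (ns₂ j)) (y, t) - k (y, t))
    (fun j => ((hGc _).comp hct).aestronglyMeasurable.sub hkt.1) (hGt.comp hns₂.tendsto_atTop)
  have hcd := SLI_21 (volume.restrict K₁)
    (fun j y => fderiv ℝ (G (ns₁ (ns₂ j))) (y, t) - dk (y, t))
    (fun j => ((hDGc _).comp hct).aestronglyMeasurable.sub hdkt.1) hDGt
  refine ⟨univ, fun j y => G (ns₁ (ns₂ j)) (y, t), isOpen_univ, subset_univ _,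
    fun j => ?_, ?_, fun v => ?_⟩
  · have h1 : ContDiff ℝ ∞ fun y : V => (y, t) := contDiff_id.prodMk contDiff_const
    exact (((hGs (ns₁ (ns₂ j))).comp h1).of_le (by norm_cast)).contDiffOn
  · exact tendsto_of_tendsto_of_tendsto_of_le_of_le tendsto_const_nhds hcg
      (fun _ => zero_le) fun j => eLpNorm_mono_measure _ (hle K' hK')
  · have h2 : Tendsto (fun j => ENNReal.ofReal ‖((v, 0) : V × ℝ)‖ *
        eLpNorm (fun y => fderiv ℝ (G (ns₁ (ns₂ j))) (y, t) - dk (y, t)) 1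
          (volume.restrict K₁)) atTop (𝓝 0) := by
      have := ENNReal.Tendsto.const_mul hcd (a := ENNReal.ofReal ‖((v, 0) : V × ℝ)‖)
        (Or.inr ENNReal.ofReal_ne_top)
      simpa using this
    refine tendsto_of_tendsto_of_tendsto_of_le_of_le tendsto_const_nhds h2
      (fun _ => zero_le) fun j => ?_
    refine (eLpNorm_mono_measure _ (hle K' hK')).trans ?_
    refine eLpNorm_le_mul_eLpNorm_of_ae_le_mul (Eventually.of_forall fun y => ?_) 1
    have hd : HasFDerivAt (fun y : V => G (ns₁ (ns₂ j)) (y, t))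
        ((fderiv ℝ (G (ns₁ (ns₂ j))) (y, t)).comp (ContinuousLinearMap.inl ℝ V ℝ)) y := by
      have h3 : HasFDerivAt (G (ns₁ (ns₂ j))) (fderiv ℝ (G (ns₁ (ns₂ j))) (y, t)) (y, t) :=
        ((hGs _).differentiable (by simp)).differentiableAt.hasFDerivAt
      have h4 : HasFDerivAt (fun y : V => (y, t)) (ContinuousLinearMap.inl ℝ V ℝ) y := by
        have h5 := (hasFDerivAt_id (𝕜 := ℝ) y).prodMk (hasFDerivAt_const (𝕜 := ℝ) t y)
        exact h5
      exact h3.comp y h4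
    rw [hd.fderiv]
    have h6 : ((fderiv ℝ (G (ns₁ (ns₂ j))) (y, t)).comp (ContinuousLinearMap.inl ℝ V ℝ)) v -
        ((dk (y, t)).comp (ContinuousLinearMap.inl ℝ V ℝ)) v =
        (fderiv ℝ (G (ns₁ (ns₂ j))) (y, t) - dk (y, t)) (v, 0) := by
      simp
    rw [h6, mul_comm]
    exact ContinuousLinearMap.le_opNorm _ _

end Pool.TIA
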