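import Pool.Agent.Work.MP_a1f430_ti.Interface

/-! # Block SMC: restrictions and pullbacks of smooth forms, restriction of gauge equivalences
(helper71) -/

set_option autoImplicit false

namespace Pool.TIA

open MeasureTheory Set Filter Topology
open scoped ContDiff ENNReal NNReal

theorem SMC_L2loc {E X : Type} [NormedAddCommGroup E] [NormedSpace ℝ E] [MeasureSpace E]
    [NormedAddCommGroup X] {W W₁ : Set E} {f : E → X} (h : W₁ ⊆ W) (hf : L2loc W f) :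
    L2loc W₁ f :=
  fun K hK hKW => hf K hK (hKW.trans h)

theorem SMC_test {E : Type} [NormedAddCommGroup E] [NormedSpace ℝ E] {W W₁ : Set E} {φ : E → ℝ}
    (h : W₁ ⊆ W) (hφ : Test W₁ φ) : Test W φ :=
  ⟨hφ.smooth, hφ.cpt, hφ.sub.trans h⟩

theorem SMC_gauge {E 𝔐 : Type} [NormedAddCommGroup E] [NormedSpace ℝ E] [MeasureSpace E]
    [NormedRing 𝔐] [NormedAlgebra ℝ 𝔐] [StarRing 𝔐] {𝒢 : LieG 𝔐} {W W₁ : Set E}
    {A A' : E → E →L[ℝ] 𝔐} (h : W₁ ⊆ W) (hA : GaugeEq 𝒢 W A A') : GaugeEq 𝒢 W₁ A A' := by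
  obtain ⟨g, dg, h1, h2, h3, h4, h5⟩ := hA
  exact ⟨g, dg, SMC_L2loc h h1, SMC_L2loc h h2, fun φ hφ v => h3 φ (SMC_test h hφ) v,
    ae_restrict_of_ae_restrict_of_subset h h4, ae_restrict_of_ae_restrict_of_subset h h5⟩

theorem SMC_conn {E 𝔐 : Type} [NormedAddCommGroup E] [NormedSpace ℝ E] [MeasureSpace E]
    [NormedRing 𝔐] [NormedAlgebra ℝ 𝔐] [StarRing 𝔐] {𝒢 : LieG 𝔐} {W W₁ : Set E}
    {A : E → E →L[ℝ] 𝔐} {F : E → E [⋀^Fin 2]→L[ℝ] 𝔐} (h : W₁ ⊆ W) (hA : Conn 𝒢 W A F) :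
    Conn 𝒢 W₁ A F where
  A2 := SMC_L2loc h hA.A2
  F2 := SMC_L2loc h hA.F2
  lie := ae_restrict_of_ae_restrict_of_subset h hA.lie
  curv := fun φ hφ u v => hA.curv φ (SMC_test h hφ) u v

theorem p_SMC : Stmt_SMC := by
  intro 𝔐 _ _ _ _ _ _ 𝒢 V _ _ _ _ _ _
  refine ⟨?_, ?_, ?_⟩
  · intro W W₁ t S _ hS hW
    have h1 : ContDiffOn ℝ ∞ (fun y : V => S (y, t)) W₁ :=
      hS.comp (contDiff_prodMk_left t).contDiffOn (fun y hy => hW ⟨hy, rfl⟩)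
    exact h1.clm_comp contDiffOn_const
  · intro W₁ I S hS
    have h1 : ContDiffOn ℝ ∞ (fun p : V × ℝ => S p.1) (W₁ ×ˢ I) :=
      hS.comp contDiff_fst.contDiffOn (fun p hp => hp.1)
    exact h1.clm_comp contDiffOn_const
  · intro W W₁ A A' _ _ h hA
    exact SMC_gauge h hA

end Pool.TIA
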