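import Pool.Agent.Work.MP_a1f430_ti.Interface

/-! # Block SUB: convergence on almost all slices -/

set_option autoImplicit false

namespace Pool.TIA

open MeasureTheory Set Filter Topology
open scoped ContDiff ENNReal

theorem SUB_int {α : Type} [MeasurableSpace α] {X : Type} [NormedAddCommGroup X] (μ : Measure α)
    {p : ℝ≥0∞} (hp0 : p ≠ 0) (hpt : p ≠ ⊤) (f : α → X) :
    ∫⁻ x, ‖f x‖ₑ ^ p.toReal ∂μ = eLpNorm f p μ ^ p.toReal := by
  have h0 : p.toReal ≠ 0 := (ENNReal.toReal_pos hp0 hpt).ne'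
  rw [eLpNorm_eq_lintegral_rpow_enorm_toReal hp0 hpt, ← ENNReal.rpow_mul, one_div,
    inv_mul_cancel₀ h0, ENNReal.rpow_one]

theorem SUB_one {α β X : Type} [MeasurableSpace α] [MeasurableSpace β] [NormedAddCommGroup X]
    (μ : Measure α) (ν : Measure β) [SFinite μ] [SFinite ν] {p : ℝ≥0∞} (hp0 : p ≠ 0)
    (hpt : p ≠ ⊤) (g : ℕ → α × β → X) (hg : ∀ j, AEStronglyMeasurable (g j) (μ.prod ν))
    (hs : ∑' j, ∫⁻ z, ‖g j z‖ₑ ^ p.toReal ∂(μ.prod ν) ≠ ⊤) :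
    ∀ᵐ x ∂μ, Tendsto (fun j => eLpNorm (fun y => g j (x, y)) p ν) atTop (𝓝 0) := by
  have hpp : 0 < p.toReal := ENNReal.toReal_pos hp0 hpt
  have hm : ∀ j, AEMeasurable (fun z => ‖g j z‖ₑ ^ p.toReal) (μ.prod ν) := fun j =>
    (hg j).enorm.pow_const _
  have hm2 : ∀ j, AEMeasurable (fun x => ∫⁻ y, ‖g j (x, y)‖ₑ ^ p.toReal ∂ν) μ := fun j =>
    (hm j).lintegral_prod_right'
  have h1 : ∑' j, ∫⁻ z, ‖g j z‖ₑ ^ p.toReal ∂(μ.prod ν) =
      ∫⁻ x, ∑' j, ∫⁻ y, ‖g j (x, y)‖ₑ ^ p.toReal ∂ν ∂μ := by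
    rw [lintegral_tsum hm2]
    exact tsum_congr fun j => lintegral_prod _ (hm j)
  rw [h1] at hs
  have h2 := ae_lt_top' (AEMeasurable.ennreal_tsum hm2) hs
  filter_upwards [h2] with x hx
  have h3 := ENNReal.tendsto_atTop_zero_of_tsum_ne_top hx.ne
  have h4 : Tendsto (fun j => (∫⁻ y, ‖g j (x, y)‖ₑ ^ p.toReal ∂ν) ^ (1 / p.toReal)) atTop
      (𝓝 0) := by
    have h5 := (ENNReal.continuous_rpow_const (y := 1 / p.toReal)).tendsto 0
    rw [ENNReal.zero_rpow_of_pos (one_div_pos.2 hpp)] at h5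
    exact h5.comp h3
  refine h4.congr fun j => ?_
  rw [eLpNorm_eq_lintegral_rpow_enorm_toReal hp0 hpt]

theorem SUB_mem {α β X : Type} [MeasurableSpace α] [MeasurableSpace β] [NormedAddCommGroup X]
    (μ : Measure α) (ν : Measure β) [SFinite μ] [SFinite ν] {p : ℝ≥0∞} (hp0 : p ≠ 0)
    (hpt : p ≠ ⊤) (f : α × β → X) (hf : MemLp f p (μ.prod ν)) :
    ∀ᵐ x ∂μ, MemLp (fun y => f (x, y)) p ν := by
  have hpp : 0 < p.toReal := ENNReal.toReal_pos hp0 hpt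
  have hm : AEMeasurable (fun z => ‖f z‖ₑ ^ p.toReal) (μ.prod ν) := hf.1.enorm.pow_const _
  have h1 : ∫⁻ x, ∫⁻ y, ‖f (x, y)‖ₑ ^ p.toReal ∂ν ∂μ ≠ ⊤ := by
    rw [← lintegral_prod _ hm, SUB_int _ hp0 hpt]
    exact ENNReal.rpow_ne_top_of_nonneg hpp.le hf.2.ne
  have h2 := ae_lt_top' hm.lintegral_prod_right' h1
  filter_upwards [h2, hf.1.prodMk_left] with x hx hx2
  refine ⟨hx2, ?_⟩
  rw [eLpNorm_eq_lintegral_rpow_enorm_toReal hp0 hpt]
  exact ENNReal.rpow_lt_top_of_nonneg (one_div_pos.2 hpp).le hx.ne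

theorem SUB_swap {α β X : Type} [MeasurableSpace α] [MeasurableSpace β] [NormedAddCommGroup X]
    (μ : Measure α) (ν : Measure β) [SFinite μ] [SFinite ν] (f : α × β → X)
    (hf : AEStronglyMeasurable f (μ.prod ν)) :
    AEStronglyMeasurable (fun z : β × α => f z.swap) (ν.prod μ) :=
  hf.comp_quasiMeasurePreserving Measure.measurePreserving_swap.quasiMeasurePreserving

theorem SUB_main {α β X : Type} [MeasurableSpace α] [MeasurableSpace β] [NormedAddCommGroup X]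
    (μ : Measure α) (ν : Measure β) [SFinite μ] [SFinite ν] {p : ℝ≥0∞} (hp0 : p ≠ 0)
    (hpt : p ≠ ⊤) (f : ℕ → α × β → X) (f₀ : α × β → X)
    (hf : ∀ j, MemLp (f j) p (μ.prod ν)) (hf₀ : MemLp f₀ p (μ.prod ν))
    (ht : Tendsto (fun j => eLpNorm (fun x => f j x - f₀ x) p (μ.prod ν)) atTop (𝓝 0)) :
    ∃ ns : ℕ → ℕ, StrictMono ns ∧
      (∀ᵐ t ∂ν, MemLp (fun y => f₀ (y, t)) p μ ∧
        Tendsto (fun j => eLpNorm (fun y => f (ns j) (y, t) - f₀ (y, t)) p μ) atTop (𝓝 0)) ∧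
      ∀ᵐ y ∂μ, MemLp (fun t => f₀ (y, t)) p ν ∧
        Tendsto (fun j => eLpNorm (fun t => f (ns j) (y, t) - f₀ (y, t)) p ν)
          atTop (𝓝 0) := by
  have hpp : 0 < p.toReal := ENNReal.toReal_pos hp0 hpt
  have h1 : Tendsto (fun j => ∫⁻ z, ‖f j z - f₀ z‖ₑ ^ p.toReal ∂(μ.prod ν)) atTop (𝓝 0) := by
    have h5 := (ENNReal.continuous_rpow_const (y := p.toReal)).tendsto 0
    rw [ENNReal.zero_rpow_of_pos hpp] at h5
    refine (h5.comp ht).congr fun j => ?_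
    exact (SUB_int (μ.prod ν) hp0 hpt (fun x => f j x - f₀ x)).symm
  have h2 : ∀ n : ℕ, ∀ᶠ k in atTop,
      ∫⁻ z, ‖f k z - f₀ z‖ₑ ^ p.toReal ∂(μ.prod ν) ≤ (2⁻¹ : ℝ≥0∞) ^ n := by
    intro n
    exact h1.eventually_le_const (ENNReal.pow_pos (by norm_num) n)
  obtain ⟨ns, hns, hns2⟩ := extraction_forall_of_eventually h2
  have hsum : ∑' j, ∫⁻ z, ‖f (ns j) z - f₀ z‖ₑ ^ p.toReal ∂(μ.prod ν) ≠ ⊤ := by
    refine ne_top_of_le_ne_top ?_ (ENNReal.tsum_le_tsum hns2)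
    rw [ENNReal.tsum_geometric, ENNReal.one_sub_inv_two, inv_inv]
    norm_num
  have hmeas : ∀ j, AEStronglyMeasurable (fun z => f (ns j) z - f₀ z) (μ.prod ν) := fun j =>
    (hf (ns j)).1.sub hf₀.1
  refine ⟨ns, hns, ?_, ?_⟩
  · have hsw : ∑' j, ∫⁻ z, ‖f (ns j) z.swap - f₀ z.swap‖ₑ ^ p.toReal ∂(ν.prod μ) ≠ ⊤ := by
      have h3 : ∀ j, ∫⁻ z, ‖f (ns j) z.swap - f₀ z.swap‖ₑ ^ p.toReal ∂(ν.prod μ) =
          ∫⁻ z, ‖f (ns j) z - f₀ z‖ₑ ^ p.toReal ∂(μ.prod ν) := fun j =>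
        lintegral_prod_swap (fun z : α × β => ‖f (ns j) z - f₀ z‖ₑ ^ p.toReal)
      rw [tsum_congr h3]
      exact hsum
    have h4 := SUB_one ν μ hp0 hpt (fun j z => f (ns j) z.swap - f₀ z.swap)
      (fun j => SUB_swap μ ν _ (hmeas j)) hsw
    have h5 := SUB_mem ν μ hp0 hpt (fun z => f₀ z.swap)
      (hf₀.comp_measurePreserving Measure.measurePreserving_swap)
    filter_upwards [h4, h5] with t ht1 ht2
    exact ⟨ht2, ht1⟩
  · have h4 := SUB_one μ ν hp0 hpt (fun j z => f (ns j) z - f₀ z) hmeas hsum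
    have h5 := SUB_mem μ ν hp0 hpt f₀ hf₀
    filter_upwards [h4, h5] with t ht1 ht2
    exact ⟨ht2, ht1⟩

theorem p_SUB : Stmt_SUB := by
  intro V X _ _ _ _ _ _ _ _ _ p hp K₁ K₂ _ _ f f₀ hf hf₀ ht
  have hp0 : p ≠ 0 := by
    rcases hp with h | h <;> rw [h] <;> norm_num
  have hpt : p ≠ ⊤ := by
    rcases hp with h | h <;> rw [h] <;> norm_num
  have hprod : (volume : Measure (V × ℝ)).restrict (K₁ ×ˢ K₂) =
      ((volume : Measure V).restrict K₁).prod ((volume : Measure ℝ).restrict K₂) := by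
    rw [Measure.prod_restrict, ← Measure.volume_eq_prod]
  rw [hprod] at hf₀ ht
  simp only [hprod] at hf
  exact SUB_main _ _ hp0 hpt f f₀ hf hf₀ ht

end Pool.TIA
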