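import Pool.Agent.Work.MP_a1f430_ti.Interface3

/-! # Block UPF: one more annihilating field -/

set_option autoImplicit false

namespace Pool.TIA

open MeasureTheory Set Filter Topology
open scoped ContDiff ENNReal

theorem UPF_app {n : ℕ} (N : Set (Eu n)) : ∀ (k : ℕ) (f : Eu n → Eu n [⋀^Fin k]→L[ℝ] ℝ)
    (T : Fin k → Eu n → Eu n), ContDiffOn ℝ ∞ f N → (∀ j, ContDiffOn ℝ ∞ (T j) N) →
    ContDiffOn ℝ ∞ (fun y => f y (fun j => T j y)) N := by
  intro k
  induction k with
  | zero =>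
    intro f T hf hT
    have h1 : (fun y => f y (fun j => T j y)) = fun y => f y (fun _ => 0) := by
      funext y
      congr 1
      funext j
      exact j.elim0
    rw [h1]
    exact (ContinuousAlternatingMap.apply ℝ (Eu n) ℝ (fun _ => 0)).contDiff.comp_contDiffOn hf
  | succ k ih =>
    intro f T hf hT
    have h1 : ContDiffOn ℝ ∞ (fun y => (f y).curryLeft (T 0 y)) N := by
      let L0 : (Eu n [⋀^Fin (k + 1)]→L[ℝ] ℝ) →ₗ[ℝ] (Eu n →L[ℝ] Eu n [⋀^Fin k]→L[ℝ] ℝ) :=
        { toFun := fun g => g.curryLeft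
          map_add' := fun _ _ => rfl
          map_smul' := fun _ _ => rfl }
      have hL : Continuous L0 := by
        refine AddMonoidHomClass.continuous_of_bound L0 1 fun g => ?_
        rw [one_mul]
        exact (ContinuousAlternatingMap.norm_curryLeft g).le
      let L : (Eu n [⋀^Fin (k + 1)]→L[ℝ] ℝ) →L[ℝ] (Eu n →L[ℝ] Eu n [⋀^Fin k]→L[ℝ] ℝ) := ⟨L0, hL⟩
      have hLs : ContDiff ℝ ∞ (fun g => L g) :=
        ContinuousLinearMap.contDiff (𝕜 := ℝ) (E := Eu n [⋀^Fin (k + 1)]→L[ℝ] ℝ)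
          (F := Eu n →L[ℝ] Eu n [⋀^Fin k]→L[ℝ] ℝ) L
      have h2 : ContDiffOn ℝ ∞ (fun y => L (f y)) N := hLs.comp_contDiffOn hf
      exact h2.clm_apply (hT 0)
    have h3 := ih (fun y => (f y).curryLeft (T 0 y)) (fun j => T j.succ) h1 fun j => hT j.succ
    refine h3.congr fun y _ => ?_
    rw [ContinuousAlternatingMap.curryLeft_apply_apply]
    congr 1
    funext j
    refine Fin.cases ?_ (fun i => ?_) j
    · rfl
    · rfl

theorem p_UPF (hAU1 : Stmt_AU1) (hAU2 : Stmt_AU2) (hRSZ : Stmt_RSZ) : Stmt_UPF := by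
  intro k U h Ω x₀ hU hM hΩ hx₀ hF
  obtain ⟨N, T, hN, hxN, hTs, hTi, hTw⟩ := hF
  have hUN : IsOpen (U ∩ N) := hU.inter hN
  have hM' : Metric (U ∩ N) h :=
    ⟨hM.smooth.mono inter_subset_left, fun x hx => hM.symm x hx.1, fun x hx => hM.pos x hx.1⟩
  have hTs' : ∀ j, ContDiffOn ℝ ∞ (T j) (U ∩ N) := fun j => (hTs j).mono inter_subset_right
  have hΩ' : ContDiffOn ℝ ∞ Ω (U ∩ N) := hΩ.mono inter_subset_left
  by_cases h0 : ∀ v, Ω x₀ (Fin.cons v fun j => T j x₀) = 0
  · obtain ⟨N', hN', hxN', hNU, hw⟩ := hAU2 k (U ∩ N) h Ω T x₀ hUN hM' hΩ'.continuousOn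
      (fun j => (hTs' j).continuousOn) ⟨hx₀, hxN⟩ hTi h0
    refine ⟨N', fun j _ => (EuclideanSpace.basisFun (Fin (k + 1 + 4)) ℝ).toBasis (Fin.castAdd 4 j),
      hN', hxN', fun j => contDiffOn_const, ?_, ?_⟩
    · exact (EuclideanSpace.basisFun (Fin (k + 1 + 4)) ℝ).toBasis.linearIndependent.comp
        (Fin.castAdd 4) (Fin.castAdd_injective (k + 1) 4)
    · intro y hy w hs j v
      rw [hw y hy w hs (hTw y (hNU hy).2 w hs)]
      rfl
  · push Not at h0
    obtain ⟨v₀, hv₀⟩ := h0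
    let θ : Eu (k + 1 + 4) → Eu (k + 1 + 4) →L[ℝ] ℝ := fun y =>
      (ContinuousAlternatingMap.apply ℝ (Eu (k + 1 + 4)) ℝ (fun j => T j y)).comp (Ω y).curryLeft
    have hθ : ∀ y v, θ y v = Ω y (Fin.cons v fun j => T j y) := fun y v => rfl
    have hθs : ContDiffOn ℝ ∞ θ (U ∩ N) := by
      rw [contDiffOn_clm_apply]
      intro v
      have h1 := UPF_app (U ∩ N) (k + 1) Ω (Fin.cons (fun _ => v) T) hΩ' (by
        intro j
        refine Fin.cases ?_ (fun i => ?_) j
        · exact contDiffOn_const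
        · exact hTs' i)
      refine h1.congr fun y _ => ?_
      rw [hθ]
      congr 1
      funext j
      refine Fin.cases ?_ (fun i => ?_) j
      · rfl
      · rfl
    obtain ⟨S, hSs, hS⟩ := hRSZ (k + 1 + 4) (U ∩ N) h θ hUN hM' hθs
    have hcT : ContinuousOn (fun y => fun j => T j y) (U ∩ N) :=
      continuousOn_pi.mpr fun j => (hTs' j).continuousOn
    have hopen := hcT.isOpen_inter_preimage hUN
      (isOpen_setOfPred_linearIndependent (𝕜 := ℝ) (E := Eu (k + 1 + 4)) (ι := Fin k))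
    have hST : ∀ t ∈ Submodule.span ℝ (range fun j => T j x₀), h x₀ (S x₀) t = 0 := by
      intro t ht
      induction ht using Submodule.span_induction with
      | mem x hx =>
        obtain ⟨j, rfl⟩ := hx
        rw [hS x₀ ⟨hx₀, hxN⟩, hθ]
        exact (Ω x₀).map_eq_zero_of_eq _ (i := 0) (j := j.succ) (by simp)
          (Fin.succ_ne_zero j).symm
      | zero => exact map_zero _
      | add x y _ _ hx hy => rw [map_add, hx, hy, add_zero]
      | smul a x _ hx => rw [map_smul, hx, smul_zero]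
    refine ⟨(U ∩ N) ∩ (fun y => fun j => T j y) ⁻¹' {f | LinearIndependent ℝ f}, Fin.cons S T,
      hopen, ⟨⟨hx₀, hxN⟩, hTi⟩, ?_, ?_, ?_⟩
    · intro j
      refine Fin.cases ?_ (fun i => ?_) j
      · exact hSs.mono inter_subset_left
      · exact (hTs' i).mono inter_subset_left
    · have h1 : (fun j => (Fin.cons S T : Fin (k + 1) → Eu (k + 1 + 4) → Eu (k + 1 + 4)) j x₀) =
          (Fin.cons (S x₀) (fun j => T j x₀) : Fin (k + 1) → Eu (k + 1 + 4)) := by
        funext j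
        refine Fin.cases ?_ (fun i => ?_) j
        · rfl
        · rfl
      rw [h1, linearIndependent_finCons]
      refine ⟨hTi, fun hmem => ?_⟩
      have h2 := hST _ hmem
      have h3 : S x₀ = 0 := by
        by_contra hne
        exact absurd h2 (hM.pos x₀ hx₀ _ hne).ne'
      apply hv₀
      rw [← hθ, ← hS x₀ ⟨hx₀, hxN⟩, h3]
      simp
    · intro y hy w hs j v
      refine Fin.cases ?_ (fun i => ?_) j
      · exact hAU1 k (h y) (hM.symm y hy.1.1) (hM.pos y hy.1.1) (Ω y) w (fun j => T j y) (S y) hs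
          hy.2 (fun i v => hTw y hy.1.2 w hs i v) (fun v => by rw [hS y hy.1, hθ]) v
      · exact hTw y hy.1.2 w hs i v

end Pool.TIA
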