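import Pool.Agent.Work.MP_a1f430_ti.Interface

/-! # Block WCL: weak derivatives and continuous linear maps -/

set_option autoImplicit false

namespace Pool.TIA

open MeasureTheory Set Filter Topology
open scoped ContDiff ENNReal

theorem WCL_int {E X : Type} [NormedAddCommGroup E] [NormedSpace ℝ E]
    [MeasureSpace E] [BorelSpace E] [FiniteDimensional ℝ E]
    [(volume : Measure E).IsAddHaarMeasure]
    [NormedAddCommGroup X] [NormedSpace ℝ X] (W : Set E) (g : E → X) (hg : L2loc W g)
    (ψ : E → ℝ) (hψ : Continuous ψ) (K : Set E) (hK : IsCompact K) (hKW : K ⊆ W)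
    (hs : Function.support ψ ⊆ K) : Integrable (fun x => ψ x • g x) := by
  have h1 : MemLp g 2 (volume.restrict K) := hg K hK hKW
  haveI : IsFiniteMeasure ((volume : Measure E).restrict K) :=
    ⟨by simpa using hK.measure_lt_top⟩
  have h2 : IntegrableOn g K := h1.integrable (by norm_num)
  have h3 : IntegrableOn (fun x => ψ x • g x) K := h2.continuousOn_smul hψ.continuousOn hK
  refine (integrableOn_iff_integrable_of_support_subset ?_).1 h3
  intro x hx
  refine hs ?_
  intro h0
  apply hx
  show ψ x • g x = 0
  rw [h0, zero_smul]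

theorem p_WCL : Stmt_WCL := by
  intro E X Y _ _ _ _ _ _ _ _ _ _ _ _ T W g dg _ hg hdg hwd
  haveI : CompleteSpace X := FiniteDimensional.complete ℝ X
  haveI : CompleteSpace Y := FiniteDimensional.complete ℝ Y
  refine ⟨fun K hK hKW => T.comp_memLp' (hg K hK hKW),
    fun K hK hKW => (ContinuousLinearMap.compL ℝ E X Y T).comp_memLp' (hdg K hK hKW), ?_⟩
  intro φ hφ v
  have hc : Continuous φ := hφ.smooth.continuous
  have hd : Continuous (fun x => fderiv ℝ φ x v) :=
    (hφ.smooth.continuous_fderiv (by simp)).clm_apply continuous_const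
  have hs1 : Function.support φ ⊆ tsupport φ := subset_tsupport φ
  have hs2 : Function.support (fun x => fderiv ℝ φ x v) ⊆ tsupport φ := by
    intro x hx
    have hx' : fderiv ℝ φ x ≠ 0 := by
      intro h0
      apply hx
      show fderiv ℝ φ x v = 0
      rw [h0]
      rfl
    exact support_fderiv_subset ℝ hx'
  have i1 : Integrable (fun x => fderiv ℝ φ x v • g x) :=
    WCL_int W g hg _ hd (tsupport φ) hφ.cpt hφ.sub hs2
  have hdgv : L2loc W (fun x => dg x v) := fun K hK hKW =>
    (ContinuousLinearMap.apply ℝ X v).comp_memLp' (hdg K hK hKW)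
  have i2 : Integrable (fun x => φ x • dg x v) :=
    WCL_int W _ hdgv _ hc (tsupport φ) hφ.cpt hφ.sub hs1
  have h := congrArg T (hwd φ hφ v)
  rw [map_neg, ← T.integral_comp_comm i1, ← T.integral_comp_comm i2] at h
  simpa only [map_smul, ContinuousLinearMap.comp_apply] using h

end Pool.TIA
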