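import Pool.Agent.Work.MP_a1f430_ti.B_LIE
import Pool.Agent.Work.MP_a1f430_ti.B_INVG
import Pool.Agent.Work.MP_a1f430_ti.B_NEM
import Pool.Agent.Work.MP_a1f430_ti.B_FLS
import Pool.Agent.Work.MP_a1f430_ti.B_FLW
import Pool.Agent.Work.MP_a1f430_ti.B_CUT
import Pool.Agent.Work.MP_a1f430_ti.B_FBX
import Pool.Agent.Work.MP_a1f430_ti.B_LOD
import Pool.Agent.Work.MP_a1f430_ti.B_MOA
import Pool.Agent.Work.MP_a1f430_ti.B_MOT
import Pool.Agent.Work.MP_a1f430_ti.B_APG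
import Pool.Agent.Work.MP_a1f430_ti.B_APC
import Pool.Agent.Work.MP_a1f430_ti.B_CLG
import Pool.Agent.Work.MP_a1f430_ti.B_CLC
import Pool.Agent.Work.MP_a1f430_ti.B_WCL
import Pool.Agent.Work.MP_a1f430_ti.B_PRD
import Pool.Agent.Work.MP_a1f430_ti.B_GDF
import Pool.Agent.Work.MP_a1f430_ti.B_GSM
import Pool.Agent.Work.MP_a1f430_ti.B_GTR
import Pool.Agent.Work.MP_a1f430_ti.B_CVR
import Pool.Agent.Work.MP_a1f430_ti.B_PBW
import Pool.Agent.Work.MP_a1f430_ti.B_PBC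
import Pool.Agent.Work.MP_a1f430_ti.B_PBG
import Pool.Agent.Work.MP_a1f430_ti.B_PBI
import Pool.Agent.Work.MP_a1f430_ti.B_SUB
import Pool.Agent.Work.MP_a1f430_ti.B_SLI
import Pool.Agent.Work.MP_a1f430_ti.B_SLG
import Pool.Agent.Work.MP_a1f430_ti.B_EXT
import Pool.Agent.Work.MP_a1f430_ti.B_EXG
import Pool.Agent.Work.MP_a1f430_ti.B_KB
import Pool.Agent.Work.MP_a1f430_ti.B_KC
import Pool.Agent.Work.MP_a1f430_ti.B_KA
import Pool.Agent.Work.MP_a1f430_ti.B_KT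
import Pool.Agent.Work.MP_a1f430_ti.B_SMC
import Pool.Agent.Work.MP_a1f430_ti.B_IVT
import Pool.Agent.Work.MP_a1f430_ti.B_INV
import Pool.Agent.Work.MP_a1f430_ti.B_CRV
import Pool.Agent.Work.MP_a1f430_ti.B_HMP
import Pool.Agent.Work.MP_a1f430_ti.B_MFL
import Pool.Agent.Work.MP_a1f430_ti.B_FRM
import Pool.Agent.Work.MP_a1f430_ti.B_AL1
import Pool.Agent.Work.MP_a1f430_ti.B_AL2
import Pool.Agent.Work.MP_a1f430_ti.B_AL3
import Pool.Agent.Work.MP_a1f430_ti.B_AL4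
import Pool.Agent.Work.MP_a1f430_ti.B_DSK
import Pool.Agent.Work.MP_a1f430_ti.B_DSM
import Pool.Agent.Work.MP_a1f430_ti.B_FDS
import Pool.Agent.Work.MP_a1f430_ti.B_FRE
import Pool.Agent.Work.MP_a1f430_ti.B_AU0
import Pool.Agent.Work.MP_a1f430_ti.B_AU1
import Pool.Agent.Work.MP_a1f430_ti.B_AU2
import Pool.Agent.Work.MP_a1f430_ti.B_RSZ
import Pool.Agent.Work.MP_a1f430_ti.B_UPF
import Pool.Agent.Work.MP_a1f430_ti.B_LFN
import Pool.Agent.Work.MP_a1f430_ti.B_GEN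
import Pool.Agent.Work.MP_a1f430_ti.B_DFL

/-! # Singular sets of weak Omega-self-dual curvatures: assembly (MP_a1f430) -/

set_option autoImplicit false

namespace Pool.TIA

theorem a_LIE : Stmt_LIE := p_LIE
theorem a_INVG : Stmt_INVG := p_INVG a_LIE
theorem a_NEM : Stmt_NEM := p_NEM
theorem a_FLS : Stmt_FLS := p_FLS a_NEM
theorem a_FLW : Stmt_FLW := p_FLW a_FLS
theorem a_CUT : Stmt_CUT := p_CUT
theorem a_FBX : Stmt_FBX := p_FBX a_FLW a_CUT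
theorem a_LOD : Stmt_LOD := p_LOD a_LIE a_INVG a_FLW
theorem a_MOA : Stmt_MOA := p_MOA
theorem a_MOT : Stmt_MOT := p_MOT a_MOA
theorem a_APG : Stmt_APG := p_APG a_MOA a_MOT
theorem a_APC : Stmt_APC := p_APC a_MOA a_MOT
theorem a_CLG : Stmt_CLG := p_CLG
theorem a_CLC : Stmt_CLC := p_CLC
theorem a_WCL : Stmt_WCL := p_WCL
theorem a_PRD : Stmt_PRD := p_PRD a_APG a_CLG
theorem a_GDF : Stmt_GDF := p_GDF a_LIE
theorem a_GSM : Stmt_GSM := p_GSM a_LIE a_WCL a_GDF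
theorem a_GTR : Stmt_GTR := p_GTR a_LIE a_PRD a_GDF
theorem a_CVR : Stmt_CVR := p_CVR
theorem a_PBW : Stmt_PBW := p_PBW a_APG a_CLG a_CVR
theorem a_PBC : Stmt_PBC := p_PBC a_APC a_CLC a_CVR
theorem a_PBG : Stmt_PBG := p_PBG a_LIE a_CVR a_PBW
theorem a_PBI : Stmt_PBI := p_PBI
theorem a_SUB : Stmt_SUB := p_SUB
theorem a_SLI : Stmt_SLI := p_SLI a_APG a_CLG a_SUB
theorem a_SLG : Stmt_SLG := p_SLG a_LIE a_GDF a_SLI
theorem a_EXT : Stmt_EXT := p_EXT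
theorem a_EXG : Stmt_EXG := p_EXG a_EXT
theorem a_KB : Stmt_KB := p_KB a_LIE
theorem a_KC : Stmt_KC := p_KC a_LIE
theorem a_KA : Stmt_KA := p_KA a_APC a_SUB
theorem a_KT : Stmt_KT := p_KT a_LIE a_LOD a_CLG a_GDF a_KB a_KC a_KA
theorem a_SMC : Stmt_SMC := p_SMC
theorem a_IVT : Stmt_IVT := p_IVT a_GSM a_GTR a_SLG a_EXG a_KT a_SMC
theorem a_INV : Stmt_INV := p_INV a_FBX a_CVR a_PBC a_PBG a_PBI a_IVT
theorem a_CRV : Stmt_CRV := p_CRV a_INV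
theorem a_HMP : Stmt_HMP := p_HMP
theorem a_MFL : Stmt_MFL := p_MFL a_FLW a_CUT
theorem a_FRM : Stmt_FRM := p_FRM
theorem a_AL1 : Stmt_AL1 := p_AL1 a_FRM
theorem a_AL2 : Stmt_AL2 := p_AL2 a_FRM
theorem a_AL3 : Stmt_AL3 := p_AL3
theorem a_AL4 : Stmt_AL4 := p_AL4
theorem a_DSK : Stmt_DSK := p_DSK a_CRV a_MFL
theorem a_DSM : Stmt_DSM := p_DSM a_HMP
theorem a_FDS : Stmt_FDS := p_FDS a_DSK a_DSM a_AL1 a_AL2 a_AL3
theorem a_FRE : Stmt_FRE := p_FRE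
theorem a_AU0 : Stmt_AU0 := p_AU0 a_FRE
theorem a_AU1 : Stmt_AU1 := p_AU1 a_AU0
theorem a_AU2 : Stmt_AU2 := p_AU2 a_AU0
theorem a_RSZ : Stmt_RSZ := p_RSZ
theorem a_UPF : Stmt_UPF := p_UPF a_AU1 a_AU2 a_RSZ
theorem a_LFN : Stmt_LFN := p_LFN
theorem a_GEN : Stmt_GEN := p_GEN a_DSK a_LFN
theorem a_DFL : Stmt_DFL := p_DFL a_AL1 a_AL2 a_AL3

end Pool.TIA
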