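import Pool.Agent.Work.MP_a1f430_ti.Interface2
import Pool.Agent.Work.MP_a1f430_ti.B_KT

set_option autoImplicit false

namespace Pool.TIA

open MeasureTheory Set Filter Topology
open scoped ContDiff ENNReal

/-- the curvature of the restriction to a slice -/
theorem KT2_cur {V 𝔐 : Type} [NormedAddCommGroup V] [NormedSpace ℝ V] [NormedRing 𝔐]
    [NormedAlgebra ℝ 𝔐] (B : V × ℝ → V × ℝ →L[ℝ] 𝔐) (hB : ContDiff ℝ ∞ B) (t : ℝ) (y u v : V) :
    cur (rs1 B t) y u v = cur B (y, t) (u, 0) (v, 0) := by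
  have h1 : HasFDerivAt B (fderiv ℝ B (y, t)) (y, t) :=
    ((hB.differentiable (by simp)).differentiableAt).hasFDerivAt
  have h2 : HasFDerivAt (fun z : V => ((z, t) : V × ℝ)) (ContinuousLinearMap.inl ℝ V ℝ) y := by
    have := (hasFDerivAt_id (𝕜 := ℝ) y).prodMk (hasFDerivAt_const (𝕜 := ℝ) t y)
    exact this
  have h3 : HasFDerivAt (fun z : V => B (z, t))
      ((fderiv ℝ B (y, t)).comp (ContinuousLinearMap.inl ℝ V ℝ)) y := h1.comp y h2
  have h4 : HasFDerivAt (rs1 B t) (((ContinuousLinearMap.compL ℝ V (V × ℝ) 𝔐).flip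
      (ContinuousLinearMap.inl ℝ V ℝ)).comp
      ((fderiv ℝ B (y, t)).comp (ContinuousLinearMap.inl ℝ V ℝ))) y :=
    (((ContinuousLinearMap.compL ℝ V (V × ℝ) 𝔐).flip
      (ContinuousLinearMap.inl ℝ V ℝ)).hasFDerivAt).comp y h3
  unfold cur
  rw [h4.fderiv]
  simp [rs1]

theorem p_KT2 (hLIE : Stmt_LIE) (hLOD : Stmt_LOD) (hCLG : Stmt_CLG) (hCLC : Stmt_CLC)
    (hGDF : Stmt_GDF) (hKB : Stmt_KB) (hKC : Stmt_KC) (hKA : Stmt_KA2) : Stmt_KT2 := by
  intro 𝔐 _ _ _ _ _ _ 𝒢 V _ _ _ _ _ _ W A F K a b hW hC hK hab hKW hF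
  obtain ⟨-, hG1, hGn⟩ := hLIE 𝔐 𝒢
  obtain ⟨B, t₀, ht₀, hBs, hBc, hBl, hB2, hAm, hAl, hBt, hBC, hBF, hFm, hFt⟩ :=
    hKA 𝔐 𝒢 V W A F K a b hW hC hK hab hKW hF
  -- the solutions
  have hsol : ∀ j, ∃ g : V × ℝ → 𝔐, ContDiff ℝ ∞ g ∧ (∀ y, g (y, t₀) = 1) ∧
      (∀ y t, HasDerivAt (fun s => g (y, s)) (-(B j (y, t) (0, 1) * g (y, t))) t) ∧
      ∀ p, g p ∈ 𝒢.G := by
    intro j
    refine hLOD 𝔐 𝒢 V (fun p => B j p (0, 1)) t₀ ?_ ?_ (fun p => hBl j p _)
    · exact (hBs j).clm_apply contDiff_const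
    · exact (hBc j).comp_left (g := fun T : V × ℝ →L[ℝ] 𝔐 => T (0, 1)) rfl
  choose g hgs hg1 hgd hgG using hsol
  set Q : Set (V × ℝ) := K ×ˢ Icc a b with hQ
  set μ : Measure (V × ℝ) := volume.restrict Q with hμ
  set μK : Measure V := volume.restrict K with hμK
  set μI : Measure ℝ := volume.restrict (Icc a b) with hμI
  have hQc : IsCompact Q := hK.prod isCompact_Icc
  have hKm : MeasurableSet K := hK.measurableSet
  have hprod : μ = μK.prod μI := by
    rw [hμ, hμK, hμI, hQ, Measure.volume_eq_prod, Measure.prod_restrict]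
  have hfK : IsFiniteMeasure μK := ⟨by rw [hμK]; simpa using hK.measure_lt_top⟩
  have hfI : IsFiniteMeasure μI := ⟨by rw [hμI]; simp⟩
  have hfQ : IsFiniteMeasure μ := by rw [hprod]; infer_instance
  have hae : ∀ P : V → Prop, (∀ᵐ y ∂μK, P y) → ∀ᵐ p ∂μ, P p.1 := by
    intro P hP
    rw [hprod]
    exact Measure.quasiMeasurePreserving_fst.ae hP
  have hmemQ : ∀ᵐ p ∂μ, p ∈ Q := ae_restrict_mem hQc.measurableSet
  have hn01 : ‖((0 : V), (1 : ℝ))‖ = 1 := by
    rw [Prod.norm_def]
    simp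
  -- convergence of the solutions
  have hcv : ∀ᵐ p ∂μ, ∃ l, Tendsto (fun j => g j p) atTop (𝓝 l) := by
    filter_upwards [hae _ hBC, hmemQ] with p hp hpQ
    apply cauchySeq_tendsto_of_complete
    rw [cauchySeq_iff_tendsto_dist_atTop_0]
    refine squeeze_zero (fun _ => dist_nonneg) (fun q => ?_) hp
    rw [dist_eq_norm]
    have hcont : ∀ j, Continuous fun s : ℝ => B j (p.1, s) := fun j =>
      (hBs j).continuous.comp (by fun_prop)
    have h1 := hKC 𝔐 𝒢 (fun s => B q.1 (p.1, s) (0, 1)) (fun s => B q.2 (p.1, s) (0, 1))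
      (fun s => g q.1 (p.1, s)) (fun s => g q.2 (p.1, s)) a b t₀
      ((hcont q.1).clm_apply continuous_const) ((hcont q.2).clm_apply continuous_const)
      (fun t => ⟨hBl q.1 _ _, hBl q.2 _ _⟩) (fun t => ⟨hgG q.1 _, hgG q.2 _⟩) (hg1 q.1 _)
      (hg1 q.2 _) (fun t => hgd q.1 _ t) (fun t => hgd q.2 _ t) ht₀ p.2 hpQ.2
    refine h1.trans ?_
    refine integral_mono_of_nonneg (Eventually.of_forall fun _ => norm_nonneg _) ?_
      (Eventually.of_forall fun s => ?_)
    · exact (((hcont q.1).sub (hcont q.2)).norm.continuousOn).integrableOn_compact isCompact_Icc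
    · have := (B q.1 (p.1, s) - B q.2 (p.1, s)).le_opNorm (0, 1)
      rw [hn01, mul_one] at this
      simpa using this
  set gl : V × ℝ → 𝔐 := fun p => limUnder atTop fun j => g j p with hgl
  have hlim : ∀ᵐ p ∂μ, Tendsto (fun j => g j p) atTop (𝓝 (gl p)) := by
    filter_upwards [hcv] with p hp
    exact tendsto_nhds_limUnder hp
  have hgm : ∀ j, AEStronglyMeasurable (g j) μ := fun j =>
    (hgs j).continuous.aestronglyMeasurable
  have hglm : AEStronglyMeasurable gl μ := aestronglyMeasurable_of_tendsto_ae atTop hgm hlim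
  have hglG : ∀ᵐ p ∂μ, gl p ∈ 𝒢.G := by
    filter_upwards [hlim] with p hp
    exact 𝒢.closed.mem_of_tendsto hp (Eventually.of_forall fun j => hgG j p)
  have hgn : ∀ j p, ‖g j p‖ ≤ 1 := fun j p => hG1 _ (hgG j p)
  have hgln : ∀ᵐ p ∂μ, ‖gl p‖ ≤ 1 := by
    filter_upwards [hglG] with p hp
    exact hG1 _ hp
  -- the limit forms
  set B₀ : V → V →L[ℝ] 𝔐 := rs1 A t₀ with hB₀
  set dg : V × ℝ → V × ℝ →L[ℝ] 𝔐 := fun p =>
    (ContinuousLinearMap.mul ℝ 𝔐 (gl p)).comp (pr1 B₀ p) -
      ((ContinuousLinearMap.mul ℝ 𝔐).flip (gl p)).comp (A p) with hdg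
  have hdgv : ∀ p v, dg p v = gl p * A (p.1, t₀) (v.1, 0) - A p v * gl p := by
    intro p v
    simp [hdg, hB₀, pr1, rs1]
  have hA2 : MemLp A 2 μ := hC.A2 Q hQc hKW
  have hAt2 : MemLp (fun p : V × ℝ => A (p.1, t₀)) 2 μ := by
    rw [hprod]
    exact hAm.comp_fst μI
  have hB₀2 : MemLp B₀ 2 μK := by
    refine MemLp.of_le_mul (c := ‖ContinuousLinearMap.inl ℝ V ℝ‖) hAm ?_
      (Eventually.of_forall fun y => ?_)
    · exact ((ContinuousLinearMap.compL ℝ V (V × ℝ) 𝔐).flip
        (ContinuousLinearMap.inl ℝ V ℝ)).continuous.comp_aestronglyMeasurable hAm.1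
    · rw [mul_comm]
      exact ContinuousLinearMap.opNorm_comp_le _ _
  have hdg2 : MemLp dg 2 μ := by
    have e1 : MemLp (fun p => (ContinuousLinearMap.mul ℝ 𝔐 (gl p)).comp (pr1 B₀ p)) 2 μ := by
      have hp1 : MemLp (fun p : V × ℝ => pr1 B₀ p) 2 μ := by
        have h2 : MemLp (fun p : V × ℝ => B₀ p.1) 2 μ := by
          rw [hprod]
          exact hB₀2.comp_fst μI
        refine MemLp.of_le_mul (c := ‖ContinuousLinearMap.fst ℝ V ℝ‖) h2 ?_
          (Eventually.of_forall fun y => ?_)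
        · exact ((ContinuousLinearMap.compL ℝ (V × ℝ) V 𝔐).flip
            (ContinuousLinearMap.fst ℝ V ℝ)).continuous.comp_aestronglyMeasurable h2.1
        · rw [mul_comm]
          exact ContinuousLinearMap.opNorm_comp_le _ _
      refine MemLp.of_le_mul (c := ‖ContinuousLinearMap.mul ℝ 𝔐‖) hp1 ?_ ?_
      · have hc : Continuous fun q : 𝔐 × (V × ℝ →L[ℝ] 𝔐) =>
            (ContinuousLinearMap.mul ℝ 𝔐 q.1).comp q.2 := by fun_prop
        exact hc.comp_aestronglyMeasurable (hglm.prodMk hp1.1)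
      · filter_upwards [hgln] with p hp
        refine (ContinuousLinearMap.opNorm_comp_le _ _).trans ?_
        refine mul_le_mul_of_nonneg_right ?_ (norm_nonneg _)
        refine ((ContinuousLinearMap.mul ℝ 𝔐).le_opNorm _).trans ?_
        exact mul_le_of_le_one_right (norm_nonneg _) hp
    have e2 : MemLp (fun p => ((ContinuousLinearMap.mul ℝ 𝔐).flip (gl p)).comp (A p)) 2 μ := by
      refine MemLp.of_le_mul (c := ‖(ContinuousLinearMap.mul ℝ 𝔐).flip‖) hA2 ?_ ?_
      · have hc : Continuous fun q : 𝔐 × (V × ℝ →L[ℝ] 𝔐) =>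
            ((ContinuousLinearMap.mul ℝ 𝔐).flip q.1).comp q.2 := by fun_prop
        exact hc.comp_aestronglyMeasurable (hglm.prodMk hA2.1)
      · filter_upwards [hgln] with p hp
        refine (ContinuousLinearMap.opNorm_comp_le _ _).trans ?_
        refine mul_le_mul_of_nonneg_right ?_ (norm_nonneg _)
        refine ((ContinuousLinearMap.mul ℝ 𝔐).flip.le_opNorm _).trans ?_
        exact mul_le_of_le_one_right (norm_nonneg _) hp
    exact e1.sub e2
  have hsub : ∀ K' : Set (V × ℝ), K' ⊆ interior K ×ˢ Ioo a b → volume.restrict K' ≤ μ := by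
    intro K' hK'
    refine Measure.restrict_mono (hK'.trans ?_) le_rfl
    exact prod_mono interior_subset Ioo_subset_Icc_self
  have hgb : MemLp gl 2 μ := MemLp.of_bound hglm 1 hgln
  -- L¹ convergence
  have hL1g : Tendsto (fun j => eLpNorm (fun p => g j p - gl p) 1 μ) atTop (𝓝 0) := by
    refine KT_dct μ g gl (fun _ => 2) hgm hglm (integrable_const _) ?_ hlim
    intro j
    filter_upwards [hgln] with p hp
    calc ‖g j p - gl p‖ ≤ ‖g j p‖ + ‖gl p‖ := norm_sub_le _ _
      _ ≤ 2 := by linarith [hgn j p]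
  have hL1d : ∀ v, Tendsto (fun j => eLpNorm (fun p => fderiv ℝ (g j) p v - dg p v) 1 μ)
      atTop (𝓝 0) := by
    intro v
    set R : ℕ → V → ℝ := fun j y => ∫ s, ‖cur (B j) (y, s) (0, 1) (v.1, 0)‖ ∂μI with hR
    have hcc : ∀ j, Continuous fun p : V × ℝ => cur (B j) p (0, 1) (v.1, 0) := by
      intro j
      have h1 : Continuous (B j) := (hBs j).continuous
      have h2 : Continuous (fderiv ℝ (B j)) := (hBs j).continuous_fderiv (by simp)
      unfold cur
      fun_prop
    have hRi : ∀ j, Integrable (R j) μK := by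
      intro j
      have h1 : Integrable (fun p : V × ℝ => ‖cur (B j) p (0, 1) (v.1, 0)‖) (μK.prod μI) := by
        rw [← hprod]
        exact ((hcc j).norm.continuousOn).integrableOn_compact hQc
      exact h1.integral_prod_left
    have hR0 : ∀ j y, 0 ≤ R j y := fun j y => integral_nonneg fun _ => norm_nonneg _
    have hRt : Tendsto (fun j => eLpNorm (fun p : V × ℝ => R j p.1) 1 μ) atTop (𝓝 0) := by
      have h1 : ∀ j, eLpNorm (fun p : V × ℝ => R j p.1) 1 μ =
          μI univ * ENNReal.ofReal (∫ y, R j y ∂μK) := by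
        intro j
        rw [hprod, KT_fst μK μI (R j) (hRi j).1, eLpNorm_one_eq_lintegral_enorm,
          ← ofReal_integral_norm_eq_lintegral_enorm (hRi j)]
        congr 3
        funext y
        rw [Real.norm_eq_abs, abs_of_nonneg (hR0 j y)]
      simp only [h1]
      have h2 := ENNReal.tendsto_ofReal (hBF v.1)
      rw [ENNReal.ofReal_zero] at h2
      have h3 := ENNReal.Tendsto.const_mul h2 (a := μI univ) (Or.inr (measure_ne_top _ _))
      simpa using h3
    -- the terms
    have hAtm : AEStronglyMeasurable (fun p : V × ℝ => A (p.1, t₀)) μ := hAt2.1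
    have hT1 : Tendsto (fun j => eLpNorm (fun p : V × ℝ =>
        ‖v‖ * ‖B j (p.1, t₀) - A (p.1, t₀)‖) 1 μ) atTop (𝓝 0) := by
      refine KT_cn μ ‖v‖ (fun j p => B j (p.1, t₀) - A (p.1, t₀)) ?_
      have hmm : ∀ j, AEStronglyMeasurable (fun y => B j (y, t₀) - A (y, t₀)) μK := fun j =>
        ((hBs j).continuous.comp (by fun_prop : Continuous fun y : V =>
          (y, t₀))).aestronglyMeasurable.sub hAm.1
      have h1 : ∀ j, eLpNorm (fun p : V × ℝ => B j (p.1, t₀) - A (p.1, t₀)) 1 μ =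
          μI univ * eLpNorm (fun y => B j (y, t₀) - A (y, t₀)) 1 μK := by
        intro j
        rw [hprod]
        exact KT_fst μK μI (fun y => B j (y, t₀) - A (y, t₀)) (hmm j)
      simp only [h1]
      have h2 := KT_21 μK (fun j y => B j (y, t₀) - A (y, t₀)) hmm hBt
      have h3 := ENNReal.Tendsto.const_mul h2 (a := μI univ) (Or.inr (measure_ne_top _ _))
      simpa using h3
    have hT3 : Tendsto (fun j => eLpNorm (fun p : V × ℝ => ‖v‖ * ‖B j p - A p‖) 1 μ)
        atTop (𝓝 0) := by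
      refine KT_cn μ ‖v‖ (fun j p => B j p - A p) ?_
      exact KT_21 μ (fun j p => B j p - A p)
        (fun j => (hBs j).continuous.aestronglyMeasurable.sub hA2.1) hB2
    have hT2 : Tendsto (fun j => eLpNorm (fun p : V × ℝ =>
        (‖v‖ * (‖A (p.1, t₀)‖ + ‖A p‖)) * ‖g j p - gl p‖) 1 μ) atTop (𝓝 0) := by
      have hi1 : Integrable (fun p : V × ℝ => ‖A (p.1, t₀)‖) μ :=
        (hAt2.integrable (by norm_num)).norm
      have hi2 : Integrable (fun p : V × ℝ => ‖A p‖) μ := (hA2.integrable (by norm_num)).norm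
      have h0 := KT_dct μ (fun j p => (‖v‖ * (‖A (p.1, t₀)‖ + ‖A p‖)) * ‖g j p - gl p‖)
        (fun _ => 0) (fun p => (‖v‖ * (‖A (p.1, t₀)‖ + ‖A p‖)) * 2)
        (fun j => ((hi1.add hi2).const_mul ‖v‖).1.mul ((hgm j).sub hglm).norm)
        aestronglyMeasurable_const (((hi1.add hi2).const_mul ‖v‖).mul_const 2) ?_ ?_
      · simpa only [sub_zero] using h0
      · intro j
        filter_upwards [hgln] with p hp
        rw [sub_zero, Real.norm_eq_abs, abs_of_nonneg (by positivity)]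
        refine mul_le_mul_of_nonneg_left ?_ (by positivity)
        calc ‖g j p - gl p‖ ≤ ‖g j p‖ + ‖gl p‖ := norm_sub_le _ _
          _ ≤ 2 := by linarith [hgn j p]
      · filter_upwards [hlim] with p hp
        have h1 : Tendsto (fun j => g j p - gl p) atTop (𝓝 0) := by
          have := hp.sub_const (gl p)
          simpa using this
        have h2 := h1.norm.const_mul (‖v‖ * (‖A (p.1, t₀)‖ + ‖A p‖))
        simpa using h2
    have hm1 : ∀ j, AEStronglyMeasurable (fun p : V × ℝ =>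
        ‖v‖ * ‖B j (p.1, t₀) - A (p.1, t₀)‖) μ := fun j =>
      ((((hBs j).continuous.comp (by fun_prop : Continuous fun p : V × ℝ =>
        (p.1, t₀))).aestronglyMeasurable.sub hAtm).norm).const_mul _
    have hm3 : ∀ j, AEStronglyMeasurable (fun p : V × ℝ => ‖v‖ * ‖B j p - A p‖) μ := fun j =>
      (((hBs j).continuous.aestronglyMeasurable.sub hA2.1).norm).const_mul _
    have hm2 : ∀ j, AEStronglyMeasurable (fun p : V × ℝ =>
        (‖v‖ * (‖A (p.1, t₀)‖ + ‖A p‖)) * ‖g j p - gl p‖) μ := fun j =>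
      ((hAtm.norm.add hA2.1.norm).const_mul ‖v‖).mul ((hgm j).sub hglm).norm
    have hm4 : ∀ j, AEStronglyMeasurable (fun p : V × ℝ => R j p.1) μ := by
      intro j
      rw [hprod]
      exact (hRi j).1.comp_fst
    have hS12 := KT_add μ _ _ hm1 hm2 hT1 hT2
    have hS123 := KT_add μ _ _ (fun j => (hm1 j).add (hm2 j)) hm3 hS12 hT3
    have hS := KT_add μ _ _ (fun j => ((hm1 j).add (hm2 j)).add (hm3 j)) hm4 hS123 hRt
    refine tendsto_of_tendsto_of_tendsto_of_le_of_le tendsto_const_nhds hS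
      (fun _ => zero_le) fun j => ?_
    refine eLpNorm_mono_ae ?_
    filter_upwards [hmemQ] with p hp
    have hv1 : ‖((v.1, 0) : V × ℝ)‖ ≤ ‖v‖ := by
      rw [Prod.norm_def, Prod.norm_def]
      simp
    have hw := hKB 𝔐 𝒢 V (B j) (g j) a b t₀ (hBs j) (hBl j) (hgs j) (hgG j) (hg1 j) (hgd j) ht₀
      p.1 v.1 p.2 hp.2
    have hdt : fderiv ℝ (g j) p (0, 1) = -(B j p (0, 1) * g j p) := by
      have h1 : HasFDerivAt (g j) (fderiv ℝ (g j) p) p :=
        ((hgs j).differentiable (by simp)).differentiableAt.hasFDerivAt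
      have h2 : HasDerivAt (fun s : ℝ => ((p.1, s) : V × ℝ)) (0, 1) p.2 :=
        (hasDerivAt_const p.2 p.1).prodMk (hasDerivAt_id p.2)
      have h3 := h1.comp_hasDerivAt p.2 h2
      exact h3.unique (hgd j p.1 p.2)
    have hvv : v = (v.1, 0) + v.2 • ((0 : V), (1 : ℝ)) := by
      ext <;> simp
    have hfd : fderiv ℝ (g j) p v = fderiv ℝ (g j) p (v.1, 0) -
        v.2 • (B j p (0, 1) * g j p) := by
      conv_lhs => rw [hvv]
      rw [map_add, map_smul, hdt, smul_neg, sub_eq_add_neg]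
    have hBv : B j p v = B j p (v.1, 0) + v.2 • B j p (0, 1) := by
      conv_lhs => rw [hvv]
      rw [map_add, map_smul]
    set w : 𝔐 := fderiv ℝ (g j) p (v.1, 0) -
      (g j p * B j (p.1, t₀) (v.1, 0) - B j p (v.1, 0) * g j p) with hwdef
    have hid : fderiv ℝ (g j) p v - dg p v =
        g j p * ((B j (p.1, t₀) - A (p.1, t₀)) (v.1, 0)) +
        ((g j p - gl p) * A (p.1, t₀) (v.1, 0)) - ((B j p - A p) v * g j p) -
        (A p v * (g j p - gl p)) + w := by
      rw [hfd, hdgv, hwdef]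
      simp only [ContinuousLinearMap.sub_apply]
      rw [hBv]
      simp only [mul_sub, sub_mul, add_mul, smul_mul_assoc]
      abel
    rw [hid]
    have n1 : ‖g j p * ((B j (p.1, t₀) - A (p.1, t₀)) (v.1, 0))‖ ≤
        ‖v‖ * ‖B j (p.1, t₀) - A (p.1, t₀)‖ := by
      rw [(hGn _ (hgG j p) _).1, mul_comm ‖v‖]
      exact (ContinuousLinearMap.le_opNorm _ _).trans
        (mul_le_mul_of_nonneg_left hv1 (norm_nonneg _))
    have n2 : ‖(g j p - gl p) * A (p.1, t₀) (v.1, 0)‖ ≤
        (‖v‖ * ‖A (p.1, t₀)‖) * ‖g j p - gl p‖ := by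
      refine (norm_mul_le _ _).trans ?_
      rw [mul_comm]
      refine mul_le_mul_of_nonneg_right ?_ (norm_nonneg _)
      rw [mul_comm ‖v‖]
      exact (ContinuousLinearMap.le_opNorm _ _).trans
        (mul_le_mul_of_nonneg_left hv1 (norm_nonneg _))
    have n3 : ‖(B j p - A p) v * g j p‖ ≤ ‖v‖ * ‖B j p - A p‖ := by
      rw [(hGn _ (hgG j p) _).2, mul_comm ‖v‖]
      exact ContinuousLinearMap.le_opNorm _ _
    have n4 : ‖A p v * (g j p - gl p)‖ ≤ (‖v‖ * ‖A p‖) * ‖g j p - gl p‖ := by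
      refine (norm_mul_le _ _).trans ?_
      refine mul_le_mul_of_nonneg_right ?_ (norm_nonneg _)
      rw [mul_comm ‖v‖]
      exact ContinuousLinearMap.le_opNorm _ _
    have n5 : ‖w‖ ≤ R j p.1 := hw
    have hpos : 0 ≤ ‖v‖ * ‖B j (p.1, t₀) - A (p.1, t₀)‖ +
        (‖v‖ * (‖A (p.1, t₀)‖ + ‖A p‖)) * ‖g j p - gl p‖ + ‖v‖ * ‖B j p - A p‖ + R j p.1 := by
      have := hR0 j p.1
      positivity
    simp only [Pi.add_apply]
    rw [Real.norm_eq_abs, abs_of_nonneg hpos]
    refine (KT_tri _ _ _ _ _).trans ?_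
    have e : (‖v‖ * (‖A (p.1, t₀)‖ + ‖A p‖)) * ‖g j p - gl p‖ =
      (‖v‖ * ‖A (p.1, t₀)‖) * ‖g j p - gl p‖ + (‖v‖ * ‖A p‖) * ‖g j p - gl p‖ := by ring
    rw [e]
    linarith
  have hF02 : MemLp (rs2 F t₀) 2 μK := by
    have hcl : Continuous fun T : (V × ℝ) [⋀^Fin 2]→L[ℝ] 𝔐 =>
        T.compContinuousLinearMap (ContinuousLinearMap.inl ℝ V ℝ) :=
      (ContinuousAlternatingMap.compContinuousLinearMapCLM (F := 𝔐) (ι := Fin 2)
        (ContinuousLinearMap.inl ℝ V ℝ)).continuous
    refine MemLp.of_le_mul (c := ‖ContinuousLinearMap.inl ℝ V ℝ‖ ^ 2) hFm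
      (hcl.comp_aestronglyMeasurable hFm.1) (Eventually.of_forall fun y => ?_)
    have := ContinuousAlternatingMap.norm_compContinuousLinearMap_le (F (y, t₀))
      (ContinuousLinearMap.inl ℝ V ℝ)
    rw [mul_comm]
    simpa [rs2] using this
  refine ⟨t₀, ht₀, ⟨?_, ?_, ?_, ?_⟩, ?_⟩
  · intro K' hK' hK'K
    exact hB₀2.mono_measure (Measure.restrict_mono (hK'K.trans interior_subset) le_rfl)
  · intro K' hK' hK'K
    exact hF02.mono_measure (Measure.restrict_mono (hK'K.trans interior_subset) le_rfl)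
  · have h1 : ∀ᵐ y ∂(volume.restrict (interior K)), ∀ v, A (y, t₀) v ∈ 𝒢.lie :=
      ae_mono (Measure.restrict_mono interior_subset le_rfl) hAl
    filter_upwards [h1] with y hy v
    exact hy _
  · refine hCLC 𝔐 V (interior K) (rs1 A t₀) (rs2 F t₀) isOpen_interior ?_ ?_ ?_
    · intro K' hK' hK'K
      exact hB₀2.mono_measure (Measure.restrict_mono (hK'K.trans interior_subset) le_rfl)
    · intro K' hK' hK'K
      exact hF02.mono_measure (Measure.restrict_mono (hK'K.trans interior_subset) le_rfl)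
    · intro K' hK' hK'K
      have hle : volume.restrict K' ≤ μK :=
        Measure.restrict_mono (hK'K.trans interior_subset) le_rfl
      refine ⟨univ, fun j => rs1 (B j) t₀, isOpen_univ, subset_univ _, fun j => ?_, ?_,
        fun u v => ?_⟩
      · have h1 : ContDiff ℝ ∞ fun y : V => B j (y, t₀) :=
          (hBs j).comp (contDiff_id.prodMk contDiff_const)
        have h2 : ContDiff ℝ ∞ (rs1 (B j) t₀) :=
          ((ContinuousLinearMap.compL ℝ V (V × ℝ) 𝔐).flip
            (ContinuousLinearMap.inl ℝ V ℝ)).contDiff.comp h1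
        exact (h2.of_le (by norm_cast)).contDiffOn
      · have h1 : Tendsto (fun j => eLpNorm (fun y => B j (y, t₀) - A (y, t₀)) 2 μK *
            ‖ContinuousLinearMap.inl ℝ V ℝ‖ₑ) atTop (𝓝 0) := by
          have := ENNReal.Tendsto.mul_const hBt (b := ‖ContinuousLinearMap.inl ℝ V ℝ‖ₑ)
            (Or.inr enorm_ne_top)
          simpa using this
        refine tendsto_of_tendsto_of_tendsto_of_le_of_le tendsto_const_nhds h1
          (fun _ => zero_le) fun j => ?_
        refine (eLpNorm_mono_measure _ hle).trans ?_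
        have hkey : eLpNorm (fun y => rs1 (B j) t₀ y - rs1 A t₀ y) 2 μK ≤
            ENNReal.ofReal ‖ContinuousLinearMap.inl ℝ V ℝ‖ *
              eLpNorm (fun y => B j (y, t₀) - A (y, t₀)) 2 μK := by
          refine eLpNorm_le_mul_eLpNorm_of_ae_le_mul (Eventually.of_forall fun y => ?_) 2
          have : rs1 (B j) t₀ y - rs1 A t₀ y =
              (B j (y, t₀) - A (y, t₀)).comp (ContinuousLinearMap.inl ℝ V ℝ) := by
            ext v
            simp [rs1]
          rw [this, mul_comm]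
          exact ContinuousLinearMap.opNorm_comp_le _ _
        rw [mul_comm]
        simpa [ofReal_norm] using hkey
      · have h1 := hFt u v
        refine tendsto_of_tendsto_of_tendsto_of_le_of_le tendsto_const_nhds h1
          (fun _ => zero_le) fun j => ?_
        refine (eLpNorm_mono_measure _ hle).trans (le_of_eq ?_)
        congr 1
        funext y
        rw [KT2_cur (B j) (hBs j)]
        congr 1
        unfold rs2
        rw [ContinuousAlternatingMap.compContinuousLinearMap_apply]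
        congr 1
        funext i
        fin_cases i <;> rfl
  · rw [hGDF 𝔐 𝒢 (V × ℝ)]
    refine ⟨gl, dg, ?_, ?_, ?_, ?_, ?_⟩
    · intro K' _ hK'K
      exact hgb.mono_measure (hsub K' hK'K)
    · intro K' _ hK'K
      exact hdg2.mono_measure (hsub K' hK'K)
    · refine hCLG (V × ℝ) 𝔐 _ gl dg (isOpen_interior.prod isOpen_Ioo) ?_ ?_ ?_
      · intro K' _ hK'K
        exact hgb.mono_measure (hsub K' hK'K)
      · intro K' _ hK'K
        exact hdg2.mono_measure (hsub K' hK'K)
      · intro K' _ hK'K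
        refine ⟨univ, g, isOpen_univ, subset_univ _,
          fun j => ((hgs j).of_le (by norm_cast)).contDiffOn, ?_, fun v => ?_⟩
        · exact tendsto_of_tendsto_of_tendsto_of_le_of_le tendsto_const_nhds hL1g
            (fun _ => zero_le) fun j => eLpNorm_mono_measure _ (hsub K' hK'K)
        · exact tendsto_of_tendsto_of_tendsto_of_le_of_le tendsto_const_nhds (hL1d v)
            (fun _ => zero_le) fun j => eLpNorm_mono_measure _ (hsub K' hK'K)
    · exact ae_mono (hsub _ le_rfl) hglG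
    · refine Eventually.of_forall fun p v => ?_
      rw [hdgv]
      simp [pr1, rs1]

end Pool.TIA
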