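import Pool.Agent.Work.MP_a1f430_ti.Interface4

/-! # Block RDA: the reduction at a point -/

set_option autoImplicit false

namespace Pool.TIA

open MeasureTheory Set Filter Topology
open scoped ContDiff ENNReal

/-- The wedge product and pullbacks. -/
theorem RDA_wdg {𝔐 : Type} [NormedRing 𝔐] [NormedAlgebra ℝ 𝔐] {m : ℕ} {E E' : Type}
    [NormedAddCommGroup E] [NormedSpace ℝ E] [NormedAddCommGroup E'] [NormedSpace ℝ E']
    (Ω : E [⋀^Fin m]→L[ℝ] ℝ) (F : E [⋀^Fin 2]→L[ℝ] 𝔐) (Ω' : E' [⋀^Fin m]→L[ℝ] ℝ)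
    (F' : E' [⋀^Fin 2]→L[ℝ] 𝔐) (f : E' → E) (hΩ : ∀ w, Ω' w = Ω fun i => f (w i))
    (hF : ∀ w, F' w = F fun i => f (w i)) (v : Fin m ⊕ Fin 2 → E') :
    wdg Ω' F' v = wdg Ω F fun i => f (v i) := by
  unfold wdg
  congr 1
  change (⇑(∑ σ : Equiv.Perm.ModSumCongr (Fin m) (Fin 2),
      AlternatingMap.domCoprod.summand Ω'.toAlternatingMap F'.toAlternatingMap σ)) v =
    (⇑(∑ σ : Equiv.Perm.ModSumCongr (Fin m) (Fin 2),
      AlternatingMap.domCoprod.summand Ω.toAlternatingMap F.toAlternatingMap σ))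
      fun i => f (v i)
  rw [_root_.sum_apply, _root_.sum_apply]
  refine Finset.sum_congr rfl fun σ _ => ?_
  induction σ using Quotient.inductionOn' with | _ σ
  rw [AlternatingMap.domCoprod.summand_mk'', _root_.smul_apply,
    MultilinearMap.domDomCongr_apply, MultilinearMap.domCoprod_apply,
    AlternatingMap.domCoprod.summand_mk'', _root_.smul_apply,
    MultilinearMap.domDomCongr_apply, MultilinearMap.domCoprod_apply]
  have h1 : (Ω'.toAlternatingMap : MultilinearMap ℝ (fun _ : Fin m => E') ℝ)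
      (fun i => v (σ (Sum.inl i))) = (Ω.toAlternatingMap : MultilinearMap ℝ (fun _ : Fin m => E) ℝ)
      (fun i => f (v (σ (Sum.inl i)))) := hΩ _
  have h2 : (F'.toAlternatingMap : MultilinearMap ℝ (fun _ : Fin 2 => E') 𝔐)
      (fun i => v (σ (Sum.inr i))) = (F.toAlternatingMap : MultilinearMap ℝ (fun _ : Fin 2 => E) 𝔐)
      (fun i => f (v (σ (Sum.inr i)))) := hF _
  rw [h1, h2]

/-- An alternating form in which one entry is `X` does not see multiples of `X`. -/
theorem RDA_drop {k : ℕ} {E : Type} [NormedAddCommGroup E] [NormedSpace ℝ E]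
    (Ω : E [⋀^Fin (k + 1)]→L[ℝ] ℝ) (X : E) (a : Fin k → E) (c : Fin k → ℝ) :
    Ω (Fin.cons X fun i => a i - c i • X) = Ω (Fin.cons X a) := by
  classical
  have hG : ∀ w : Fin k → E, Ω (Fin.cons X w) = Ω.curryLeft X w := fun w => rfl
  have h0 : ∀ (w : Fin k → E) (i : Fin k), Ω.curryLeft X (Function.update w i X) = 0 := by
    intro w i
    rw [← hG]
    refine Ω.toAlternatingMap.map_eq_zero_of_eq _ (i := 0) (j := i.succ) ?_ (Fin.succ_ne_zero i).symm
    simp
  have key : ∀ s : Finset (Fin k), Ω.curryLeft X (s.piecewise (fun i => a i - c i • X) a) =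
      Ω.curryLeft X a := by
    intro s
    induction s using Finset.induction_on with
    | empty => simp
    | insert i s his ih =>
      rw [Finset.piecewise_insert]
      have h1 := (Ω.curryLeft X).toAlternatingMap.map_update_sub
        (s.piecewise (fun i => a i - c i • X) a) i (a i) (c i • X)
      have h2 := (Ω.curryLeft X).toAlternatingMap.map_update_smul
        (s.piecewise (fun i => a i - c i • X) a) i (c i) X
      have h3 : Function.update (s.piecewise (fun i => a i - c i • X) a) i (a i) =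
          s.piecewise (fun i => a i - c i • X) a := by
        rw [Function.update_eq_self_iff]
        simp [his]
      have h4 : (Ω.curryLeft X).toAlternatingMap
          (Function.update (s.piecewise (fun i => a i - c i • X) a) i X) = 0 := h0 _ i
      rw [h2, h4, smul_zero, sub_zero, h3] at h1
      exact h1.trans ih
  have h1 := key Finset.univ
  rw [Finset.piecewise_univ] at h1
  rw [hG, hG]
  exact h1

theorem RDA_cons_smul {k : ℕ} {E : Type} [NormedAddCommGroup E] [NormedSpace ℝ E]
    (Ω : E [⋀^Fin (k + 1)]→L[ℝ] ℝ) (X : E) (c : ℝ) (a : Fin k → E) :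
    Ω (Fin.cons (c • X) a) = c * Ω (Fin.cons X a) := by
  have h1 : Ω (Fin.cons (c • X) a) = Ω.curryLeft (c • X) a := rfl
  have h2 : Ω (Fin.cons X a) = Ω.curryLeft X a := rfl
  rw [h1, h2, map_smul]
  rfl

/-- The indices of the frame of the larger space. -/
def RDA_up {k : ℕ} : FI k → FI (k + 1) := Sum.map (Sum.map Fin.succ id) id

theorem RDA_up_inj {k : ℕ} : Function.Injective (RDA_up (k := k)) := by
  unfold RDA_up
  exact Function.Injective.sumMap (Function.Injective.sumMap (Fin.succ_injective k)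
    Function.injective_id) Function.injective_id

theorem RDA_cases {k : ℕ} (s : FI (k + 1)) :
    s = Sum.inl (Sum.inl 0) ∨ ∃ t : FI k, s = RDA_up t := by
  rcases s with (i | j) | j
  · refine Fin.cases (Or.inl rfl) (fun a => Or.inr ⟨Sum.inl (Sum.inl a), rfl⟩) i
  · exact Or.inr ⟨Sum.inl (Sum.inr j), rfl⟩
  · exact Or.inr ⟨Sum.inr j, rfl⟩

theorem RDA_ix0 (k : ℕ) : ix (k + 1) (Sum.inl (Sum.inl 0)) = (0 : Fin (k + 4 + 1)) := by
  apply Fin.ext
  simp [ix]

theorem RDA_ixs (k : ℕ) (s : FI k) : ix (k + 1) (RDA_up s) = (ix k s).succ := by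
  rcases s with (i | j) | j
  · apply Fin.ext
    simp [ix, RDA_up]
  · apply Fin.ext
    simp [ix, RDA_up]
    omega
  · apply Fin.ext
    simp [ix, RDA_up]
    omega

theorem RDA_symm0 (k : ℕ) : (ix (k + 1)).symm (0 : Fin (k + 4 + 1)) = Sum.inl (Sum.inl 0) := by
  rw [Equiv.symm_apply_eq, RDA_ix0]

theorem RDA_symms (k : ℕ) (a : Fin (k + 4)) :
    (ix (k + 1)).symm (a.succ : Fin (k + 4 + 1)) = RDA_up ((ix k).symm a) := by
  rw [Equiv.symm_apply_eq, RDA_ixs, Equiv.apply_symm_apply]

theorem p_RDA (hRDW : Stmt_RDW) : Stmt_RDA := by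
  intro 𝔐 _ _ k ε h Ω X L h' Ω' F F' hsym hpos hR hFX hF' hstar e' he'
  obtain ⟨N, hN⟩ : ∃ N : Matrix (Fin (k + 4 + 1)) (Fin (k + 4 + 1)) ℝ,
    N = Matrix.of fun i j : Fin (k + 4 + 1) =>
    (Fin.cons X (fun a : Fin (k + 4) => L (EuclideanSpace.basisFun (Fin (k + 4)) ℝ a)) :
      Fin (k + 4 + 1) → Eu (k + 4 + 1)) i j := ⟨_, rfl⟩
  have hNpos : 0 < ε * N.det := by rw [hN]; exact hR.pos
  have hX0 : X ≠ 0 := by
    rintro rfl
    have h1 : N.det = 0 := by
      refine Matrix.det_eq_zero_of_row_eq_zero 0 fun j => ?_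
      rw [hN]
      rfl
    rw [h1, mul_zero] at hNpos
    exact lt_irrefl _ hNpos
  have hXX : 0 < h X X := hpos X hX0
  obtain ⟨s, hs⟩ : ∃ s, s = √(h X X) := ⟨_, rfl⟩
  have hs0 : 0 < s := by rw [hs]; exact Real.sqrt_pos.2 hXX
  have hss : s * s = h X X := by rw [hs]; exact Real.mul_self_sqrt hXX.le
  have hε2 : ε * ε = 1 := by rcases hR.sgn with h1 | h1 <;> rw [h1] <;> norm_num
  let hat : Eu (k + 4) → Eu (k + 1 + 4) := fun u => L u - (h (L u) X / h X X) • X
  have hhat : ∀ u, hat u = L u - (h (L u) X / h X X) • X := fun u => rfl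
  let x0 : Eu (k + 1 + 4) := (ε / s) • X
  have hx0 : x0 = (ε / s) • X := rfl
  let e : FI (k + 1) → Eu (k + 1 + 4) :=
    Sum.elim (Sum.elim (Fin.cons x0 fun a => hat (e' (Sum.inl (Sum.inl a))))
      fun j => hat (e' (Sum.inl (Sum.inr j)))) fun j => hat (e' (Sum.inr j))
  have he0 : e (Sum.inl (Sum.inl 0)) = x0 := rfl
  have heup : ∀ t : FI k, e (RDA_up t) = hat (e' t) := by
    rintro ((i | j) | j) <;> rfl
  have hhX : ∀ u, h (hat u) X = 0 := by
    intro u
    rw [hhat, map_sub, map_smul]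
    change h (L u) X - h (L u) X / h X X * h X X = 0
    rw [div_mul_cancel₀ _ hXX.ne', sub_self]
  have hhh : ∀ u v, h (hat u) (hat v) = h' u v := by
    intro u v
    have h1 : h (hat u) (hat v) = h (hat u) (L v) - (h (L v) X / h X X) * h (hat u) X := by
      rw [hhat v, map_sub, map_smul]
      rfl
    rw [h1, hhX, mul_zero, sub_zero, hhat, map_sub, map_smul, hR.met]
    change h (L u) (L v) - h (L u) X / h X X * h X (L v) = _
    rw [hsym X (L v)]
    ring
  have horth : ∀ i j, h (e i) (e j) = if i = j then 1 else 0 := by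
    intro i j
    rcases RDA_cases i with rfl | ⟨a, rfl⟩ <;> rcases RDA_cases j with rfl | ⟨b, rfl⟩
    · rw [if_pos rfl, he0, hx0, map_smul, map_smul]
      change ε / s * (ε / s * h X X) = 1
      rw [← hss]
      field_simp
      nlinarith [hε2]
    · have h1 : (Sum.inl (Sum.inl 0) : FI (k + 1)) ≠ RDA_up b := by
        rcases b with (i | j) | j
        · intro h2
          have h3 := Sum.inl_injective (Sum.inl_injective h2)
          exact (Fin.succ_ne_zero i) h3.symm
        · intro h2
          have h3 := Sum.inl_injective h2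
          cases h3
        · intro h2
          cases h2
      rw [if_neg h1, he0, heup, hx0, map_smul]
      change ε / s * h X (hat (e' b)) = 0
      rw [hsym, hhX, mul_zero]
    · have h1 : RDA_up a ≠ (Sum.inl (Sum.inl 0) : FI (k + 1)) := by
        rcases a with (i | j) | j
        · intro h2
          have h3 := Sum.inl_injective (Sum.inl_injective h2)
          exact (Fin.succ_ne_zero i) h3
        · intro h2
          have h3 := Sum.inl_injective h2
          cases h3
        · intro h2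
          cases h2
      rw [if_neg h1, he0, heup, hx0, map_smul, smul_eq_mul, hhX, mul_zero]
    · rw [heup, heup, hhh, he'.orth]
      by_cases hab : a = b
      · rw [if_pos hab, if_pos (by rw [hab])]
      · rw [if_neg hab, if_neg (fun h1 => hab (RDA_up_inj h1))]
  -- the determinant
  obtain ⟨E', hE'⟩ : ∃ E' : Matrix (Fin (k + 4)) (Fin (k + 4)) ℝ,
    E' = Matrix.of fun i j : Fin (k + 4) => e' ((ix k).symm i) j := ⟨_, rfl⟩
  have hE'pos : 0 < E'.det := by rw [hE']; exact he'.pos
  obtain ⟨T, hT⟩ : ∃ T : Matrix (Fin (k + 4 + 1)) (Fin (k + 4 + 1)) ℝ,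
    T = Matrix.of (Fin.cons (Fin.cons (ε / s) 0) fun a : Fin (k + 4) =>
      Fin.cons (-(h (L (e' ((ix k).symm a))) X / h X X)) (E' a)) := ⟨_, rfl⟩
  have hT0 : ∀ b : Fin (k + 4), T 0 b.succ = 0 := by intro b; rw [hT]; rfl
  have hT00 : T 0 0 = ε / s := by rw [hT]; rfl
  have hTs0 : ∀ a : Fin (k + 4), T a.succ 0 = -(h (L (e' ((ix k).symm a))) X / h X X) := by
    intro a; rw [hT]; rfl
  have hTss : ∀ a b : Fin (k + 4), T a.succ b.succ = E' a b := by intro a b; rw [hT]; rfl
  have hTdet : T.det = ε / s * E'.det := by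
    rw [Matrix.det_succ_row_zero, Fin.sum_univ_succ]
    have h1 : ∑ i : Fin (k + 4), (-1 : ℝ) ^ ((i.succ : Fin (k + 4 + 1)) : ℕ) * T 0 i.succ *
        (T.submatrix Fin.succ i.succ.succAbove).det = 0 := by
      refine Finset.sum_eq_zero fun i _ => ?_
      rw [hT0, mul_zero, zero_mul]
    rw [h1, add_zero, hT00]
    have h2 : T.submatrix Fin.succ (Fin.succAbove 0) = E' := by
      ext a b
      rw [Matrix.submatrix_apply, Fin.succAbove_zero, hTss]
    rw [h2]
    simp
  have hM : (Matrix.of fun i j : Fin (k + 4 + 1) => e ((ix (k + 1)).symm i) j) = T * N := by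
    ext i j
    rw [Matrix.mul_apply, Fin.sum_univ_succ, Matrix.of_apply]
    have hN0 : N 0 j = X j := by rw [hN]; rfl
    have hNs : ∀ a : Fin (k + 4), N a.succ j = L (EuclideanSpace.basisFun (Fin (k + 4)) ℝ a) j := by
      intro a; rw [hN]; rfl
    rw [hN0]
    refine Fin.cases ?_ (fun a => ?_) i
    · rw [hT00]
      have h1 : ∑ i : Fin (k + 4), T 0 i.succ * N i.succ j = 0 := by
        refine Finset.sum_eq_zero fun i _ => ?_
        rw [hT0, zero_mul]
      rw [h1, add_zero, RDA_symm0, he0, hx0]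
      rfl
    · rw [RDA_symms, heup, hhat, hTs0]
      have h1 : ∑ b : Fin (k + 4), T a.succ b.succ * N b.succ j =
          L (e' ((ix k).symm a)) j := by
        have h2 : e' ((ix k).symm a) =
            ∑ b, (E' a b) • (EuclideanSpace.basisFun (Fin (k + 4)) ℝ b) := by
          have h3 := (EuclideanSpace.basisFun (Fin (k + 4)) ℝ).sum_repr (e' ((ix k).symm a))
          refine h3.symm.trans (Finset.sum_congr rfl fun b _ => ?_)
          rw [EuclideanSpace.basisFun_repr, hE']
          rfl
        conv_rhs => rw [h2]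
        rw [map_sum]
        simp only [map_smul]
        rw [show (∑ x, E' a x • L ((EuclideanSpace.basisFun (Fin (k + 4)) ℝ) x)) j =
          ∑ x, (E' a x • L ((EuclideanSpace.basisFun (Fin (k + 4)) ℝ) x)) j from by
            simp]
        refine Finset.sum_congr rfl fun b _ => ?_
        rw [hTss, hNs]
        rfl
      rw [h1]
      change L (e' ((ix k).symm a)) j - (h (L (e' ((ix k).symm a))) X / h X X) * X j = _
      ring
  have hposd : 0 < (Matrix.of fun i j : Fin (k + 4 + 1) => e ((ix (k + 1)).symm i) j).det := by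
    rw [hM, Matrix.det_mul, hTdet]
    have h1 : ε / s * E'.det * N.det = E'.det * (ε * N.det) / s := by ring
    rw [h1]
    positivity
  have hfr : PFr h e := ⟨horth, hposd⟩
  have h1 := hstar e hfr
  -- the right side
  have hFX' : ∀ v, F ![v, X] = 0 := by
    intro v
    have h2 := F.toAlternatingMap.map_swap ![v, X] (i := 0) (j := 1) (by decide)
    have h3 : ![v, X] ∘ Equiv.swap (0 : Fin 2) 1 = ![X, v] := by
      funext i
      fin_cases i <;> rfl
    rw [h3] at h2
    have h4 : F.toAlternatingMap ![X, v] = 0 := hFX v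
    rw [h4] at h2
    exact (neg_eq_zero.1 h2.symm)
  have hFhat : ∀ u v, F ![hat u, hat v] = F' ![u, v] := by
    intro u v
    have hu1 : ∀ a b c : Eu (k + 1 + 4), Function.update ![a, b] 1 c = ![a, c] := by
      intro a b c
      funext i
      fin_cases i <;> rfl
    have hu0 : ∀ a b c : Eu (k + 1 + 4), Function.update ![a, b] 0 c = ![c, b] := by
      intro a b c
      funext i
      fin_cases i <;> rfl
    have h2 := F.toAlternatingMap.map_update_sub ![hat u, hat v] 1 (L v)
      ((h (L v) X / h X X) • X)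
    have h3 := F.toAlternatingMap.map_update_smul ![hat u, hat v] 1 (h (L v) X / h X X) X
    have h4 := F.toAlternatingMap.map_update_sub ![hat u, L v] 0 (L u)
      ((h (L u) X / h X X) • X)
    have h5 := F.toAlternatingMap.map_update_smul ![hat u, L v] 0 (h (L u) X / h X X) X
    rw [hu1, hu1, hu1] at h2
    rw [hu1, hu1] at h3
    rw [hu0, hu0, hu0] at h4
    rw [hu0, hu0] at h5
    have h6 : F.toAlternatingMap ![hat u, X] = 0 := hFX' _
    have h7 : F.toAlternatingMap ![X, L v] = 0 := hFX _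
    rw [h3, h6, smul_zero, sub_zero, ← hhat] at h2
    rw [h5, h7, smul_zero, sub_zero, ← hhat] at h4
    rw [hF']
    exact h2.trans h4
  have hrhs : F ![e (Sum.inr 0), e (Sum.inr 1)] = F' ![e' (Sum.inr 0), e' (Sum.inr 1)] :=
    hFhat _ _
  rw [hrhs] at h1
  rw [← h1]
  -- the left side
  let v : Fin k ⊕ Fin 2 → Eu (k + 1 + 4) := fun i => hat (e' (Sum.inl i))
  have hev : (fun i => e (Sum.inl i)) =
      Sum.elim (Fin.cons x0 fun i => v (Sum.inl i)) fun j => v (Sum.inr j) := by
    funext i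
    rcases i with i | j
    · rfl
    · rfl
  have hFx0 : ∀ w, F ![x0, w] = 0 := by
    intro w
    have hu0 : ∀ a b c : Eu (k + 1 + 4), Function.update ![a, b] 0 c = ![c, b] := by
      intro a b c
      funext i
      fin_cases i <;> rfl
    have h5 := F.toAlternatingMap.map_update_smul ![X, w] 0 (ε / s) X
    rw [hu0, hu0] at h5
    have h7 : F.toAlternatingMap ![X, w] = 0 := hFX _
    rw [h7, smul_zero] at h5
    exact h5
  rw [hev, hRDW 𝔐 k (Eu (k + 1 + 4)) Ω (Ω.curryLeft x0) F x0 v hFx0 fun w => rfl]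
  refine RDA_wdg (Ω.curryLeft x0) F Ω' F' hat (fun w => ?_) (fun w => ?_) fun i => e' (Sum.inl i)
  · change Ω' w = Ω (Fin.cons x0 fun i => hat (w i))
    rw [hR.form, hx0, RDA_cons_smul, ← hs]
    have h2 := RDA_drop Ω X (fun i => L (w i)) fun i => h (L (w i)) X / h X X
    rw [h2]
    ring
  · have h2 : w = ![w 0, w 1] := by
      funext i
      fin_cases i <;> rfl
    have h3 : (fun i => hat (w i)) = ![hat (w 0), hat (w 1)] := by
      funext i
      fin_cases i <;> rfl
    rw [h3, hFhat, ← h2]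

end Pool.TIA
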