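import Pool.Agent.Work.MP_a1f430_ti.Interface4

/-! # Block RDM of MP_a1f430 (THEOREM TR): the smooth family of reduced metrics and forms -/

set_option autoImplicit false

open scoped ContDiff Topology
open Set MeasureTheory Filter

noncomputable section

namespace Pool.TIA

/-- A linear left inverse of the evaluation at the vectors of a basis. -/
theorem RDM_lin (n k : ℕ) :
    ∃ G : ((Fin k → Fin n) → ℝ) →L[ℝ] (Eu n [⋀^Fin k]→L[ℝ] ℝ),
      ∀ τ : Eu n [⋀^Fin k]→L[ℝ] ℝ,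
        G (fun s => τ fun i => EuclideanSpace.basisFun (Fin n) ℝ (s i)) = τ := by
  let ev : (Eu n [⋀^Fin k]→L[ℝ] ℝ) →ₗ[ℝ] ((Fin k → Fin n) → ℝ) :=
    { toFun := fun τ s => τ fun i => EuclideanSpace.basisFun (Fin n) ℝ (s i)
      map_add' := fun _ _ => rfl
      map_smul' := fun _ _ => rfl }
  have hinj : LinearMap.ker ev = ⊥ := by
    rw [LinearMap.ker_eq_bot]
    intro a b hab
    apply ContinuousAlternatingMap.toContinuousMultilinearMap_injective
    apply ContinuousMultilinearMap.toMultilinearMap_injective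
    refine Module.Basis.ext_multilinear
      (fun _ => (EuclideanSpace.basisFun (Fin n) ℝ).toBasis) fun v => ?_
    have h1 := congrFun hab v
    simpa [ev] using h1
  obtain ⟨g, hg⟩ := LinearMap.exists_leftInverse_of_injective ev hinj
  refine ⟨LinearMap.toContinuousLinearMap g, fun τ => ?_⟩
  have h1 := congrArg (fun q : (Eu n [⋀^Fin k]→L[ℝ] ℝ) →ₗ[ℝ] (Eu n [⋀^Fin k]→L[ℝ] ℝ) => q τ) hg
  simpa [ev] using h1

/-- Smoothness of a family of alternating maps can be checked on vectors. -/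
theorem RDM_smooth {P : Type} [NormedAddCommGroup P] [NormedSpace ℝ P] {n k : ℕ} {S : Set P}
    {τ : P → Eu n [⋀^Fin k]→L[ℝ] ℝ}
    (h : ∀ v : Fin k → Eu n, ContDiffOn ℝ ∞ (fun y => τ y v) S) : ContDiffOn ℝ ∞ τ S := by
  obtain ⟨G, hG⟩ := RDM_lin n k
  have h1 : ContDiffOn ℝ ∞ (fun y => G (fun s => τ y fun i =>
      EuclideanSpace.basisFun (Fin n) ℝ (s i))) S :=
    G.contDiff.comp_contDiffOn (contDiffOn_pi.2 fun s => h _)
  exact h1.congr fun y _ => (hG (τ y)).symm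

/-- Joint smoothness of the evaluation. -/
theorem RDM_apply {P : Type} [NormedAddCommGroup P] [NormedSpace ℝ P] {n k : ℕ} {S : Set P}
    {τ : P → Eu n [⋀^Fin k]→L[ℝ] ℝ} {v : P → Fin k → Eu n} (h : ContDiffOn ℝ ∞ τ S)
    (hv : ContDiffOn ℝ ∞ v S) : ContDiffOn ℝ ∞ (fun y => τ y (v y)) S := by
  obtain ⟨G, hG⟩ := RDM_lin n k
  have h0 : ∀ y, τ y (v y) = ∑ s : Fin k → Fin n,
      (τ y fun i => EuclideanSpace.basisFun (Fin n) ℝ (s i)) * (G (Pi.single s 1)) (v y) := by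
    intro y
    have h1 : (fun s : Fin k → Fin n => τ y fun i => EuclideanSpace.basisFun (Fin n) ℝ (s i)) =
        ∑ s : Fin k → Fin n, (τ y fun i => EuclideanSpace.basisFun (Fin n) ℝ (s i)) •
          (Pi.single s (1 : ℝ) : (Fin k → Fin n) → ℝ) := by
      funext t
      simp [Finset.sum_apply, Pi.single_apply]
    have h2 : τ y = ∑ s : Fin k → Fin n,
        (τ y fun i => EuclideanSpace.basisFun (Fin n) ℝ (s i)) • G (Pi.single s 1) := by
      conv_lhs => rw [← hG (τ y), h1, map_sum]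
      simp only [map_smul]
    conv_lhs => rw [h2]
    rw [ContinuousAlternatingMap.sum_apply]
    rfl
  have h3 : ContDiffOn ℝ ∞ (fun y => ∑ s : Fin k → Fin n,
      (τ y fun i => EuclideanSpace.basisFun (Fin n) ℝ (s i)) * (G (Pi.single s 1)) (v y)) S := by
    refine ContDiffOn.sum fun s _ => ContDiffOn.mul ?_ ?_
    · exact (ContinuousAlternatingMap.apply ℝ (Eu n) ℝ _).contDiff.comp_contDiffOn h
    · exact (G (Pi.single s 1)).toContinuousMultilinearMap.contDiff.comp_contDiffOn hv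
  exact h3.congr fun y _ => h0 y

/-- The derivative of a diffeomorphism is injective. -/
theorem RDM_inj {E' E : Type} [NormedAddCommGroup E'] [NormedSpace ℝ E'] [NormedAddCommGroup E]
    [NormedSpace ℝ E] {Φ : E' → E} {Ψ : E → E'} {W' : Set E'} {W : Set E} (hD : Dif Φ Ψ W' W)
    {p : E'} (hp : p ∈ W') {v : E'} (hv : fderiv ℝ Φ p v = 0) : v = 0 := by
  have hne : (∞ : WithTop ℕ∞) ≠ 0 := by simp
  have h1 : DifferentiableAt ℝ Φ p :=
    ((hD.smooth p hp).contDiffAt (hD.open'.mem_nhds hp)).differentiableAt hne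
  have h2 : DifferentiableAt ℝ Ψ (Φ p) :=
    ((hD.smooth' _ (hD.maps hp)).contDiffAt (hD.open_.mem_nhds (hD.maps hp))).differentiableAt hne
  have h3 : HasFDerivAt (Ψ ∘ Φ) ((fderiv ℝ Ψ (Φ p)).comp (fderiv ℝ Φ p)) p :=
    h2.hasFDerivAt.comp p h1.hasFDerivAt
  have h4 : (Ψ ∘ Φ) =ᶠ[𝓝 p] id :=
    Filter.eventually_of_mem (hD.open'.mem_nhds hp) fun x hx => hD.left x hx
  have h5 : HasFDerivAt (Ψ ∘ Φ) (ContinuousLinearMap.id ℝ E') p :=
    (hasFDerivAt_id p).congr_of_eventuallyEq h4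
  have h6 := h3.unique h5
  have h7 := congrArg (fun q : E' →L[ℝ] E' => q v) h6
  simp only [ContinuousLinearMap.comp_apply, hv, map_zero, ContinuousLinearMap.id_apply] at h7
  exact h7.symm

theorem p_RDM : Stmt_RDM := by
  intro k U h Ω Φ Ψ W r t₀ hU hM hΩ hWU hr ht₀ hD
  set Bo : Set (Eu (k + 4)) := Metric.ball 0 r with hBo
  have hne : (∞ : WithTop ℕ∞) ≠ 0 := by simp
  -- the inclusion of the slice
  have hin : ∀ y ∈ Bo, (y, t₀) ∈ Bo ×ˢ Ioo (-r) r := fun y hy => ⟨hy, ht₀⟩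
  have hins : ContDiff ℝ ∞ (fun y : Eu (k + 4) => (y, t₀)) := contDiff_id.prodMk contDiff_const
  have hΦW : ∀ y ∈ Bo, Φ (y, t₀) ∈ W := fun y hy => hD.maps (hin y hy)
  have hΦs : ContDiffOn ℝ ∞ (fun y => Φ (y, t₀)) Bo :=
    hD.smooth.comp hins.contDiffOn hin
  let D : Eu (k + 4) → (Eu (k + 4) × ℝ) →L[ℝ] Eu (k + 1 + 4) := fun y => fderiv ℝ Φ (y, t₀)
  have hDs : ContDiffOn ℝ ∞ D Bo :=
    (hD.smooth.fderiv_of_isOpen hD.open' (by simp)).comp hins.contDiffOn hin
  have hinj : ∀ y ∈ Bo, ∀ v, D y v = 0 → v = 0 := fun y hy v hv => RDM_inj hD (hin y hy) hv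
  let X : Eu (k + 4) → Eu (k + 1 + 4) := fun y => D y (0, 1)
  let L : Eu (k + 4) → Eu (k + 4) →L[ℝ] Eu (k + 1 + 4) :=
    fun y => (D y).comp (ContinuousLinearMap.inl ℝ _ ℝ)
  have hXs : ContDiffOn ℝ ∞ X Bo := hDs.clm_apply contDiffOn_const
  have hLs : ContDiffOn ℝ ∞ L Bo := hDs.clm_comp contDiffOn_const
  let H : Eu (k + 4) → Eu (k + 1 + 4) →L[ℝ] Eu (k + 1 + 4) →L[ℝ] ℝ := fun y => h (Φ (y, t₀))
  have hHs : ContDiffOn ℝ ∞ H Bo := hM.smooth.comp hΦs fun y hy => hWU (hΦW y hy)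
  let O : Eu (k + 4) → Eu (k + 1 + 4) [⋀^Fin (k + 1)]→L[ℝ] ℝ := fun y => Ω (Φ (y, t₀))
  have hOs : ContDiffOn ℝ ∞ O Bo := hΩ.comp hΦs fun y hy => hWU (hΦW y hy)
  have hsym : ∀ y ∈ Bo, ∀ v w, H y v w = H y w v := fun y hy => hM.symm _ (hWU (hΦW y hy))
  have hpos : ∀ y ∈ Bo, ∀ v, v ≠ 0 → 0 < H y v v := fun y hy => hM.pos _ (hWU (hΦW y hy))
  have hX0 : ∀ y ∈ Bo, X y ≠ 0 := by
    intro y hy h0
    have h1 := hinj y hy _ h0
    simp at h1
  have hq : ∀ y ∈ Bo, 0 < H y (X y) (X y) := fun y hy => hpos y hy _ (hX0 y hy)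
  have hqs : ContDiffOn ℝ ∞ (fun y => H y (X y) (X y)) Bo := (hHs.clm_apply hXs).clm_apply hXs
  -- the metric
  let l : Eu (k + 4) → Eu (k + 4) →L[ℝ] ℝ := fun y => (H y (X y)).comp (L y)
  have hls : ContDiffOn ℝ ∞ l Bo := (hHs.clm_apply hXs).clm_comp hLs
  let h' : Eu (k + 4) → Eu (k + 4) →L[ℝ] Eu (k + 4) →L[ℝ] ℝ := fun y =>
    ((ContinuousLinearMap.compL ℝ (Eu (k + 4)) (Eu (k + 1 + 4)) ℝ).flip (L y)).comp
      ((H y).comp (L y)) -
      ContinuousLinearMap.smulRightL ℝ (Eu (k + 4)) (Eu (k + 4) →L[ℝ] ℝ)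
        ((H y (X y) (X y))⁻¹ • l y) (l y)
  have hh's : ContDiffOn ℝ ∞ h' Bo := by
    refine ContDiffOn.sub ?_ ?_
    · refine ContDiffOn.clm_comp ?_ (hHs.clm_comp hLs)
      exact ContDiffOn.clm_apply contDiffOn_const hLs
    · refine ContDiffOn.clm_apply ?_ hls
      exact ContDiffOn.clm_apply contDiffOn_const
        (ContDiffOn.smul (hqs.inv fun y hy => (hq y hy).ne') hls)
  have hh'a : ∀ y u v, h' y u v =
      H y (L y u) (L y v) - ((H y (X y) (X y))⁻¹ * H y (X y) (L y u)) * H y (X y) (L y v) := by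
    intro y u v
    rfl
  have hmet : ∀ y ∈ Bo, ∀ u v, h' y u v =
      H y (L y u) (L y v) - H y (L y u) (X y) * H y (L y v) (X y) / H y (X y) (X y) := by
    intro y hy u v
    rw [hh'a, hsym y hy (X y) (L y u), hsym y hy (X y) (L y v)]
    ring
  -- the determinant
  let M : Eu (k + 4) → Matrix (Fin (k + 4 + 1)) (Fin (k + 4 + 1)) ℝ := fun y =>
    Matrix.of fun i j : Fin (k + 4 + 1) =>
      (Fin.cons (X y) (fun a : Fin (k + 4) => L y (EuclideanSpace.basisFun (Fin (k + 4)) ℝ a)) :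
        Fin (k + 4 + 1) → Eu (k + 4 + 1)) i j
  have hMc : ContinuousOn (fun y => (M y).det) Bo := by
    have h1 : ContinuousOn M Bo := by
      refine continuousOn_pi.2 fun i => continuousOn_pi.2 fun j => ?_
      refine Fin.cases ?_ (fun a => ?_) i
      · exact (EuclideanSpace.proj (𝕜 := ℝ) (ι := Fin (k + 4 + 1)) j).continuous.comp_continuousOn
          hXs.continuousOn
      · exact (EuclideanSpace.proj (𝕜 := ℝ) (ι := Fin (k + 4 + 1)) j).continuous.comp_continuousOn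
          (hLs.clm_apply contDiffOn_const).continuousOn
    exact (continuous_id.matrix_det).comp_continuousOn h1
  have hM0 : ∀ y ∈ Bo, (M y).det ≠ 0 := by
    intro y hy h0
    obtain ⟨v, hv, hv0⟩ := Matrix.exists_vecMul_eq_zero_iff.2 h0
    apply hv
    have h1 : D y (∑ a, v (Fin.succ a) • EuclideanSpace.basisFun (Fin (k + 4)) ℝ a, v 0) = 0 := by
      have h2 : ((∑ a, v (Fin.succ a) • EuclideanSpace.basisFun (Fin (k + 4)) ℝ a, v 0) :
          Eu (k + 4) × ℝ) = ∑ a : Fin (k + 4), v (Fin.succ a) •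
            ((EuclideanSpace.basisFun (Fin (k + 4)) ℝ a, (0 : ℝ)) : Eu (k + 4) × ℝ) +
            v 0 • ((0 : Eu (k + 4)), (1 : ℝ)) := by
        ext1
        · simp [Prod.fst_sum]
        · simp [Prod.snd_sum]
      rw [h2, map_add, map_sum]
      simp only [map_smul]
      ext j
      have h3 := congrFun hv0 j
      rw [Matrix.vecMul, dotProduct, Fin.sum_univ_succ] at h3
      have h4 : (∑ a : Fin (k + 4), v (Fin.succ a) • D y
          ((EuclideanSpace.basisFun (Fin (k + 4)) ℝ a, (0 : ℝ)) : Eu (k + 4) × ℝ) +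
          v 0 • D y ((0 : Eu (k + 4)), (1 : ℝ))) j =
          (∑ i : Fin (k + 4), v i.succ * M y i.succ j) + v 0 * M y 0 j := by
        simp [M, X, L]
      exact h4.trans ((add_comm _ _).trans h3)
    have h2 := hinj y hy _ h1
    rw [Prod.mk_eq_zero] at h2
    funext i
    refine Fin.cases ?_ (fun a => ?_) i
    · exact h2.2
    · have h3 := congrArg (fun q : Eu (k + 4) => q a) h2.1
      simpa [Pi.single_apply] using h3
  obtain ⟨ε, hε, hεp⟩ : ∃ ε : ℝ, (ε = 1 ∨ ε = -1) ∧ ∀ y ∈ Bo, 0 < ε * (M y).det := by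
    have h0 : (0 : Eu (k + 4)) ∈ Bo := Metric.mem_ball_self hr
    have hconn : IsPreconnected Bo := (convex_ball (0 : Eu (k + 4)) r).isPreconnected
    rcases lt_or_gt_of_ne (hM0 0 h0) with hneg | hpos0
    · refine ⟨-1, Or.inr rfl, fun y hy => ?_⟩
      by_contra hcon
      have h1 : 0 ≤ (M y).det := by linarith
      obtain ⟨z, hz, hz0⟩ := hconn.intermediate_value h0 hy hMc ⟨hneg.le, h1⟩
      exact hM0 z hz hz0
    · refine ⟨1, Or.inl rfl, fun y hy => ?_⟩
      by_contra hcon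
      have h1 : (M y).det ≤ 0 := by linarith
      obtain ⟨z, hz, hz0⟩ := hconn.intermediate_value hy h0 hMc ⟨h1, hpos0.le⟩
      exact hM0 z hz hz0
  let Ω' : Eu (k + 4) → Eu (k + 4) [⋀^Fin k]→L[ℝ] ℝ := fun y =>
    (ε / √(H y (X y) (X y))) • ((O y).curryLeft (X y)).compContinuousLinearMap (L y)
  have hform : ∀ y v, Ω' y v =
      ε * O y (Fin.cons (X y) fun i => L y (v i)) / √(H y (X y) (X y)) := by
    intro y v
    change (ε / √(H y (X y) (X y))) * O y (Fin.cons (X y) fun i => L y (v i)) = _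
    ring
  refine ⟨ε, h', Ω', ⟨hh's, ?_, ?_⟩, ?_, ?_⟩
  · intro y hy u v
    rw [hmet y hy, hmet y hy, hsym y hy (L y u) (L y v)]
    ring
  · intro y hy u hu
    rw [hmet y hy]
    set c : ℝ := H y (L y u) (X y) / H y (X y) (X y) with hc
    have hu0 : L y u - c • X y ≠ 0 := by
      intro h0
      have h1 : D y (u, -c) = 0 := by
        have h2 : ((u, -c) : Eu (k + 4) × ℝ) = (u, 0) - c • ((0 : Eu (k + 4)), (1 : ℝ)) := by
          ext1 <;> simp
        rw [h2, map_sub, map_smul]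
        exact h0
      have h2 := hinj y hy _ h1
      rw [Prod.mk_eq_zero] at h2
      exact hu h2.1
    have h1 := hpos y hy _ hu0
    have hq' := hq y hy
    have h2 : H y (L y u - c • X y) (L y u - c • X y) = H y (L y u) (L y u) -
        H y (L y u) (X y) * H y (L y u) (X y) / H y (X y) (X y) := by
      have h3 : c * H y (X y) (X y) = H y (L y u) (X y) := by
        rw [hc]
        field_simp
      simp only [map_sub, map_smul, _root_.sub_apply, _root_.smul_apply,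
        smul_eq_mul]
      rw [hsym y hy (X y) (L y u), ← h3]
      field_simp
      ring
    linarith
  · refine RDM_smooth fun v => ?_
    have h1 : ContDiffOn ℝ ∞ (fun y => O y (Fin.cons (X y) fun i => L y (v i))) Bo := by
      refine RDM_apply hOs (contDiffOn_pi.2 fun i => ?_)
      refine Fin.cases ?_ (fun a => ?_) i
      · exact hXs
      · exact hLs.clm_apply contDiffOn_const
    have h2 : ContDiffOn ℝ ∞ (fun y => ε * O y (Fin.cons (X y) fun i => L y (v i)) /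
        √(H y (X y) (X y))) Bo := by
      refine ContDiffOn.div (contDiffOn_const.mul h1) (hqs.sqrt fun y hy => (hq y hy).ne') ?_
      intro y hy
      exact (Real.sqrt_pos.2 (hq y hy)).ne'
    exact h2.congr fun y _ => hform y v
  · intro y hy
    exact ⟨hε, hεp y hy, hmet y hy, hform y⟩

end Pool.TIA
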