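import Pool.Agent.Work.MP_a1f430_ti.Interface4

/-! # Contraction of the wedge product (MP_a1f430, THEOREM TR; typed by helper55) -/

set_option autoImplicit false

namespace Pool.TIA

open MeasureTheory Set Filter Topology
open scoped ContDiff ENNReal

section RDW

variable {𝔐 : Type} [NormedRing 𝔐] [NormedAlgebra ℝ 𝔐] {E : Type} [NormedAddCommGroup E]
  [NormedSpace ℝ E]

/-- The term of a permutation. -/
noncomputable def RDW_T {m : ℕ} (Ω : E [⋀^Fin m]→L[ℝ] ℝ) (F : E [⋀^Fin 2]→L[ℝ] 𝔐)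
    (u : Fin m ⊕ Fin 2 → E) (σ : Equiv.Perm (Fin m ⊕ Fin 2)) : 𝔐 :=
  ((Equiv.Perm.sign σ : ℤˣ) : ℤ) •
    (Ω (fun i => u (σ (Sum.inl i))) • F (fun i => u (σ (Sum.inr i))))

/-- The wedge product as a sum over all permutations. -/
theorem RDW_sum {m : ℕ} (Ω : E [⋀^Fin m]→L[ℝ] ℝ) (F : E [⋀^Fin 2]→L[ℝ] 𝔐)
    (u : Fin m ⊕ Fin 2 → E) :
    (m.factorial * Nat.factorial 2) • wdg Ω F u = ∑ σ, RDW_T Ω F u σ := by
  have h := congrArg (fun g => g u) (MultilinearMap.domCoprod_alternization_eq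
    Ω.toAlternatingMap F.toAlternatingMap)
  simp only [Fintype.card_fin] at h
  have h2 : (m.factorial * Nat.factorial 2) • wdg Ω F u =
      TensorProduct.lid ℝ 𝔐 (((m.factorial * Nat.factorial 2) •
        (Ω.toAlternatingMap.domCoprod F.toAlternatingMap)) u) := by
    have h5 : (((m.factorial * Nat.factorial 2) •
        (Ω.toAlternatingMap.domCoprod F.toAlternatingMap)) u) = (m.factorial * Nat.factorial 2) •
        (Ω.toAlternatingMap.domCoprod F.toAlternatingMap u) := rfl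
    rw [h5, map_nsmul]
    rfl
  rw [h2, ← h, MultilinearMap.alternatization_apply, map_sum]
  refine Finset.sum_congr rfl fun σ _ => ?_
  unfold RDW_T
  change TensorProduct.lid ℝ 𝔐 (((Equiv.Perm.sign σ : ℤˣ) : ℤ) •
    ((Ω (fun i => u (σ (Sum.inl i)))) ⊗ₜ[ℝ] (F (fun i => u (σ (Sum.inr i)))))) = _
  rw [map_zsmul, TensorProduct.lid_tmul]

/-- The indices: the first one is separated. -/
def RDW_e (k : ℕ) : Fin (k + 1) ⊕ Fin 2 ≃ Option (Fin k ⊕ Fin 2) where
  toFun := Sum.elim (Fin.cons none fun j => some (Sum.inl j)) fun j => some (Sum.inr j)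
  invFun o := o.elim (Sum.inl 0) (Sum.elim (fun j => Sum.inl j.succ) Sum.inr)
  left_inv := by
    rintro (i | i)
    · refine Fin.cases ?_ (fun j => ?_) i <;> simp
    · simp
  right_inv := by
    rintro (_ | j | j) <;> simp

theorem RDW_e0 (k : ℕ) : RDW_e k (Sum.inl 0) = none := rfl

theorem RDW_e1 (k : ℕ) (j : Fin k) : RDW_e k (Sum.inl j.succ) = some (Sum.inl j) := rfl

theorem RDW_e2 (k : ℕ) (j : Fin 2) : RDW_e k (Sum.inr j) = some (Sum.inr j) := rfl

theorem RDW_F (F : E [⋀^Fin 2]→L[ℝ] 𝔐) {x : E} (hF : ∀ w, F ![x, w] = 0) (w : Fin 2 → E)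
    (b : Fin 2) (hb : w b = x) : F w = 0 := by
  have h0 : ∀ w : Fin 2 → E, w = ![w 0, w 1] := by
    intro w
    funext i
    fin_cases i <;> rfl
  fin_cases b
  · rw [h0 w, show w 0 = x from hb]
    exact hF _
  · have h1 : F (w ∘ Equiv.swap 0 1) = -F w :=
      F.toAlternatingMap.map_swap w (i := 0) (j := 1) (by decide)
    have h2 : F (w ∘ Equiv.swap 0 1) = 0 := by
      rw [h0 (w ∘ Equiv.swap 0 1)]
      have h3 : (w ∘ Equiv.swap 0 1) 0 = x := by
        simp only [Function.comp_apply, Equiv.swap_apply_left]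
        exact hb
      rw [h3]
      exact hF _
    rw [h2] at h1
    exact neg_eq_zero.1 h1.symm

theorem p_RDW : Stmt_RDW := by
  intro 𝔐 _ _ k E _ _ Ω Ω₁ F x v hF hΩ
  set u : Fin (k + 1) ⊕ Fin 2 → E :=
    Sum.elim (Fin.cons x fun i => v (Sum.inl i)) fun j => v (Sum.inr j) with hu
  set e := RDW_e k with he
  -- the vectors indexed by options
  set U : Option (Fin k ⊕ Fin 2) → E := fun o => o.elim x v with hU
  have huU : ∀ z, u z = U (e z) := by
    rintro (i | i)
    · refine Fin.cases ?_ (fun j => ?_) i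
      · rfl
      · rfl
    · rfl
  -- the permutation with parameters `i`, `τ`
  set Φ : Option (Fin k ⊕ Fin 2) × Equiv.Perm (Fin k ⊕ Fin 2) ≃ Equiv.Perm (Fin (k + 1) ⊕ Fin 2) :=
    Equiv.Perm.decomposeOption.symm.trans
      ((e.symm.permCongr).trans (Equiv.inv (Equiv.Perm (Fin (k + 1) ⊕ Fin 2)))) with hΦ
  have hΦa : ∀ i τ z, Φ (i, τ) z = e.symm (Equiv.optionCongr τ⁻¹ (Equiv.swap none i (e z))) := by
    intro i τ z
    rfl
  have hΦs : ∀ i τ, Equiv.Perm.sign (Φ (i, τ)) =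
      Equiv.Perm.sign (Equiv.swap none i) * Equiv.Perm.sign τ⁻¹ := by
    intro i τ
    have h1 : Φ (i, τ) = (e.symm.permCongr (Equiv.swap none i * Equiv.optionCongr τ))⁻¹ := rfl
    rw [h1, Equiv.Perm.sign_inv, Equiv.Perm.sign_permCongr, Equiv.Perm.sign_mul,
      Equiv.optionCongr_sign, Equiv.Perm.sign_inv]
  -- the terms
  have hterm : ∀ i τ, RDW_T Ω F u (Φ (i, τ)) =
      (if ∃ b, i = some (Sum.inr b) then (0 : 𝔐) else RDW_T Ω₁ F v τ⁻¹) := by
    intro i τ
    set W : Option (Fin k ⊕ Fin 2) → E := fun o => U (Equiv.optionCongr τ⁻¹ o) with hW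
    have hz : ∀ z, u (Φ (i, τ) z) = W (Equiv.swap none i (e z)) := by
      intro z
      rw [hΦa, huU, Equiv.apply_symm_apply]
    have hWn : W none = x := rfl
    have hWs : ∀ z, W (some z) = v (τ⁻¹ z) := fun z => rfl
    have hA : (fun a : Fin (k + 1) => W (e (Sum.inl a))) =
        Fin.cons x (fun j => v (τ⁻¹ (Sum.inl j))) := by
      funext a
      refine Fin.cases ?_ (fun j => ?_) a
      · rfl
      · rfl
    unfold RDW_T
    simp only [hz]
    rcases i with _ | (j | b)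
    · rw [if_neg (by rintro ⟨b, hb⟩; cases hb)]
      simp only [Equiv.swap_self, Equiv.refl_apply, hΦs, Equiv.Perm.sign_refl, one_mul]
      rw [hA, ← hΩ]
      rfl
    · rw [if_neg (by rintro ⟨b, hb⟩; cases hb)]
      have h1 : (fun a : Fin (k + 1) => W (Equiv.swap none (some (Sum.inl j)) (e (Sum.inl a)))) =
          (fun a : Fin (k + 1) => W (e (Sum.inl a))) ∘ Equiv.swap 0 j.succ := by
        funext a
        have h2 : Equiv.swap none (some (Sum.inl j)) (e (Sum.inl a)) =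
            e (Sum.inl (Equiv.swap 0 j.succ a)) := by
          rw [he]
          refine Fin.cases ?_ (fun l => ?_) a
          · rw [RDW_e0, Equiv.swap_apply_left, Equiv.swap_apply_left, RDW_e1]
          · rw [RDW_e1]
            by_cases hl : l = j
            · subst hl
              rw [Equiv.swap_apply_right, Equiv.swap_apply_right, RDW_e0]
            · rw [Equiv.swap_apply_of_ne_of_ne (by simp) (by simpa using hl),
                Equiv.swap_apply_of_ne_of_ne (Fin.succ_ne_zero l)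
                  (fun h => hl (Fin.succ_injective _ h)), RDW_e1]
        show W _ = W _
        rw [h2]
      have h3 : (fun b : Fin 2 => W (Equiv.swap none (some (Sum.inl j)) (e (Sum.inr b)))) =
          fun b : Fin 2 => v (τ⁻¹ (Sum.inr b)) := by
        funext b
        rw [he, RDW_e2, Equiv.swap_apply_of_ne_of_ne (by simp) (by simp), hWs]
      have h4 : Ω ((fun a : Fin (k + 1) => W (e (Sum.inl a))) ∘ Equiv.swap 0 j.succ) =
          -Ω (fun a : Fin (k + 1) => W (e (Sum.inl a))) :=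
        Ω.toAlternatingMap.map_swap _ (Fin.succ_ne_zero j).symm
      rw [h1, h3, h4, hA, ← hΩ, hΦs, Equiv.Perm.sign_swap (by simp)]
      simp only [Units.val_neg, neg_mul, one_mul, neg_smul, smul_neg, neg_neg]
    · rw [if_pos ⟨b, rfl⟩]
      have h1 : F (fun c : Fin 2 => W (Equiv.swap none (some (Sum.inr b)) (e (Sum.inr c)))) = 0 := by
        refine RDW_F F hF _ b ?_
        show W _ = x
        rw [he, RDW_e2, Equiv.swap_apply_right, hWn]
      rw [h1, smul_zero, smul_zero]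
  have hS : ∑ σ, RDW_T Ω F u σ = (k + 1) • ∑ τ, RDW_T Ω₁ F v τ := by
    rw [← Equiv.sum_comp Φ, Fintype.sum_prod_type, Fintype.sum_option]
    have hinv : ∑ τ, RDW_T Ω₁ F v τ⁻¹ = ∑ τ, RDW_T Ω₁ F v τ :=
      Equiv.sum_comp (Equiv.inv (Equiv.Perm (Fin k ⊕ Fin 2))) (RDW_T Ω₁ F v)
    have h0 : ∑ τ, RDW_T Ω F u (Φ (none, τ)) = ∑ τ, RDW_T Ω₁ F v τ := by
      rw [← hinv]
      refine Finset.sum_congr rfl fun τ _ => ?_
      rw [hterm, if_neg (by rintro ⟨b, hb⟩; cases hb)]
    have h1 : ∀ j : Fin k, ∑ τ, RDW_T Ω F u (Φ (some (Sum.inl j), τ)) = ∑ τ, RDW_T Ω₁ F v τ := by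
      intro j
      rw [← hinv]
      refine Finset.sum_congr rfl fun τ _ => ?_
      rw [hterm, if_neg (by rintro ⟨b, hb⟩; cases hb)]
    have h2 : ∀ j : Fin 2, ∑ τ, RDW_T Ω F u (Φ (some (Sum.inr j), τ)) = 0 := by
      intro j
      refine Finset.sum_eq_zero fun τ _ => ?_
      rw [hterm, if_pos ⟨j, rfl⟩]
    rw [h0, Fintype.sum_sum_type, Finset.sum_congr rfl fun j _ => h1 j,
      Finset.sum_congr rfl fun j _ => h2 j, Finset.sum_const, Finset.sum_const_zero, add_zero,
      Finset.card_univ, Fintype.card_fin, add_comm, succ_nsmul]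
  rw [← RDW_sum, ← RDW_sum, smul_smul, Nat.factorial_succ] at hS
  have hne : ((k + 1) * k.factorial * Nat.factorial 2 : ℕ) ≠ 0 := by positivity
  have hS' : (((k + 1) * k.factorial * Nat.factorial 2 : ℕ) : ℝ) • wdg Ω F u =
      (((k + 1) * k.factorial * Nat.factorial 2 : ℕ) : ℝ) • wdg Ω₁ F v := by
    rw [Nat.cast_smul_eq_nsmul, Nat.cast_smul_eq_nsmul, hS, mul_assoc]
  exact smul_right_injective 𝔐 (Nat.cast_ne_zero.2 hne) hS'

end RDW

end Pool.TIA
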