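import Pool.Agent.Work.MP_a1f430_ti.Interface2

/-! # Block SPT: the singular set splits in a box -/

set_option autoImplicit false

namespace Pool.TIA

open MeasureTheory Set Filter Topology
open scoped ContDiff ENNReal

theorem p_SPT (hGSM : Stmt_GSM) (hGTR : Stmt_GTR) (hSLG : Stmt_SLG) (hEXG : Stmt_EXG)
    (hSMC : Stmt_SMC) : Stmt_SPT := by
  intro 𝔐 _ _ _ _ _ _ 𝒢 V _ _ _ _ _ _ O I A B hO hI hAlie hBlie hAB y hy t ht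
  have hQo : IsOpen (O ×ˢ I) := hO.prod hI
  obtain ⟨hs1, hs2, hs4⟩ := hSMC 𝔐 𝒢 V
  obtain ⟨-, -, hs3⟩ := hSMC 𝔐 𝒢 (V × ℝ)
  -- Lie algebra valued
  have hBl : ∀ᵐ p ∂(volume.restrict (O ×ˢ I)), ∀ v, pr1 B p v ∈ 𝒢.lie := by
    have h1 : ∀ᵐ p ∂((volume.restrict O).prod (volume.restrict I)),
        ∀ v, B p.1 v ∈ 𝒢.lie :=
      Measure.quasiMeasurePreserving_fst.ae hBlie
    rw [Measure.prod_restrict, ← Measure.volume_eq_prod] at h1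
    filter_upwards [h1] with p hp v
    exact hp v.1
  constructor
  · rintro ⟨W₀, S, hW₀, hyt, hS, hSlie, hAS⟩
    obtain ⟨W₁, hW₁⟩ : ∃ W₁ : Set (V × ℝ), W₁ = W₀ ∩ (O ×ˢ I) := ⟨_, rfl⟩
    have hsub0 : W₁ ⊆ W₀ := by rw [hW₁]; exact inter_subset_left
    have hsub1 : W₁ ⊆ O ×ˢ I := by rw [hW₁]; exact inter_subset_right
    have hW₁o : IsOpen W₁ := by rw [hW₁]; exact hW₀.inter hQo
    have hytm : (y, t) ∈ W₁ := by rw [hW₁]; exact ⟨hyt, hy, ht⟩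
    have hAS1 : GaugeEq 𝒢 W₁ A S := hs3 W₀ W₁ A S hW₀ hW₁o hsub0 hAS
    have hAB1 : GaugeEq 𝒢 W₁ A (pr1 B) := hs3 _ W₁ A (pr1 B) hQo hW₁o hsub1 hAB
    have hBl1 : ∀ᵐ p ∂(volume.restrict W₁), ∀ v, pr1 B p v ∈ 𝒢.lie :=
      ae_restrict_of_ae_restrict_of_subset hsub1 hBl
    have hAl1 : ∀ᵐ p ∂(volume.restrict W₁), ∀ v, A p v ∈ 𝒢.lie :=
      ae_restrict_of_ae_restrict_of_subset hsub1 hAlie
    have hBA1 : GaugeEq 𝒢 W₁ (pr1 B) A := hGSM 𝔐 𝒢 (V × ℝ) W₁ A (pr1 B) hW₁o hAl1 hBl1 hAB1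
    have hBS : GaugeEq 𝒢 W₁ (pr1 B) S := hGTR 𝔐 𝒢 (V × ℝ) W₁ (pr1 B) A S hW₁o hBA1 hAS1
    obtain ⟨r, t₂, hr, hrW, hBS2⟩ := hSLG 𝔐 𝒢 V W₁ B S y t hW₁o hytm hBS
    have hballW : Metric.ball y r ×ˢ {t₂} ⊆ W₀ := fun p hp =>
      hsub0 (hrW ⟨Metric.ball_subset_closedBall hp.1, hp.2⟩)
    refine ⟨Metric.ball y r, rs1 S t₂, Metric.isOpen_ball, Metric.mem_ball_self hr,
      hs1 W₀ _ t₂ S hW₀ hS hballW, fun z hz v => ?_, hBS2⟩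
    have := hSlie (z, t₂) (hballW ⟨hz, rfl⟩) (v, 0)
    simpa [rs1] using this
  · rintro ⟨W₀, S, hW₀, hyW, hS, hSlie, hBS⟩
    have hW₁o : IsOpen (W₀ ∩ O) := hW₀.inter hO
    have hBS1 : GaugeEq 𝒢 (W₀ ∩ O) B S := hs4 W₀ _ B S hW₀ hW₁o inter_subset_left hBS
    have hE : GaugeEq 𝒢 ((W₀ ∩ O) ×ˢ I) (pr1 B) (pr1 S) :=
      hEXG 𝔐 𝒢 V _ I B S hW₁o hI hBS1
    have hNo : IsOpen ((W₀ ∩ O) ×ˢ I) := hW₁o.prod hI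
    have hNQ : (W₀ ∩ O) ×ˢ I ⊆ O ×ˢ I := prod_mono inter_subset_right le_rfl
    refine ⟨(W₀ ∩ O) ×ˢ I, pr1 S, hNo, ⟨⟨hyW, hy⟩, ht⟩,
      hs2 _ _ _ (hS.mono inter_subset_left), fun p hp v => ?_, ?_⟩
    · exact hSlie p.1 hp.1.1 v.1
    · exact hGTR 𝔐 𝒢 (V × ℝ) _ A (pr1 B) (pr1 S) hNo (hs3 _ _ A (pr1 B) hQo hNo hNQ hAB) hE

end Pool.TIA
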