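import Pool.Agent.Work.MP_a1f430_ti.All
import Pool.Agent.Work.MP_a1f430_ti.B_SPT
import Pool.Agent.Work.MP_a1f430_ti.B_KA3
import Pool.Agent.Work.MP_a1f430_ti.B_KT3
import Pool.Agent.Work.MP_a1f430_ti.B_RDW
import Pool.Agent.Work.MP_a1f430_ti.B_RDA
import Pool.Agent.Work.MP_a1f430_ti.B_RDM

/-! # Singular sets of weak Omega-self-dual curvatures: assembly of part N (MP_a1f430) -/

set_option autoImplicit false

namespace Pool.TIA
theorem a_SPT : Stmt_SPT := p_SPT a_GSM a_GTR a_SLG a_EXG a_SMC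
theorem a_KA3 : Stmt_KA3 := p_KA3 a_APC a_SUB
theorem a_KT3 : Stmt_KT3 := p_KT3 a_LIE a_LOD a_CLG a_CLC a_GDF a_KB a_KC a_KA3
theorem a_RDW : Stmt_RDW := p_RDW
theorem a_RDA : Stmt_RDA := p_RDA a_RDW
theorem a_RDM : Stmt_RDM := p_RDM

end Pool.TIA
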