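import Pool.Agent.Work.MP_a1f430_ti.Interface

/-! # Block AL4: one-forms are decomposable -/

set_option autoImplicit false

namespace Pool.TIA

open MeasureTheory Set Filter Topology
open scoped ContDiff ENNReal

theorem p_AL4 : Stmt_AL4 := by
  intro n Ω
  have h1 : ∀ v : Fin 1 → Eu n, v = fun _ => v 0 := by
    intro v
    funext i
    rw [Subsingleton.elim i 0]
  let L : Eu n →ₗ[ℝ] ℝ :=
    { toFun := fun x => Ω (fun _ => x)
      map_add' := by
        intro x y
        have h2 := Ω.map_update_add (fun _ => x) 0 x y
        have h3 : ∀ z : Eu n, Function.update (fun _ : Fin 1 => x) 0 z = fun _ => z := by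
          intro z
          funext i
          rw [Subsingleton.elim i 0, Function.update_self]
        rw [h3, h3, h3] at h2
        exact h2
      map_smul' := by
        intro c x
        have h2 := Ω.map_update_smul (fun _ => x) 0 c x
        have h3 : ∀ z : Eu n, Function.update (fun _ : Fin 1 => x) 0 z = fun _ => z := by
          intro z
          funext i
          rw [Subsingleton.elim i 0, Function.update_self]
        rw [h3, h3] at h2
        exact h2 }
  refine ⟨fun _ => LinearMap.toContinuousLinearMap L, fun v => ?_⟩
  rw [Matrix.det_fin_one]
  show Ω v = Ω (fun _ => v 0)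
  rw [← h1 v]

end Pool.TIA
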