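import Pool.Agent.Work.MP_a1f430_ti.Interface

set_option autoImplicit false

namespace Pool.TIA

open MeasureTheory Set Filter Topology
open scoped ContDiff ENNReal

theorem p_FIN (hCRV : Stmt_CRV) (hMAI : Stmt_MAI) (hAL1 : Stmt_AL1) (hAL2 : Stmt_AL2)
    (hAL3 : Stmt_AL3) : Stmt_FIN := by
  intro 𝔐 _ _ _ _ _ _ 𝒢 m U h Ω A F hm hU hh hΩ hC hS
  have hkil : ∀ (X : Eu (m + 4) → Eu (m + 4)) (N : Set (Eu (m + 4))), MeasurableSet N → N ⊆ U →
      (∀ x ∈ N, DivBy (h x) (Ω x) (X x)) → Kil N F X := by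
    intro X N hN hNU hX
    have h1 : ∀ᵐ x ∂(volume.restrict N), StarEq (h x) (Ω x) (F x) :=
      ae_mono (Measure.restrict_mono hNU le_rfl) hS
    have h2 : ∀ᵐ x ∂(volume.restrict N), x ∈ N := ae_restrict_mem hN
    filter_upwards [h1, h2] with x hx hxN w
    exact hAL1 𝔐 m (h x) (Ω x) (F x) (X x) (hh.symm x (hNU hxN)) (hh.pos x (hNU hxN)) hx
      (hX x hxN) w
  refine ⟨?_, ?_⟩
  · intro X γ a b hX hdiv hab hγ
    have hK : Kil U F X := hkil X U hU.measurableSet le_rfl hdiv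
    have h1 := hCRV 𝔐 𝒢 (m + 3) U A F X hU hC hX hK γ a b hab hγ
    have ha : γ a ∈ U := (hγ a (left_mem_Icc.mpr hab)).1
    have hb : γ b ∈ U := (hγ b (right_mem_Icc.mpr hab)).1
    exact ⟨fun hq => ⟨hb, fun hr => hq.2 (h1.mpr hr)⟩, fun hq => ⟨ha, fun hr => hq.2 (h1.mp hr)⟩⟩
  · intro hdec hH
    rw [eq_empty_iff_forall_notMem]
    intro x₀ hx₀
    have hx₀U : x₀ ∈ U := hx₀.1
    have key : ∃ (N : Set (Eu (m + 4))) (T : Fin m → Eu (m + 4) → Eu (m + 4)), IsOpen N ∧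
        x₀ ∈ N ∧ N ⊆ U ∧ (∀ j, ContDiffOn ℝ ∞ (T j) N) ∧
        LinearIndependent ℝ (fun j => T j x₀) ∧ ∀ j, Kil N F (T j) := by
      by_cases h0 : Ω x₀ = 0
      · obtain ⟨N, hN, hxN, hNU, hF⟩ := hAL2 𝔐 m U h Ω x₀ hU hh hΩ.continuousOn hx₀U h0
        refine ⟨N, fun j _ => EuclideanSpace.basisFun (Fin (m + 4)) ℝ (Fin.castAdd 4 j), hN, hxN,
          hNU, fun j => contDiffOn_const, ?_, fun j => ?_⟩
        · have := (EuclideanSpace.basisFun (Fin (m + 4)) ℝ).toBasis.linearIndependent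
          have h2 := this.comp (Fin.castAdd 4 : Fin m → Fin (m + 4)) (Fin.castAdd_injective m 4)
          rw [OrthonormalBasis.coe_toBasis] at h2
          exact h2
        · have h1 : ∀ᵐ x ∂(volume.restrict N), StarEq (h x) (Ω x) (F x) :=
            ae_mono (Measure.restrict_mono hNU le_rfl) hS
          have h2 : ∀ᵐ x ∂(volume.restrict N), x ∈ N := ae_restrict_mem hN.measurableSet
          filter_upwards [h1, h2] with x hx hxN w
          rw [hF x hxN (F x) hx]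
          rfl
      · obtain ⟨N, T, hN, hxN, hNU, hT, hli, hdiv⟩ := hAL3 m (m + 4) U h Ω x₀ hU hh hΩ hx₀U h0 hdec
        exact ⟨N, T, hN, hxN, hNU, hT, hli, fun j => hkil (T j) N hN.measurableSet hNU
          fun y hy => hdiv y hy j⟩
    obtain ⟨N, T, hN, hxN, hNU, hT, hli, hK⟩ := key
    have := hMAI 𝔐 𝒢 (m + 3) m U N A F T x₀ hU hC hN hNU hxN hT hK hli hx₀
    exact absurd hH this.ne'

end Pool.TIA
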