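import Pool.Agent.Work.MP_a1f430_ti.Interface3
import Pool.Agent.Work.MP_a1f430_ti.B_SMC

set_option autoImplicit false

namespace Pool.TIA

open MeasureTheory Set Filter Topology
open scoped ContDiff ENNReal

theorem p_GEN (hDSK : Stmt_DSK) (hLFN : Stmt_LFN) : Stmt_GEN := by
  intro 𝔐 _ _ _ _ _ _ 𝒢 m U h Ω A F hU hC hS k x₀ hx₀ hF
  obtain ⟨N, T, hN, hxN, hT, hli, hkill⟩ := hF
  refine hDSK 𝔐 𝒢 (m + 3) k U (U ∩ N) A F T x₀ hU hC (hU.inter hN) inter_subset_left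
    ⟨hx₀.1, hxN⟩ (fun j => (hT j).mono inter_subset_right) (fun j => ?_) hli hx₀
  have h1 : ∀ᵐ x ∂(volume.restrict (U ∩ N)), StarEq (h x) (Ω x) (F x) :=
    ae_mono (Measure.restrict_mono inter_subset_left le_rfl) hS
  have h2 : ∀ᵐ x ∂(volume.restrict (U ∩ N)), x ∈ U ∩ N :=
    ae_restrict_mem (hU.inter hN).measurableSet
  filter_upwards [h1, h2] with x hx hxN w
  by_contra hne
  obtain ⟨l, -, hl⟩ := exists_dual_vector ℝ (F x ![T j x, w]) (norm_ne_zero_iff.mpr hne)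
  have h3 := hkill x hxN.2 _ (hLFN 𝔐 m (h x) (Ω x) (F x) l hx) j w
  have h4 : l (F x ![T j x, w]) = 0 := h3
  rw [hl] at h4
  apply hne
  have : ‖F x ![T j x, w]‖ = 0 := by exact_mod_cast h4
  exact norm_eq_zero.mp this

end Pool.TIA
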