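import Pool.Agent.Work.MP_a1f430_ti.Interface2
import Pool.Agent.Work.MP_a1f430_ti.B_KA

/-! # Block KA2: the approximations on a slice, with the curvatures (helper57) -/

set_option autoImplicit false

namespace Pool.TIA

open MeasureTheory Set Filter Topology
open scoped ContDiff ENNReal

theorem p_KA2 (hAPC : Stmt_APC) (_hSUB : Stmt_SUB) : Stmt_KA2 := by
  intro 𝔐 _ _ _ _ _ _ 𝒢 V _ _ _ _ _ _ W A F K a b hW hC hK hab hKW hF
  exact KA_all hAPC 𝔐 𝒢 V W A F K a b hW hC hK hab hKW hF

end Pool.TIA
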