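import Pool.Agent.Work.MP_a1f430_ti.Interface

/-! # Block LIE -/

set_option autoImplicit false

namespace Pool.TIA

open MeasureTheory Set Filter Topology
open scoped ContDiff ENNReal

theorem p_LIE : Stmt_LIE := by
  intro 𝔐 _ _ _ _ _ _ 𝒢
  have hn : ∀ g ∈ 𝒢.G, ‖g‖ ≤ 1 := by
    intro g hg
    have h1 : ‖g‖ * ‖g‖ = ‖(1 : 𝔐)‖ := by
      rw [← (𝒢.unitary g hg).1, CStarRing.norm_star_mul_self]
    rcases subsingleton_or_nontrivial 𝔐 with hs | hs
    · have : g = 0 := Subsingleton.elim _ _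
      rw [this, norm_zero]
      exact zero_le_one
    · rw [CStarRing.norm_one] at h1
      nlinarith [norm_nonneg g]
  refine ⟨?_, hn, ?_⟩
  · intro X hX
    have hG := (𝒢.mem_lie X).mp hX
    have hd : HasDerivAt (fun t : ℝ => NormedSpace.exp (t • X)) X 0 := by
      have := hasDerivAt_exp_smul_const (𝕂 := ℝ) X (0 : ℝ)
      rwa [zero_smul, NormedSpace.exp_zero, one_mul] at this
    have hs : HasDerivAt (fun t : ℝ => star (NormedSpace.exp (t • X))) (star X) 0 := hd.star
    have hm := hs.mul hd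
    have hc : HasDerivAt (fun t : ℝ => star (NormedSpace.exp (t • X)) * NormedSpace.exp (t • X))
        (0 : 𝔐) 0 := by
      have : (fun t : ℝ => star (NormedSpace.exp (t • X)) * NormedSpace.exp (t • X)) =
          fun _ => (1 : 𝔐) := by
        funext t
        exact (𝒢.unitary _ (hG t)).1
      rw [this]
      exact hasDerivAt_const _ _
    have h0 := hm.unique hc
    rw [zero_smul, NormedSpace.exp_zero, star_one, one_mul, mul_one] at h0
    exact eq_neg_of_add_eq_zero_left h0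
  · intro g hg a
    have hg1 := hn g hg
    have hg2 := hn _ (𝒢.star_mem g hg)
    obtain ⟨hu1, hu2⟩ := 𝒢.unitary g hg
    constructor
    · apply le_antisymm
      · calc ‖g * a‖ ≤ ‖g‖ * ‖a‖ := norm_mul_le _ _
          _ ≤ 1 * ‖a‖ := mul_le_mul_of_nonneg_right hg1 (norm_nonneg _)
          _ = ‖a‖ := one_mul _
      · calc ‖a‖ = ‖star g * (g * a)‖ := by rw [← mul_assoc, hu1, one_mul]
          _ ≤ ‖star g‖ * ‖g * a‖ := norm_mul_le _ _
          _ ≤ 1 * ‖g * a‖ := mul_le_mul_of_nonneg_right hg2 (norm_nonneg _)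
          _ = ‖g * a‖ := one_mul _
    · apply le_antisymm
      · calc ‖a * g‖ ≤ ‖a‖ * ‖g‖ := norm_mul_le _ _
          _ ≤ ‖a‖ * 1 := mul_le_mul_of_nonneg_left hg1 (norm_nonneg _)
          _ = ‖a‖ := mul_one _
      · calc ‖a‖ = ‖(a * g) * star g‖ := by rw [mul_assoc, hu2, mul_one]
          _ ≤ ‖a * g‖ * ‖star g‖ := norm_mul_le _ _
          _ ≤ ‖a * g‖ * 1 := mul_le_mul_of_nonneg_left hg2 (norm_nonneg _)
          _ = ‖a * g‖ := mul_one _

end Pool.TIA
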