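import Pool.Agent.Work.MP_a1f430_ti.B_SMC

/-! # Block MAI: a singular point with independent fields annihilating the curvature (helper71) -/

set_option autoImplicit false

namespace Pool.TIA

open MeasureTheory Set Filter Topology
open scoped ContDiff ENNReal NNReal

theorem p_MAI (hCRV : Stmt_CRV) (hHMP : Stmt_HMP) (hMFL : Stmt_MFL) : Stmt_MAI := by
  intro 𝔐 _ _ _ _ _ _ 𝒢 n m U N A F X x₀ hU hA hN hNU hx₀ hX hK hli hs
  obtain ⟨Ψ, hΨ, hΨ0, hΨd, hΨe⟩ := hMFL (Eu (n + 1)) m X N x₀ hN hx₀ hX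
  have hAN : Conn 𝒢 N A F := SMC_conn hNU hA
  -- the derivative is injective
  have hinj : Function.Injective (fderiv ℝ Ψ 0) := by
    rw [injective_iff_map_eq_zero]
    intro v hv
    have h1 : v = ∑ j, v j • (Pi.single j 1 : Fin m → ℝ) := by
      ext i
      simp [Finset.sum_apply, Pi.single_apply]
    rw [h1, map_sum] at hv
    have h2 : ∑ j, v j • X j x₀ = 0 := by
      rw [← hv]
      refine Finset.sum_congr rfl fun j _ => ?_
      rw [map_smul, hΨd j]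
    have h3 := Fintype.linearIndependent_iff.1 hli v h2
    exact funext h3
  -- the regular points are invariant
  have hinv : ∀ (j : Fin m) (γ : ℝ → Eu (n + 1)) (a b : ℝ), a ≤ b → Cur N (X j) γ a b →
      (Reg 𝒢 A (γ a) ↔ Reg 𝒢 A (γ b)) :=
    fun j γ a b hab hγ => hCRV 𝔐 𝒢 n N A F (X j) hN hAN (hX j) (hK j) γ a b hab hγ
  have hmem : ∀ᶠ s in 𝓝 (0 : Fin m → ℝ), Ψ s ∈ Sing 𝒢 U A := by
    have h1 : ∀ᶠ s in 𝓝 (0 : Fin m → ℝ), Ψ s ∈ N := by
      have h2 : Tendsto Ψ (𝓝 0) (𝓝 (Ψ 0)) := hΨ.continuous.continuousAt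
      rw [hΨ0] at h2
      exact h2.eventually (hN.mem_nhds hx₀)
    filter_upwards [h1, hΨe] with s hs1 hs2
    refine ⟨hNU hs1, fun hr => hs.2 ?_⟩
    exact (hs2 (fun x => Reg 𝒢 A x) hinv).2 hr
  have h1 := hHMP (Eu (n + 1)) m Ψ (hΨ.of_le (by exact_mod_cast le_top)) hinj
    {s | Ψ s ∈ Sing 𝒢 U A} hmem
  refine h1.trans_le (measure_mono ?_)
  rintro _ ⟨s, hs, rfl⟩
  exact hs

end Pool.TIA
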