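import Pool.Agent.Work.MP_a1f430_ti.Interface2

/-! # Block SPL: the local splitting of a connection whose curvature is annihilated by a field -/

set_option autoImplicit false

namespace Pool.TIA

open MeasureTheory Set Filter Topology
open scoped ContDiff ENNReal

section

variable {E : Type} [NormedAddCommGroup E] [NormedSpace ℝ E] [MeasureSpace E]
variable {𝔐 : Type} [NormedRing 𝔐] [NormedAlgebra ℝ 𝔐] [StarRing 𝔐]

theorem SPL_L2loc_mono {X : Type} [NormedAddCommGroup X] {U W : Set E} {f : E → X} (h : W ⊆ U)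
    (hf : L2loc U f) : L2loc W f := fun K hK hKW => hf K hK (hKW.trans h)

theorem SPL_conn_mono {𝒢 : LieG 𝔐} {U W : Set E} {A : E → E →L[ℝ] 𝔐}
    {F : E → E [⋀^Fin 2]→L[ℝ] 𝔐} (h : W ⊆ U) (hA : Conn 𝒢 U A F) : Conn 𝒢 W A F :=
  ⟨SPL_L2loc_mono h hA.A2, SPL_L2loc_mono h hA.F2, ae_restrict_of_ae_restrict_of_subset h hA.lie,
    fun φ hφ => hA.curv φ ⟨hφ.smooth, hφ.cpt, hφ.sub.trans h⟩⟩

end

theorem SPL_dif_symm {E' E : Type} [NormedAddCommGroup E'] [NormedSpace ℝ E']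
    [NormedAddCommGroup E] [NormedSpace ℝ E] {Φ : E' → E} {Ψ : E → E'} {W' : Set E'} {W : Set E}
    (h : Dif Φ Ψ W' W) : Dif Ψ Φ W W' :=
  ⟨h.open_, h.open', h.maps', h.maps, h.right, h.left, h.smooth', h.smooth⟩

/-- The restriction of a diffeomorphism to a smaller open set. -/
theorem SPL_dif_sub {E' E : Type} [NormedAddCommGroup E'] [NormedSpace ℝ E']
    [NormedAddCommGroup E] [NormedSpace ℝ E] {Φ : E' → E} {Ψ : E → E'} {W' : Set E'} {W : Set E}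
    (h : Dif Φ Ψ W' W) {O : Set E'} (hO : IsOpen O) (hOW : O ⊆ W') :
    Dif Φ Ψ O (W ∩ Ψ ⁻¹' O) where
  open' := hO
  open_ := h.smooth'.continuousOn.isOpen_inter_preimage h.open_ hO
  maps := fun x hx => ⟨h.maps (hOW hx), by
    show Ψ (Φ x) ∈ O
    rw [h.left x (hOW hx)]; exact hx⟩
  maps' := fun y hy => hy.2
  left := fun x hx => h.left x (hOW hx)
  right := fun y hy => h.right y hy.1
  smooth := h.smooth.mono hOW
  smooth' := h.smooth'.mono inter_subset_left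

theorem p_SPL (hFBX : Stmt_FBX) (hCVR : Stmt_CVR) (hPBC : Stmt_PBC) (hPBG : Stmt_PBG)
    (hPBI : Stmt_PBI) (hKT2 : Stmt_KT2) (hSPT : Stmt_SPT) : Stmt_SPL := by
  intro 𝔐 _ _ _ _ _ _ 𝒢 n U A F X x₀ hU hA hx₀ hX hX0 hK
  obtain ⟨Φ, Ψ, W, r, hr, hxW, hWU, hD, hΦ0, hΦd⟩ := hFBX n X U x₀ hU hx₀ hX hX0
  set W' : Set (Eu n × ℝ) := Metric.ball 0 r ×ˢ Ioo (-r) r with hW'
  have hfr : Module.finrank ℝ (Eu n × ℝ) = Module.finrank ℝ (Eu (n + 1)) := by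
    rw [Module.finrank_prod, finrank_euclideanSpace, finrank_euclideanSpace]
    simp
  have hAW : Conn 𝒢 W A F := SPL_conn_mono hWU hA
  have hA' : Conn 𝒢 W' (pb1 Φ A) (pb2 Φ F) :=
    hPBC 𝔐 𝒢 (Eu n × ℝ) (Eu (n + 1)) Φ Ψ W' W A F hfr hD hAW
  have hK' : ∀ᵐ p ∂((volume : Measure (Eu n × ℝ)).restrict W'), ∀ v, pb2 Φ F p ![(0, 1), v] = 0 := by
    have h1 : volume ({x | ¬ ∀ w, F x ![X x, w] = 0} ∩ W) = 0 := by
      have h2 : ∀ᵐ x ∂(volume.restrict W), ∀ w, F x ![X x, w] = 0 :=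
        ae_restrict_of_ae_restrict_of_subset hWU hK
      rw [ae_iff, Measure.restrict_apply₀'] at h2
      · exact h2
      · exact hD.open_.measurableSet.nullMeasurableSet
    have h3 := (hCVR (Eu n × ℝ) (Eu (n + 1)) Φ Ψ W' W hfr hD).1 _ h1
    rw [ae_iff, Measure.restrict_apply₀' hD.open'.measurableSet.nullMeasurableSet]
    refine measure_mono_null ?_ h3
    intro p hp
    refine ⟨?_, hp.2⟩
    intro h4
    apply hp.1
    intro v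
    have h5 : pb2 Φ F p ![(0, 1), v] = F (Φ p) ![fderiv ℝ Φ p (0, 1), fderiv ℝ Φ p v] := by
      unfold pb2
      rw [ContinuousAlternatingMap.compContinuousLinearMap_apply]
      congr 1
      ext i
      fin_cases i <;> rfl
    rw [h5, hΦd p hp.2]
    exact h4 _
  -- the smaller box
  have hr2 : 0 < r / 2 := by positivity
  have hsub : Metric.closedBall (0 : Eu n) (r / 2) ×ˢ Icc (-(r / 2)) (r / 2) ⊆ W' := by
    rintro ⟨y, t⟩ ⟨hy, ht⟩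
    refine ⟨Metric.closedBall_subset_ball (by linarith) hy, ?_, ?_⟩
    · have := ht.1; simp only at this ⊢; linarith
    · have := ht.2; simp only at this ⊢; linarith
  obtain ⟨t₀, -, hB, hG⟩ := hKT2 𝔐 𝒢 (Eu n) W' (pb1 Φ A) (pb2 Φ F)
    (Metric.closedBall 0 (r / 2)) (-(r / 2)) (r / 2) hD.open' hA' (isCompact_closedBall _ _)
    (by linarith) hsub hK'
  rw [interior_closedBall _ hr2.ne'] at hB hG
  set O : Set (Eu n × ℝ) := Metric.ball 0 (r / 2) ×ˢ Ioo (-(r / 2)) (r / 2) with hO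
  have hOo : IsOpen O := Metric.isOpen_ball.prod isOpen_Ioo
  have hOW : O ⊆ W' := fun p hp =>
    hsub ⟨Metric.ball_subset_closedBall hp.1, Ioo_subset_Icc_self hp.2⟩
  have hD2 : Dif Φ Ψ O (W ∩ Ψ ⁻¹' O) := SPL_dif_sub hD hOo hOW
  have h00 : ((0 : Eu n), (0 : ℝ)) ∈ O := by
    refine ⟨Metric.mem_ball_self hr2, ?_, ?_⟩
    · simpa using hr
    · exact hr2
  refine ⟨Φ, Ψ, W ∩ Ψ ⁻¹' O, r / 2, rs1 (pb1 Φ A) t₀, rs2 (pb2 Φ F) t₀, hr2, ?_, ?_, hD2, hΦ0,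
    fun p hp => hΦd p (hOW hp), hB, hG, ?_⟩
  · have h := hD2.maps h00
    rw [hΦ0] at h
    exact h
  · exact fun x hx => hWU hx.1
  · intro p hp
    have hs := hSPT 𝔐 𝒢 (Eu n) (Metric.ball 0 (r / 2)) (Ioo (-(r / 2)) (r / 2)) (pb1 Φ A)
      (rs1 (pb1 Φ A) t₀) Metric.isOpen_ball isOpen_Ioo
      (ae_restrict_of_ae_restrict_of_subset hOW hA'.lie) hB.lie hG p.1 hp.1 p.2 hp.2
    refine Iff.trans ⟨?_, ?_⟩ hs
    · intro hreg
      exact (hPBG 𝔐 𝒢 (Eu n × ℝ) (Eu (n + 1)) Φ Ψ O (W ∩ Ψ ⁻¹' O) hfr hD2).2 A p hp hreg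
    · intro hreg
      have hy : Φ p ∈ W ∩ Ψ ⁻¹' O := hD2.maps hp
      have hreg' : Reg 𝒢 (pb1 Φ A) (Ψ (Φ p)) := by
        rw [hD2.left p hp]; exact hreg
      have r3 : Reg 𝒢 (pb1 Ψ (pb1 Φ A)) (Φ p) :=
        (hPBG 𝔐 𝒢 (Eu (n + 1)) (Eu n × ℝ) Ψ Φ (W ∩ Ψ ⁻¹' O) O hfr.symm (SPL_dif_symm hD2)).2
          (pb1 Φ A) _ hy hreg'
      exact (hPBI 𝔐 𝒢 (Eu n × ℝ) (Eu (n + 1)) Φ Ψ O (W ∩ Ψ ⁻¹' O) hD2 A).2 _ hy r3

end Pool.TIA
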