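import Pool.Agent.Work.MP_a1f430_ti.Interface4
import Pool.Agent.Work.MP_a1f430_ti.B_SPL

/-! # Block SP2: the local splitting with the reduced equation -/

set_option autoImplicit false

namespace Pool.TIA

open MeasureTheory Set Filter Topology
open scoped ContDiff ENNReal

theorem SP2_metric_mono {n : ℕ} {U W : Set (Eu n)} {h : Eu n → Eu n →L[ℝ] Eu n →L[ℝ] ℝ}
    (hWU : W ⊆ U) (hh : Metric U h) : Metric W h :=
  ⟨hh.smooth.mono hWU, fun x hx => hh.symm x (hWU hx), fun x hx => hh.pos x (hWU hx)⟩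

/-- Null sets under the flow box. -/
theorem SP2_ae (hCVR : Stmt_CVR) {n : ℕ} {Φ : Eu n × ℝ → Eu (n + 1)} {Ψ : Eu (n + 1) → Eu n × ℝ}
    {W' : Set (Eu n × ℝ)} {W : Set (Eu (n + 1))}
    (hfr : Module.finrank ℝ (Eu n × ℝ) = Module.finrank ℝ (Eu (n + 1))) (hD : Dif Φ Ψ W' W)
    (Q : Eu (n + 1) → Prop) (hQ : ∀ᵐ x ∂(volume.restrict W), Q x) :
    ∀ᵐ p ∂((volume : Measure (Eu n × ℝ)).restrict W'), Q (Φ p) := by
  have h1 : volume ({x | ¬ Q x} ∩ W) = 0 := by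
    rw [ae_iff, Measure.restrict_apply₀'] at hQ
    · exact hQ
    · exact hD.open_.measurableSet.nullMeasurableSet
  have h3 := (hCVR (Eu n × ℝ) (Eu (n + 1)) Φ Ψ W' W hfr hD).1 _ h1
  rw [ae_iff, Measure.restrict_apply₀' hD.open'.measurableSet.nullMeasurableSet]
  exact h3

theorem SP2_pb2 {E' E 𝔐 : Type} [NormedAddCommGroup E'] [NormedSpace ℝ E']
    [NormedAddCommGroup E] [NormedSpace ℝ E] [NormedRing 𝔐] [NormedAlgebra ℝ 𝔐] (Φ : E' → E)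
    (F : E → E [⋀^Fin 2]→L[ℝ] 𝔐) (p : E') (u v : E') :
    pb2 Φ F p ![u, v] = F (Φ p) ![fderiv ℝ Φ p u, fderiv ℝ Φ p v] := by
  unfold pb2
  rw [ContinuousAlternatingMap.compContinuousLinearMap_apply]
  congr 1
  ext i
  fin_cases i <;> rfl

theorem p_SP2 (hFBX : Stmt_FBX) (hCVR : Stmt_CVR) (hPBC : Stmt_PBC) (hPBG : Stmt_PBG)
    (hPBI : Stmt_PBI) (hKT3 : Stmt_KT3) (hSPT : Stmt_SPT) (hRDA : Stmt_RDA) (hRDM : Stmt_RDM) :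
    Stmt_SP2 := by
  intro N k 𝒢 U h Ω A F X x₀ hI hx₀ hX hX0 hK
  have hSM : StarModule ℝ (Mt N) := Mt_starModule N
  obtain ⟨Φ, Ψ, W, r, hr, hxW, hWU, hD, hΦ0, hΦd⟩ := hFBX (k + 4) X U x₀ hI.op hx₀ hX hX0
  set W' : Set (Eu (k + 4) × ℝ) := Metric.ball 0 r ×ˢ Ioo (-r) r with hW'
  have hfr : Module.finrank ℝ (Eu (k + 4) × ℝ) = Module.finrank ℝ (Eu (k + 4 + 1)) := by
    rw [Module.finrank_prod, finrank_euclideanSpace, finrank_euclideanSpace]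
    simp
  have hAW : Conn 𝒢 W A F := SPL_conn_mono hWU hI.conn
  have hA' : Conn 𝒢 W' (pb1 Φ A) (pb2 Φ F) :=
    hPBC (Mt N) 𝒢 (Eu (k + 4) × ℝ) (Eu (k + 4 + 1)) Φ Ψ W' W A F hfr hD hAW
  have hP : ∀ᵐ p ∂((volume : Measure (Eu (k + 4) × ℝ)).restrict W'),
      StarEq (h (Φ p)) (Ω (Φ p)) (F (Φ p)) ∧ ∀ w, F (Φ p) ![X (Φ p), w] = 0 := by
    refine SP2_ae hCVR hfr hD
      (fun x => StarEq (h x) (Ω x) (F x) ∧ ∀ w, F x ![X x, w] = 0) ?_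
    filter_upwards [ae_restrict_of_ae_restrict_of_subset hWU hI.star,
      ae_restrict_of_ae_restrict_of_subset hWU hK] with x h1 h2
    exact ⟨h1, h2⟩
  have hK' : ∀ᵐ p ∂((volume : Measure (Eu (k + 4) × ℝ)).restrict W'),
      ∀ v, pb2 Φ F p ![(0, 1), v] = 0 := by
    filter_upwards [hP, ae_restrict_mem hD.open'.measurableSet] with p hp hpW v
    rw [SP2_pb2, hΦd p hpW]
    exact hp.2 _
  -- the smaller box
  have hr2 : 0 < r / 2 := by positivity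
  have hsub : Metric.closedBall (0 : Eu (k + 4)) (r / 2) ×ˢ Icc (-(r / 2)) (r / 2) ⊆ W' := by
    rintro ⟨y, t⟩ ⟨hy, ht⟩
    refine ⟨Metric.closedBall_subset_ball (by linarith) hy, ?_, ?_⟩
    · have := ht.1; simp only at this ⊢; linarith
    · have := ht.2; simp only at this ⊢; linarith
  obtain ⟨t₀, ht₀, hB, hG, hPt⟩ := hKT3 (Mt N) 𝒢 (Eu (k + 4)) W' (pb1 Φ A) (pb2 Φ F)
    (fun p => StarEq (h (Φ p)) (Ω (Φ p)) (F (Φ p)) ∧ ∀ w, F (Φ p) ![X (Φ p), w] = 0)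
    (Metric.closedBall 0 (r / 2)) (-(r / 2)) (r / 2) hD.open' hA' (isCompact_closedBall _ _)
    (by linarith) hsub hK' hP
  rw [interior_closedBall _ hr2.ne'] at hB hG hPt
  have ht₀' : t₀ ∈ Ioo (-r) r := ⟨by linarith [ht₀.1], by linarith [ht₀.2]⟩
  obtain ⟨ε, h', Ω', hh', hΩ', hRd⟩ := hRDM k U h Ω Φ Ψ W r t₀ hI.op hI.metric hI.smooth hWU hr
    ht₀' hD
  have hbb : Metric.ball (0 : Eu (k + 4)) (r / 2) ⊆ Metric.ball 0 r :=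
    Metric.ball_subset_ball (by linarith)
  have hInst : WeakInst 𝒢 (Metric.ball 0 (r / 2)) h' Ω' (rs1 (pb1 Φ A) t₀)
      (rs2 (pb2 Φ F) t₀) := by
    refine ⟨Metric.isOpen_ball, SP2_metric_mono hbb hh', hΩ'.mono hbb, hB, ?_⟩
    filter_upwards [hPt, ae_restrict_mem Metric.isOpen_ball.measurableSet] with y hy hyb
    have hyW : ((y, t₀) : Eu (k + 4) × ℝ) ∈ W' := ⟨hbb hyb, ht₀'⟩
    have hΦU : Φ (y, t₀) ∈ U := hWU (hD.maps hyW)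
    refine hRDA (Mt N) k ε (h (Φ (y, t₀))) (Ω (Φ (y, t₀))) (fderiv ℝ Φ (y, t₀) (0, 1))
      ((fderiv ℝ Φ (y, t₀)).comp (ContinuousLinearMap.inl ℝ _ ℝ)) (h' y) (Ω' y) (F (Φ (y, t₀)))
      (rs2 (pb2 Φ F) t₀ y) (hI.metric.symm _ hΦU) (hI.metric.pos _ hΦU) (hRd y (hbb hyb)) ?_ ?_
      hy.1
    · intro v
      rw [hΦd _ hyW]
      exact hy.2 v
    · intro u v
      have h1 : rs2 (pb2 Φ F) t₀ y ![u, v] = pb2 Φ F (y, t₀) ![(u, 0), (v, 0)] := by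
        unfold rs2
        rw [ContinuousAlternatingMap.compContinuousLinearMap_apply]
        congr 1
        funext i
        fin_cases i <;> rfl
      rw [h1, SP2_pb2]
      rfl
  set O : Set (Eu (k + 4) × ℝ) := Metric.ball 0 (r / 2) ×ˢ Ioo (-(r / 2)) (r / 2) with hO
  have hOo : IsOpen O := Metric.isOpen_ball.prod isOpen_Ioo
  have hOW : O ⊆ W' := fun p hp =>
    hsub ⟨Metric.ball_subset_closedBall hp.1, Ioo_subset_Icc_self hp.2⟩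
  have hD2 : Dif Φ Ψ O (W ∩ Ψ ⁻¹' O) := SPL_dif_sub hD hOo hOW
  have h00 : ((0 : Eu (k + 4)), (0 : ℝ)) ∈ O := by
    refine ⟨Metric.mem_ball_self hr2, ?_, ?_⟩
    · simpa using hr
    · exact hr2
  refine ⟨Φ, Ψ, W ∩ Ψ ⁻¹' O, r / 2, h', Ω', rs1 (pb1 Φ A) t₀, rs2 (pb2 Φ F) t₀, hr2, ?_, ?_, hD2,
    hΦ0, fun p hp => hΦd p (hOW hp), hInst, hG, ?_⟩
  · have h := hD2.maps h00
    rw [hΦ0] at h
    exact h
  · exact fun x hx => hWU hx.1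
  · intro p hp
    have hs := hSPT (Mt N) 𝒢 (Eu (k + 4)) (Metric.ball 0 (r / 2)) (Ioo (-(r / 2)) (r / 2))
      (pb1 Φ A) (rs1 (pb1 Φ A) t₀) Metric.isOpen_ball isOpen_Ioo
      (ae_restrict_of_ae_restrict_of_subset hOW hA'.lie) hB.lie hG p.1 hp.1 p.2 hp.2
    have hreg : Reg 𝒢 A (Φ p) ↔ Reg 𝒢 (rs1 (pb1 Φ A) t₀) p.1 := by
      refine Iff.trans ⟨?_, ?_⟩ hs
      · intro hreg
        exact (hPBG (Mt N) 𝒢 (Eu (k + 4) × ℝ) (Eu (k + 4 + 1)) Φ Ψ O (W ∩ Ψ ⁻¹' O) hfr hD2).2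
          A p hp hreg
      · intro hreg
        have hy : Φ p ∈ W ∩ Ψ ⁻¹' O := hD2.maps hp
        have hreg' : Reg 𝒢 (pb1 Φ A) (Ψ (Φ p)) := by
          rw [hD2.left p hp]; exact hreg
        have r3 : Reg 𝒢 (pb1 Ψ (pb1 Φ A)) (Φ p) :=
          (hPBG (Mt N) 𝒢 (Eu (k + 4 + 1)) (Eu (k + 4) × ℝ) Ψ Φ (W ∩ Ψ ⁻¹' O) O hfr.symm
            (SPL_dif_symm hD2)).2 (pb1 Φ A) _ hy hreg'
        exact (hPBI (Mt N) 𝒢 (Eu (k + 4) × ℝ) (Eu (k + 4 + 1)) Φ Ψ O (W ∩ Ψ ⁻¹' O) hD2 A).2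
          _ hy r3
    have hΦU : Φ p ∈ U := hWU (hD.maps (hOW hp))
    exact ⟨fun hq => ⟨hp.1, fun hr' => hq.2 (hreg.2 hr')⟩,
      fun hq => ⟨hΦU, fun hr' => hq.2 (hreg.1 hr')⟩⟩

end Pool.TIA
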