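import Mathlib

/-! # Singular sets of weak Omega-self-dual curvatures: definitions
(MP_a1f430, THEOREM TR, helper61)

`E` is a finite-dimensional space with a Haar measure, `𝔐` a finite-dimensional `C^*`-algebra (in the
final theorem the complex `N × N` matrices), the structure group is a closed group of unitaries. -/

set_option autoImplicit false

namespace Pool.TIA

open MeasureTheory Set Filter Topology
open scoped ContDiff ENNReal

/-- A closed group `G` of unitary elements and its Lie algebra. -/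
structure LieG (𝔐 : Type) [NormedRing 𝔐] [NormedAlgebra ℝ 𝔐] [StarRing 𝔐] where
  G : Set 𝔐
  lie : Submodule ℝ 𝔐
  closed : IsClosed G
  one_mem : (1 : 𝔐) ∈ G
  mul_mem : ∀ a ∈ G, ∀ b ∈ G, a * b ∈ G
  star_mem : ∀ a ∈ G, star a ∈ G
  unitary : ∀ a ∈ G, star a * a = 1 ∧ a * star a = 1
  mem_lie : ∀ X : 𝔐, X ∈ lie ↔ ∀ t : ℝ, NormedSpace.exp (t • X) ∈ G

/-- The Lebesgue measure of a product with the line is a Haar measure. -/
instance haarProd (V : Type) [NormedAddCommGroup V] [NormedSpace ℝ V] [FiniteDimensional ℝ V]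
    [MeasureSpace V] [BorelSpace V] [(volume : Measure V).IsAddHaarMeasure] :
    (volume : Measure (V × ℝ)).IsAddHaarMeasure := by
  rw [Measure.volume_eq_prod]
  infer_instance

section General

variable {E : Type} [NormedAddCommGroup E] [NormedSpace ℝ E] [MeasureSpace E]
variable {𝔐 : Type} [NormedRing 𝔐] [NormedAlgebra ℝ 𝔐] [StarRing 𝔐]

/-- Locally square integrable on `U`. -/
def L2loc {X : Type} [NormedAddCommGroup X] (U : Set E) (f : E → X) : Prop :=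
  ∀ K : Set E, IsCompact K → K ⊆ U → MemLp f 2 (volume.restrict K)

/-- A test function on `U`. -/
structure Test (U : Set E) (φ : E → ℝ) : Prop where
  smooth : ContDiff ℝ ∞ φ
  cpt : HasCompactSupport φ
  sub : tsupport φ ⊆ U

/-- `dg` is the derivative of `g` on `U` in the sense of distributions. -/
def WD {X : Type} [NormedAddCommGroup X] [NormedSpace ℝ X] (U : Set E) (g : E → X)
    (dg : E → E →L[ℝ] X) : Prop :=
  ∀ φ : E → ℝ, Test U φ → ∀ v : E, ∫ x, fderiv ℝ φ x v • g x = -∫ x, φ x • dg x v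

/-- `F = dA + A ∧ A` on `U` in the sense of distributions. -/
def IsCurv (U : Set E) (A : E → E →L[ℝ] 𝔐) (F : E → E [⋀^Fin 2]→L[ℝ] 𝔐) : Prop :=
  ∀ φ : E → ℝ, Test U φ → ∀ u v : E,
    ∫ x, φ x • F x ![u, v] =
      -(∫ x, (fderiv ℝ φ x u • A x v - fderiv ℝ φ x v • A x u)) +
        ∫ x, φ x • (A x u * A x v - A x v * A x u)

/-- `A` is a locally square integrable connection form on `U` with the locally square integrable
curvature `F`. -/
structure Conn (𝒢 : LieG 𝔐) (U : Set E) (A : E → E →L[ℝ] 𝔐)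
    (F : E → E [⋀^Fin 2]→L[ℝ] 𝔐) : Prop where
  A2 : L2loc U A
  F2 : L2loc U F
  lie : ∀ᵐ x ∂(volume.restrict U), ∀ v, A x v ∈ 𝒢.lie
  curv : IsCurv U A F

/-- `A' = g⁻¹ dg + g⁻¹ A g` on `W` with `g ∈ W^{1,2}_loc(W, G)`. -/
def GaugeEq (𝒢 : LieG 𝔐) (W : Set E) (A A' : E → E →L[ℝ] 𝔐) : Prop :=
  ∃ (g : E → 𝔐) (dg : E → E →L[ℝ] 𝔐), L2loc W g ∧ L2loc W dg ∧ WD W g dg ∧
    (∀ᵐ x ∂(volume.restrict W), g x ∈ 𝒢.G) ∧
    ∀ᵐ x ∂(volume.restrict W), ∀ v, A' x v = star (g x) * dg x v + star (g x) * A x v * g x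

/-- `A` is gauge equivalent to a smooth connection form near `x`. -/
def Reg (𝒢 : LieG 𝔐) (A : E → E →L[ℝ] 𝔐) (x : E) : Prop :=
  ∃ (W : Set E) (S : E → E →L[ℝ] 𝔐), IsOpen W ∧ x ∈ W ∧ ContDiffOn ℝ ∞ S W ∧
    (∀ y ∈ W, ∀ v, S y v ∈ 𝒢.lie) ∧ GaugeEq 𝒢 W A S

/-- The singular set in `U`. -/
def Sing (𝒢 : LieG 𝔐) (U : Set E) (A : E → E →L[ℝ] 𝔐) : Set E := {x ∈ U | ¬ Reg 𝒢 A x}

end General

/-! ## Riemannian metrics, the Hodge star and the equation -/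

/-- The Euclidean space. -/
abbrev Eu (n : ℕ) : Type := EuclideanSpace ℝ (Fin n)

/-- `h` is a smooth Riemannian metric on `U`. -/
structure Metric {n : ℕ} (U : Set (Eu n)) (h : Eu n → Eu n →L[ℝ] Eu n →L[ℝ] ℝ) : Prop where
  smooth : ContDiffOn ℝ ∞ h U
  symm : ∀ x ∈ U, ∀ v w, h x v w = h x w v
  pos : ∀ x ∈ U, ∀ v, v ≠ 0 → 0 < h x v v

/-- The indices of a frame of `ℝ^(m+4)`: `m + 2` vectors followed by two vectors. -/
abbrev FI (m : ℕ) : Type := (Fin m ⊕ Fin 2) ⊕ Fin 2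

/-- The order of the indices. -/
def ix (m : ℕ) : FI m ≃ Fin (m + 4) :=
  (Equiv.sumCongr finSumFinEquiv (Equiv.refl (Fin 2))).trans finSumFinEquiv

/-- `e` is a positively oriented orthonormal frame for the scalar product `h`. -/
structure PFr {m : ℕ} (h : Eu (m + 4) →L[ℝ] Eu (m + 4) →L[ℝ] ℝ) (e : FI m → Eu (m + 4)) :
    Prop where
  orth : ∀ i j, h (e i) (e j) = if i = j then 1 else 0
  pos : 0 < Matrix.det (Matrix.of fun i j : Fin (m + 4) => e ((ix m).symm i) j)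

section Forms

variable {𝔐 : Type} [NormedRing 𝔐] [NormedAlgebra ℝ 𝔐]

/-- The wedge product of an `m`-form and an `𝔐`-valued two-form. -/
noncomputable def wdg {m : ℕ} {E : Type} [NormedAddCommGroup E] [NormedSpace ℝ E]
    (Ω : E [⋀^Fin m]→L[ℝ] ℝ) (F : E [⋀^Fin 2]→L[ℝ] 𝔐) (v : Fin m ⊕ Fin 2 → E) : 𝔐 :=
  TensorProduct.lid ℝ 𝔐 (Ω.toAlternatingMap.domCoprod F.toAlternatingMap v)

/-- `Ω ∧ F = * F` at a point, `h` the metric at this point: `(* F)(e₃, ..., e_n) = F(e₁, e₂)` for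
the positively oriented orthonormal frames `(e₁, ..., e_n)` (equivalently `(e₃, ..., e_n, e₁, e₂)`
is positively oriented). -/
def StarEq {m : ℕ} (h : Eu (m + 4) →L[ℝ] Eu (m + 4) →L[ℝ] ℝ) (Ω : Eu (m + 4) [⋀^Fin m]→L[ℝ] ℝ)
    (F : Eu (m + 4) [⋀^Fin 2]→L[ℝ] 𝔐) : Prop :=
  ∀ e : FI m → Eu (m + 4), PFr h e →
    wdg Ω F (fun i => e (Sum.inl i)) = F ![e (Sum.inr 0), e (Sum.inr 1)]

/-- `Ω = θ₁ ∧ ... ∧ θ_m` at a point. -/
def Decomp {m n : ℕ} (Ω : Eu n [⋀^Fin m]→L[ℝ] ℝ) : Prop :=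
  ∃ θ : Fin m → (Eu n →L[ℝ] ℝ), ∀ v : Fin m → Eu n,
    Ω v = Matrix.det (Matrix.of fun i j => θ i (v j))

/-- `Ω` is divisible by the one-form dual to `T` (at a point): it vanishes on the orthogonal
complement of `T`. -/
def DivBy {m n : ℕ} (h : Eu n →L[ℝ] Eu n →L[ℝ] ℝ) (Ω : Eu n [⋀^Fin m]→L[ℝ] ℝ) (T : Eu n) : Prop :=
  ∀ v : Fin m → Eu n, (∀ i, h T (v i) = 0) → Ω v = 0

end Forms

end Pool.TIA
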