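import Pool.Agent.Work.MP_a1f430_ti.Gen
import Pool.Agent.Work.MP_a1f430_ti.All

/-! # Weak Omega-self-dual connections: the final theorems (MP_a1f430) -/

set_option autoImplicit false

namespace Pool.TIA

open MeasureTheory Set Filter Topology
open scoped ContDiff ENNReal

theorem OFr_iff {m : ℕ} (h : Eu (m + 4) →L[ℝ] Eu (m + 4) →L[ℝ] ℝ) (e : FI m → Eu (m + 4)) :
    OFr (stb (m + 4)) h e ↔ PFr h e := by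
  have h1 : (stb (m + 4)).det (fun i => e ((ix m).symm i)) =
      Matrix.det (Matrix.of fun i j : Fin (m + 4) => e ((ix m).symm i) j) := by
    rw [Module.Basis.det_apply, ← Matrix.det_transpose]
    rfl
  exact ⟨fun hq => ⟨hq.orth, h1 ▸ hq.pos⟩, fun hq => ⟨hq.orth, h1 ▸ hq.pos⟩⟩

theorem StEq_iff {𝔐 : Type} [NormedRing 𝔐] [NormedAlgebra ℝ 𝔐] {m : ℕ}
    (h : Eu (m + 4) →L[ℝ] Eu (m + 4) →L[ℝ] ℝ) (Ω : Eu (m + 4) [⋀^Fin m]→L[ℝ] ℝ)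
    (F : Eu (m + 4) [⋀^Fin 2]→L[ℝ] 𝔐) : StEq (stb (m + 4)) h Ω F ↔ StarEq h Ω F :=
  ⟨fun hq e he => hq e ((OFr_iff h e).mpr he), fun hq e he => hq e ((OFr_iff h e).mp he)⟩

theorem RMet_iff {n : ℕ} {U : Set (Eu n)} {h : Eu n → Eu n →L[ℝ] Eu n →L[ℝ] ℝ} :
    RMet U h ↔ Metric U h :=
  ⟨fun hq => ⟨hq.smooth, hq.symm, hq.pos⟩, fun hq => ⟨hq.smooth, hq.symm, hq.pos⟩⟩

theorem AFl_iff {m : ℕ} (k : ℕ) (h : Eu (m + 4) → Eu (m + 4) →L[ℝ] Eu (m + 4) →L[ℝ] ℝ)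
    (Ω : Eu (m + 4) → Eu (m + 4) [⋀^Fin m]→L[ℝ] ℝ) (x : Eu (m + 4)) :
    AFl (stb (m + 4)) k h Ω x ↔ Fld k h Ω x := by
  constructor
  · rintro ⟨N, T, h1, h2, h3, h4, h5⟩
    exact ⟨N, T, h1, h2, h3, h4, fun y hy w hw => h5 y hy w ((StEq_iff _ _ _).mpr hw)⟩
  · rintro ⟨N, T, h1, h2, h3, h4, h5⟩
    exact ⟨N, T, h1, h2, h3, h4, fun y hy w hw => h5 y hy w ((StEq_iff _ _ _).mp hw)⟩

section

variable {𝔐 : Type} [NormedRing 𝔐] [NormedAlgebra ℝ 𝔐] [StarRing 𝔐]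

theorem WI_star {m : ℕ} {𝒢 : LieG 𝔐} {U : Set (Eu (m + 4))}
    {h : Eu (m + 4) → Bil (Eu (m + 4))} {Ω : Eu (m + 4) → Frm m (Eu (m + 4))}
    {A : OneF (Eu (m + 4)) 𝔐} {F : TwoF (Eu (m + 4)) 𝔐}
    (hI : WInst (stb (m + 4)) 𝒢 U h Ω A F) :
    ∀ᵐ x ∂(volume.restrict U), StarEq (h x) (Ω x) (F x) := by
  filter_upwards [hI.star] with x hx using (StEq_iff _ _ _).mp hx

variable [CStarRing 𝔐] [StarModule ℝ 𝔐] [FiniteDimensional ℝ 𝔐]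

theorem Fin_disk {k m : ℕ} {𝒢 : LieG 𝔐} {U : Set (Eu (m + 4))}
    {h : Eu (m + 4) → Bil (Eu (m + 4))} {Ω : Eu (m + 4) → Frm m (Eu (m + 4))}
    {A : OneF (Eu (m + 4)) 𝔐} {F : TwoF (Eu (m + 4)) 𝔐}
    (hI : WInst (stb (m + 4)) 𝒢 U h Ω A F) :
    ∀ x ∈ Sing 𝒢 U A, Fld k h Ω x → Dsk k (Sing 𝒢 U A) x := by
  intro x hx hF
  exact a_GEN 𝔐 𝒢 m U h Ω A F hI.op hI.conn (WI_star hI) k x hx hF

theorem Fin_up {k : ℕ} {𝒢 : LieG 𝔐} {U : Set (Eu (k + 1 + 4))}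
    {h : Eu (k + 1 + 4) → Bil (Eu (k + 1 + 4))} {Ω : Eu (k + 1 + 4) → Frm (k + 1) (Eu (k + 1 + 4))}
    {A : OneF (Eu (k + 1 + 4)) 𝔐} {F : TwoF (Eu (k + 1 + 4)) 𝔐}
    (hI : WInst (stb (k + 1 + 4)) 𝒢 U h Ω A F) :
    (∀ x ∈ Sing 𝒢 U A, AFl (stb (k + 1 + 4)) k h Ω x → Dsk (k + 1) (Sing 𝒢 U A) x) ∧
    ((∀ x ∈ U, AFl (stb (k + 1 + 4)) k h Ω x) → Sing 𝒢 U A = ∅ ∨
      0 < Measure.hausdorffMeasure ((k + 1 : ℕ) : ℝ) (Sing 𝒢 U A)) := by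
  have h1 : ∀ x ∈ Sing 𝒢 U A, AFl (stb (k + 1 + 4)) k h Ω x → Dsk (k + 1) (Sing 𝒢 U A) x := by
    intro x hx hF
    exact Fin_disk hI x hx (a_UPF k U h Ω x hI.op (RMet_iff.mp hI.metric) hI.smooth hx.1
      ((AFl_iff k h Ω x).mp hF))
  refine ⟨h1, fun hF => ?_⟩
  rcases (Sing 𝒢 U A).eq_empty_or_nonempty with he | ⟨x, hx⟩
  · exact Or.inl he
  · exact Or.inr (a_DSM (k + 1 + 4) (k + 1) _ x (h1 x hx (hF x hx.1)))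

end

theorem Fin_fld0 {m : ℕ} (h : Eu (m + 4) → Bil (Eu (m + 4)))
    (Ω : Eu (m + 4) → Frm m (Eu (m + 4))) (x : Eu (m + 4)) : Fld 0 h Ω x :=
  ⟨univ, fun j => j.elim0, isOpen_univ, mem_univ _, fun j => j.elim0, linearIndependent_empty_type,
    fun _ _ _ _ j => j.elim0⟩

theorem Fin_cond {k : ℕ} {U : Set (Eu (k + 1 + 4))} {h : Eu (k + 1 + 4) → Bil (Eu (k + 1 + 4))}
    {Ω : Eu (k + 1 + 4) → Frm (k + 1) (Eu (k + 1 + 4))} (hU : IsOpen U)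
    (hh : RMet U h) (hΩ : ContDiffOn ℝ ∞ Ω U) (hc : k = 0 ∨ ∀ x ∈ U, Dcp (Ω x)) :
    ∀ x ∈ U, AFl (stb (k + 1 + 4)) k h Ω x := by
  intro x hx
  rw [AFl_iff]
  rcases hc with rfl | hdec
  · exact Fin_fld0 h Ω x
  · obtain ⟨N, T, hN, hxN, hT, hli, hw⟩ :=
      a_DFL (k + 1) U h Ω hU (RMet_iff.mp hh) hΩ hdec x hx
    exact ⟨N, fun j => T j.castSucc, hN, hxN, fun j => hT j.castSucc,
      hli.comp Fin.castSucc (Fin.castSucc_injective k), fun y hy w hs j v => hw y hy w hs _ v⟩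

end Pool.TIA
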