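import Pool.Agent.Work.MP_a1f430_ti.Gen2
import Pool.Agent.Work.MP_a1f430_ti.Final
import Pool.Agent.Work.MP_a1f430_ti.B_SP2
import Pool.Agent.Work.MP_a1f430_ti.All2

/-! # Weak Omega-self-dual connections: the final splitting theorem (MP_a1f430)

The proof of `Fin_split` is the block SP2 (helper59) with a general algebra. -/

set_option autoImplicit false

namespace Pool.TIA

open MeasureTheory Set Filter Topology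
open scoped ContDiff ENNReal

theorem Dfm_iff {E' E : Type} [NormedAddCommGroup E'] [NormedSpace ℝ E'] [NormedAddCommGroup E]
    [NormedSpace ℝ E] {Φ : E' → E} {Ψ : E → E'} {W' : Set E'} {W : Set E} :
    Dfm Φ Ψ W' W ↔ Dif Φ Ψ W' W :=
  ⟨fun h => ⟨h.open', h.open_, h.maps, h.maps', h.left, h.right, h.smooth, h.smooth'⟩,
    fun h => ⟨h.open', h.open_, h.maps, h.maps', h.left, h.right, h.smooth, h.smooth'⟩⟩

section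

variable {𝔐 : Type} [NormedRing 𝔐] [NormedAlgebra ℝ 𝔐] [StarRing 𝔐]

theorem Fin_kil {m : ℕ} {𝒢 : LieG 𝔐} {U : Set (Eu (m + 4))}
    {h : Eu (m + 4) → Bil (Eu (m + 4))} {Ω : Eu (m + 4) → Frm m (Eu (m + 4))}
    {A : OneF (Eu (m + 4)) 𝔐} {F : TwoF (Eu (m + 4)) 𝔐} (hI : WInst (stb (m + 4)) 𝒢 U h Ω A F)
    {X : Eu (m + 4) → Eu (m + 4)} (hX : Ann (stb (m + 4)) U h Ω X) : Kil U F X := by
  have h2 : ∀ᵐ x ∂(volume.restrict U), x ∈ U := ae_restrict_mem hI.op.measurableSet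
  filter_upwards [WI_star hI, h2] with x hx hxU w
  by_contra hne
  obtain ⟨l, -, hl⟩ := exists_dual_vector ℝ (F x ![X x, w]) (norm_ne_zero_iff.mpr hne)
  have h3 := hX x hxU _ ((StEq_iff _ _ _).mpr (a_LFN 𝔐 m (h x) (Ω x) (F x) l hx)) w
  have h4 : l (F x ![X x, w]) = 0 := h3
  rw [hl] at h4
  apply hne
  have : ‖F x ![X x, w]‖ = 0 := by exact_mod_cast h4
  exact norm_eq_zero.mp this

variable [CStarRing 𝔐] [StarModule ℝ 𝔐] [FiniteDimensional ℝ 𝔐]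

theorem Fin_curve {m : ℕ} {𝒢 : LieG 𝔐} {U : Set (Eu (m + 4))}
    {h : Eu (m + 4) → Bil (Eu (m + 4))} {Ω : Eu (m + 4) → Frm m (Eu (m + 4))}
    {A : OneF (Eu (m + 4)) 𝔐} {F : TwoF (Eu (m + 4)) 𝔐} (hI : WInst (stb (m + 4)) 𝒢 U h Ω A F)
    {X : Eu (m + 4) → Eu (m + 4)} (hXs : ContDiffOn ℝ ∞ X U) (hX : Ann (stb (m + 4)) U h Ω X)
    (γ : ℝ → Eu (m + 4)) (a b : ℝ) (hab : a ≤ b) (hγ : ICv U X γ a b) :
    γ a ∈ Sing 𝒢 U A ↔ γ b ∈ Sing 𝒢 U A := by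
  have h1 := a_CRV 𝔐 𝒢 (m + 3) U A F X hI.op hI.conn hXs (Fin_kil hI hX) γ a b hab hγ
  have ha : γ a ∈ U := (hγ a (left_mem_Icc.mpr hab)).1
  have hb : γ b ∈ U := (hγ b (right_mem_Icc.mpr hab)).1
  exact ⟨fun hq => ⟨hb, fun hr => hq.2 (h1.mpr hr)⟩, fun hq => ⟨ha, fun hr => hq.2 (h1.mp hr)⟩⟩

theorem Fin_split {k : ℕ} {𝒢 : LieG 𝔐} {U : Set (Eu (k + 1 + 4))}
    {h : Eu (k + 1 + 4) → Bil (Eu (k + 1 + 4))} {Ω : Eu (k + 1 + 4) → Frm (k + 1) (Eu (k + 1 + 4))}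
    {A : OneF (Eu (k + 1 + 4)) 𝔐} {F : TwoF (Eu (k + 1 + 4)) 𝔐}
    (hI : WInst (stb (k + 1 + 4)) 𝒢 U h Ω A F) {X : Eu (k + 1 + 4) → Eu (k + 1 + 4)}
    (hX : ContDiffOn ℝ ∞ X U) (hA : Ann (stb (k + 1 + 4)) U h Ω X) (x₀ : Eu (k + 1 + 4))
    (hx₀ : x₀ ∈ U) (hX0 : X x₀ ≠ 0) : SplTo (stb (k + 4)) 𝒢 U A X x₀ := by
  have hM : Metric U h := RMet_iff.mp hI.metric
  have hK : Kil U F X := Fin_kil hI hA
  obtain ⟨Φ, Ψ, W, r, hr, hxW, hWU, hD, hΦ0, hΦd⟩ := a_FBX (k + 4) X U x₀ hI.op hx₀ hX hX0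
  set W' : Set (Eu (k + 4) × ℝ) := Metric.ball 0 r ×ˢ Ioo (-r) r with hW'
  have hfr : Module.finrank ℝ (Eu (k + 4) × ℝ) = Module.finrank ℝ (Eu (k + 4 + 1)) := by
    rw [Module.finrank_prod, finrank_euclideanSpace, finrank_euclideanSpace]
    simp
  have hAW : Conn 𝒢 W A F := SPL_conn_mono hWU hI.conn
  have hA' : Conn 𝒢 W' (pb1 Φ A) (pb2 Φ F) :=
    a_PBC 𝔐 𝒢 (Eu (k + 4) × ℝ) (Eu (k + 4 + 1)) Φ Ψ W' W A F hfr hD hAW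
  have hP : ∀ᵐ p ∂((volume : Measure (Eu (k + 4) × ℝ)).restrict W'),
      StarEq (h (Φ p)) (Ω (Φ p)) (F (Φ p)) ∧ ∀ w, F (Φ p) ![X (Φ p), w] = 0 := by
    refine SP2_ae a_CVR hfr hD
      (fun x => StarEq (h x) (Ω x) (F x) ∧ ∀ w, F x ![X x, w] = 0) ?_
    filter_upwards [ae_restrict_of_ae_restrict_of_subset hWU (WI_star hI),
      ae_restrict_of_ae_restrict_of_subset hWU hK] with x h1 h2
    exact ⟨h1, h2⟩
  have hK' : ∀ᵐ p ∂((volume : Measure (Eu (k + 4) × ℝ)).restrict W'),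
      ∀ v, pb2 Φ F p ![(0, 1), v] = 0 := by
    filter_upwards [hP, ae_restrict_mem hD.open'.measurableSet] with p hp hpW v
    rw [SP2_pb2, hΦd p hpW]
    exact hp.2 _
  -- the smaller box
  have hr2 : 0 < r / 2 := by positivity
  have hsub : Metric.closedBall (0 : Eu (k + 4)) (r / 2) ×ˢ Icc (-(r / 2)) (r / 2) ⊆ W' := by
    rintro ⟨y, t⟩ ⟨hy, ht⟩
    refine ⟨Metric.closedBall_subset_ball (by linarith) hy, ?_, ?_⟩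
    · have := ht.1; simp only at this ⊢; linarith
    · have := ht.2; simp only at this ⊢; linarith
  obtain ⟨t₀, ht₀, hB, hG, hPt⟩ := a_KT3 𝔐 𝒢 (Eu (k + 4)) W' (pb1 Φ A) (pb2 Φ F)
    (fun p => StarEq (h (Φ p)) (Ω (Φ p)) (F (Φ p)) ∧ ∀ w, F (Φ p) ![X (Φ p), w] = 0)
    (Metric.closedBall 0 (r / 2)) (-(r / 2)) (r / 2) hD.open' hA' (isCompact_closedBall _ _)
    (by linarith) hsub hK' hP
  rw [interior_closedBall _ hr2.ne'] at hB hG hPt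
  have ht₀' : t₀ ∈ Ioo (-r) r := ⟨by linarith [ht₀.1], by linarith [ht₀.2]⟩
  obtain ⟨ε, h', Ω', hh', hΩ', hRd⟩ := a_RDM k U h Ω Φ Ψ W r t₀ hI.op hM hI.smooth hWU hr
    ht₀' hD
  have hbb : Metric.ball (0 : Eu (k + 4)) (r / 2) ⊆ Metric.ball 0 r :=
    Metric.ball_subset_ball (by linarith)
  have hInst : WInst (stb (k + 4)) 𝒢 (Metric.ball 0 (r / 2)) h' Ω' (rs1 (pb1 Φ A) t₀)
      (rs2 (pb2 Φ F) t₀) := by
    refine ⟨Metric.isOpen_ball, RMet_iff.mpr (SP2_metric_mono hbb hh'), hΩ'.mono hbb, hB, ?_⟩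
    filter_upwards [hPt, ae_restrict_mem Metric.isOpen_ball.measurableSet] with y hy hyb
    have hyW : ((y, t₀) : Eu (k + 4) × ℝ) ∈ W' := ⟨hbb hyb, ht₀'⟩
    have hΦU : Φ (y, t₀) ∈ U := hWU (hD.maps hyW)
    refine (StEq_iff _ _ _).mpr (a_RDA 𝔐 k ε (h (Φ (y, t₀))) (Ω (Φ (y, t₀))) (fderiv ℝ Φ (y, t₀) (0, 1))
      ((fderiv ℝ Φ (y, t₀)).comp (ContinuousLinearMap.inl ℝ _ ℝ)) (h' y) (Ω' y) (F (Φ (y, t₀)))
      (rs2 (pb2 Φ F) t₀ y) (hI.metric.symm _ hΦU) (hI.metric.pos _ hΦU) (hRd y (hbb hyb)) ?_ ?_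
      hy.1)
    · intro v
      rw [hΦd _ hyW]
      exact hy.2 v
    · intro u v
      have h1 : rs2 (pb2 Φ F) t₀ y ![u, v] = pb2 Φ F (y, t₀) ![(u, 0), (v, 0)] := by
        unfold rs2
        rw [ContinuousAlternatingMap.compContinuousLinearMap_apply]
        congr 1
        funext i
        fin_cases i <;> rfl
      rw [h1, SP2_pb2]
      rfl
  set O : Set (Eu (k + 4) × ℝ) := Metric.ball 0 (r / 2) ×ˢ Ioo (-(r / 2)) (r / 2) with hO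
  have hOo : IsOpen O := Metric.isOpen_ball.prod isOpen_Ioo
  have hOW : O ⊆ W' := fun p hp =>
    hsub ⟨Metric.ball_subset_closedBall hp.1, Ioo_subset_Icc_self hp.2⟩
  have hD2 : Dif Φ Ψ O (W ∩ Ψ ⁻¹' O) := SPL_dif_sub hD hOo hOW
  have h00 : ((0 : Eu (k + 4)), (0 : ℝ)) ∈ O := by
    refine ⟨Metric.mem_ball_self hr2, ?_, ?_⟩
    · simpa using hr
    · exact hr2
  refine ⟨Φ, Ψ, W ∩ Ψ ⁻¹' O, r / 2, h', Ω', rs1 (pb1 Φ A) t₀, rs2 (pb2 Φ F) t₀, hr2, ?_, ?_,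
    Dfm_iff.mpr hD2,
    hΦ0, fun p hp => hΦd p (hOW hp), hInst, hG, ?_⟩
  · have h := hD2.maps h00
    rw [hΦ0] at h
    exact h
  · exact fun x hx => hWU hx.1
  · intro p hp
    have hs := a_SPT 𝔐 𝒢 (Eu (k + 4)) (Metric.ball 0 (r / 2)) (Ioo (-(r / 2)) (r / 2))
      (pb1 Φ A) (rs1 (pb1 Φ A) t₀) Metric.isOpen_ball isOpen_Ioo
      (ae_restrict_of_ae_restrict_of_subset hOW hA'.lie) hB.lie hG p.1 hp.1 p.2 hp.2
    have hreg : Reg 𝒢 A (Φ p) ↔ Reg 𝒢 (rs1 (pb1 Φ A) t₀) p.1 := by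
      refine Iff.trans ⟨?_, ?_⟩ hs
      · intro hreg
        exact (a_PBG 𝔐 𝒢 (Eu (k + 4) × ℝ) (Eu (k + 4 + 1)) Φ Ψ O (W ∩ Ψ ⁻¹' O) hfr hD2).2
          A p hp hreg
      · intro hreg
        have hy : Φ p ∈ W ∩ Ψ ⁻¹' O := hD2.maps hp
        have hreg' : Reg 𝒢 (pb1 Φ A) (Ψ (Φ p)) := by
          rw [hD2.left p hp]; exact hreg
        have r3 : Reg 𝒢 (pb1 Ψ (pb1 Φ A)) (Φ p) :=
          (a_PBG 𝔐 𝒢 (Eu (k + 4 + 1)) (Eu (k + 4) × ℝ) Ψ Φ (W ∩ Ψ ⁻¹' O) O hfr.symm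
            (SPL_dif_symm hD2)).2 (pb1 Φ A) _ hy hreg'
        exact (a_PBI 𝔐 𝒢 (Eu (k + 4) × ℝ) (Eu (k + 4 + 1)) Φ Ψ O (W ∩ Ψ ⁻¹' O) hD2 A).2
          _ hy r3
    have hΦU : Φ p ∈ U := hWU (hD.maps (hOW hp))
    exact ⟨fun hq => ⟨hp.1, fun hr' => hq.2 (hreg.2 hr')⟩,
      fun hq => ⟨hΦU, fun hr' => hq.2 (hreg.1 hr')⟩⟩

end

theorem Fin_div {m : ℕ} {U : Set (Eu (m + 4))} {h : Eu (m + 4) → Bil (Eu (m + 4))}
    {Ω : Eu (m + 4) → Frm m (Eu (m + 4))} (hh : RMet U h)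
    {X : Eu (m + 4) → Eu (m + 4)} (hX : Dvb U h Ω X) : Ann (stb (m + 4)) U h Ω X :=
  fun x hx w hw v => a_AL1 ℝ m (h x) (Ω x) w (X x) (hh.symm x hx) (hh.pos x hx)
    ((StEq_iff _ _ _).mp hw) (hX x hx) v

end Pool.TIA
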