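import Pool.Agent.Work.MP_a1f430_ti.Defs

/-! # Weak Omega-self-dual curvatures: the definitions of the final theorems (MP_a1f430)

`E` is the space `ℝ^n`, `𝔐` a finite-dimensional real `C^*`-algebra (for example the complex `N × N`
matrices), the structure group is a closed group of unitary elements of `𝔐`. -/

set_option autoImplicit false

namespace Pool.TIA

open MeasureTheory Set Filter Topology
open scoped ContDiff ENNReal

/-- Bilinear forms. -/
abbrev Bil (E : Type) [NormedAddCommGroup E] [NormedSpace ℝ E] : Type := E →L[ℝ] E →L[ℝ] ℝ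

/-- Real `m`-forms at a point. -/
abbrev Frm (m : ℕ) (E : Type) [NormedAddCommGroup E] [NormedSpace ℝ E] : Type :=
  E [⋀^Fin m]→L[ℝ] ℝ

/-- `𝔐`-valued one-forms on `E`. -/
abbrev OneF (E 𝔐 : Type) [NormedAddCommGroup E] [NormedSpace ℝ E] [NormedRing 𝔐]
    [NormedAlgebra ℝ 𝔐] : Type := E → E →L[ℝ] 𝔐

/-- `𝔐`-valued two-forms on `E`. -/
abbrev TwoF (E 𝔐 : Type) [NormedAddCommGroup E] [NormedSpace ℝ E] [NormedRing 𝔐]
    [NormedAlgebra ℝ 𝔐] : Type := E → E [⋀^Fin 2]→L[ℝ] 𝔐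

section

variable {E : Type} [NormedAddCommGroup E] [NormedSpace ℝ E] [MeasureSpace E]
variable {𝔐 : Type} [NormedRing 𝔐] [NormedAlgebra ℝ 𝔐] [StarRing 𝔐]

/-- `h` is a smooth Riemannian metric on `U`. -/
structure RMet {E : Type} [NormedAddCommGroup E] [NormedSpace ℝ E] (U : Set E) (h : E → Bil E) :
    Prop where
  smooth : ContDiffOn ℝ ∞ h U
  symm : ∀ x ∈ U, ∀ v w, h x v w = h x w v
  pos : ∀ x ∈ U, ∀ v, v ≠ 0 → 0 < h x v v

/-- `e` is a positively oriented orthonormal frame for the scalar product `h` (the orientation is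
given by the basis `b`; for the order of the indices see `ix`). -/
structure OFr {E : Type} [NormedAddCommGroup E] [NormedSpace ℝ E] {m : ℕ}
    (b : Module.Basis (Fin (m + 4)) ℝ E) (h : Bil E) (e : FI m → E) : Prop where
  orth : ∀ i j, h (e i) (e j) = if i = j then 1 else 0
  pos : 0 < b.det fun i => e ((ix m).symm i)

/-- `Ω ∧ F = * F` at a point, `h` the metric at this point: `(* F)(e₃, ..., e_n) = F(e₁, e₂)` for
the positively oriented orthonormal frames `(e₁, ..., e_n)` (equivalently `(e₃, ..., e_n, e₁, e₂)`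
is positively oriented). -/
def StEq {E 𝔐 : Type} [NormedAddCommGroup E] [NormedSpace ℝ E] [NormedRing 𝔐]
    [NormedAlgebra ℝ 𝔐] {m : ℕ} (b : Module.Basis (Fin (m + 4)) ℝ E) (h : Bil E) (Ω : Frm m E)
    (F : E [⋀^Fin 2]→L[ℝ] 𝔐) : Prop :=
  ∀ e : FI m → E, OFr b h e →
    wdg Ω F (fun i => e (Sum.inl i)) = F ![e (Sum.inr 0), e (Sum.inr 1)]

/-- `Ω = θ₁ ∧ ... ∧ θ_m` at a point (for example `Ω = 0`, if `m > 0`). -/
def Dcp {E : Type} [NormedAddCommGroup E] [NormedSpace ℝ E] {m : ℕ} (Ω : Frm m E) : Prop :=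
  ∃ θ : Fin m → (E →L[ℝ] ℝ), ∀ v : Fin m → E,
    Ω v = Matrix.det (Matrix.of fun i j => θ i (v j))

/-- `A` is a locally square integrable connection form on the open set `U` with the Riemannian
metric `h`, with the locally square integrable curvature `F`, and `Ω ∧ F = * F`. -/
structure WInst {m : ℕ} (b : Module.Basis (Fin (m + 4)) ℝ E) (𝒢 : LieG 𝔐) (U : Set E)
    (h : E → Bil E) (Ω : E → Frm m E) (A : OneF E 𝔐) (F : TwoF E 𝔐) : Prop where
  op : IsOpen U
  metric : RMet U h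
  smooth : ContDiffOn ℝ ∞ Ω U
  conn : Conn 𝒢 U A F
  star : ∀ᵐ x ∂(volume.restrict U), StEq b (h x) (Ω x) (F x)

/-- Near `x₀` there are `k` smooth fields, independent at `x₀`, which annihilate all real two-forms
`w` with `Ω ∧ w = * w`. -/
def AFl {E : Type} [NormedAddCommGroup E] [NormedSpace ℝ E] {m : ℕ}
    (b : Module.Basis (Fin (m + 4)) ℝ E) (k : ℕ) (h : E → Bil E) (Ω : E → Frm m E) (x₀ : E) :
    Prop :=
  ∃ (N : Set E) (T : Fin k → E → E), IsOpen N ∧ x₀ ∈ N ∧ (∀ j, ContDiffOn ℝ ∞ (T j) N) ∧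
    LinearIndependent ℝ (fun j => T j x₀) ∧
    ∀ y ∈ N, ∀ w : Frm 2 E, StEq b (h y) (Ω y) w → ∀ j v, w ![T j y, v] = 0

/-- `x₀` is the centre of an injectively immersed smooth `m`-dimensional disk (the image of a cube)
contained in `S`. -/
def Dsk {E : Type} [NormedAddCommGroup E] [NormedSpace ℝ E] (m : ℕ) (S : Set E) (x₀ : E) : Prop :=
  ∃ (Ψ : (Fin m → ℝ) → E) (δ : ℝ), 0 < δ ∧ ContDiff ℝ ∞ Ψ ∧ Ψ 0 = x₀ ∧
    (∀ s ∈ Metric.ball (0 : Fin m → ℝ) δ, Function.Injective (fderiv ℝ Ψ s)) ∧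
    InjOn Ψ (Metric.ball 0 δ) ∧ Ψ '' Metric.ball 0 δ ⊆ S

end

/-- The standard basis of `ℝ^n`. -/
noncomputable def stb (n : ℕ) : Module.Basis (Fin n) ℝ (Eu n) :=
  (EuclideanSpace.basisFun (Fin n) ℝ).toBasis

end Pool.TIA
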