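import Pool.Agent.Work.MP_a1f430_ti.Gen

/-! # Weak Omega-self-dual curvatures: the definitions of the splitting theorem (MP_a1f430) -/

set_option autoImplicit false

namespace Pool.TIA

open MeasureTheory Set Filter Topology
open scoped ContDiff ENNReal

/-- `X` annihilates at every point of `U` all real two-forms `w` with `Ω ∧ w = * w`. -/
def Ann {E : Type} [NormedAddCommGroup E] [NormedSpace ℝ E] {m : ℕ}
    (b : Module.Basis (Fin (m + 4)) ℝ E) (U : Set E) (h : E → Bil E) (Ω : E → Frm m E)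
    (X : E → E) : Prop :=
  ∀ x ∈ U, ∀ w : Frm 2 E, StEq b (h x) (Ω x) w → ∀ v, w ![X x, v] = 0

/-- `Ω` is divisible by the one-form dual to `X` at every point of `U`: it vanishes on the
orthogonal complement of `X`. -/
def Dvb {E : Type} [NormedAddCommGroup E] [NormedSpace ℝ E] {m : ℕ} (U : Set E) (h : E → Bil E)
    (Ω : E → Frm m E) (X : E → E) : Prop :=
  ∀ x ∈ U, ∀ v : Fin m → E, (∀ i, h x (X x) (v i) = 0) → Ω x v = 0

/-- `γ` is an integral curve of `X` in `U` for the times in `[a, b]`. -/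
def ICv {E : Type} [NormedAddCommGroup E] [NormedSpace ℝ E] (U : Set E) (X : E → E) (γ : ℝ → E)
    (a b : ℝ) : Prop :=
  ∀ t ∈ Icc a b, γ t ∈ U ∧ HasDerivWithinAt γ (X (γ t)) (Icc a b) t

/-- `Φ` is a diffeomorphism from the open set `W'` onto the open set `W` with the inverse `Ψ`. -/
structure Dfm {E' E : Type} [NormedAddCommGroup E'] [NormedSpace ℝ E'] [NormedAddCommGroup E]
    [NormedSpace ℝ E] (Φ : E' → E) (Ψ : E → E') (W' : Set E') (W : Set E) : Prop where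
  open' : IsOpen W'
  open_ : IsOpen W
  maps : MapsTo Φ W' W
  maps' : MapsTo Ψ W W'
  left : ∀ x ∈ W', Ψ (Φ x) = x
  right : ∀ y ∈ W, Φ (Ψ y) = y
  smooth : ContDiffOn ℝ ∞ Φ W'
  smooth' : ContDiffOn ℝ ∞ Ψ W

/-- The pullback of a one-form. -/
noncomputable def pbk {E' E 𝔐 : Type} [NormedAddCommGroup E'] [NormedSpace ℝ E']
    [NormedAddCommGroup E] [NormedSpace ℝ E] [NormedRing 𝔐] [NormedAlgebra ℝ 𝔐] (Φ : E' → E)
    (A : OneF E 𝔐) : OneF E' 𝔐 :=
  fun x => (A (Φ x)).comp (fderiv ℝ Φ x)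

/-- The pullback to the product with the line of a one-form. -/
noncomputable def plb {V 𝔐 : Type} [NormedAddCommGroup V] [NormedSpace ℝ V] [NormedRing 𝔐]
    [NormedAlgebra ℝ 𝔐] (B : OneF V 𝔐) : OneF (V × ℝ) 𝔐 :=
  fun p => (B p.1).comp (ContinuousLinearMap.fst ℝ V ℝ)

/-- The box `|y| < r`, `|t| < r`. -/
def box (V : Type) [NormedAddCommGroup V] (r : ℝ) : Set (V × ℝ) := Metric.ball 0 r ×ˢ Ioo (-r) r

/-- Near `x₀` there are coordinates `(y, t) = Ψ(x)`, `|y| < r`, `|t| < r` (`y` in `V = ℝ^(n-1)`), in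
which `X` is `∂/∂t` and `A` is gauge equivalent to the pullback of a form `B` in the variables `y`
which is a weak `Ω'`-self-dual connection for a metric `h'` and an `(n - 5)`-form `Ω'` on the ball
`|y| < r`; the singular set of `A` is the product of the singular set of `B` and the interval. -/
def SplTo {V E 𝔐 : Type} [NormedAddCommGroup V] [NormedSpace ℝ V] [MeasureSpace V]
    [NormedAddCommGroup E] [NormedSpace ℝ E] [MeasureSpace E] [NormedRing 𝔐] [NormedAlgebra ℝ 𝔐]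
    [StarRing 𝔐] {k : ℕ} (b' : Module.Basis (Fin (k + 4)) ℝ V) (𝒢 : LieG 𝔐) (U : Set E)
    (A : OneF E 𝔐) (X : E → E) (x₀ : E) : Prop :=
  ∃ (Φ : V × ℝ → E) (Ψ : E → V × ℝ) (W : Set E) (r : ℝ) (h' : V → Bil V) (Ω' : V → Frm k V)
    (B : OneF V 𝔐) (FB : TwoF V 𝔐),
  0 < r ∧ x₀ ∈ W ∧ W ⊆ U ∧ Dfm Φ Ψ (box V r) W ∧ Φ (0, 0) = x₀ ∧
  (∀ p ∈ box V r, fderiv ℝ Φ p (0, 1) = X (Φ p)) ∧
  WInst b' 𝒢 (Metric.ball 0 r) h' Ω' B FB ∧
  GaugeEq 𝒢 (box V r) (pbk Φ A) (plb B) ∧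
  ∀ p ∈ box V r, (Φ p ∈ Sing 𝒢 U A ↔ p.1 ∈ Sing 𝒢 (Metric.ball 0 r) B)

end Pool.TIA
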