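import Pool.Agent.Work.MP_a1f430_ti.Interface3

/-! # Weak Omega-self-dual connections: the setting of the final theorems (MP_a1f430) -/

set_option autoImplicit false

namespace Pool.TIA

open MeasureTheory Set Filter Topology
open scoped ContDiff ENNReal

/-- The linear endomorphisms of `ℂ^N`. -/
abbrev Mt (N : ℕ) : Type := EuclideanSpace ℂ (Fin N) →L[ℂ] EuclideanSpace ℂ (Fin N)

/-- `A` is a locally square integrable connection form on the open set `U` of `ℝ^(m+4)` with the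
Riemannian metric `h`, with the locally square integrable curvature `F`, and `Ω ∧ F = * F`. -/
structure WeakInst {N m : ℕ} (𝒢 : LieG (Mt N)) (U : Set (Eu (m + 4)))
    (h : Eu (m + 4) → Eu (m + 4) →L[ℝ] Eu (m + 4) →L[ℝ] ℝ)
    (Ω : Eu (m + 4) → Eu (m + 4) [⋀^Fin m]→L[ℝ] ℝ) (A : Eu (m + 4) → Eu (m + 4) →L[ℝ] Mt N)
    (F : Eu (m + 4) → Eu (m + 4) [⋀^Fin 2]→L[ℝ] Mt N) : Prop where
  op : IsOpen U
  metric : Metric U h
  smooth : ContDiffOn ℝ ∞ Ω U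
  conn : Conn 𝒢 U A F
  star : ∀ᵐ x ∂(volume.restrict U), StarEq (h x) (Ω x) (F x)

/-- `X` annihilates at every point of `U` all real two-forms `w` with `Ω ∧ w = * w`. -/
def Annih {m : ℕ} (U : Set (Eu (m + 4)))
    (h : Eu (m + 4) → Eu (m + 4) →L[ℝ] Eu (m + 4) →L[ℝ] ℝ)
    (Ω : Eu (m + 4) → Eu (m + 4) [⋀^Fin m]→L[ℝ] ℝ) (X : Eu (m + 4) → Eu (m + 4)) : Prop :=
  ∀ x ∈ U, ∀ w : Eu (m + 4) [⋀^Fin 2]→L[ℝ] ℝ, StarEq (h x) (Ω x) w → ∀ v, w ![X x, v] = 0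

/-- Near `x₀` there are coordinates `(y, t) = Ψ(x)`, `|y| < r`, `|t| < r`, in which `X` is `∂/∂t` and
`A` is gauge equivalent to a form `B` in the variables `y` with square integrable curvature `FB`;
the singular set is the product of the singular set of `B` and the interval. -/
def Splits {N n : ℕ} (𝒢 : LieG (Mt N)) (U : Set (Eu (n + 1)))
    (A : Eu (n + 1) → Eu (n + 1) →L[ℝ] Mt N) (X : Eu (n + 1) → Eu (n + 1)) (x₀ : Eu (n + 1)) :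
    Prop :=
  ∃ (Φ : Eu n × ℝ → Eu (n + 1)) (Ψ : Eu (n + 1) → Eu n × ℝ) (W : Set (Eu (n + 1))) (r : ℝ)
    (B : Eu n → Eu n →L[ℝ] Mt N) (FB : Eu n → Eu n [⋀^Fin 2]→L[ℝ] Mt N),
  0 < r ∧ x₀ ∈ W ∧ W ⊆ U ∧ Dif Φ Ψ (Metric.ball 0 r ×ˢ Ioo (-r) r) W ∧ Φ (0, 0) = x₀ ∧
  (∀ p ∈ (Metric.ball (0 : Eu n) r) ×ˢ Ioo (-r) r, fderiv ℝ Φ p (0, 1) = X (Φ p)) ∧
  Conn 𝒢 (Metric.ball 0 r) B FB ∧
  GaugeEq 𝒢 (Metric.ball 0 r ×ˢ Ioo (-r) r) (pb1 Φ A) (pr1 B) ∧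
  ∀ p ∈ (Metric.ball (0 : Eu n) r) ×ˢ Ioo (-r) r,
    (Φ p ∈ Sing 𝒢 U A ↔ p.1 ∈ Sing 𝒢 (Metric.ball 0 r) B)

theorem Mt_starModule (N : ℕ) : StarModule ℝ (Mt N) := by
  refine ⟨fun r T => ?_⟩
  have h1 : r • T = (r : ℂ) • T := by
    ext v i
    simp
  have h2 : r • star T = (r : ℂ) • star T := by
    ext v i
    simp
  rw [h1, star_smul, Complex.star_def, Complex.conj_ofReal, star_trivial r, h2]

end Pool.TIA
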