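import Pool.Agent.Work.MP_a1f430_ti.Defs

/-! # Singular sets of weak Omega-self-dual curvatures: blocks
(MP_a1f430, THEOREM TR, helper61)

Block `X` lives in `B_X.lean` (import this file, namespace `Pool.TIA`) and proves
`theorem p_X : Stmt_X` or `theorem p_X (h1 : Stmt_Y) ... : Stmt_X` with the statements of the
column `uses` as hypotheses, in that order.  `𝔐` is a finite-dimensional `C^*`-algebra, `E`, `V`
finite-dimensional spaces with a Haar measure. -/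

set_option autoImplicit false

namespace Pool.TIA

open MeasureTheory Set Filter Topology
open scoped ContDiff ENNReal

/-! ## Part A: the group -/

/-- LIE (60 lines; uses nothing).  `star X = -X`: the derivative at `0` of
`star (exp (t X)) * exp (t X) = 1` (`mem_lie`, `unitary`).  `‖g‖ ≤ 1`: `‖g‖² = ‖star g * g‖ = ‖1‖`.
`‖g * a‖ ≤ ‖a‖` and `a = star g * (g * a)`. -/
def Stmt_LIE : Prop :=
  ∀ (𝔐 : Type) [NormedRing 𝔐] [NormedAlgebra ℝ 𝔐] [StarRing 𝔐] [CStarRing 𝔐] [StarModule ℝ 𝔐]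
    [FiniteDimensional ℝ 𝔐] (𝒢 : LieG 𝔐), (∀ X ∈ 𝒢.lie, star X = -X) ∧ (∀ g ∈ 𝒢.G, ‖g‖ ≤ 1) ∧
    (∀ g ∈ 𝒢.G, ∀ a : 𝔐, ‖g * a‖ = ‖a‖ ∧ ‖a * g‖ = ‖a‖)

/-- INVG (120 lines; uses LIE): a solution of `g' = - a g` with `a` continuous with values in the
Lie algebra stays in `G`.  It is enough to treat `t ≥ t₀` (reverse the time).  Let
`δ(t) = inf_{h ∈ G} ‖g t - h‖` (`Metric.infDist`).  For `h ∈ G`:
`‖g (t + s) - exp (-s a(t)) h‖ ≤ ‖g (t + s) - exp (-s a(t)) g(t)‖ + ‖exp (-s a(t)) (g t - h)‖`, the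
first term is `o(s)`, the second is `‖g t - h‖`; so `δ(t + s) ≤ δ(t) + o(s)` and `δ` is antitone
(`image_le_of_liminf_slope_right_lt_deriv_boundary` or a similar lemma), so `δ = 0`. -/
def Stmt_INVG : Prop :=
  ∀ (𝔐 : Type) [NormedRing 𝔐] [NormedAlgebra ℝ 𝔐] [StarRing 𝔐] [CStarRing 𝔐] [StarModule ℝ 𝔐]
    [FiniteDimensional ℝ 𝔐] (𝒢 : LieG 𝔐) (a g : ℝ → 𝔐) (t₀ : ℝ), Continuous a →
    (∀ t, a t ∈ 𝒢.lie) → (∀ t, HasDerivAt g (-(a t * g t)) t) → g t₀ ∈ 𝒢.G → ∀ t, g t ∈ 𝒢.G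

/-! ## Part B: smooth flows -/

/-- The interval `[0, 1]` as a type. -/
abbrev II : Type := ↥(Set.Icc (0 : ℝ) 1)

/-- NEM (120 lines; uses nothing): the Nemytskii operator of a smooth function is smooth.  By
induction on `n` the map is `C^n` for all `f` (and all `X`): it is differentiable with the
derivative `h ↦ (Df ∘ γ) · h` (uniform Taylor estimate on a neighbourhood of the compact image of
`γ`), and `γ ↦ (h ↦ (Df ∘ γ) · h)` is the Nemytskii operator of `Df` followed by the continuous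
linear map `C(II, E →L X) → (C(II, E) →L C(II, X))`. -/
def Stmt_NEM : Prop :=
  ∀ (E X : Type) [NormedAddCommGroup E] [NormedSpace ℝ E] [FiniteDimensional ℝ E]
    [NormedAddCommGroup X] [NormedSpace ℝ X] [FiniteDimensional ℝ X] (f : E → X)
    (hf : ContDiff ℝ ∞ f),
    ContDiff ℝ ∞ fun γ : C(II, E) => (⟨f, hf.continuous⟩ : C(E, X)).comp γ

/-- FLS (200 lines; uses NEM): the flow for small times.  For `|s| < 1 / L` the map
`γ ↦ x + s ∫_0^τ T(γ)` is a contraction of `C(II, E)` with a unique fixed point `γ_{s, x}`;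
`φ s x = γ_{s, x}(1)`.  The map `H(s, x, γ) = γ - x - s ∫_0^τ T(γ)` is smooth (NEM) and its partial
derivative in `γ` is `1 - K`, `‖K‖ < 1`, invertible; by the implicit function theorem
(or the inverse function theorem for `(s, x, γ) ↦ (s, x, H)`, `ContDiffAt.to_localInverse`) and
uniqueness `γ_{s, x}` is smooth in `(s, x)`.  `γ_{s, x}(τ) = γ_{s τ, x}(1)` by uniqueness, so
`φ (s τ) x` has the derivative `s T(..)` in `τ`. -/
def Stmt_FLS : Prop :=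
  ∀ (E : Type) [NormedAddCommGroup E] [NormedSpace ℝ E] [FiniteDimensional ℝ E] (T : E → E)
    (L : NNReal), 0 < L → ContDiff ℝ ∞ T → LipschitzWith L T → ∃ φ : ℝ → E → E,
    ContDiffOn ℝ ∞ (fun p : ℝ × E => φ p.1 p.2) (Ioo (-(1 / L : ℝ)) (1 / L) ×ˢ univ) ∧
    (∀ x, φ 0 x = x) ∧ ∀ x, ∀ t ∈ Ioo (-(1 / L : ℝ)) (1 / L : ℝ),
      HasDerivAt (fun s => φ s x) (T (φ t x)) t

/-- FLW (200 lines; uses FLS): the global flow.  With the flow `ψ` of FLS put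
`φ_N(t, x) = (ψ (t / N))^[N] x` for `|t| < N / L`; by uniqueness of solutions
(`ODE_solution_unique` and similar lemmas) this does not depend on `N`. -/
def Stmt_FLW : Prop :=
  ∀ (E : Type) [NormedAddCommGroup E] [NormedSpace ℝ E] [FiniteDimensional ℝ E] (T : E → E)
    (L : NNReal), ContDiff ℝ ∞ T → LipschitzWith L T → ∃ φ : ℝ → E → E,
    ContDiff ℝ ∞ (fun p : ℝ × E => φ p.1 p.2) ∧ (∀ x, φ 0 x = x) ∧
    ∀ x t, HasDerivAt (fun s => φ s x) (T (φ t x)) t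

/-- CUT (60 lines; uses nothing): multiply by a smooth bump function. -/
def Stmt_CUT : Prop :=
  ∀ (E X : Type) [NormedAddCommGroup E] [NormedSpace ℝ E] [FiniteDimensional ℝ E]
    [NormedAddCommGroup X] [NormedSpace ℝ X] [FiniteDimensional ℝ X] (T : E → X) (U : Set E)
    (x₀ : E), IsOpen U → x₀ ∈ U → ContDiffOn ℝ ∞ T U → ∃ (T' : E → X) (L : NNReal) (r : ℝ),
    0 < r ∧ Metric.ball x₀ r ⊆ U ∧ ContDiff ℝ ∞ T' ∧ HasCompactSupport T' ∧ LipschitzWith L T' ∧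
    ∀ x ∈ Metric.ball x₀ r, T' x = T x

/-- `Φ` is a diffeomorphism from the open set `W'` onto the open set `W` with the inverse `Ψ`. -/
structure Dif {E' E : Type} [NormedAddCommGroup E'] [NormedSpace ℝ E'] [NormedAddCommGroup E]
    [NormedSpace ℝ E] (Φ : E' → E) (Ψ : E → E') (W' : Set E') (W : Set E) : Prop where
  open' : IsOpen W'
  open_ : IsOpen W
  maps : MapsTo Φ W' W
  maps' : MapsTo Ψ W W'
  left : ∀ x ∈ W', Ψ (Φ x) = x
  right : ∀ y ∈ W, Φ (Ψ y) = y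
  smooth : ContDiffOn ℝ ∞ Φ W'
  smooth' : ContDiffOn ℝ ∞ Ψ W

/-- FBX (150 lines; uses FLW, CUT): the flow box.  `X₁` = the cut off field (CUT), `φ` its flow;
choose a linear isomorphism `e : Eu n × ℝ ≃L Eu (n + 1)` with `e (0, 1) = X x₀`;
`Φ(y, t) = φ t (x₀ + e (y, 0))` has the derivative `e` at `0`; inverse function theorem
(`ContDiffAt.toOpenPartialHomeomorph`), restrict to a small box (and the image of this box). -/
def Stmt_FBX : Prop :=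
  ∀ (n : ℕ) (X : Eu (n + 1) → Eu (n + 1)) (U : Set (Eu (n + 1))) (x₀ : Eu (n + 1)), IsOpen U →
    x₀ ∈ U → ContDiffOn ℝ ∞ X U → X x₀ ≠ 0 →
    ∃ (Φ : Eu n × ℝ → Eu (n + 1)) (Ψ : Eu (n + 1) → Eu n × ℝ) (W : Set (Eu (n + 1))) (r : ℝ),
    0 < r ∧ x₀ ∈ W ∧ W ⊆ U ∧ Dif Φ Ψ (Metric.ball 0 r ×ˢ Ioo (-r) r) W ∧ Φ (0, 0) = x₀ ∧
    ∀ p ∈ (Metric.ball (0 : Eu n) r) ×ˢ Ioo (-r) r, fderiv ℝ Φ p (0, 1) = X (Φ p)

/-- LOD (150 lines; uses LIE, INVG, FLW): a linear differential equation with a smooth parameter.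
`χ : 𝔐 → ℝ` smooth with compact support, `χ = 1` on the unit ball; the vector field
`(y, t, g) ↦ (0, 1, - χ(g) a(y, t) g)` is smooth and Lipschitz; its flow (FLW) starting at
`(y, t₀, 1)` is `(y, t₀ + s, γ(s))`, and `star γ γ` is constant (`star a = - a`), so `‖γ‖ ≤ 1` and
`χ(γ) = 1`.  `G`-valued by INVG. -/
def Stmt_LOD : Prop :=
  ∀ (𝔐 : Type) [NormedRing 𝔐] [NormedAlgebra ℝ 𝔐] [StarRing 𝔐] [CStarRing 𝔐] [StarModule ℝ 𝔐]
    [FiniteDimensional ℝ 𝔐] (𝒢 : LieG 𝔐) (V : Type) [NormedAddCommGroup V] [NormedSpace ℝ V]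
    [FiniteDimensional ℝ V] (a : V × ℝ → 𝔐) (t₀ : ℝ), ContDiff ℝ ∞ a → HasCompactSupport a →
    (∀ p, a p ∈ 𝒢.lie) → ∃ g : V × ℝ → 𝔐, ContDiff ℝ ∞ g ∧ (∀ y, g (y, t₀) = 1) ∧
    (∀ y t, HasDerivAt (fun s => g (y, s)) (-(a (y, t) * g (y, t))) t) ∧ ∀ p, g p ∈ 𝒢.G

/-! ## Part C: mollifiers -/

/-- The mollifying kernels. -/
noncomputable def bmp (E : Type) [NormedAddCommGroup E] (j : ℕ) : ContDiffBump (0 : E) where
  rIn := 1 / (2 * ((j : ℝ) + 2))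
  rOut := 1 / ((j : ℝ) + 2)
  rIn_pos := by positivity
  rIn_lt_rOut := by
    apply one_div_lt_one_div_of_lt (by positivity)
    have : (0 : ℝ) ≤ j := Nat.cast_nonneg j
    linarith

/-- The mollification. -/
noncomputable def mol {E X : Type} [NormedAddCommGroup E] [NormedSpace ℝ E]
    [FiniteDimensional ℝ E] [MeasureSpace E] [NormedAddCommGroup X] [NormedSpace ℝ X] (j : ℕ)
    (f : E → X) (x : E) : X :=
  ∫ y, (bmp E j).normed volume (x - y) • f y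

/-- MOA (150 lines; uses nothing): mollifications are smooth, their values, their derivatives
(`MeasureTheory.convolution`, `HasCompactSupport.contDiff_convolution_right`,
`HasCompactSupport.hasFDerivAt_convolution_right`).  In (3): `φ(y) = ρ(x - y)` is a test function on
`W` with `Dφ(y) v = - Dρ(x - y) v`. -/
def Stmt_MOA : Prop :=
  ∀ (E X : Type) [NormedAddCommGroup E] [NormedSpace ℝ E] [FiniteDimensional ℝ E]
    [MeasureSpace E] [BorelSpace E] [(volume : Measure E).IsAddHaarMeasure]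
    [NormedAddCommGroup X] [NormedSpace ℝ X] [FiniteDimensional ℝ X] (j : ℕ),
    (∀ x : E, ∀ W : Set E, IsOpen W → Metric.closedBall x (1 / ((j : ℝ) + 2)) ⊆ W →
      Test W (fun y => (bmp E j).normed volume (x - y))) ∧
    ∀ f : E → X, LocallyIntegrable f → ContDiff ℝ ∞ (mol j f) ∧
      (∀ x v, fderiv ℝ (mol j f) x v =
        -∫ y, fderiv ℝ (fun z => (bmp E j).normed volume (x - z)) y v • f y) ∧
      (HasCompactSupport f → HasCompactSupport (mol j f)) ∧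
      (∀ S : Submodule ℝ X, (∀ᵐ y, f y ∈ S) → ∀ x, mol j f x ∈ S) ∧
      ∀ C : ℝ, (∀ᵐ y, ‖f y‖ ≤ C) → ∀ x, ‖mol j f x‖ ≤ C

/-- MOT (150 lines; uses MOA): convergence in `L^p`, `p = 1, 2` (for `p = 1, 2`:
`‖ρ * f‖_p ≤ ‖f‖_p`, density of the continuous functions with compact support in `L^p`
(`MeasureTheory.MemLp.exists_hasCompactSupport_eLpNorm_sub_le`), and uniform convergence with
supports in a fixed compact set for these). -/
def Stmt_MOT : Prop :=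
  ∀ (E X : Type) [NormedAddCommGroup E] [NormedSpace ℝ E] [FiniteDimensional ℝ E]
    [MeasureSpace E] [BorelSpace E] [(volume : Measure E).IsAddHaarMeasure]
    [NormedAddCommGroup X] [NormedSpace ℝ X] [FiniteDimensional ℝ X] (p : ℝ≥0∞),
    (p = 1 ∨ p = 2) → ∀ f : E → X, MemLp f p volume →
    Tendsto (fun j => eLpNorm (fun x => mol j f x - f x) p volume) atTop (𝓝 0)

/-! ## Part D: approximation -/

/-- The curvature of a differentiable connection form. -/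
noncomputable def cur {E 𝔐 : Type} [NormedAddCommGroup E] [NormedSpace ℝ E] [NormedRing 𝔐]
    [NormedAlgebra ℝ 𝔐] (A : E → E →L[ℝ] 𝔐) (x u v : E) : 𝔐 :=
  fderiv ℝ A x u v - fderiv ℝ A x v u + A x u * A x v - A x v * A x u

/-- APG (150 lines; uses MOA, MOT): approximation of a function and its weak derivative on a
compact set.  Choose `K ⊆ W₁ ⊆ closure W₁ ⊆ W`, `W₁` open with compact closure; mollify the
functions `g`, `dg` cut off to `W₁`. -/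
def Stmt_APG : Prop :=
  ∀ (E X : Type) [NormedAddCommGroup E] [NormedSpace ℝ E] [FiniteDimensional ℝ E]
    [MeasureSpace E] [BorelSpace E] [(volume : Measure E).IsAddHaarMeasure]
    [NormedAddCommGroup X] [NormedSpace ℝ X] [FiniteDimensional ℝ X] (W : Set E) (g : E → X)
    (dg : E → E →L[ℝ] X) (C : ℝ), IsOpen W → L2loc W g → L2loc W dg → WD W g dg →
    (∀ᵐ x ∂(volume.restrict W), ‖g x‖ ≤ C) → 0 ≤ C → ∀ K : Set E, IsCompact K → K ⊆ W →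
    ∃ G : ℕ → E → X, (∀ j, ContDiff ℝ ∞ (G j)) ∧ (∀ j x, ‖G j x‖ ≤ C) ∧
    Tendsto (fun j => eLpNorm (fun x => G j x - g x) 2 (volume.restrict K)) atTop (𝓝 0) ∧
    Tendsto (fun j => eLpNorm (fun x => fderiv ℝ (G j) x - dg x) 2 (volume.restrict K))
      atTop (𝓝 0)

/-- APC (200 lines; uses MOA, MOT): approximation of a connection and its curvature on a compact
set.  Mollify `A` cut off to `W₁` (as in APG); near `K`, with `ρ` the kernel,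
`cur A_j u v = ρ * (F u v - [A u, A v]) + [A_j u, A_j v]`; the products converge in `L¹`
(Cauchy-Schwarz). -/
def Stmt_APC : Prop :=
  ∀ (𝔐 : Type) [NormedRing 𝔐] [NormedAlgebra ℝ 𝔐] [StarRing 𝔐] [CStarRing 𝔐] [StarModule ℝ 𝔐]
    [FiniteDimensional ℝ 𝔐] (𝒢 : LieG 𝔐) (E : Type) [NormedAddCommGroup E] [NormedSpace ℝ E]
    [FiniteDimensional ℝ E] [MeasureSpace E] [BorelSpace E]
    [(volume : Measure E).IsAddHaarMeasure] (W : Set E) (A : E → E →L[ℝ] 𝔐)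
    (F : E → E [⋀^Fin 2]→L[ℝ] 𝔐), IsOpen W → Conn 𝒢 W A F → ∀ K : Set E, IsCompact K → K ⊆ W →
    ∃ B : ℕ → E → E →L[ℝ] 𝔐, (∀ j, ContDiff ℝ ∞ (B j)) ∧ (∀ j, HasCompactSupport (B j)) ∧
    (∀ j x v, B j x v ∈ 𝒢.lie) ∧
    Tendsto (fun j => eLpNorm (fun x => B j x - A x) 2 (volume.restrict K)) atTop (𝓝 0) ∧
    ∀ u v, Tendsto (fun j => eLpNorm (fun x => cur (B j) x u v - F x ![u, v]) 1
      (volume.restrict K)) atTop (𝓝 0)

/-- CLG (100 lines; uses nothing): weak derivatives pass to the limit.  For a test function `φ` take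
`K = tsupport φ`; integration by parts for the `C¹` functions
(`integral_bilinear_hasFDerivAt_right_eq_neg_left_of_integrable` and similar lemmas, or
`integral_fderiv_eq_zero`-type lemmas for `φ G_j`), then let `j → ∞`. -/
def Stmt_CLG : Prop :=
  ∀ (E X : Type) [NormedAddCommGroup E] [NormedSpace ℝ E] [FiniteDimensional ℝ E]
    [MeasureSpace E] [BorelSpace E] [(volume : Measure E).IsAddHaarMeasure]
    [NormedAddCommGroup X] [NormedSpace ℝ X] [FiniteDimensional ℝ X] (W : Set E) (g : E → X)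
    (dg : E → E →L[ℝ] X), IsOpen W → L2loc W g → L2loc W dg →
    (∀ K : Set E, IsCompact K → K ⊆ W → ∃ (O : Set E) (G : ℕ → E → X), IsOpen O ∧ K ⊆ O ∧
      (∀ j, ContDiffOn ℝ 1 (G j) O) ∧
      Tendsto (fun j => eLpNorm (fun x => G j x - g x) 1 (volume.restrict K)) atTop (𝓝 0) ∧
      ∀ v, Tendsto (fun j => eLpNorm (fun x => fderiv ℝ (G j) x v - dg x v) 1
        (volume.restrict K)) atTop (𝓝 0)) → WD W g dg

/-- CLC (120 lines; uses nothing): curvatures pass to the limit (as CLG; the products converge in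
`L¹` on compact sets by Cauchy-Schwarz). -/
def Stmt_CLC : Prop :=
  ∀ (𝔐 : Type) [NormedRing 𝔐] [NormedAlgebra ℝ 𝔐] [StarRing 𝔐] [CStarRing 𝔐] [StarModule ℝ 𝔐]
    [FiniteDimensional ℝ 𝔐] (E : Type) [NormedAddCommGroup E] [NormedSpace ℝ E]
    [FiniteDimensional ℝ E] [MeasureSpace E] [BorelSpace E]
    [(volume : Measure E).IsAddHaarMeasure] (W : Set E) (A : E → E →L[ℝ] 𝔐)
    (F : E → E [⋀^Fin 2]→L[ℝ] 𝔐), IsOpen W → L2loc W A → L2loc W F →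
    (∀ K : Set E, IsCompact K → K ⊆ W → ∃ (O : Set E) (B : ℕ → E → E →L[ℝ] 𝔐), IsOpen O ∧
      K ⊆ O ∧ (∀ j, ContDiffOn ℝ 1 (B j) O) ∧
      Tendsto (fun j => eLpNorm (fun x => B j x - A x) 2 (volume.restrict K)) atTop (𝓝 0) ∧
      ∀ u v, Tendsto (fun j => eLpNorm (fun x => cur (B j) x u v - F x ![u, v]) 1
        (volume.restrict K)) atTop (𝓝 0)) → IsCurv W A F

/-! ## Part E: gauge changes -/

/-- WCL (40 lines; uses nothing): weak derivatives and continuous linear maps. -/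
def Stmt_WCL : Prop :=
  ∀ (E X Y : Type) [NormedAddCommGroup E] [NormedSpace ℝ E] [FiniteDimensional ℝ E]
    [MeasureSpace E] [BorelSpace E] [(volume : Measure E).IsAddHaarMeasure]
    [NormedAddCommGroup X] [NormedSpace ℝ X] [FiniteDimensional ℝ X]
    [NormedAddCommGroup Y] [NormedSpace ℝ Y] [FiniteDimensional ℝ Y] (T : X →L[ℝ] Y) (W : Set E)
    (g : E → X) (dg : E → E →L[ℝ] X), IsOpen W → L2loc W g → L2loc W dg → WD W g dg →
    L2loc W (fun x => T (g x)) ∧ L2loc W (fun x => T.comp (dg x)) ∧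
    WD W (fun x => T (g x)) (fun x => T.comp (dg x))

/-- PRD (120 lines; uses APG, CLG): the product rule. -/
def Stmt_PRD : Prop :=
  ∀ (𝔐 : Type) [NormedRing 𝔐] [NormedAlgebra ℝ 𝔐] [StarRing 𝔐] [CStarRing 𝔐] [StarModule ℝ 𝔐]
    [FiniteDimensional ℝ 𝔐] (E : Type) [NormedAddCommGroup E] [NormedSpace ℝ E]
    [FiniteDimensional ℝ E] [MeasureSpace E] [BorelSpace E]
    [(volume : Measure E).IsAddHaarMeasure] (W : Set E) (g h : E → 𝔐) (dg dh dk : E → E →L[ℝ] 𝔐),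
    IsOpen W → L2loc W g → L2loc W dg → WD W g dg → L2loc W h → L2loc W dh → WD W h dh →
    (∀ᵐ x ∂(volume.restrict W), ‖g x‖ ≤ 1 ∧ ‖h x‖ ≤ 1) →
    (∀ᵐ x ∂(volume.restrict W), ∀ v, dk x v = dg x v * h x + g x * dh x v) →
    L2loc W (fun x => g x * h x) ∧ L2loc W dk ∧ WD W (fun x => g x * h x) dk

/-- GDF (40 lines; uses LIE): the equation of a gauge change without inverses. -/
def Stmt_GDF : Prop :=
  ∀ (𝔐 : Type) [NormedRing 𝔐] [NormedAlgebra ℝ 𝔐] [StarRing 𝔐] [CStarRing 𝔐] [StarModule ℝ 𝔐]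
    [FiniteDimensional ℝ 𝔐] (𝒢 : LieG 𝔐) (E : Type) [NormedAddCommGroup E] [NormedSpace ℝ E]
    [FiniteDimensional ℝ E] [MeasureSpace E] [BorelSpace E]
    [(volume : Measure E).IsAddHaarMeasure] (W : Set E) (A A' : E → E →L[ℝ] 𝔐),
    GaugeEq 𝒢 W A A' ↔ ∃ (g : E → 𝔐) (dg : E → E →L[ℝ] 𝔐), L2loc W g ∧ L2loc W dg ∧ WD W g dg ∧
      (∀ᵐ x ∂(volume.restrict W), g x ∈ 𝒢.G) ∧
      ∀ᵐ x ∂(volume.restrict W), ∀ v, dg x v = g x * A' x v - A x v * g x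

/-- GSM (60 lines; uses LIE, WCL, GDF): symmetry; the gauge change is `star g`. -/
def Stmt_GSM : Prop :=
  ∀ (𝔐 : Type) [NormedRing 𝔐] [NormedAlgebra ℝ 𝔐] [StarRing 𝔐] [CStarRing 𝔐] [StarModule ℝ 𝔐]
    [FiniteDimensional ℝ 𝔐] (𝒢 : LieG 𝔐) (E : Type) [NormedAddCommGroup E] [NormedSpace ℝ E]
    [FiniteDimensional ℝ E] [MeasureSpace E] [BorelSpace E]
    [(volume : Measure E).IsAddHaarMeasure] (W : Set E) (A A' : E → E →L[ℝ] 𝔐), IsOpen W →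
    (∀ᵐ x ∂(volume.restrict W), ∀ v, A x v ∈ 𝒢.lie) →
    (∀ᵐ x ∂(volume.restrict W), ∀ v, A' x v ∈ 𝒢.lie) →
    GaugeEq 𝒢 W A A' → GaugeEq 𝒢 W A' A

/-- GTR (80 lines; uses LIE, PRD, GDF): transitivity; the gauge change is `g h`. -/
def Stmt_GTR : Prop :=
  ∀ (𝔐 : Type) [NormedRing 𝔐] [NormedAlgebra ℝ 𝔐] [StarRing 𝔐] [CStarRing 𝔐] [StarModule ℝ 𝔐]
    [FiniteDimensional ℝ 𝔐] (𝒢 : LieG 𝔐) (E : Type) [NormedAddCommGroup E] [NormedSpace ℝ E]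
    [FiniteDimensional ℝ E] [MeasureSpace E] [BorelSpace E]
    [(volume : Measure E).IsAddHaarMeasure] (W : Set E) (A A' A'' : E → E →L[ℝ] 𝔐), IsOpen W →
    GaugeEq 𝒢 W A A' → GaugeEq 𝒢 W A' A'' → GaugeEq 𝒢 W A A''

/-! ## Part F: diffeomorphisms -/

/-- The pullback of a one-form. -/
noncomputable def pb1 {E' E 𝔐 : Type} [NormedAddCommGroup E'] [NormedSpace ℝ E']
    [NormedAddCommGroup E] [NormedSpace ℝ E] [NormedRing 𝔐] [NormedAlgebra ℝ 𝔐] (Φ : E' → E)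
    (A : E → E →L[ℝ] 𝔐) (x : E') : E' →L[ℝ] 𝔐 :=
  (A (Φ x)).comp (fderiv ℝ Φ x)

/-- The pullback of a two-form. -/
noncomputable def pb2 {E' E 𝔐 : Type} [NormedAddCommGroup E'] [NormedSpace ℝ E']
    [NormedAddCommGroup E] [NormedSpace ℝ E] [NormedRing 𝔐] [NormedAlgebra ℝ 𝔐] (Φ : E' → E)
    (F : E → E [⋀^Fin 2]→L[ℝ] 𝔐) (x : E') : E' [⋀^Fin 2]→L[ℝ] 𝔐 :=
  (F (Φ x)).compContinuousLinearMap (fderiv ℝ Φ x)

/-- CVR (200 lines; uses nothing): change of variables on compact sets, for `Φ : Eu n × ℝ → Eu (n+1)`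
or conversely.  Compose with a linear isomorphism (it maps Haar measures to Haar measures,
`MeasureTheory.Measure.isAddHaarMeasure_eq_smul`), then
`MeasureTheory.lintegral_image_eq_lintegral_abs_det_fderiv_mul`; the Jacobian is bounded below on
the compact set `K`. -/
def Stmt_CVR : Prop :=
  ∀ (E' E : Type) [NormedAddCommGroup E'] [NormedSpace ℝ E'] [FiniteDimensional ℝ E']
    [MeasureSpace E'] [BorelSpace E'] [(volume : Measure E').IsAddHaarMeasure]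
    [NormedAddCommGroup E] [NormedSpace ℝ E] [FiniteDimensional ℝ E]
    [MeasureSpace E] [BorelSpace E] [(volume : Measure E).IsAddHaarMeasure]
    (Φ : E' → E) (Ψ : E → E') (W' : Set E') (W : Set E),
    Module.finrank ℝ E' = Module.finrank ℝ E → Dif Φ Ψ W' W →
    (∀ N : Set E, volume (N ∩ W) = 0 → volume (Φ ⁻¹' N ∩ W') = 0) ∧
    ∀ K : Set E', IsCompact K → K ⊆ W' → ∃ C : ℝ≥0∞, C ≠ ⊤ ∧
      ∀ (X : Type) [NormedAddCommGroup X] (f : E → X) (p : ℝ≥0∞), (p = 1 ∨ p = 2) →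
      AEStronglyMeasurable f (volume.restrict (Φ '' K)) →
      AEStronglyMeasurable (fun x => f (Φ x)) (volume.restrict K) ∧
      eLpNorm (fun x => f (Φ x)) p (volume.restrict K) ≤
        C * eLpNorm f p (volume.restrict (Φ '' K))

/-- PBW (150 lines; uses APG, CLG, CVR): weak derivatives under diffeomorphisms.  Approximate `g` on
the compact set `Φ(K)` (APG), compose with `Φ`, chain rule, CVR, CLG. -/
def Stmt_PBW : Prop :=
  ∀ (E' E X : Type) [NormedAddCommGroup E'] [NormedSpace ℝ E'] [FiniteDimensional ℝ E']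
    [MeasureSpace E'] [BorelSpace E'] [(volume : Measure E').IsAddHaarMeasure]
    [NormedAddCommGroup E] [NormedSpace ℝ E] [FiniteDimensional ℝ E]
    [MeasureSpace E] [BorelSpace E] [(volume : Measure E).IsAddHaarMeasure]
    [NormedAddCommGroup X] [NormedSpace ℝ X] [FiniteDimensional ℝ X]
    (Φ : E' → E) (Ψ : E → E') (W' : Set E') (W : Set E) (g : E → X) (dg : E → E →L[ℝ] X) (C : ℝ),
    Module.finrank ℝ E' = Module.finrank ℝ E → Dif Φ Ψ W' W → L2loc W g → L2loc W dg →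
    WD W g dg → (∀ᵐ x ∂(volume.restrict W), ‖g x‖ ≤ C) → 0 ≤ C →
    L2loc W' (fun x => g (Φ x)) ∧ L2loc W' (fun x => (dg (Φ x)).comp (fderiv ℝ Φ x)) ∧
    WD W' (fun x => g (Φ x)) (fun x => (dg (Φ x)).comp (fderiv ℝ Φ x))

/-- PBC (200 lines; uses APC, CLC, CVR): connections under diffeomorphisms.  For smooth `B`:
`cur (pb1 Φ B) x u v = cur B (Φ x) (DΦ u) (DΦ v)` (the second derivatives of `Φ` cancel,
`second_derivative_symmetric` or `ContDiffAt.isSymmSndFDerivAt`). -/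
def Stmt_PBC : Prop :=
  ∀ (𝔐 : Type) [NormedRing 𝔐] [NormedAlgebra ℝ 𝔐] [StarRing 𝔐] [CStarRing 𝔐] [StarModule ℝ 𝔐]
    [FiniteDimensional ℝ 𝔐] (𝒢 : LieG 𝔐)
    (E' E : Type) [NormedAddCommGroup E'] [NormedSpace ℝ E'] [FiniteDimensional ℝ E']
    [MeasureSpace E'] [BorelSpace E'] [(volume : Measure E').IsAddHaarMeasure]
    [NormedAddCommGroup E] [NormedSpace ℝ E] [FiniteDimensional ℝ E]
    [MeasureSpace E] [BorelSpace E] [(volume : Measure E).IsAddHaarMeasure]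
    (Φ : E' → E) (Ψ : E → E') (W' : Set E') (W : Set E) (A : E → E →L[ℝ] 𝔐)
    (F : E → E [⋀^Fin 2]→L[ℝ] 𝔐), Module.finrank ℝ E' = Module.finrank ℝ E → Dif Φ Ψ W' W →
    Conn 𝒢 W A F → Conn 𝒢 W' (pb1 Φ A) (pb2 Φ F)

/-- PBG (100 lines; uses LIE, CVR, PBW): gauge equivalence and regular points under
diffeomorphisms (for the second part restrict `Φ` to `Φ⁻¹(W₁)`, `W₁ ⊆ W` a neighbourhood of
`Φ x`; the pullback of a smooth form is smooth). -/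
def Stmt_PBG : Prop :=
  ∀ (𝔐 : Type) [NormedRing 𝔐] [NormedAlgebra ℝ 𝔐] [StarRing 𝔐] [CStarRing 𝔐] [StarModule ℝ 𝔐]
    [FiniteDimensional ℝ 𝔐] (𝒢 : LieG 𝔐)
    (E' E : Type) [NormedAddCommGroup E'] [NormedSpace ℝ E'] [FiniteDimensional ℝ E']
    [MeasureSpace E'] [BorelSpace E'] [(volume : Measure E').IsAddHaarMeasure]
    [NormedAddCommGroup E] [NormedSpace ℝ E] [FiniteDimensional ℝ E]
    [MeasureSpace E] [BorelSpace E] [(volume : Measure E).IsAddHaarMeasure]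
    (Φ : E' → E) (Ψ : E → E') (W' : Set E') (W : Set E),
    Module.finrank ℝ E' = Module.finrank ℝ E → Dif Φ Ψ W' W →
    (∀ A A' : E → E →L[ℝ] 𝔐, GaugeEq 𝒢 W A A' → GaugeEq 𝒢 W' (pb1 Φ A) (pb1 Φ A')) ∧
    ∀ A : E → E →L[ℝ] 𝔐, ∀ x ∈ W', (Reg 𝒢 A (Φ x) → Reg 𝒢 (pb1 Φ A) x)

/-- PBI (60 lines; uses nothing): a regular point of `Ψ^* Φ^* A` is a regular point of `A`:
`pb1 Ψ (pb1 Φ A) = A` on `W`. -/
def Stmt_PBI : Prop :=
  ∀ (𝔐 : Type) [NormedRing 𝔐] [NormedAlgebra ℝ 𝔐] [StarRing 𝔐] [CStarRing 𝔐] [StarModule ℝ 𝔐]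
    [FiniteDimensional ℝ 𝔐] (𝒢 : LieG 𝔐)
    (E' E : Type) [NormedAddCommGroup E'] [NormedSpace ℝ E'] [FiniteDimensional ℝ E']
    [MeasureSpace E'] [BorelSpace E']
    [NormedAddCommGroup E] [NormedSpace ℝ E] [FiniteDimensional ℝ E]
    [MeasureSpace E] [BorelSpace E] (Φ : E' → E) (Ψ : E → E') (W' : Set E') (W : Set E),
    Dif Φ Ψ W' W → ∀ A : E → E →L[ℝ] 𝔐,
    (∀ y ∈ W, pb1 Ψ (pb1 Φ A) y = A y) ∧ ∀ y ∈ W, Reg 𝒢 (pb1 Ψ (pb1 Φ A)) y → Reg 𝒢 A y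

/-! ## Part G: slices -/

/-- SUB (120 lines; uses nothing): convergence on almost all slices.  `∫ ‖f_j - f‖^p` over the
product tends to `0`; choose a subsequence with summable integrals; Fubini
(`Measure.volume_eq_prod`, `lintegral_prod`), for almost all `t` the sum over the subsequence is
finite. -/
def Stmt_SUB : Prop :=
  ∀ (V X : Type) [NormedAddCommGroup V] [NormedSpace ℝ V] [FiniteDimensional ℝ V]
    [MeasureSpace V] [BorelSpace V] [(volume : Measure V).IsAddHaarMeasure]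
    [NormedAddCommGroup X] [NormedSpace ℝ X] [FiniteDimensional ℝ X] (p : ℝ≥0∞),
    (p = 1 ∨ p = 2) → ∀ (K₁ : Set V) (K₂ : Set ℝ), MeasurableSet K₁ → MeasurableSet K₂ →
    ∀ (f : ℕ → V × ℝ → X) (f₀ : V × ℝ → X),
    (∀ j, MemLp (f j) p (volume.restrict (K₁ ×ˢ K₂))) → MemLp f₀ p (volume.restrict (K₁ ×ˢ K₂)) →
    Tendsto (fun j => eLpNorm (fun x => f j x - f₀ x) p (volume.restrict (K₁ ×ˢ K₂)))
      atTop (𝓝 0) → ∃ ns : ℕ → ℕ, StrictMono ns ∧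
      (∀ᵐ t ∂(volume.restrict K₂), MemLp (fun y => f₀ (y, t)) p (volume.restrict K₁) ∧
        Tendsto (fun j => eLpNorm (fun y => f (ns j) (y, t) - f₀ (y, t)) p
          (volume.restrict K₁)) atTop (𝓝 0)) ∧
      ∀ᵐ y ∂(volume.restrict K₁), MemLp (fun t => f₀ (y, t)) p (volume.restrict K₂) ∧
        Tendsto (fun j => eLpNorm (fun t => f (ns j) (y, t) - f₀ (y, t)) p
          (volume.restrict K₂)) atTop (𝓝 0)

/-- SLI (150 lines; uses APG, CLG, SUB): weak derivatives on almost all slices. -/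
def Stmt_SLI : Prop :=
  ∀ (V X : Type) [NormedAddCommGroup V] [NormedSpace ℝ V] [FiniteDimensional ℝ V]
    [MeasureSpace V] [BorelSpace V] [(volume : Measure V).IsAddHaarMeasure]
    [NormedAddCommGroup X] [NormedSpace ℝ X] [FiniteDimensional ℝ X] (W : Set (V × ℝ))
    (k : V × ℝ → X) (dk : V × ℝ → V × ℝ →L[ℝ] X) (C : ℝ), IsOpen W → L2loc W k → L2loc W dk →
    WD W k dk → (∀ᵐ x ∂(volume.restrict W), ‖k x‖ ≤ C) → 0 ≤ C →
    ∀ (K₁ : Set V) (K₂ : Set ℝ), IsCompact K₁ → IsCompact K₂ → K₁ ×ˢ K₂ ⊆ W →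
    ∀ᵐ t ∂(volume.restrict K₂), L2loc (interior K₁) (fun y => k (y, t)) ∧
      L2loc (interior K₁) (fun y => (dk (y, t)).comp (ContinuousLinearMap.inl ℝ V ℝ)) ∧
      WD (interior K₁) (fun y => k (y, t))
        (fun y => (dk (y, t)).comp (ContinuousLinearMap.inl ℝ V ℝ))

/-- The pullback to the product of a one-form on `V`. -/
noncomputable def pr1 {V 𝔐 : Type} [NormedAddCommGroup V] [NormedSpace ℝ V] [NormedRing 𝔐]
    [NormedAlgebra ℝ 𝔐] (B : V → V →L[ℝ] 𝔐) (p : V × ℝ) : V × ℝ →L[ℝ] 𝔐 :=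
  (B p.1).comp (ContinuousLinearMap.fst ℝ V ℝ)

/-- The restriction to the slice `t` of a one-form on the product. -/
noncomputable def rs1 {V 𝔐 : Type} [NormedAddCommGroup V] [NormedSpace ℝ V] [NormedRing 𝔐]
    [NormedAlgebra ℝ 𝔐] (S : V × ℝ → V × ℝ →L[ℝ] 𝔐) (t : ℝ) (y : V) : V →L[ℝ] 𝔐 :=
  (S (y, t)).comp (ContinuousLinearMap.inl ℝ V ℝ)

/-- SLG (100 lines; uses LIE, GDF, SLI): gauge equivalences on a slice. -/
def Stmt_SLG : Prop :=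
  ∀ (𝔐 : Type) [NormedRing 𝔐] [NormedAlgebra ℝ 𝔐] [StarRing 𝔐] [CStarRing 𝔐] [StarModule ℝ 𝔐]
    [FiniteDimensional ℝ 𝔐] (𝒢 : LieG 𝔐) (V : Type) [NormedAddCommGroup V] [NormedSpace ℝ V]
    [FiniteDimensional ℝ V] [MeasureSpace V] [BorelSpace V]
    [(volume : Measure V).IsAddHaarMeasure] (W : Set (V × ℝ)) (B : V → V →L[ℝ] 𝔐)
    (S : V × ℝ → V × ℝ →L[ℝ] 𝔐) (y₀ : V) (t₀ : ℝ), IsOpen W → (y₀, t₀) ∈ W →
    GaugeEq 𝒢 W (pr1 B) S → ∃ (r t : ℝ), 0 < r ∧ Metric.closedBall y₀ r ×ˢ {t} ⊆ W ∧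
      GaugeEq 𝒢 (Metric.ball y₀ r) B (rs1 S t)

/-- EXT (120 lines; uses nothing): weak derivatives of functions which do not depend on `t`
(Fubini). -/
def Stmt_EXT : Prop :=
  ∀ (V X : Type) [NormedAddCommGroup V] [NormedSpace ℝ V] [FiniteDimensional ℝ V]
    [MeasureSpace V] [BorelSpace V] [(volume : Measure V).IsAddHaarMeasure]
    [NormedAddCommGroup X] [NormedSpace ℝ X] [FiniteDimensional ℝ X] (W : Set V) (I : Set ℝ)
    (k : V → X) (dk : V → V →L[ℝ] X), IsOpen W → IsOpen I → L2loc W k → L2loc W dk →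
    WD W k dk → L2loc (W ×ˢ I) (fun p => k p.1) ∧
    L2loc (W ×ˢ I) (fun p => (dk p.1).comp (ContinuousLinearMap.fst ℝ V ℝ)) ∧
    WD (W ×ˢ I) (fun p => k p.1) (fun p => (dk p.1).comp (ContinuousLinearMap.fst ℝ V ℝ))

/-- EXG (60 lines; uses EXT): gauge equivalences pulled back to the product. -/
def Stmt_EXG : Prop :=
  ∀ (𝔐 : Type) [NormedRing 𝔐] [NormedAlgebra ℝ 𝔐] [StarRing 𝔐] [CStarRing 𝔐] [StarModule ℝ 𝔐]
    [FiniteDimensional ℝ 𝔐] (𝒢 : LieG 𝔐) (V : Type) [NormedAddCommGroup V] [NormedSpace ℝ V]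
    [FiniteDimensional ℝ V] [MeasureSpace V] [BorelSpace V]
    [(volume : Measure V).IsAddHaarMeasure] (W : Set V) (I : Set ℝ) (B S : V → V →L[ℝ] 𝔐),
    IsOpen W → IsOpen I → GaugeEq 𝒢 W B S → GaugeEq 𝒢 (W ×ˢ I) (pr1 B) (pr1 S)

/-! ## Part H: temporal gauge -/

/-- KB (200 lines; uses LIE): the derivative of the solution of `g' = - a g` in the parameter.
`w = D_v g - g A(y, t₀) v + A(y, t) v g` (`v` a vector of `V`) vanishes for `t = t₀` and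
`∂_t w = F(∂_t, v) g - A(∂_t) w`; so `(star g w)' = star g F g` has norm `‖F‖`. -/
def Stmt_KB : Prop :=
  ∀ (𝔐 : Type) [NormedRing 𝔐] [NormedAlgebra ℝ 𝔐] [StarRing 𝔐] [CStarRing 𝔐] [StarModule ℝ 𝔐]
    [FiniteDimensional ℝ 𝔐] (𝒢 : LieG 𝔐) (V : Type) [NormedAddCommGroup V] [NormedSpace ℝ V]
    [FiniteDimensional ℝ V] (A : V × ℝ → V × ℝ →L[ℝ] 𝔐) (g : V × ℝ → 𝔐) (a b t₀ : ℝ),
    ContDiff ℝ ∞ A → (∀ p u, A p u ∈ 𝒢.lie) → ContDiff ℝ ∞ g → (∀ p, g p ∈ 𝒢.G) →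
    (∀ y, g (y, t₀) = 1) →
    (∀ y t, HasDerivAt (fun s => g (y, s)) (-(A (y, t) (0, 1) * g (y, t))) t) → t₀ ∈ Icc a b →
    ∀ y v, ∀ t ∈ Icc a b, ‖fderiv ℝ g (y, t) (v, 0) -
      (g (y, t) * A (y, t₀) (v, 0) - A (y, t) (v, 0) * g (y, t))‖ ≤
      ∫ s in Icc a b, ‖cur A (y, s) (0, 1) (v, 0)‖

/-- KC (80 lines; uses LIE): comparison of two solutions: `(star h g)' = star h (a' - a) g`. -/
def Stmt_KC : Prop :=
  ∀ (𝔐 : Type) [NormedRing 𝔐] [NormedAlgebra ℝ 𝔐] [StarRing 𝔐] [CStarRing 𝔐] [StarModule ℝ 𝔐]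
    [FiniteDimensional ℝ 𝔐] (𝒢 : LieG 𝔐) (α α' g h : ℝ → 𝔐) (a b t₀ : ℝ), Continuous α →
    Continuous α' → (∀ t, α t ∈ 𝒢.lie ∧ α' t ∈ 𝒢.lie) → (∀ t, g t ∈ 𝒢.G ∧ h t ∈ 𝒢.G) →
    g t₀ = 1 → h t₀ = 1 → (∀ t, HasDerivAt g (-(α t * g t)) t) →
    (∀ t, HasDerivAt h (-(α' t * h t)) t) → t₀ ∈ Icc a b →
    ∀ t ∈ Icc a b, ‖g t - h t‖ ≤ ∫ s in Icc a b, ‖α s - α' s‖

/-- KA (150 lines; uses APC, SUB): the approximations along almost all slices and lines (apply SUB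
several times to subsequences; `B j` of APC; the integrals in the last line are integrals over the
product by Fubini). -/
def Stmt_KA : Prop :=
  ∀ (𝔐 : Type) [NormedRing 𝔐] [NormedAlgebra ℝ 𝔐] [StarRing 𝔐] [CStarRing 𝔐] [StarModule ℝ 𝔐]
    [FiniteDimensional ℝ 𝔐] (𝒢 : LieG 𝔐) (V : Type) [NormedAddCommGroup V] [NormedSpace ℝ V]
    [FiniteDimensional ℝ V] [MeasureSpace V] [BorelSpace V]
    [(volume : Measure V).IsAddHaarMeasure] (W : Set (V × ℝ)) (A : V × ℝ → V × ℝ →L[ℝ] 𝔐)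
    (F : V × ℝ → (V × ℝ) [⋀^Fin 2]→L[ℝ] 𝔐) (K : Set V) (a b : ℝ), IsOpen W → Conn 𝒢 W A F →
    IsCompact K → a < b → K ×ˢ Icc a b ⊆ W →
    (∀ᵐ p ∂(volume.restrict W), ∀ v, F p ![(0, 1), v] = 0) →
    ∃ (B : ℕ → V × ℝ → V × ℝ →L[ℝ] 𝔐) (t₀ : ℝ), t₀ ∈ Icc a b ∧
    (∀ j, ContDiff ℝ ∞ (B j)) ∧ (∀ j, HasCompactSupport (B j)) ∧ (∀ j x v, B j x v ∈ 𝒢.lie) ∧
    Tendsto (fun j => eLpNorm (fun x => B j x - A x) 2 (volume.restrict (K ×ˢ Icc a b)))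
      atTop (𝓝 0) ∧
    MemLp (fun y => A (y, t₀)) 2 (volume.restrict K) ∧
    (∀ᵐ y ∂(volume.restrict K), ∀ v, A (y, t₀) v ∈ 𝒢.lie) ∧
    Tendsto (fun j => eLpNorm (fun y => B j (y, t₀) - A (y, t₀)) 2 (volume.restrict K))
      atTop (𝓝 0) ∧
    (∀ᵐ y ∂(volume.restrict K), Tendsto (fun q : ℕ × ℕ =>
      ∫ s in Icc a b, ‖B q.1 (y, s) - B q.2 (y, s)‖) atTop (𝓝 0)) ∧
    ∀ v : V, Tendsto (fun j => ∫ y in K, ∫ s in Icc a b, ‖cur (B j) (y, s) (0, 1) (v, 0)‖)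
      atTop (𝓝 0)

/-- KT (250 lines; uses LIE, LOD, CLG, GDF, KB, KC, KA): temporal gauge for weak connections.  `g_j` =
the solutions of LOD for `a = B_j(∂_t)`.  By KC `g_j(y, ·)` converges uniformly on `[a, b]` for
almost all `y ∈ K`; `g` = the limit (`star g g = 1`, closed group); by dominated convergence
`g_j → g` in `L²(K × [a, b])`.  By KB the derivative in the direction `(v, 0)` is
`g_j B_j(y, t₀) v - B_j v g_j + w_j` with `w_j → 0` in `L¹`, in the direction `(0, 1)` it is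
`- B_j(∂_t) g_j`; these converge in `L¹`, so by CLG `dg = g pr1(B) - A g`, with
`B(y) = A(y, t₀)|_V`.  (The sets `interior K × (a, b)` and `K`: CLG on compact subsets.) -/
def Stmt_KT : Prop :=
  ∀ (𝔐 : Type) [NormedRing 𝔐] [NormedAlgebra ℝ 𝔐] [StarRing 𝔐] [CStarRing 𝔐] [StarModule ℝ 𝔐]
    [FiniteDimensional ℝ 𝔐] (𝒢 : LieG 𝔐) (V : Type) [NormedAddCommGroup V] [NormedSpace ℝ V]
    [FiniteDimensional ℝ V] [MeasureSpace V] [BorelSpace V]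
    [(volume : Measure V).IsAddHaarMeasure] (W : Set (V × ℝ)) (A : V × ℝ → V × ℝ →L[ℝ] 𝔐)
    (F : V × ℝ → (V × ℝ) [⋀^Fin 2]→L[ℝ] 𝔐) (K : Set V) (a b : ℝ), IsOpen W → Conn 𝒢 W A F →
    IsCompact K → a < b → K ×ˢ Icc a b ⊆ W →
    (∀ᵐ p ∂(volume.restrict W), ∀ v, F p ![(0, 1), v] = 0) →
    ∃ B : V → V →L[ℝ] 𝔐, L2loc (interior K) B ∧
    (∀ᵐ y ∂(volume.restrict (interior K)), ∀ v, B y v ∈ 𝒢.lie) ∧
    GaugeEq 𝒢 (interior K ×ˢ Ioo a b) A (pr1 B)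

/-- SMC (40 lines; uses nothing): restrictions and pullbacks of smooth forms are smooth and Lie
algebra valued; a restriction of a gauge equivalence. -/
def Stmt_SMC : Prop :=
  ∀ (𝔐 : Type) [NormedRing 𝔐] [NormedAlgebra ℝ 𝔐] [StarRing 𝔐] [CStarRing 𝔐] [StarModule ℝ 𝔐]
    [FiniteDimensional ℝ 𝔐] (𝒢 : LieG 𝔐) (V : Type) [NormedAddCommGroup V] [NormedSpace ℝ V]
    [FiniteDimensional ℝ V] [MeasureSpace V] [BorelSpace V]
    [(volume : Measure V).IsAddHaarMeasure],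
    (∀ (W : Set (V × ℝ)) (W₁ : Set V) (t : ℝ) (S : V × ℝ → V × ℝ →L[ℝ] 𝔐), IsOpen W →
      ContDiffOn ℝ ∞ S W → W₁ ×ˢ {t} ⊆ W → ContDiffOn ℝ ∞ (rs1 S t) W₁) ∧
    (∀ (W₁ : Set V) (I : Set ℝ) (S : V → V →L[ℝ] 𝔐), ContDiffOn ℝ ∞ S W₁ →
      ContDiffOn ℝ ∞ (pr1 S) (W₁ ×ˢ I)) ∧
    ∀ (W W₁ : Set V) (A A' : V → V →L[ℝ] 𝔐), IsOpen W → IsOpen W₁ → W₁ ⊆ W →
      GaugeEq 𝒢 W A A' → GaugeEq 𝒢 W₁ A A'

/-- IVT (150 lines; uses GSM, GTR, SLG, EXG, KT, SMC): invariance of regular points in a box.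
By KT `A ~ pr1 B` on `interior K × (a, b)`.  If `(y, t)` is regular, `A ~ S` near `(y, t)`, then
`pr1 B ~ S` there, so `B ~ S₂ = rs1 S t₂` near `y` (SLG), so `pr1 B ~ pr1 S₂` on
`ball(y, r) × (a, b)` (EXG), so `A ~ pr1 S₂` near all `(y, t')`. -/
def Stmt_IVT : Prop :=
  ∀ (𝔐 : Type) [NormedRing 𝔐] [NormedAlgebra ℝ 𝔐] [StarRing 𝔐] [CStarRing 𝔐] [StarModule ℝ 𝔐]
    [FiniteDimensional ℝ 𝔐] (𝒢 : LieG 𝔐) (V : Type) [NormedAddCommGroup V] [NormedSpace ℝ V]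
    [FiniteDimensional ℝ V] [MeasureSpace V] [BorelSpace V]
    [(volume : Measure V).IsAddHaarMeasure] (W : Set (V × ℝ)) (A : V × ℝ → V × ℝ →L[ℝ] 𝔐)
    (F : V × ℝ → (V × ℝ) [⋀^Fin 2]→L[ℝ] 𝔐) (K : Set V) (a b : ℝ), IsOpen W → Conn 𝒢 W A F →
    IsCompact K → a < b → K ×ˢ Icc a b ⊆ W →
    (∀ᵐ p ∂(volume.restrict W), ∀ v, F p ![(0, 1), v] = 0) →
    ∀ y ∈ interior K, ∀ t ∈ Ioo a b, ∀ t' ∈ Ioo a b, Reg 𝒢 A (y, t) → Reg 𝒢 A (y, t')

/-! ## Part I: the singular set is invariant -/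

/-- The curvature is annihilated by `X` on `N`. -/
def Kil {E 𝔐 : Type} [NormedAddCommGroup E] [NormedSpace ℝ E] [MeasureSpace E] [NormedRing 𝔐]
    [NormedAlgebra ℝ 𝔐] (N : Set E) (F : E → E [⋀^Fin 2]→L[ℝ] 𝔐) (X : E → E) : Prop :=
  ∀ᵐ x ∂(volume.restrict N), ∀ w, F x ![X x, w] = 0

/-- `γ` is an integral curve of `X` in `N` for the times in `[a, b]`. -/
def Cur {E : Type} [NormedAddCommGroup E] [NormedSpace ℝ E] (N : Set E) (X : E → E) (γ : ℝ → E)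
    (a b : ℝ) : Prop :=
  ∀ t ∈ Icc a b, γ t ∈ N ∧ HasDerivWithinAt γ (X (γ t)) (Icc a b) t

/-- INV (200 lines; uses FBX, CVR, PBC, PBG, PBI, IVT): local invariance.  The flow box `Φ` (FBX,
for `X` on `U ∩ N`), `A' = pb1 Φ A`, `F' = pb2 Φ F`: `F'(∂_t, v) = F(X, DΦ v) = 0`.  IVT with
`K = closedBall 0 r'`, `[a, b] = [-r', r']`, `r' < r`.  The neighbourhood is `Φ` of the smaller box;
along an integral curve `γ` in it the first coordinate of `Ψ ∘ γ` is constant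
(`DΨ (X) = (0, 1)`). -/
def Stmt_INV : Prop :=
  ∀ (𝔐 : Type) [NormedRing 𝔐] [NormedAlgebra ℝ 𝔐] [StarRing 𝔐] [CStarRing 𝔐] [StarModule ℝ 𝔐]
    [FiniteDimensional ℝ 𝔐] (𝒢 : LieG 𝔐) (n : ℕ) (U : Set (Eu (n + 1)))
    (A : Eu (n + 1) → Eu (n + 1) →L[ℝ] 𝔐) (F : Eu (n + 1) → Eu (n + 1) [⋀^Fin 2]→L[ℝ] 𝔐)
    (X : Eu (n + 1) → Eu (n + 1)) (x₀ : Eu (n + 1)), IsOpen U → Conn 𝒢 U A F → x₀ ∈ U →
    ContDiffOn ℝ ∞ X U → X x₀ ≠ 0 → Kil U F X →
    ∃ N : Set (Eu (n + 1)), IsOpen N ∧ x₀ ∈ N ∧ N ⊆ U ∧ ∀ (γ : ℝ → Eu (n + 1)) (a b : ℝ), a ≤ b →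
      Cur N X γ a b → (Reg 𝒢 A (γ a) ↔ Reg 𝒢 A (γ b))

/-- CRV (100 lines; uses INV): invariance along integral curves.  If `X (γ t) = 0` for some `t` then
`γ` is constant (uniqueness, `X` is locally Lipschitz).  Otherwise the set of the `t ∈ [a, b]` with
`γ t` regular is open and closed in `[a, b]` (INV at `γ t`). -/
def Stmt_CRV : Prop :=
  ∀ (𝔐 : Type) [NormedRing 𝔐] [NormedAlgebra ℝ 𝔐] [StarRing 𝔐] [CStarRing 𝔐] [StarModule ℝ 𝔐]
    [FiniteDimensional ℝ 𝔐] (𝒢 : LieG 𝔐) (n : ℕ) (U : Set (Eu (n + 1)))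
    (A : Eu (n + 1) → Eu (n + 1) →L[ℝ] 𝔐) (F : Eu (n + 1) → Eu (n + 1) [⋀^Fin 2]→L[ℝ] 𝔐)
    (X : Eu (n + 1) → Eu (n + 1)), IsOpen U → Conn 𝒢 U A F →
    ContDiffOn ℝ ∞ X U → Kil U F X → ∀ (γ : ℝ → Eu (n + 1)) (a b : ℝ), a ≤ b →
      Cur U X γ a b → (Reg 𝒢 A (γ a) ↔ Reg 𝒢 A (γ b))

/-- HMP (100 lines; uses nothing): the image of an immersion has positive Hausdorff measure.
`HasStrictFDerivAt` with an injective derivative: `f` is antilipschitz near `0`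
(`HasStrictFDerivAt.approximates_deriv_on_nhds`, bounded below as the derivative is injective), so
`μH[m]` of the image of a small ball is at least a positive multiple of the volume of the ball
(`hausdorffMeasure_pi_real`). -/
def Stmt_HMP : Prop :=
  ∀ (E : Type) [NormedAddCommGroup E] [NormedSpace ℝ E] [FiniteDimensional ℝ E]
    [MeasurableSpace E] [BorelSpace E] (m : ℕ) (f : (Fin m → ℝ) → E), ContDiff ℝ 1 f →
    Function.Injective (fderiv ℝ f 0) → ∀ N ∈ 𝓝 (0 : Fin m → ℝ),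
    0 < Measure.hausdorffMeasure (m : ℝ) (f '' N)

/-- MFL (200 lines; uses FLW, CUT): composition of flows.  Cut off the fields (CUT) to global fields,
flows `φ^j` (FLW); `Ψ(s) = φ^0_{s_0}(φ^1_{s_1}( ... (x₀)))` is smooth and `∂Ψ/∂s_j(0) = X_j(x₀)`.
For small `s` every partial composition stays in a small ball around `x₀` in which the cut off
fields are the `X_j`; so `Ψ(s)` is joined with `x₀` by `m` integral curves: induction on `m`, or for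
`j = 0, ..., m - 1` the set `{s | s_i = 0 for i < j}`. -/
def Stmt_MFL : Prop :=
  ∀ (E : Type) [NormedAddCommGroup E] [NormedSpace ℝ E] [FiniteDimensional ℝ E] (m : ℕ)
    (X : Fin m → E → E) (U : Set E) (x₀ : E), IsOpen U → x₀ ∈ U →
    (∀ j, ContDiffOn ℝ ∞ (X j) U) → ∃ Ψ : (Fin m → ℝ) → E, ContDiff ℝ ∞ Ψ ∧ Ψ 0 = x₀ ∧
    (∀ j, fderiv ℝ Ψ 0 (Pi.single j 1) = X j x₀) ∧
    ∀ᶠ s in 𝓝 (0 : Fin m → ℝ), ∀ P : E → Prop,
      (∀ (j : Fin m) (γ : ℝ → E) (a b : ℝ), a ≤ b → Cur U (X j) γ a b → (P (γ a) ↔ P (γ b))) →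
      (P x₀ ↔ P (Ψ s))

/-- MAI (100 lines; uses CRV, HMP, MFL): a singular point with `m` independent fields annihilating
the curvature near the point: the singular set has positive `m`-dimensional measure. -/
def Stmt_MAI : Prop :=
  ∀ (𝔐 : Type) [NormedRing 𝔐] [NormedAlgebra ℝ 𝔐] [StarRing 𝔐] [CStarRing 𝔐] [StarModule ℝ 𝔐]
    [FiniteDimensional ℝ 𝔐] (𝒢 : LieG 𝔐) (n m : ℕ) (U N : Set (Eu (n + 1)))
    (A : Eu (n + 1) → Eu (n + 1) →L[ℝ] 𝔐) (F : Eu (n + 1) → Eu (n + 1) [⋀^Fin 2]→L[ℝ] 𝔐)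
    (X : Fin m → Eu (n + 1) → Eu (n + 1)) (x₀ : Eu (n + 1)), IsOpen U → Conn 𝒢 U A F →
    IsOpen N → N ⊆ U → x₀ ∈ N → (∀ j, ContDiffOn ℝ ∞ (X j) N) → (∀ j, Kil N F (X j)) →
    LinearIndependent ℝ (fun j => X j x₀) → x₀ ∈ Sing 𝒢 U A →
    0 < Measure.hausdorffMeasure (m : ℝ) (Sing 𝒢 U A)

/-! ## Part J: algebra -/

/-- FRM (150 lines; uses nothing): two orthonormal vectors extend to a positively oriented
orthonormal frame (Gram-Schmidt for the scalar product `h`; change the sign of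
`e (inl (inr 0))`). -/
def Stmt_FRM : Prop :=
  ∀ (m : ℕ) (h : Eu (m + 4) →L[ℝ] Eu (m + 4) →L[ℝ] ℝ), (∀ v w, h v w = h w v) →
    (∀ v, v ≠ 0 → 0 < h v v) → ∀ v w, h v v = 1 → h w w = 1 → h v w = 0 →
    ∃ e : FI m → Eu (m + 4), PFr h e ∧ e (Sum.inr 0) = v ∧ e (Sum.inr 1) = w

/-- AL1 (100 lines; uses FRM): the curvature is annihilated by `T` if `Ω` is divisible by `T`.
`F(T, T) = 0`, so let `w` be orthogonal to `T`; normalize, FRM; every summand of `wdg` contains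
`Ω` of vectors orthogonal to `T` (`AlternatingMap.domCoprod`, a sum over permutations). -/
def Stmt_AL1 : Prop :=
  ∀ (𝔐 : Type) [NormedRing 𝔐] [NormedAlgebra ℝ 𝔐] (m : ℕ)
    (h : Eu (m + 4) →L[ℝ] Eu (m + 4) →L[ℝ] ℝ) (Ω : Eu (m + 4) [⋀^Fin m]→L[ℝ] ℝ)
    (F : Eu (m + 4) [⋀^Fin 2]→L[ℝ] 𝔐) (T : Eu (m + 4)), (∀ v w, h v w = h w v) →
    (∀ v, v ≠ 0 → 0 < h v v) → StarEq h Ω F → DivBy h Ω T → ∀ w, F ![T, w] = 0

/-- AL2 (150 lines; uses FRM): near a zero of `Ω` the curvature vanishes.  Near `x₀` the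
`h y`-orthonormal vectors have bounded norm; `M` = the supremum of `‖F(v, w)‖` over the
`h y`-orthonormal pairs is at most `C ‖Ω y‖ M` by FRM, so `M = 0` if `C ‖Ω y‖ < 1`. -/
def Stmt_AL2 : Prop :=
  ∀ (𝔐 : Type) [NormedRing 𝔐] [NormedAlgebra ℝ 𝔐] (m : ℕ) (U : Set (Eu (m + 4)))
    (h : Eu (m + 4) → Eu (m + 4) →L[ℝ] Eu (m + 4) →L[ℝ] ℝ)
    (Ω : Eu (m + 4) → Eu (m + 4) [⋀^Fin m]→L[ℝ] ℝ) (x₀ : Eu (m + 4)), IsOpen U → Metric U h →
    ContinuousOn Ω U → x₀ ∈ U → Ω x₀ = 0 → ∃ N : Set (Eu (m + 4)), IsOpen N ∧ x₀ ∈ N ∧ N ⊆ U ∧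
    ∀ y ∈ N, ∀ F : Eu (m + 4) [⋀^Fin 2]→L[ℝ] 𝔐, StarEq (h y) (Ω y) F → F = 0

/-- AL3 (150 lines; uses nothing): a local frame for a decomposable form.  Choose `u` with
`Ω x₀ u ≠ 0`; `θ_j(y)(w) = Ω y (u with the entry j replaced by w)`, `T_j(y)` the vector with
`h y (T_j y) = θ_j y` (smooth: `contDiffAt_map_inverse`).  Near `x₀` `θ_j(u_k) = δ_{jk} Ω(u)`, so
the `T_j` are independent; `θ_j` is a combination of the factors of `Ω y`, not all coefficients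
zero, so `Ω y` vanishes on the kernel of `θ_j`. -/
def Stmt_AL3 : Prop :=
  ∀ (m n : ℕ) (U : Set (Eu n)) (h : Eu n → Eu n →L[ℝ] Eu n →L[ℝ] ℝ)
    (Ω : Eu n → Eu n [⋀^Fin m]→L[ℝ] ℝ) (x₀ : Eu n), IsOpen U → Metric U h →
    ContDiffOn ℝ ∞ Ω U → x₀ ∈ U → Ω x₀ ≠ 0 → (∀ y ∈ U, Decomp (Ω y)) →
    ∃ (N : Set (Eu n)) (T : Fin m → Eu n → Eu n), IsOpen N ∧ x₀ ∈ N ∧ N ⊆ U ∧
    (∀ j, ContDiffOn ℝ ∞ (T j) N) ∧ LinearIndependent ℝ (fun j => T j x₀) ∧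
    ∀ y ∈ N, ∀ j, DivBy (h y) (Ω y) (T j y)

/-- AL4 (20 lines; uses nothing): one-forms are decomposable. -/
def Stmt_AL4 : Prop := ∀ (n : ℕ) (Ω : Eu n [⋀^Fin 1]→L[ℝ] ℝ), Decomp Ω

/-- FIN (120 lines; uses CRV, MAI, AL1, AL2, AL3): the theorem for a `C^*`-algebra. -/
def Stmt_FIN : Prop :=
  ∀ (𝔐 : Type) [NormedRing 𝔐] [NormedAlgebra ℝ 𝔐] [StarRing 𝔐] [CStarRing 𝔐] [StarModule ℝ 𝔐]
    [FiniteDimensional ℝ 𝔐] (𝒢 : LieG 𝔐) (m : ℕ) (U : Set (Eu (m + 4)))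
    (h : Eu (m + 4) → Eu (m + 4) →L[ℝ] Eu (m + 4) →L[ℝ] ℝ)
    (Ω : Eu (m + 4) → Eu (m + 4) [⋀^Fin m]→L[ℝ] ℝ) (A : Eu (m + 4) → Eu (m + 4) →L[ℝ] 𝔐)
    (F : Eu (m + 4) → Eu (m + 4) [⋀^Fin 2]→L[ℝ] 𝔐), 1 ≤ m → IsOpen U → Metric U h →
    ContDiffOn ℝ ∞ Ω U → Conn 𝒢 U A F →
    (∀ᵐ x ∂(volume.restrict U), StarEq (h x) (Ω x) (F x)) →
    (∀ (X : Eu (m + 4) → Eu (m + 4)) (γ : ℝ → Eu (m + 4)) (a b : ℝ), ContDiffOn ℝ ∞ X U →
      (∀ x ∈ U, DivBy (h x) (Ω x) (X x)) → a ≤ b → Cur U X γ a b →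
      (γ a ∈ Sing 𝒢 U A ↔ γ b ∈ Sing 𝒢 U A)) ∧
    ((∀ x ∈ U, Decomp (Ω x)) → Measure.hausdorffMeasure (m : ℝ) (Sing 𝒢 U A) = 0 →
      Sing 𝒢 U A = ∅)

end Pool.TIA
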