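import Pool.Agent.Work.MP_a1f430_ti.Interface2

/-! # Singular sets of weak Omega-self-dual curvatures: blocks, part 3
(MP_a1f430, THEOREM TR, helper61): fields which annihilate all solutions `w` of `Ω ∧ w = * w`;
`n - 5` of them are enough. -/

set_option autoImplicit false

namespace Pool.TIA

open MeasureTheory Set Filter Topology
open scoped ContDiff ENNReal

/-- Near `x₀` there are `k` smooth vector fields, linearly independent at `x₀`, which annihilate all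
real two-forms `w` with `Ω ∧ w = * w`. -/
def Fld {m : ℕ} (k : ℕ) (h : Eu (m + 4) → Eu (m + 4) →L[ℝ] Eu (m + 4) →L[ℝ] ℝ)
    (Ω : Eu (m + 4) → Eu (m + 4) [⋀^Fin m]→L[ℝ] ℝ) (x₀ : Eu (m + 4)) : Prop :=
  ∃ (N : Set (Eu (m + 4))) (T : Fin k → Eu (m + 4) → Eu (m + 4)), IsOpen N ∧ x₀ ∈ N ∧
    (∀ j, ContDiffOn ℝ ∞ (T j) N) ∧ LinearIndependent ℝ (fun j => T j x₀) ∧
    ∀ y ∈ N, ∀ w : Eu (m + 4) [⋀^Fin 2]→L[ℝ] ℝ, StarEq (h y) (Ω y) w →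
      ∀ j v, w ![T j y, v] = 0

/-- FRE (150 lines; uses nothing): an orthonormal family of `k + 2` vectors of `ℝ^(k+5)` extends to
a positively oriented orthonormal frame (the orthonormal basis of the orthogonal complement for the
scalar product `h`; change the sign of `e (inl (inr 0))`; compare `B_FRM.lean`). -/
def Stmt_FRE : Prop :=
  ∀ (k : ℕ) (h : Eu (k + 1 + 4) →L[ℝ] Eu (k + 1 + 4) →L[ℝ] ℝ), (∀ v w, h v w = h w v) →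
    (∀ v, v ≠ 0 → 0 < h v v) → ∀ (f : Fin k → Eu (k + 1 + 4)) (v w : Eu (k + 1 + 4)),
    (∀ i j, h (f i) (f j) = if i = j then 1 else 0) → (∀ i, h (f i) v = 0 ∧ h (f i) w = 0) →
    h v v = 1 → h w w = 1 → h v w = 0 →
    ∃ e : FI (k + 1) → Eu (k + 1 + 4), PFr h e ∧ e (Sum.inr 0) = v ∧ e (Sum.inr 1) = w ∧
      ∀ j : Fin k, e (Sum.inl (Sum.inl j.castSucc)) = f j

/-- AU0 (150 lines; uses FRE): the main formula.  Let the `k` vectors `T` annihilate `w`, `f` an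
`h`-orthonormal basis of their span, `a`, `b` orthonormal and orthogonal to the `T`; let
`e 0, e 1, e 2` be the three other vectors of the frame of FRE.  Then `w(a, b)` is a sum of three
terms `± Ω(f, e i) w(e j, e l)` (all other terms of `wdg` contain `w(f j, ·) = 0`).  Only the
estimate is needed: if `|Ω (Fin.cons c f)| ≤ ε` for all `c` orthonormal to the `f`, and
`|w(c, d)| ≤ M` for all orthonormal pairs, then `|w(a, b)| ≤ C ε M` with `C` depending on `k` only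
(the number of terms of `AlternatingMap.domCoprod`). -/
def Stmt_AU0 : Prop :=
  ∀ k : ℕ, ∃ C : ℝ, 0 < C ∧ ∀ (h : Eu (k + 1 + 4) →L[ℝ] Eu (k + 1 + 4) →L[ℝ] ℝ),
    (∀ v w, h v w = h w v) → (∀ v, v ≠ 0 → 0 < h v v) →
    ∀ (Ω : Eu (k + 1 + 4) [⋀^Fin (k + 1)]→L[ℝ] ℝ) (w : Eu (k + 1 + 4) [⋀^Fin 2]→L[ℝ] ℝ)
    (f : Fin k → Eu (k + 1 + 4)) (a b : Eu (k + 1 + 4)) (ε M : ℝ), StarEq h Ω w →
    (∀ i j, h (f i) (f j) = if i = j then 1 else 0) → (∀ i v, w ![f i, v] = 0) →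
    (∀ i, h (f i) a = 0 ∧ h (f i) b = 0) → h a a = 1 → h b b = 1 → h a b = 0 →
    (∀ c, h c c = 1 → (∀ i, h (f i) c = 0) → h a c = 0 → h b c = 0 →
      |Ω (Fin.cons c f)| ≤ ε) →
    (∀ c d, h c c = 1 → h d d = 1 → h c d = 0 → |w ![c, d]| ≤ M) → 0 ≤ ε → 0 ≤ M →
    |w ![a, b]| ≤ C * ε * M

/-- AU1 (150 lines; uses AU0): the additional vector.  If `S` is dual to `v ↦ Ω (Fin.cons v T)` then
`w(S, ·) = 0`.  `S` is orthogonal to the `T j`.  Let `S ≠ 0`, `a = S / |S|`, `f` an orthonormal basis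
of the span of `T` (`Ω (Fin.cons c f)` is a multiple of `Ω (Fin.cons c T) = h S c`), `b` orthogonal
to `S` and the `T j`: AU0 with `ε = 0`. -/
def Stmt_AU1 : Prop :=
  ∀ (k : ℕ) (h : Eu (k + 1 + 4) →L[ℝ] Eu (k + 1 + 4) →L[ℝ] ℝ),
    (∀ v w, h v w = h w v) → (∀ v, v ≠ 0 → 0 < h v v) →
    ∀ (Ω : Eu (k + 1 + 4) [⋀^Fin (k + 1)]→L[ℝ] ℝ) (w : Eu (k + 1 + 4) [⋀^Fin 2]→L[ℝ] ℝ)
    (T : Fin k → Eu (k + 1 + 4)) (S : Eu (k + 1 + 4)), StarEq h Ω w → LinearIndependent ℝ T →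
    (∀ i v, w ![T i, v] = 0) → (∀ v, h S v = Ω (Fin.cons v T)) → ∀ v, w ![S, v] = 0

/-- AU2 (200 lines; uses AU0): if `Ω (Fin.cons v (T x₀)) = 0` for all `v` then near `x₀` all solutions
`w` which are annihilated by the `T j` vanish (compare `B_AL2.lean`): near `x₀` the orthonormal basis
`f` of the span of `T y` satisfies `|Ω y (Fin.cons c f)| ≤ ε` for all unit vectors `c`, with
`C ε < 1`; `M` = the supremum of `|w(c, d)|` over the orthonormal pairs (it is enough to take pairs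
orthogonal to the `T j`). -/
def Stmt_AU2 : Prop :=
  ∀ (k : ℕ) (U : Set (Eu (k + 1 + 4)))
    (h : Eu (k + 1 + 4) → Eu (k + 1 + 4) →L[ℝ] Eu (k + 1 + 4) →L[ℝ] ℝ)
    (Ω : Eu (k + 1 + 4) → Eu (k + 1 + 4) [⋀^Fin (k + 1)]→L[ℝ] ℝ)
    (T : Fin k → Eu (k + 1 + 4) → Eu (k + 1 + 4)) (x₀ : Eu (k + 1 + 4)), IsOpen U → Metric U h →
    ContinuousOn Ω U → (∀ j, ContinuousOn (T j) U) → x₀ ∈ U →
    LinearIndependent ℝ (fun j => T j x₀) → (∀ v, Ω x₀ (Fin.cons v fun j => T j x₀) = 0) →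
    ∃ N : Set (Eu (k + 1 + 4)), IsOpen N ∧ x₀ ∈ N ∧ N ⊆ U ∧
    ∀ y ∈ N, ∀ w : Eu (k + 1 + 4) [⋀^Fin 2]→L[ℝ] ℝ, StarEq (h y) (Ω y) w →
      (∀ j v, w ![T j y, v] = 0) → w = 0

/-- RSZ (60 lines; uses nothing): smooth dual vectors (`contDiffAt_map_inverse`, compare
`B_AL3.lean`). -/
def Stmt_RSZ : Prop :=
  ∀ (n : ℕ) (U : Set (Eu n)) (h : Eu n → Eu n →L[ℝ] Eu n →L[ℝ] ℝ) (θ : Eu n → Eu n →L[ℝ] ℝ),
    IsOpen U → Metric U h → ContDiffOn ℝ ∞ θ U →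
    ∃ S : Eu n → Eu n, ContDiffOn ℝ ∞ S U ∧ ∀ x ∈ U, ∀ v, h x (S x) v = θ x v

/-- UPF (120 lines; uses AU1, AU2, RSZ): `n - 5` fields give `n - 4` fields.  `θ y v =
Ω y (Fin.cons v (T y))` is smooth; if `θ x₀ = 0`: AU2, any `k + 1` independent constant fields; if
`θ x₀ ≠ 0`: `T` and the dual `S` of `θ` (RSZ), independent at `x₀` as `S` is orthogonal to the `T j`
(restrict to a neighbourhood on which the `T j` are independent). -/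
def Stmt_UPF : Prop :=
  ∀ (k : ℕ) (U : Set (Eu (k + 1 + 4)))
    (h : Eu (k + 1 + 4) → Eu (k + 1 + 4) →L[ℝ] Eu (k + 1 + 4) →L[ℝ] ℝ)
    (Ω : Eu (k + 1 + 4) → Eu (k + 1 + 4) [⋀^Fin (k + 1)]→L[ℝ] ℝ) (x₀ : Eu (k + 1 + 4)),
    IsOpen U → Metric U h → ContDiffOn ℝ ∞ Ω U → x₀ ∈ U → Fld k h Ω x₀ → Fld (k + 1) h Ω x₀

/-- LFN (40 lines; uses nothing): linear functionals of solutions are solutions. -/
def Stmt_LFN : Prop :=
  ∀ (𝔐 : Type) [NormedRing 𝔐] [NormedAlgebra ℝ 𝔐] (m : ℕ)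
    (h : Eu (m + 4) →L[ℝ] Eu (m + 4) →L[ℝ] ℝ) (Ω : Eu (m + 4) [⋀^Fin m]→L[ℝ] ℝ)
    (F : Eu (m + 4) [⋀^Fin 2]→L[ℝ] 𝔐) (l : 𝔐 →L[ℝ] ℝ), StarEq h Ω F →
    StarEq h Ω (l.compContinuousAlternatingMap F)

/-- GEN (100 lines; uses DSK, LFN): the disk for `k` annihilating fields. -/
def Stmt_GEN : Prop :=
  ∀ (𝔐 : Type) [NormedRing 𝔐] [NormedAlgebra ℝ 𝔐] [StarRing 𝔐] [CStarRing 𝔐] [StarModule ℝ 𝔐]
    [FiniteDimensional ℝ 𝔐] (𝒢 : LieG 𝔐) (m : ℕ) (U : Set (Eu (m + 4)))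
    (h : Eu (m + 4) → Eu (m + 4) →L[ℝ] Eu (m + 4) →L[ℝ] ℝ)
    (Ω : Eu (m + 4) → Eu (m + 4) [⋀^Fin m]→L[ℝ] ℝ) (A : Eu (m + 4) → Eu (m + 4) →L[ℝ] 𝔐)
    (F : Eu (m + 4) → Eu (m + 4) [⋀^Fin 2]→L[ℝ] 𝔐), IsOpen U → Conn 𝒢 U A F →
    (∀ᵐ x ∂(volume.restrict U), StarEq (h x) (Ω x) (F x)) → ∀ k : ℕ,
    ∀ x₀ ∈ Sing 𝒢 U A, Fld k h Ω x₀ → Disk k (Sing 𝒢 U A) x₀

/-- DFL (60 lines; uses AL1, AL2, AL3): decomposable forms have `m = n - 4` annihilating fields. -/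
def Stmt_DFL : Prop :=
  ∀ (m : ℕ) (U : Set (Eu (m + 4)))
    (h : Eu (m + 4) → Eu (m + 4) →L[ℝ] Eu (m + 4) →L[ℝ] ℝ)
    (Ω : Eu (m + 4) → Eu (m + 4) [⋀^Fin m]→L[ℝ] ℝ), IsOpen U → Metric U h →
    ContDiffOn ℝ ∞ Ω U → (∀ x ∈ U, Decomp (Ω x)) → ∀ x ∈ U, Fld m h Ω x

end Pool.TIA
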