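import Pool.Agent.Work.MP_a1f430_ti.Inst

/-! # Singular sets of weak Omega-self-dual curvatures: blocks, part 4
(MP_a1f430, THEOREM TR, helper61): the reduced connection is a weak `Ω'`-instanton in dimension
`n - 1`. -/

set_option autoImplicit false

namespace Pool.TIA

open MeasureTheory Set Filter Topology
open scoped ContDiff ENNReal

/-- KA3 (60 lines; uses APC, SUB): as KA2, and `t₀` can be chosen such that in addition a property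
`P` which holds almost everywhere on `W` holds almost everywhere on the slice `t₀` (adapt
`B_KA2.lean`; Fubini: for almost all `t` the property `P (y, t)` holds for almost all `y ∈ K`). -/
def Stmt_KA3 : Prop :=
  ∀ (𝔐 : Type) [NormedRing 𝔐] [NormedAlgebra ℝ 𝔐] [StarRing 𝔐] [CStarRing 𝔐] [StarModule ℝ 𝔐]
    [FiniteDimensional ℝ 𝔐] (𝒢 : LieG 𝔐) (V : Type) [NormedAddCommGroup V] [NormedSpace ℝ V]
    [FiniteDimensional ℝ V] [MeasureSpace V] [BorelSpace V]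
    [(volume : Measure V).IsAddHaarMeasure] (W : Set (V × ℝ)) (A : V × ℝ → V × ℝ →L[ℝ] 𝔐)
    (F : V × ℝ → (V × ℝ) [⋀^Fin 2]→L[ℝ] 𝔐) (P : V × ℝ → Prop) (K : Set V) (a b : ℝ), IsOpen W →
    Conn 𝒢 W A F → IsCompact K → a < b → K ×ˢ Icc a b ⊆ W →
    (∀ᵐ p ∂(volume.restrict W), ∀ v, F p ![(0, 1), v] = 0) →
    (∀ᵐ p ∂(volume.restrict W), P p) →
    ∃ (B : ℕ → V × ℝ → V × ℝ →L[ℝ] 𝔐) (t₀ : ℝ), t₀ ∈ Icc a b ∧
    (∀ j, ContDiff ℝ ∞ (B j)) ∧ (∀ j, HasCompactSupport (B j)) ∧ (∀ j x v, B j x v ∈ 𝒢.lie) ∧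
    Tendsto (fun j => eLpNorm (fun x => B j x - A x) 2 (volume.restrict (K ×ˢ Icc a b)))
      atTop (𝓝 0) ∧
    MemLp (fun y => A (y, t₀)) 2 (volume.restrict K) ∧
    (∀ᵐ y ∂(volume.restrict K), ∀ v, A (y, t₀) v ∈ 𝒢.lie) ∧
    Tendsto (fun j => eLpNorm (fun y => B j (y, t₀) - A (y, t₀)) 2 (volume.restrict K))
      atTop (𝓝 0) ∧
    (∀ᵐ y ∂(volume.restrict K), Tendsto (fun q : ℕ × ℕ =>
      ∫ s in Icc a b, ‖B q.1 (y, s) - B q.2 (y, s)‖) atTop (𝓝 0)) ∧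
    (∀ v : V, Tendsto (fun j => ∫ y in K, ∫ s in Icc a b, ‖cur (B j) (y, s) (0, 1) (v, 0)‖)
      atTop (𝓝 0)) ∧
    MemLp (fun y => F (y, t₀)) 2 (volume.restrict K) ∧
    (∀ u v : V, Tendsto (fun j => eLpNorm (fun y => cur (B j) (y, t₀) (u, 0) (v, 0) -
      F (y, t₀) ![(u, 0), (v, 0)]) 1 (volume.restrict K)) atTop (𝓝 0)) ∧
    ∀ᵐ y ∂(volume.restrict K), P (y, t₀)

/-- KT3 (40 lines; uses LIE, LOD, CLG, CLC, GDF, KB, KC, KA3): as KT2 with the property `P`. -/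
def Stmt_KT3 : Prop :=
  ∀ (𝔐 : Type) [NormedRing 𝔐] [NormedAlgebra ℝ 𝔐] [StarRing 𝔐] [CStarRing 𝔐] [StarModule ℝ 𝔐]
    [FiniteDimensional ℝ 𝔐] (𝒢 : LieG 𝔐) (V : Type) [NormedAddCommGroup V] [NormedSpace ℝ V]
    [FiniteDimensional ℝ V] [MeasureSpace V] [BorelSpace V]
    [(volume : Measure V).IsAddHaarMeasure] (W : Set (V × ℝ)) (A : V × ℝ → V × ℝ →L[ℝ] 𝔐)
    (F : V × ℝ → (V × ℝ) [⋀^Fin 2]→L[ℝ] 𝔐) (P : V × ℝ → Prop) (K : Set V) (a b : ℝ), IsOpen W →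
    Conn 𝒢 W A F → IsCompact K → a < b → K ×ˢ Icc a b ⊆ W →
    (∀ᵐ p ∂(volume.restrict W), ∀ v, F p ![(0, 1), v] = 0) →
    (∀ᵐ p ∂(volume.restrict W), P p) →
    ∃ t₀ ∈ Icc a b, Conn 𝒢 (interior K) (rs1 A t₀) (rs2 F t₀) ∧
    GaugeEq 𝒢 (interior K ×ˢ Ioo a b) A (pr1 (rs1 A t₀)) ∧
    ∀ᵐ y ∂(volume.restrict (interior K)), P (y, t₀)

/-- The data of the reduction at a point: `X ≠ 0`, `L : ℝ^(n-1) → ℝ^n` injective modulo `X`,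
`h'` the quotient metric, `Ω' = ε Ω(X, ·) / |X|`. -/
structure Rd {k : ℕ} (ε : ℝ) (h : Eu (k + 1 + 4) →L[ℝ] Eu (k + 1 + 4) →L[ℝ] ℝ)
    (Ω : Eu (k + 1 + 4) [⋀^Fin (k + 1)]→L[ℝ] ℝ) (X : Eu (k + 1 + 4))
    (L : Eu (k + 4) →L[ℝ] Eu (k + 1 + 4)) (h' : Eu (k + 4) →L[ℝ] Eu (k + 4) →L[ℝ] ℝ)
    (Ω' : Eu (k + 4) [⋀^Fin k]→L[ℝ] ℝ) : Prop where
  sgn : ε = 1 ∨ ε = -1
  pos : 0 < ε * Matrix.det (Matrix.of fun i j : Fin (k + 4 + 1) =>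
    (Fin.cons X (fun a : Fin (k + 4) => L (EuclideanSpace.basisFun (Fin (k + 4)) ℝ a)) :
      Fin (k + 4 + 1) → Eu (k + 4 + 1)) i j)
  met : ∀ u v, h' u v = h (L u) (L v) - h (L u) X * h (L v) X / h X X
  form : ∀ v, Ω' v = ε * Ω (Fin.cons X fun i => L (v i)) / √(h X X)

/-- RDW (150 lines; uses nothing): contraction of the wedge product.
`(k+1)! 2! wdg Ω F v` is the sum over all permutations of `Fin (k+1) ⊕ Fin 2`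
(`MultilinearMap.domCoprod_alternization_eq` or a neighbouring lemma); the permutations which move
`inl 0` into `Fin 2` contribute `0`; move `inl 0` to the first place of `Ω` (alternating, factor
`k + 1`), the rest is the sum for `Ω.curryLeft x` over the permutations of `Fin k ⊕ Fin 2`
(`Equiv.Perm.decomposeOption`). -/
def Stmt_RDW : Prop :=
  ∀ (𝔐 : Type) [NormedRing 𝔐] [NormedAlgebra ℝ 𝔐] (k : ℕ) (E : Type) [NormedAddCommGroup E]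
    [NormedSpace ℝ E] (Ω : E [⋀^Fin (k + 1)]→L[ℝ] ℝ) (Ω₁ : E [⋀^Fin k]→L[ℝ] ℝ)
    (F : E [⋀^Fin 2]→L[ℝ] 𝔐) (x : E) (v : Fin k ⊕ Fin 2 → E), (∀ w, F ![x, w] = 0) →
    (∀ w : Fin k → E, Ω₁ w = Ω (Fin.cons x w)) →
    wdg Ω F (Sum.elim (Fin.cons x fun i => v (Sum.inl i)) fun j => v (Sum.inr j)) = wdg Ω₁ F v

/-- RDA (200 lines; uses RDW): the reduction at a point.  Let `e'` be a positive `h'`-orthonormal
frame, `û = L u - (h (L u) X / h X X) X`.  The vectors `ε X / |X|` (at the index `inl (inl 0)`) and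
`e'^` form a positive `h`-orthonormal frame (`det (X, L e'_i) = det e' * det (X, L b_i)`).
StarEq for it and RDW: `F(e'^_1, e'^_2) = F'(e'_1, e'_2)`,
`Ω(ε X / |X|, e'^ ...) = Ω'(e' ...)`. -/
def Stmt_RDA : Prop :=
  ∀ (𝔐 : Type) [NormedRing 𝔐] [NormedAlgebra ℝ 𝔐] (k : ℕ) (ε : ℝ)
    (h : Eu (k + 1 + 4) →L[ℝ] Eu (k + 1 + 4) →L[ℝ] ℝ) (Ω : Eu (k + 1 + 4) [⋀^Fin (k + 1)]→L[ℝ] ℝ)
    (X : Eu (k + 1 + 4)) (L : Eu (k + 4) →L[ℝ] Eu (k + 1 + 4))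
    (h' : Eu (k + 4) →L[ℝ] Eu (k + 4) →L[ℝ] ℝ) (Ω' : Eu (k + 4) [⋀^Fin k]→L[ℝ] ℝ)
    (F : Eu (k + 1 + 4) [⋀^Fin 2]→L[ℝ] 𝔐) (F' : Eu (k + 4) [⋀^Fin 2]→L[ℝ] 𝔐),
    (∀ v w, h v w = h w v) → (∀ v, v ≠ 0 → 0 < h v v) → Rd ε h Ω X L h' Ω' →
    (∀ v, F ![X, v] = 0) → (∀ u v, F' ![u, v] = F ![L u, L v]) → StarEq h Ω F → StarEq h' Ω' F'

/-- RDM (200 lines; uses nothing): the smooth family of reduced metrics and forms on the slice `t₀`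
of a flow box.  Define `h'` and `Ω'` by the formulas of `Rd` (`Ω'` by
`ContinuousAlternatingMap.curryLeft` and `compContinuousLinearMap`); the determinant does not vanish
and is continuous on the ball, so its sign `ε` is constant (the ball is connected); `h'` is positive:
it is `h` of `û`. -/
def Stmt_RDM : Prop :=
  ∀ (k : ℕ) (U : Set (Eu (k + 1 + 4)))
    (h : Eu (k + 1 + 4) → Eu (k + 1 + 4) →L[ℝ] Eu (k + 1 + 4) →L[ℝ] ℝ)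
    (Ω : Eu (k + 1 + 4) → Eu (k + 1 + 4) [⋀^Fin (k + 1)]→L[ℝ] ℝ)
    (Φ : Eu (k + 4) × ℝ → Eu (k + 1 + 4)) (Ψ : Eu (k + 1 + 4) → Eu (k + 4) × ℝ)
    (W : Set (Eu (k + 1 + 4))) (r t₀ : ℝ), IsOpen U → Metric U h → ContDiffOn ℝ ∞ Ω U → W ⊆ U →
    0 < r → t₀ ∈ Ioo (-r) r → Dif Φ Ψ (Metric.ball 0 r ×ˢ Ioo (-r) r) W →
    ∃ (ε : ℝ) (h' : Eu (k + 4) → Eu (k + 4) →L[ℝ] Eu (k + 4) →L[ℝ] ℝ)
      (Ω' : Eu (k + 4) → Eu (k + 4) [⋀^Fin k]→L[ℝ] ℝ),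
      Metric (Metric.ball 0 r) h' ∧ ContDiffOn ℝ ∞ Ω' (Metric.ball 0 r) ∧
      ∀ y ∈ Metric.ball (0 : Eu (k + 4)) r, Rd ε (h (Φ (y, t₀))) (Ω (Φ (y, t₀)))
        (fderiv ℝ Φ (y, t₀) (0, 1)) ((fderiv ℝ Φ (y, t₀)).comp (ContinuousLinearMap.inl ℝ _ ℝ))
        (h' y) (Ω' y)

/-- Near `x₀` there are coordinates `(y, t) = Ψ(x)`, `|y| < r`, `|t| < r`, in which `X` is `∂/∂t` and
`A` is gauge equivalent to a form `B` in the variables `y` which is a weak `Ω'`-self-dual connection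
for a metric `h'` and an `(n - 5)`-form `Ω'` on the ball; the singular set is the product of the
singular set of `B` and the interval. -/
def SplitsTo {N k : ℕ} (𝒢 : LieG (Mt N)) (U : Set (Eu (k + 1 + 4)))
    (A : Eu (k + 1 + 4) → Eu (k + 1 + 4) →L[ℝ] Mt N) (X : Eu (k + 1 + 4) → Eu (k + 1 + 4))
    (x₀ : Eu (k + 1 + 4)) : Prop :=
  ∃ (Φ : Eu (k + 4) × ℝ → Eu (k + 1 + 4)) (Ψ : Eu (k + 1 + 4) → Eu (k + 4) × ℝ)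
    (W : Set (Eu (k + 1 + 4))) (r : ℝ) (h' : Eu (k + 4) → Eu (k + 4) →L[ℝ] Eu (k + 4) →L[ℝ] ℝ)
    (Ω' : Eu (k + 4) → Eu (k + 4) [⋀^Fin k]→L[ℝ] ℝ) (B : Eu (k + 4) → Eu (k + 4) →L[ℝ] Mt N)
    (FB : Eu (k + 4) → Eu (k + 4) [⋀^Fin 2]→L[ℝ] Mt N),
  0 < r ∧ x₀ ∈ W ∧ W ⊆ U ∧ Dif Φ Ψ (Metric.ball 0 r ×ˢ Ioo (-r) r) W ∧ Φ (0, 0) = x₀ ∧
  (∀ p ∈ (Metric.ball (0 : Eu (k + 4)) r) ×ˢ Ioo (-r) r, fderiv ℝ Φ p (0, 1) = X (Φ p)) ∧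
  WeakInst 𝒢 (Metric.ball 0 r) h' Ω' B FB ∧
  GaugeEq 𝒢 (Metric.ball 0 r ×ˢ Ioo (-r) r) (pb1 Φ A) (pr1 B) ∧
  ∀ p ∈ (Metric.ball (0 : Eu (k + 4)) r) ×ˢ Ioo (-r) r,
    (Φ p ∈ Sing 𝒢 U A ↔ p.1 ∈ Sing 𝒢 (Metric.ball 0 r) B)

/-- SP2 (200 lines; uses FBX, CVR, PBC, PBG, PBI, KT3, SPT, RDA, RDM): the local splitting with the
reduced equation (adapt `B_SPL.lean`; `P p` = the equation `StarEq` at `Φ p`; `Mt_starModule`). -/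
def Stmt_SP2 : Prop :=
  ∀ (N k : ℕ) (𝒢 : LieG (Mt N)) (U : Set (Eu (k + 1 + 4)))
    (h : Eu (k + 1 + 4) → Eu (k + 1 + 4) →L[ℝ] Eu (k + 1 + 4) →L[ℝ] ℝ)
    (Ω : Eu (k + 1 + 4) → Eu (k + 1 + 4) [⋀^Fin (k + 1)]→L[ℝ] ℝ)
    (A : Eu (k + 1 + 4) → Eu (k + 1 + 4) →L[ℝ] Mt N)
    (F : Eu (k + 1 + 4) → Eu (k + 1 + 4) [⋀^Fin 2]→L[ℝ] Mt N)
    (X : Eu (k + 1 + 4) → Eu (k + 1 + 4)) (x₀ : Eu (k + 1 + 4)), WeakInst 𝒢 U h Ω A F →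
    x₀ ∈ U → ContDiffOn ℝ ∞ X U → X x₀ ≠ 0 → Kil U F X → SplitsTo 𝒢 U A X x₀

end Pool.TIA
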